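import Pool.Agent.OSM.MxKL

/-!
# OSM/Sample: typical samples contain committing arrangements and avoid small sets

The samples `y : Fin (n0 * ℓ) → Y` consist of `n0` blocks of length `ℓ`; `y (finProdFinEquiv (i, r))`
is the `r`-th member of block `i`.

`sample`. The sum is `∑ a, w a * Pr_a`, where `Pr_a` is the probability under the product law
`f_a ^ (n0 * ℓ)` of the event `¬ ∃ r, CC (x a) (fun i => y (i, r i))`. The states with `x a ∈ Exc`
contribute at most `1 / 100`. For another state let `s` be as in `hCC`. If for every `i` there is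
`r i` with `ρ (y (i, r i)) = s i` then the event fails. So `Pr_a` is at most
`∑ i, (1 - g_i) ^ ℓ` with `g_i = ∑_{ρ y = s i} f_a y ≥ 1 / (4 * card Y0)`, and
`(1 - g_i) ^ ℓ ≤ exp (- ℓ / (4 card Y0)) ≤ exp (- (n0 + 5))`, `n0 * exp (- (n0 + 5)) ≤ exp (-5)
≤ 1 / 100`. (The probability that a block misses a set: `∑_{y : Fin ℓ → Y, ∀ r, y r ∉ S} ∏ f (y r)
= (∑_{y ∉ S} f y) ^ ℓ`, `Finset.prod_univ_sum`/`Finset.sum_pow'`, `Fintype.piFinset`; the blocks:
`Fintype.sum_prod_type`, `Equiv.sum_comp`, or sum over the functions on `Fin n0 × Fin ℓ` via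
`finProdFinEquiv`.)

`exc_bound`. For each `r : Fin n0 → Fin ℓ` the law of `(x, (y (i, r i))_i)` is `P.pr n0` (marginal
for an injective choice of indices; sum out the other coordinates, `f_sum`), which is at most
`(1 / q') / card Y ^ k * ((1 / q) / card Y) ^ n0` (`pr_le`). The number of the `(x, y')` with
`merge x y' ∈ Z` is `Z.card * card Y ^ k` (the entries `y' i`, `i < k`, are free). So the
probability of this event is at most `dens Z / (q' * q ^ n0)`; sum over the `ℓ ^ n0` choices.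
-/

set_option autoImplicit false

namespace Pool.Agent.OSM

open Finset
open scoped Classical

/-- The `k` first entries from `x`, the others from `y`. -/
def merge {Y : Type} {k : ℕ} (n0 : ℕ) (x : Fin k → Y) (y : Fin n0 → Y) : Fin n0 → Y :=
  fun i => if h : (i : ℕ) < k then x ⟨i, h⟩ else y i

/-- The selection of one member of each block. -/
def sel {Y : Type} {n0 ℓ : ℕ} (y : Fin (n0 * ℓ) → Y) (r : Fin n0 → Fin ℓ) : Fin n0 → Y :=
  fun i => y (finProdFinEquiv (i, r i))

private theorem prod_blocks {n0 ℓ : ℕ} (g : Fin (n0 * ℓ) → ℝ) :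
    ∏ j, g j = ∏ i, ∏ r, g (finProdFinEquiv (i, r)) := by
  rw [← Equiv.prod_comp finProdFinEquiv g, Fintype.prod_prod_type]

private theorem sum_prod_blocks {Y : Type} [Fintype Y] {n0 ℓ : ℕ} (h : Fin n0 → Fin ℓ → Y → ℝ) :
    ∑ y : Fin (n0 * ℓ) → Y, ∏ i, ∏ r, h i r (y (finProdFinEquiv (i, r))) =
      ∏ i, ∏ r, ∑ z, h i r z := by
  calc ∑ y : Fin (n0 * ℓ) → Y, ∏ i, ∏ r, h i r (y (finProdFinEquiv (i, r)))
      = ∑ y : Fin (n0 * ℓ) → Y, ∏ j,
          h (finProdFinEquiv.symm j).1 (finProdFinEquiv.symm j).2 (y j) := by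
        apply Finset.sum_congr rfl
        intro y _
        rw [prod_blocks]
        simp only [Equiv.symm_apply_apply]
    _ = ∏ j, ∑ z, h (finProdFinEquiv.symm j).1 (finProdFinEquiv.symm j).2 z := by
        rw [Finset.prod_univ_sum, Fintype.piFinset_univ]
    _ = ∏ i, ∏ r, ∑ z, h i r z := by
        rw [prod_blocks]
        simp only [Equiv.symm_apply_apply]

private theorem pr_expand {X Y : Type} [Fintype X] [Fintype Y] (P : Mx X Y) (m : ℕ)
    (G : X → (Fin m → Y) → ℝ) :
    ∑ x, ∑ y : Fin m → Y, G x y * P.pr m x y =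
      ∑ a, P.w a * ∑ y : Fin m → Y, G (P.x a) y * ∏ j, P.f a (y j) := by
  unfold Mx.pr
  simp only [Finset.mul_sum, mul_ite, mul_zero]
  calc ∑ x, ∑ y : Fin m → Y, ∑ a,
        (if P.x a = x then G x y * (P.w a * ∏ j, P.f a (y j)) else 0)
      = ∑ x, ∑ a, ∑ y : Fin m → Y,
        (if P.x a = x then G x y * (P.w a * ∏ j, P.f a (y j)) else 0) :=
        Finset.sum_congr rfl (fun x _ => Finset.sum_comm)
    _ = ∑ a, ∑ x, ∑ y : Fin m → Y,
        (if P.x a = x then G x y * (P.w a * ∏ j, P.f a (y j)) else 0) := Finset.sum_comm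
    _ = ∑ a, ∑ y : Fin m → Y, P.w a * (G (P.x a) y * ∏ j, P.f a (y j)) := by
        apply Finset.sum_congr rfl
        intro a _
        rw [Finset.sum_comm]
        apply Finset.sum_congr rfl
        intro y _
        rw [Finset.sum_ite_eq Finset.univ (P.x a)]
        simp only [Finset.mem_univ, if_true]
        ring

/-- the law of the members of the blocks, total mass -/
private theorem law_one {Y : Type} [Fintype Y] {f : Y → ℝ} (hf : ∑ y, f y = 1) (n0 ℓ : ℕ) :
    ∑ y : Fin (n0 * ℓ) → Y, ∏ j, f (y j) = 1 := by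
  have h := sum_prod_blocks (Y := Y) (n0 := n0) (ℓ := ℓ) (fun _ _ z => f z)
  simp only [hf, Finset.prod_const_one] at h
  rw [← h]
  exact Finset.sum_congr rfl (fun y _ => prod_blocks _)

/-- the probability that a block misses a set -/
private theorem law_miss {Y : Type} [Fintype Y] {f : Y → ℝ} (hf : ∑ y, f y = 1) {n0 ℓ : ℕ}
    (i : Fin n0) (B : Y → Prop) :
    (∑ y : Fin (n0 * ℓ) → Y, if ∀ r : Fin ℓ, ¬ B (y (finProdFinEquiv (i, r))) then
      ∏ j, f (y j) else 0) = (1 - ∑ y, if B y then f y else 0) ^ ℓ := by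
  have h := sum_prod_blocks (Y := Y) (n0 := n0) (ℓ := ℓ)
    (fun i' _ z => if i' = i ∧ B z then 0 else f z)
  have e1 : ∑ y : Fin (n0 * ℓ) → Y, (if ∀ r : Fin ℓ, ¬ B (y (finProdFinEquiv (i, r))) then
      ∏ j, f (y j) else 0) = ∑ y : Fin (n0 * ℓ) → Y, ∏ i', ∏ r,
        (if i' = i ∧ B (y (finProdFinEquiv (i', r))) then 0 else f (y (finProdFinEquiv (i', r)))) := by
    apply Finset.sum_congr rfl
    intro y _
    split_ifs with hy
    · rw [prod_blocks]
      apply Finset.prod_congr rfl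
      intro i' _
      apply Finset.prod_congr rfl
      intro r _
      rw [if_neg]
      rintro ⟨rfl, hb⟩
      exact hy r hb
    · push Not at hy
      obtain ⟨r, hr⟩ := hy
      symm
      apply Finset.prod_eq_zero (Finset.mem_univ i)
      apply Finset.prod_eq_zero (Finset.mem_univ r)
      rw [if_pos ⟨rfl, hr⟩]
  rw [e1, h]
  have e2 : ∀ i' : Fin n0, ∏ _r : Fin ℓ, ∑ z, (if i' = i ∧ B z then 0 else f z) =
      if i' = i then (1 - ∑ y, if B y then f y else 0) ^ ℓ else 1 := by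
    intro i'
    split_ifs with hi
    · rw [Finset.prod_const, Finset.card_univ, Fintype.card_fin]
      congr 1
      rw [← hf, ← Finset.sum_sub_distrib]
      apply Finset.sum_congr rfl
      intro z _
      by_cases hz : B z
      · rw [if_pos ⟨hi, hz⟩, if_pos hz, sub_self]
      · rw [if_neg (fun h => hz h.2), if_neg hz, sub_zero]
    · apply Finset.prod_eq_one
      intro r _
      rw [← hf]
      apply Finset.sum_congr rfl
      intro z _
      rw [if_neg (fun h => hi h.1)]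
  rw [Finset.prod_congr rfl (fun i' _ => e2 i'), Finset.prod_ite_eq' Finset.univ i]
  rw [if_pos (Finset.mem_univ i)]

/-- the law of a selection -/
private theorem law_sel {Y : Type} [Fintype Y] {f : Y → ℝ} (hf : ∑ y, f y = 1) {n0 ℓ : ℕ}
    (r : Fin n0 → Fin ℓ) (G : (Fin n0 → Y) → ℝ) :
    ∑ y : Fin (n0 * ℓ) → Y, G (sel y r) * ∏ j, f (y j) =
      ∑ y' : Fin n0 → Y, G y' * ∏ i, f (y' i) := by
  have key : ∀ y'' : Fin n0 → Y, ∑ y : Fin (n0 * ℓ) → Y, (if sel y r = y'' then
      ∏ j, f (y j) else 0) = ∏ i, f (y'' i) := by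
    intro y''
    have h := sum_prod_blocks (Y := Y) (n0 := n0) (ℓ := ℓ)
      (fun i s z => if s = r i ∧ z ≠ y'' i then 0 else f z)
    have e1 : ∑ y : Fin (n0 * ℓ) → Y, (if sel y r = y'' then ∏ j, f (y j) else 0) =
        ∑ y : Fin (n0 * ℓ) → Y, ∏ i, ∏ s,
        (if s = r i ∧ y (finProdFinEquiv (i, s)) ≠ y'' i then 0
          else f (y (finProdFinEquiv (i, s)))) := by
      apply Finset.sum_congr rfl
      intro y _
      split_ifs with hy
      · rw [prod_blocks]
        apply Finset.prod_congr rfl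
        intro i _
        apply Finset.prod_congr rfl
        intro s _
        rw [if_neg]
        rintro ⟨rfl, hb⟩
        exact hb (congrFun hy i)
      · have hy' : ∃ i, sel y r i ≠ y'' i := by
          by_contra hn
          push Not at hn
          exact hy (funext hn)
        obtain ⟨i, hi⟩ := hy'
        symm
        apply Finset.prod_eq_zero (Finset.mem_univ i)
        apply Finset.prod_eq_zero (Finset.mem_univ (r i))
        rw [if_pos ⟨rfl, hi⟩]
    rw [e1, h]
    apply Finset.prod_congr rfl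
    intro i _
    have e2 : ∀ s : Fin ℓ, ∑ z, (if s = r i ∧ z ≠ y'' i then 0 else f z) =
        if s = r i then f (y'' i) else 1 := by
      intro s
      split_ifs with hs
      · have e3 : ∀ z, (if s = r i ∧ z ≠ y'' i then 0 else f z) =
            if z = y'' i then f z else 0 := by
          intro z
          by_cases hz : z = y'' i
          · rw [if_neg (fun h => h.2 hz), if_pos hz]
          · rw [if_pos ⟨hs, hz⟩, if_neg hz]
        rw [Finset.sum_congr rfl (fun z _ => e3 z), Finset.sum_ite_eq' Finset.univ (y'' i),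
          if_pos (Finset.mem_univ _)]
      · rw [← hf]
        apply Finset.sum_congr rfl
        intro z _
        rw [if_neg (fun h => hs h.1)]
    rw [Finset.prod_congr rfl (fun s _ => e2 s), Finset.prod_ite_eq' Finset.univ (r i),
      if_pos (Finset.mem_univ _)]
  calc ∑ y : Fin (n0 * ℓ) → Y, G (sel y r) * ∏ j, f (y j)
      = ∑ y : Fin (n0 * ℓ) → Y, ∑ y'' : Fin n0 → Y,
          G y'' * (if sel y r = y'' then ∏ j, f (y j) else 0) := by
        apply Finset.sum_congr rfl
        intro y _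
        simp only [mul_ite, mul_zero]
        rw [Finset.sum_ite_eq Finset.univ (sel y r), if_pos (Finset.mem_univ _)]
    _ = ∑ y'' : Fin n0 → Y, ∑ y : Fin (n0 * ℓ) → Y,
          G y'' * (if sel y r = y'' then ∏ j, f (y j) else 0) := Finset.sum_comm
    _ = ∑ y' : Fin n0 → Y, G y' * ∏ i, f (y' i) := by
        apply Finset.sum_congr rfl
        intro y'' _
        rw [← Finset.mul_sum, key]

private theorem exp_bound (n0 : ℕ) : (n0 : ℝ) * Real.exp (-((n0 : ℝ) + 5)) ≤ 1 / 100 := by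
  have h1 : (n0 : ℝ) ≤ Real.exp n0 := by
    have := Real.add_one_le_exp (n0 : ℝ)
    linarith
  have h2 : (100 : ℝ) ≤ Real.exp 5 := by
    have h3 := Real.exp_one_gt_d9
    have h4 : Real.exp 5 = Real.exp 1 ^ 5 := by
      rw [← Real.exp_nat_mul]
      norm_num
    rw [h4]
    have h5 : (2.7 : ℝ) ^ 5 ≤ Real.exp 1 ^ 5 :=
      pow_le_pow_left₀ (by norm_num) (by linarith) 5
    refine le_trans ?_ h5
    norm_num
  have h6 : Real.exp (-((n0 : ℝ) + 5)) = (Real.exp n0 * Real.exp 5)⁻¹ := by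
    rw [Real.exp_neg, Real.exp_add]
  rw [h6, ← div_eq_mul_inv, div_le_div_iff₀ (by positivity) (by norm_num)]
  have h7 := Real.exp_pos (n0 : ℝ)
  nlinarith

theorem sample {X Y Y0 : Type} [Fintype X] [Fintype Y] [Fintype Y0] [Nonempty Y0] {P : Mx X Y}
    (hP : P.Ok) (ρ : Y → Y0) (Exc : Finset X)
    (hExc : (∑ a, if P.x a ∈ Exc then P.w a else 0) ≤ 1 / 100) {n0 ℓ : ℕ}
    (hℓ : 4 * Fintype.card Y0 * (n0 + 5) ≤ ℓ) (CC : X → (Fin n0 → Y) → Prop)
    (hCC : ∀ a, P.x a ∉ Exc → ∃ s : Fin n0 → Y0,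
      (∀ i, 1 / (4 * (Fintype.card Y0 : ℝ)) ≤ ∑ y, if ρ y = s i then P.f a y else 0) ∧
      ∀ y : Fin n0 → Y, (∀ i, ρ (y i) = s i) → CC (P.x a) y) :
    (∑ x, ∑ y : Fin (n0 * ℓ) → Y,
      if ∃ r : Fin n0 → Fin ℓ, CC x (sel y r) then 0 else P.pr (n0 * ℓ) x y) ≤ 1 / 50 := by
  have e1 : (∑ x, ∑ y : Fin (n0 * ℓ) → Y,
      if ∃ r : Fin n0 → Fin ℓ, CC x (sel y r) then 0 else P.pr (n0 * ℓ) x y) =
      ∑ x, ∑ y : Fin (n0 * ℓ) → Y,
        (if ∃ r : Fin n0 → Fin ℓ, CC x (sel y r) then 0 else 1) * P.pr (n0 * ℓ) x y := by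
    apply Finset.sum_congr rfl
    intro x _
    apply Finset.sum_congr rfl
    intro y _
    split_ifs
    · rw [zero_mul]
    · rw [one_mul]
  rw [e1, pr_expand P (n0 * ℓ) (fun x y => if ∃ r : Fin n0 → Fin ℓ, CC x (sel y r) then 0 else 1)]
  have hprod : ∀ a (y : Fin (n0 * ℓ) → Y), 0 ≤ ∏ j, P.f a (y j) :=
    fun a y => Finset.prod_nonneg (fun j _ => hP.f_nonneg a (y j))
  have b1 : ∀ a, ∑ y : Fin (n0 * ℓ) → Y,
      (if ∃ r : Fin n0 → Fin ℓ, CC (P.x a) (sel y r) then 0 else 1) * ∏ j, P.f a (y j) ≤ 1 := by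
    intro a
    refine le_trans (Finset.sum_le_sum (fun y _ => ?_)) (law_one (hP.f_sum a) n0 ℓ).le
    split_ifs
    · rw [zero_mul]
      exact hprod a y
    · rw [one_mul]
  have hcard : (0 : ℝ) < Fintype.card Y0 := by exact_mod_cast Fintype.card_pos
  have b2 : ∀ a, P.x a ∉ Exc → ∑ y : Fin (n0 * ℓ) → Y,
      (if ∃ r : Fin n0 → Fin ℓ, CC (P.x a) (sel y r) then 0 else 1) * ∏ j, P.f a (y j) ≤
        1 / 100 := by
    intro a ha
    obtain ⟨s, hs1, hs2⟩ := hCC a ha
    have c1 : ∑ y : Fin (n0 * ℓ) → Y,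
        (if ∃ r : Fin n0 → Fin ℓ, CC (P.x a) (sel y r) then 0 else 1) * ∏ j, P.f a (y j) ≤
        ∑ y : Fin (n0 * ℓ) → Y, ∑ i : Fin n0,
          (if ∀ r : Fin ℓ, ¬ (ρ (y (finProdFinEquiv (i, r))) = s i) then
            ∏ j, P.f a (y j) else 0) := by
      apply Finset.sum_le_sum
      intro y _
      have hnn : ∀ i : Fin n0, 0 ≤ (if ∀ r : Fin ℓ, ¬ (ρ (y (finProdFinEquiv (i, r))) = s i) then
            ∏ j, P.f a (y j) else 0) := by
        intro i
        split_ifs
        · exact hprod a y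
        · exact le_rfl
      split_ifs with hE
      · rw [zero_mul]
        exact Finset.sum_nonneg (fun i _ => hnn i)
      · rw [one_mul]
        have hex : ∃ i, ∀ r : Fin ℓ, ¬ (ρ (y (finProdFinEquiv (i, r))) = s i) := by
          by_contra hn
          push Not at hn
          choose r hr using hn
          exact hE ⟨r, hs2 (sel y r) hr⟩
        obtain ⟨i, hi⟩ := hex
        calc ∏ j, P.f a (y j) = (if ∀ r : Fin ℓ, ¬ (ρ (y (finProdFinEquiv (i, r))) = s i) then
            ∏ j, P.f a (y j) else 0) := by rw [if_pos hi]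
          _ ≤ _ := Finset.single_le_sum (f := fun i : Fin n0 =>
            (if ∀ r : Fin ℓ, ¬ (ρ (y (finProdFinEquiv (i, r))) = s i) then
            ∏ j, P.f a (y j) else 0)) (fun i _ => hnn i) (Finset.mem_univ i)
    refine c1.trans ?_
    rw [Finset.sum_comm]
    have c2 : ∀ i : Fin n0, ∑ y : Fin (n0 * ℓ) → Y,
        (if ∀ r : Fin ℓ, ¬ (ρ (y (finProdFinEquiv (i, r))) = s i) then
            ∏ j, P.f a (y j) else 0) ≤ Real.exp (-((n0 : ℝ) + 5)) := by
      intro i
      rw [law_miss (hP.f_sum a) i (fun y => ρ y = s i)]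
      set g := ∑ y, (if ρ y = s i then P.f a y else 0) with hg
      have hg1 : g ≤ 1 := by
        rw [← hP.f_sum a]
        apply Finset.sum_le_sum
        intro z _
        split_ifs
        · exact le_rfl
        · exact hP.f_nonneg a z
      have hg2 : 1 - g ≤ Real.exp (-g) := by
        have := Real.add_one_le_exp (-g)
        linarith
      have hg3 : (1 - g) ^ ℓ ≤ Real.exp (-g) ^ ℓ :=
        pow_le_pow_left₀ (by linarith) hg2 ℓ
      refine hg3.trans ?_
      rw [← Real.exp_nat_mul]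
      apply Real.exp_le_exp.2
      have hℓ' : 4 * (Fintype.card Y0 : ℝ) * ((n0 : ℝ) + 5) ≤ (ℓ : ℝ) := by exact_mod_cast hℓ
      have hgi := hs1 i
      have h4 : 0 < 4 * (Fintype.card Y0 : ℝ) := by linarith
      have h5 : 1 ≤ 4 * (Fintype.card Y0 : ℝ) * g := by
        rw [div_le_iff₀ h4] at hgi
        linarith
      have hg0 : 0 ≤ g := le_trans (by positivity) hgi
      have h6 : ((n0 : ℝ) + 5) ≤ ℓ * g := by
        have h7 := mul_le_mul_of_nonneg_right hℓ' hg0
        have h8 : (0 : ℝ) ≤ (n0 : ℝ) + 5 := by positivity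
        nlinarith
      linarith
    calc ∑ i : Fin n0, ∑ y : Fin (n0 * ℓ) → Y,
        (if ∀ r : Fin ℓ, ¬ (ρ (y (finProdFinEquiv (i, r))) = s i) then
            ∏ j, P.f a (y j) else 0) ≤ ∑ _i : Fin n0, Real.exp (-((n0 : ℝ) + 5)) :=
          Finset.sum_le_sum (fun i _ => c2 i)
      _ = (n0 : ℝ) * Real.exp (-((n0 : ℝ) + 5)) := by
          rw [Finset.sum_const, Finset.card_univ, Fintype.card_fin, nsmul_eq_mul]
      _ ≤ 1 / 100 := exp_bound n0
  have b3 : ∀ a, P.w a * ∑ y : Fin (n0 * ℓ) → Y,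
      (if ∃ r : Fin n0 → Fin ℓ, CC (P.x a) (sel y r) then 0 else 1) * ∏ j, P.f a (y j) ≤
        (if P.x a ∈ Exc then P.w a else 0) + P.w a * (1 / 100) := by
    intro a
    have hw := hP.w_nonneg a
    by_cases ha : P.x a ∈ Exc
    · rw [if_pos ha]
      have := mul_le_mul_of_nonneg_left (b1 a) hw
      linarith
    · rw [if_neg ha]
      have := mul_le_mul_of_nonneg_left (b2 a ha) hw
      linarith
  refine (Finset.sum_le_sum (fun a _ => b3 a)).trans ?_
  rw [Finset.sum_add_distrib, ← Finset.sum_mul, hP.w_sum]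
  linarith

private theorem merge_card {Y : Type} [Fintype Y] {k n0 : ℕ} (hk : k ≤ n0)
    (Z : Finset (Fin n0 → Y)) :
    ∑ x : Fin k → Y, ∑ y' : Fin n0 → Y, (if merge n0 x y' ∈ Z then (1 : ℝ) else 0) ≤
      (Z.card : ℝ) * (Fintype.card Y : ℝ) ^ k := by
  rw [← Fintype.sum_prod_type' (fun (x : Fin k → Y) (y' : Fin n0 → Y) =>
    (if merge n0 x y' ∈ Z then (1 : ℝ) else 0)), ← Finset.sum_filter, Finset.sum_const,
    nsmul_eq_mul, mul_one]
  have h : ((Finset.univ : Finset ((Fin k → Y) × (Fin n0 → Y))).filter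
      (fun p => merge n0 p.1 p.2 ∈ Z)).card ≤ (Z ×ˢ (Finset.univ : Finset (Fin k → Y))).card := by
    apply Finset.card_le_card_of_injOn
      (fun p : (Fin k → Y) × (Fin n0 → Y) => (merge n0 p.1 p.2, fun i : Fin k => p.2 (i.castLE hk)))
    · intro p hp
      rw [Finset.mem_coe, Finset.mem_filter] at hp
      rw [Finset.mem_coe, Finset.mem_product]
      exact ⟨hp.2, Finset.mem_univ _⟩
    · rintro ⟨x, y⟩ _ ⟨x', y'⟩ _ hpp
      simp only [Prod.mk.injEq] at hpp
      obtain ⟨h1, h2⟩ := hpp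
      have hx : x = x' := by
        funext i
        have h3 := congrFun h1 (i.castLE hk)
        unfold merge at h3
        have h4 : ((i.castLE hk : Fin n0) : ℕ) < k := i.2
        rw [dif_pos h4, dif_pos h4] at h3
        exact h3
      have hy : y = y' := by
        funext i
        by_cases hi : (i : ℕ) < k
        · exact congrFun h2 ⟨i, hi⟩
        · have h3 := congrFun h1 i
          unfold merge at h3
          rw [dif_neg hi, dif_neg hi] at h3
          exact h3
      rw [hx, hy]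
  rw [Finset.card_product, Finset.card_univ, Fintype.card_fun, Fintype.card_fin] at h
  exact_mod_cast h

theorem exc_bound {Y : Type} [Fintype Y] [Nonempty Y] {k n0 : ℕ} (hk : k ≤ n0)
    {P : Mx (Fin k → Y) Y} (hP : P.Ok) {q q' : ℝ} (hq : 0 < q) (hq' : 0 < q')
    (hf : ∀ a y, P.f a y ≤ (1 / q) / (Fintype.card Y : ℝ))
    (hx : ∀ x, (∑ a, if P.x a = x then P.w a else 0) ≤
      (1 / q') / (Fintype.card (Fin k → Y) : ℝ)) {ℓ : ℕ} (Z : Finset (Fin n0 → Y))
    (hZ : (ℓ : ℝ) ^ n0 * dens Z ≤ q' * q ^ n0 / 100) :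
    (∑ x, ∑ y : Fin (n0 * ℓ) → Y,
      if ∃ r : Fin n0 → Fin ℓ, merge n0 x (sel y r) ∈ Z then P.pr (n0 * ℓ) x y else 0) ≤
      1 / 100 := by
  have hY : (0 : ℝ) < Fintype.card Y := by exact_mod_cast Fintype.card_pos
  have hprod : ∀ a (y : Fin (n0 * ℓ) → Y), 0 ≤ ∏ j, P.f a (y j) :=
    fun a y => Finset.prod_nonneg (fun j _ => hP.f_nonneg a (y j))
  have hpr : ∀ x (y : Fin (n0 * ℓ) → Y), 0 ≤ P.pr (n0 * ℓ) x y :=
    fun x y => Mx.pr_nonneg hP _ x y
  -- union bound over the selections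
  have s1 : (∑ x, ∑ y : Fin (n0 * ℓ) → Y,
      if ∃ r : Fin n0 → Fin ℓ, merge n0 x (sel y r) ∈ Z then P.pr (n0 * ℓ) x y else 0) ≤
      ∑ r : Fin n0 → Fin ℓ, ∑ x, ∑ y : Fin (n0 * ℓ) → Y,
        (if merge n0 x (sel y r) ∈ Z then 1 else 0) * P.pr (n0 * ℓ) x y := by
    rw [Finset.sum_comm (s := (Finset.univ : Finset (Fin n0 → Fin ℓ)))]
    apply Finset.sum_le_sum
    intro x _
    rw [Finset.sum_comm (s := (Finset.univ : Finset (Fin n0 → Fin ℓ)))]
    apply Finset.sum_le_sum
    intro y _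
    have hnn : ∀ r : Fin n0 → Fin ℓ,
        0 ≤ (if merge n0 x (sel y r) ∈ Z then (1 : ℝ) else 0) * P.pr (n0 * ℓ) x y := by
      intro r
      apply mul_nonneg _ (hpr x y)
      split_ifs <;> norm_num
    split_ifs with hE
    · obtain ⟨r, hr⟩ := hE
      calc P.pr (n0 * ℓ) x y =
          (if merge n0 x (sel y r) ∈ Z then (1 : ℝ) else 0) * P.pr (n0 * ℓ) x y := by
            rw [if_pos hr, one_mul]
        _ ≤ _ := Finset.single_le_sum (f := fun r : Fin n0 → Fin ℓ =>
            (if merge n0 x (sel y r) ∈ Z then (1 : ℝ) else 0) * P.pr (n0 * ℓ) x y)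
            (fun r _ => hnn r) (Finset.mem_univ r)
    · exact Finset.sum_nonneg (fun r _ => hnn r)
  -- the bound for one selection
  have s2 : ∀ r : Fin n0 → Fin ℓ, ∑ x, ∑ y : Fin (n0 * ℓ) → Y,
        (if merge n0 x (sel y r) ∈ Z then 1 else 0) * P.pr (n0 * ℓ) x y ≤
      dens Z / (q' * q ^ n0) := by
    intro r
    rw [pr_expand P (n0 * ℓ) (fun x y => if merge n0 x (sel y r) ∈ Z then 1 else 0)]
    have t1 : ∀ a, P.w a * ∑ y : Fin (n0 * ℓ) → Y,
        (if merge n0 (P.x a) (sel y r) ∈ Z then 1 else 0) * ∏ j, P.f a (y j) ≤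
        ∑ x, (if P.x a = x then P.w a else 0) *
          ∑ y' : Fin n0 → Y, (if merge n0 x y' ∈ Z then (1 : ℝ) else 0) *
            ((1 / q) / (Fintype.card Y : ℝ)) ^ n0 := by
      intro a
      rw [law_sel (hP.f_sum a) r (fun y' => if merge n0 (P.x a) y' ∈ Z then 1 else 0)]
      simp only [ite_mul, zero_mul]
      rw [Finset.sum_ite_eq Finset.univ (P.x a), if_pos (Finset.mem_univ _)]
      apply mul_le_mul_of_nonneg_left _ (hP.w_nonneg a)
      apply Finset.sum_le_sum
      intro y' _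
      split_ifs
      · rw [one_mul, one_mul]
        calc ∏ i, P.f a (y' i) ≤ ∏ _i : Fin n0, ((1 / q) / (Fintype.card Y : ℝ)) :=
              Finset.prod_le_prod (fun i _ => hP.f_nonneg a _) (fun i _ => hf a _)
          _ = _ := by rw [Finset.prod_const, Finset.card_univ, Fintype.card_fin]
      · exact le_rfl
    refine (Finset.sum_le_sum (fun a _ => t1 a)).trans ?_
    rw [Finset.sum_comm]
    have t2 : ∀ x : Fin k → Y, ∑ a, (if P.x a = x then P.w a else 0) *
          ∑ y' : Fin n0 → Y, (if merge n0 x y' ∈ Z then (1 : ℝ) else 0) *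
            ((1 / q) / (Fintype.card Y : ℝ)) ^ n0 ≤
        (1 / q') / (Fintype.card (Fin k → Y) : ℝ) * (((1 / q) / (Fintype.card Y : ℝ)) ^ n0 *
          ∑ y' : Fin n0 → Y, (if merge n0 x y' ∈ Z then (1 : ℝ) else 0)) := by
      intro x
      rw [← Finset.sum_mul, ← Finset.sum_mul,
        mul_comm (∑ y' : Fin n0 → Y, (if merge n0 x y' ∈ Z then (1 : ℝ) else 0))]
      apply mul_le_mul_of_nonneg_right (hx x)
      apply mul_nonneg (by positivity)
      apply Finset.sum_nonneg
      intro y' _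
      split_ifs <;> norm_num
    refine (Finset.sum_le_sum (fun x _ => t2 x)).trans ?_
    rw [← Finset.mul_sum, ← Finset.mul_sum]
    have t3 := merge_card hk Z
    have hc1 : (0 : ℝ) ≤ (1 / q') / (Fintype.card (Fin k → Y) : ℝ) := by positivity
    have hc2 : (0 : ℝ) ≤ ((1 / q) / (Fintype.card Y : ℝ)) ^ n0 := by positivity
    refine (mul_le_mul_of_nonneg_left (mul_le_mul_of_nonneg_left t3 hc2) hc1).trans ?_
    apply le_of_eq
    unfold dens
    rw [Fintype.card_fun, Fintype.card_fun, Fintype.card_fin, Fintype.card_fin, Nat.cast_pow,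
      Nat.cast_pow, div_pow, one_div_pow]
    have hYk : (Fintype.card Y : ℝ) ^ k ≠ 0 := (pow_pos hY k).ne'
    have hYn : (Fintype.card Y : ℝ) ^ n0 ≠ 0 := (pow_pos hY n0).ne'
    have hqn : q ^ n0 ≠ 0 := (pow_pos hq n0).ne'
    field_simp
  refine s1.trans ((Finset.sum_le_sum (fun r _ => s2 r)).trans ?_)
  rw [Finset.sum_const, Finset.card_univ, Fintype.card_fun, Fintype.card_fin, Fintype.card_fin,
    nsmul_eq_mul, Nat.cast_pow]
  have hqq : 0 < q' * q ^ n0 := mul_pos hq' (pow_pos hq n0)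
  rw [← mul_div_assoc, div_le_iff₀ hqq]
  linarith

end Pool.Agent.OSM
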