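import Pool.Agent.OSM.Fit
import Pool.Agent.OSM.Sample

/-!
# OSM/DenseR: dense strings, and the exceptional points

* `dens_dense`: the `f`-mass above the strings `s` with `f`-mass `< 1 / (4 card Y0)` is at most
  `1/4`; so the mass above the others is at least `3/4`, and it is at most
  `(number of others) * (card Y / card Y0) * (1 / q) / card Y`.
* `exc_mass`: `∑_a [x a ∈ Z] w a = ∑_{x ∈ Z} ∑_{a : x a = x} w a ≤ Z.card * (1 / q') / card`.
* `committing`: let `a` be a state with `res (P.x a)` not in `gs (F.or X) n0 T1 k (3 q / 4)`. Let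
  `R` be the set of the dense strings of length `n0` for `f = P.f a` (`dens_dense`), of density at
  least `3 q / 4`. `(res (P.x a), R)` is good for `F` at `(n0, T1)`: `Good.restrict`, `Good.loc`,
  `Good.mono` (`R` is contained in the image of the support). As it is not good for `F.or X` there
  is `G` with these coordinates such that `X.bad n0 T1 G`. Take `s i = cut n0 (G i)` for `k ≤ i`
  and any element of `R` for `i < k`.
-/

set_option autoImplicit false

namespace Pool.Agent.OSM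

open Finset Pool.Agent.PTree
open scoped Classical

theorem dens_dense {Y Y0 : Type} [Fintype Y] [Fintype Y0] [Nonempty Y] {ρ : Y → Y0}
    (hρ : EqFib ρ) {q : ℝ} (hq : 0 < q) (f : Y → ℝ) (h0 : ∀ y, 0 ≤ f y) (h1 : ∑ y, f y = 1)
    (hf : ∀ y, f y ≤ (1 / q) / (Fintype.card Y : ℝ)) :
    3 * q / 4 ≤ dens (univ.filter fun s : Y0 =>
      1 / (4 * (Fintype.card Y0 : ℝ)) ≤ ∑ y, if ρ y = s then f y else 0) := by
  obtain ⟨c, hc, hcf⟩ := hρ
  have e1 := EqFib.card hcf
  have hY : 0 < (Fintype.card Y : ℝ) := by exact_mod_cast Fintype.card_pos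
  have hne : Nonempty Y0 := ⟨ρ (Classical.arbitrary Y)⟩
  have hY0 : 0 < (Fintype.card Y0 : ℝ) := by exact_mod_cast Fintype.card_pos
  have hc0 : (0 : ℝ) < c := by exact_mod_cast hc
  have e1' : (Fintype.card Y : ℝ) = c * Fintype.card Y0 := by exact_mod_cast e1
  have hsum : ∑ s : Y0, ∑ y, (if ρ y = s then f y else 0) = 1 := by
    rw [sum_comm, ← h1]
    refine sum_congr rfl fun y _ => ?_
    rw [sum_ite_eq]
    simp
  have hle : ∀ s : Y0, (∑ y, if ρ y = s then f y else 0) ≤ (1 / q) / (Fintype.card Y0 : ℝ) := by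
    intro s
    rw [← sum_filter]
    refine (sum_le_card_nsmul _ _ ((1 / q) / (Fintype.card Y : ℝ)) fun y _ => hf y).trans
      (le_of_eq ?_)
    rw [hcf, nsmul_eq_mul, e1']
    field_simp
  have hsplit := sum_filter_add_sum_filter_not (univ : Finset Y0)
    (fun s => 1 / (4 * (Fintype.card Y0 : ℝ)) ≤ ∑ y, if ρ y = s then f y else 0)
    (fun s => ∑ y, if ρ y = s then f y else 0)
  rw [hsum] at hsplit
  have hsmall : ∑ s ∈ (univ : Finset Y0).filter
      (fun s => ¬ 1 / (4 * (Fintype.card Y0 : ℝ)) ≤ ∑ y, if ρ y = s then f y else 0),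
      (∑ y, if ρ y = s then f y else 0) ≤ 1 / 4 := by
    refine (sum_le_card_nsmul _ _ (1 / (4 * (Fintype.card Y0 : ℝ))) fun s hs => ?_).trans ?_
    · rw [mem_filter, not_le] at hs
      exact hs.2.le
    · rw [nsmul_eq_mul]
      have h2 : ((univ.filter (fun s : Y0 => ¬ 1 / (4 * (Fintype.card Y0 : ℝ)) ≤
          ∑ y, if ρ y = s then f y else 0)).card : ℝ) ≤ Fintype.card Y0 := by
        exact_mod_cast card_le_univ _
      calc _ ≤ (Fintype.card Y0 : ℝ) * (1 / (4 * (Fintype.card Y0 : ℝ))) :=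
            mul_le_mul_of_nonneg_right h2 (by positivity)
        _ = 1 / 4 := by field_simp
  have hbig : ∑ s ∈ (univ : Finset Y0).filter
      (fun s => 1 / (4 * (Fintype.card Y0 : ℝ)) ≤ ∑ y, if ρ y = s then f y else 0),
      (∑ y, if ρ y = s then f y else 0) ≤
      ((univ.filter (fun s : Y0 => 1 / (4 * (Fintype.card Y0 : ℝ)) ≤
        ∑ y, if ρ y = s then f y else 0)).card : ℝ) * ((1 / q) / (Fintype.card Y0 : ℝ)) := by
    refine (sum_le_card_nsmul _ _ ((1 / q) / (Fintype.card Y0 : ℝ)) fun s _ => hle s).trans ?_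
    rw [nsmul_eq_mul]
  unfold dens
  have h3 : 3 / 4 ≤ ((univ.filter (fun s : Y0 => 1 / (4 * (Fintype.card Y0 : ℝ)) ≤
        ∑ y, if ρ y = s then f y else 0)).card : ℝ) * ((1 / q) / (Fintype.card Y0 : ℝ)) := by
    linarith
  have h4 : ((univ.filter (fun s : Y0 => 1 / (4 * (Fintype.card Y0 : ℝ)) ≤
        ∑ y, if ρ y = s then f y else 0)).card : ℝ) * ((1 / q) / (Fintype.card Y0 : ℝ)) =
      ((univ.filter (fun s : Y0 => 1 / (4 * (Fintype.card Y0 : ℝ)) ≤
        ∑ y, if ρ y = s then f y else 0)).card : ℝ) / (Fintype.card Y0 : ℝ) / q := by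
    field_simp
  rw [h4, le_div_iff₀ hq] at h3
  linarith

theorem exc_mass {X Y : Type} [Fintype X] [Nonempty X] [Fintype Y] {P : Mx X Y} (hP : P.Ok)
    {K : ℝ} (hx : ∀ x, (∑ a, if P.x a = x then P.w a else 0) ≤ K / (Fintype.card X : ℝ))
    (Z : Finset X) : (∑ a, if P.x a ∈ Z then P.w a else 0) ≤ K * dens Z := by
  have h1 : (∑ a, if P.x a ∈ Z then P.w a else 0) =
      ∑ x ∈ Z, ∑ a, if P.x a = x then P.w a else 0 := by
    rw [sum_comm]
    refine sum_congr rfl fun a _ => ?_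
    rw [sum_ite_eq]
  rw [h1]
  refine (sum_le_card_nsmul _ _ (K / (Fintype.card X : ℝ)) fun x _ => hx x).trans (le_of_eq ?_)
  rw [nsmul_eq_mul]
  unfold dens
  ring

theorem committing {A : Type} [Fintype A] [Nonempty A] {F X : Forb A} {k n0 n : ℕ}
    {T1 T2 : StrSet} {q q' : ℝ} (hq : 0 < q) (hn0 : n0 ≤ n) (hA : Agree n0 T1 T2)
    {P : Mx (Fin k → Str A n) (Str A n)} (hP : Fit F n T2 k q q' P) (a : P.ι)
    (ha : (fun i => res hn0 (P.x a i)) ∉ gs (F.or X) n0 T1 k (3 * q / 4)) :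
    ∃ (s : Fin n0 → Str A n0) (G : ℕ → ℕ → A),
      (∀ i, 1 / (4 * (Fintype.card (Str A n0) : ℝ)) ≤
        ∑ y, if res hn0 y = s i then P.f a y else 0) ∧
      (∀ i : Fin n0, (h : (i : ℕ) < k) → cut n0 (G i) = res hn0 (P.x a ⟨i, h⟩)) ∧
      (∀ i : Fin n0, k ≤ (i : ℕ) → cut n0 (G i) = s i) ∧ X.bad n0 T1 G := by
  obtain ⟨R, hR⟩ : ∃ R : Finset (Str A n0), R = univ.filter fun s : Str A n0 =>
      1 / (4 * (Fintype.card (Str A n0) : ℝ)) ≤ ∑ y, if res hn0 y = s then P.f a y else 0 :=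
    ⟨_, rfl⟩
  have hcard : 0 < (Fintype.card (Str A n0) : ℝ) := by exact_mod_cast Fintype.card_pos
  have hdens : 3 * q / 4 ≤ dens R := by
    rw [hR]
    convert dens_dense (eqFib_res hn0) hq (P.f a) (hP.ok.f_nonneg a) (hP.ok.f_sum a) (hP.f_le a)
  have hmem : ∀ s ∈ R, 1 / (4 * (Fintype.card (Str A n0) : ℝ)) ≤
      ∑ y, if res hn0 y = s then P.f a y else 0 := by
    intro s hs
    rw [hR, mem_filter] at hs
    exact hs.2
  have hsub : R ⊆ (univ.filter fun y => 0 < P.f a y).image (res hn0) := by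
    intro s hs
    have h1 := hmem s hs
    have h2 : (0 : ℝ) < ∑ y, if res hn0 y = s then P.f a y else 0 :=
      lt_of_lt_of_le (by positivity) h1
    obtain ⟨y, -, hy⟩ := exists_lt_of_sum_lt (s := (univ : Finset (Str A n)))
      (f := fun _ => (0 : ℝ)) (g := fun y => if res hn0 y = s then P.f a y else 0)
      (by simpa using h2)
    rw [mem_image]
    by_cases hys : res hn0 y = s
    · rw [if_pos hys] at hy
      exact ⟨y, by rw [mem_filter]; exact ⟨mem_univ _, hy⟩, hys⟩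
    · rw [if_neg hys] at hy
      exact absurd hy (lt_irrefl _)
  have hgood : Good F n0 T1 (fun i => res hn0 (P.x a i)) R :=
    ((Good.restrict hn0 (hP.good a)).loc hA.symm).mono (Forb.Le.refl F) hsub
  have hbad : ¬ Good (F.or X) n0 T1 (fun i => res hn0 (P.x a i)) R := fun h =>
    ha (mem_gs.2 ⟨R, hdens, h⟩)
  unfold Good at hbad
  push Not at hbad
  obtain ⟨G, hG1, hG2, hG3⟩ := hbad
  have hX : X.bad n0 T1 G := by
    rcases hG3 with h | h
    · exact absurd h (hgood G hG1 hG2)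
    · exact h
  obtain ⟨r0, hr0⟩ := nonempty_of_dens (lt_of_lt_of_le (by linarith : (0 : ℝ) < 3 * q / 4) hdens)
  refine ⟨fun i => if k ≤ (i : ℕ) then cut n0 (G i) else r0, G, ?_, ?_, ?_, hX⟩
  · intro i
    apply hmem
    by_cases hi : k ≤ (i : ℕ)
    · simp only [if_pos hi]
      exact hG2 i hi
    · simp only [if_neg hi]
      exact hr0
  · intro i hi
    exact hG1 ⟨i, hi⟩
  · intro i hi
    simp only [if_pos hi]

end Pool.Agent.OSM
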