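import Pool.Agent.OSM.Final
import Pool.Agent.TuringBaire.Comp

/-!
# OSM/Turing: `P` is not computably reducible to `P⁻`
-/

set_option autoImplicit false

namespace Pool.Agent.OSM

open Filter Topology Pool.Agent.PTree
open scoped Classical

/-- The characteristic function of a set of strings (coded by natural numbers). -/
def chT (T : StrSet) : ℕ →. ℕ := fun m =>
  Part.some ((Encodable.decode (α := List Bool) m).elim false T).toNat

/-- The characteristic function of a sequence. -/
def chG (G : ℕ → ℕ → Bool) : ℕ →. ℕ :=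
  fun m => Part.some (G (Nat.unpair m).1 (Nat.unpair m).2).toNat

def tx (T : StrSet) : TuringBaire.X := fun m =>
  (Encodable.decode (α := List Bool) m).elim false T

def xt (x : TuringBaire.X) : StrSet := fun σ => x (Encodable.encode σ)

def gx (G : ℕ → ℕ → Bool) : TuringBaire.X := fun m => G (Nat.unpair m).1 (Nat.unpair m).2

theorem xt_tx (T : StrSet) : xt (tx T) = T := by
  funext σ
  simp [xt, tx]

theorem ch_eq (x : TuringBaire.X) (m : ℕ) : TuringBaire.ch x m = Part.some (x m).toNat := by
  simp only [TuringBaire.ch]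
  cases x m <;> rfl

theorem chT_eq (T : StrSet) : chT T = TuringBaire.ch (tx T) := by
  funext m
  rw [ch_eq]
  rfl

theorem chG_eq (G : ℕ → ℕ → Bool) : chG G = TuringBaire.ch (gx G) := by
  funext m
  rw [ch_eq]
  rfl

theorem tx_continuous : Continuous tx := by
  refine continuous_pi fun m => ?_
  unfold tx
  cases h : Encodable.decode (α := List Bool) m with
  | none => simp only [Option.elim_none]; exact continuous_const
  | some σ => simp only [Option.elim_some]; exact continuous_apply σ

theorem xt_continuous : Continuous xt := continuous_pi fun _ => continuous_apply _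

/-- The join of the oracles. -/
def join {n : ℕ} (p : StrSet × (Fin n → ℕ → ℕ → Bool)) : TuringBaire.X := fun m =>
  if (Nat.unpair m).1 = 0 then tx p.1 (Nat.unpair m).2
  else if h : (Nat.unpair m).1 - 1 < n then gx (p.2 ⟨(Nat.unpair m).1 - 1, h⟩) (Nat.unpair m).2
  else false

theorem join_continuous {n : ℕ} : Continuous (join (n := n)) := by
  refine continuous_pi fun m => ?_
  unfold join
  by_cases h1 : (Nat.unpair m).1 = 0
  · simp only [h1, if_true]
    exact (continuous_apply (Nat.unpair m).2).comp (tx_continuous.comp continuous_fst)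
  · simp only [h1, if_false]
    by_cases h2 : (Nat.unpair m).1 - 1 < n
    · simp only [h2, dif_pos]
      exact (continuous_apply _).comp ((continuous_apply _).comp
        ((continuous_apply _).comp continuous_snd))
    · simp only [h2, dif_neg, not_false_eq_true]
      exact continuous_const

/-- The points at which the code computes a total characteristic function. -/
def Tot (a : TuringBaire.OC) : Set TuringBaire.X :=
  {x | ∃ y, TuringBaire.ev (TuringBaire.ch x) a = TuringBaire.ch y}

theorem continuousOn_Fn' (a : TuringBaire.OC) : ContinuousOn (TuringBaire.Fn a) (Tot a) := by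
  refine continuousOn_pi.2 fun n x hx => ?_
  have hD : ∀ z ∈ Tot a, TuringBaire.ev (TuringBaire.ch z) a =
      TuringBaire.ch (TuringBaire.Fn a z) := by
    rintro z ⟨y, hy⟩
    rw [TuringBaire.Fn_eq hy]
    exact hy
  have h1 : (if TuringBaire.Fn a x n then 1 else 0) ∈
      TuringBaire.ev (TuringBaire.ch x) a n := by
    rw [hD x hx]; exact TuringBaire.mem_ch.2 rfl
  have h2 : ∀ᶠ y in nhdsWithin x (Tot a), TuringBaire.Fn a y n = TuringBaire.Fn a x n := by
    have h3 : {y : TuringBaire.X | (if TuringBaire.Fn a x n then 1 else 0) ∈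
        TuringBaire.ev (TuringBaire.ch y) a n} ∈ nhdsWithin x (Tot a) :=
      mem_nhdsWithin_of_mem_nhds ((TuringBaire.isOpen_ev _ _ _).mem_nhds h1)
    filter_upwards [h3, self_mem_nhdsWithin] with y hy hyD
    change (if TuringBaire.Fn a x n then 1 else 0) ∈ TuringBaire.ev (TuringBaire.ch y) a n at hy
    rw [hD y hyD, TuringBaire.mem_ch] at hy
    cases h5 : TuringBaire.Fn a x n <;> cases h6 : TuringBaire.Fn a y n <;>
      simp [h5, h6] at hy ⊢
  exact (tendsto_const_nhds (x := TuringBaire.Fn a x n)).congr' (h2.mono fun y hy => hy.symm)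

theorem oracle_comp {o : ℕ →. ℕ} {f : ℕ → ℕ} (hf : Nat.Primrec f) :
    Nat.RecursiveIn {o} (fun m => o (f m)) := by
  have h1 := Nat.RecursiveIn.comp (Nat.RecursiveIn.oracle o (Set.mem_singleton o))
    (hf.recursiveIn (O := {o}))
  refine h1.of_eq fun m => ?_
  simp

theorem pair_primrec (k : ℕ) : Nat.Primrec fun m => Nat.pair k m :=
  (Nat.Primrec.const k).pair Nat.Primrec.id

theorem comp_join_zero {n : ℕ} (p : StrSet × (Fin n → ℕ → ℕ → Bool)) :
    Nat.RecursiveIn {TuringBaire.ch (join p)} (chT p.1) := by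
  refine (oracle_comp (pair_primrec 0)).of_eq fun m => ?_
  rw [ch_eq, chT_eq, ch_eq]
  simp [join]

theorem comp_join_succ {n : ℕ} (p : StrSet × (Fin n → ℕ → ℕ → Bool)) (c : Fin n) :
    Nat.RecursiveIn {TuringBaire.ch (join p)} (chG (p.2 c)) := by
  refine (oracle_comp (pair_primrec (c + 1))).of_eq fun m => ?_
  rw [ch_eq, chG_eq, ch_eq]
  simp [join]

instance : Countable TuringBaire.OC :=
  Function.Injective.countable (f := TuringBaire.OC.num) fun a b h => TuringBaire.OC.num_inj a b h

/-- `P` is not computably reducible to (a finite power of) `P⁻`. -/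
theorem not_computably_reducible :
    ∃ T, Positive T ∧ ∀ (n : ℕ) (T' : Fin n → StrSet), (∀ c, Positive (T' c)) →
      (∀ c, Nat.RecursiveIn {chT T} (chT (T' c))) →
      ∃ G : Fin n → ℕ → ℕ → Bool, (∀ c, ManyPaths (T' c) (G c)) ∧
        ∀ S, Perfect S → (∀ τ, S τ = true → T τ = true) →
          ¬ Nat.RecursiveIn (insert (chT T) (Set.range fun c => chG (G c))) (chT S) := by
  obtain ⟨f, hf⟩ := exists_surjective_nat ((n : ℕ) × (Fin n → TuringBaire.OC))
  obtain ⟨g, hg⟩ := exists_surjective_nat TuringBaire.OC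
  set e : (p : (n : ℕ) × (Fin n → TuringBaire.OC)) → ℕ := fun p => p.1 with he
  set D : (p : (n : ℕ) × (Fin n → TuringBaire.OC)) → Set StrSet := fun p =>
    {T | ∀ c, ∃ T', Positive T' ∧
      TuringBaire.ev (TuringBaire.ch (tx T)) (p.2 c) = TuringBaire.ch (tx T')} with hD
  set Ψ : (p : (n : ℕ) × (Fin n → TuringBaire.OC)) → StrSet → Fin p.1 → StrSet := fun p T c =>
    xt (TuringBaire.Fn (p.2 c) (tx T)) with hΨ
  have hval : ∀ p, ∀ T ∈ D p, ∀ c T', TuringBaire.ev (TuringBaire.ch (tx T)) (p.2 c) =
      TuringBaire.ch (tx T') → Ψ p T c = T' := by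
    intro p T hT c T' h
    simp only [hΨ]
    rw [TuringBaire.Fn_eq h, xt_tx]
  obtain ⟨T, hT1, hT2⟩ := main (fun j => (f j).1) (fun j => D (f j)) (fun j => Ψ (f j))
    (fun j => by
      refine continuousOn_pi.2 fun c => ?_
      refine xt_continuous.comp_continuousOn
        ((continuousOn_Fn' ((f j).2 c)).comp tx_continuous.continuousOn fun T hT => ?_)
      obtain ⟨T', -, hT'⟩ := hT c
      exact ⟨_, hT'⟩)
    (fun j T hT c => by
      obtain ⟨T', h1, h2⟩ := hT c
      rw [hval (f j) T hT c T' h2]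
      exact h1)
    (fun j i => {p | join p ∈ Tot (g i)})
    (fun j i p => xt (TuringBaire.Fn (g i) (join p)))
    (fun j i => xt_continuous.comp_continuousOn
      ((continuousOn_Fn' (g i)).comp join_continuous.continuousOn fun p hp => hp))
  have hall : ∀ p : (n : ℕ) × (Fin n → TuringBaire.OC), T ∈ D p →
      ∃ G : Fin p.1 → ℕ → ℕ → Bool, (∀ c, ManyPaths (Ψ p T c) (G c)) ∧
        ∀ a : TuringBaire.OC, join (T, G) ∈ Tot a →
          ¬ (Perfect (xt (TuringBaire.Fn a (join (T, G)))) ∧
            Sub (xt (TuringBaire.Fn a (join (T, G)))) T) := by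
    intro p hp
    obtain ⟨j, rfl⟩ := hf p
    obtain ⟨G, h1, h2⟩ := hT2 j hp
    refine ⟨G, h1, fun a ha => ?_⟩
    obtain ⟨i, rfl⟩ := hg a
    exact h2 i ha
  refine ⟨T, hT1, fun n T' hpos hT' => ?_⟩
  have hcode : ∀ c, ∃ a, TuringBaire.ev (TuringBaire.ch (tx T)) a =
      TuringBaire.ch (tx (T' c)) := by
    intro c
    rw [← chT_eq, ← chT_eq]
    exact TuringBaire.exists_code (hT' c)
  choose a ha using hcode
  have hTD : T ∈ D ⟨n, a⟩ := fun c => ⟨T' c, hpos c, ha c⟩
  obtain ⟨G, h1, h2⟩ := hall ⟨n, a⟩ hTD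
  refine ⟨G, fun c => ?_, fun S hS hST hrec => ?_⟩
  · rw [← hval ⟨n, a⟩ T hTD c (T' c) (ha c)]
    exact h1 c
  · have h3 : Nat.RecursiveIn {TuringBaire.ch (join (T, G))} (chT S) := by
      refine hrec.subst fun o ho => ?_
      rcases Set.mem_insert_iff.1 ho with rfl | ⟨c, rfl⟩
      · exact comp_join_zero (T, G)
      · exact comp_join_succ (T, G) c
    obtain ⟨d, hd⟩ := TuringBaire.exists_code h3
    rw [chT_eq] at hd
    refine h2 d ⟨_, hd⟩ ?_
    rw [TuringBaire.Fn_eq hd, xt_tx]
    exact ⟨hS, hST⟩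

end Pool.Agent.OSM
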