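import Pool.Agent.OSM.Defs

/-!
# OSM/KillE: removing finitely many strings, neighbourhoods

`killE T U m` is `T` without the strings of length at least `m` which extend a string of `U`.
The proofs are as for `kill` (`Pool/Agent/PTree/Kill.lean`): `kill_iff`, `kill_tree`, `kill_M`
(paths of `T` outside the union of the cylinders `cyl τ`, `τ ∈ U`, are paths of `killE T U m`; the
union has measure at most the sum of the `(1/2) ^ τ.length`: `measureReal_biUnion_finset_le`,
`coin_real_cyl`).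
-/

set_option autoImplicit false

namespace Pool.Agent.OSM

open Finset Pool.Agent.PTree
open scoped Classical

theorem killE_iff {T : StrSet} {U : Finset (List Bool)} {m : ℕ} {σ : List Bool} :
    killE T U m σ = true ↔ T σ = true ∧ ¬ ∃ τ ∈ U, τ <+: σ ∧ m ≤ σ.length := by
  simp only [killE, Bool.and_eq_true, Bool.not_eq_true', decide_eq_false_iff_not]

theorem killE_sub (T : StrSet) (U : Finset (List Bool)) (m : ℕ) : Sub (killE T U m) T :=
  fun _ h => (killE_iff.1 h).1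

theorem killE_agree (T : StrSet) (U : Finset (List Bool)) (m : ℕ) : Agree m T (killE T U m) := by
  intro σ hσ
  have h1 : ¬ ∃ τ ∈ U, τ <+: σ ∧ m ≤ σ.length := fun ⟨_, _, _, h⟩ => absurd h (not_le.2 hσ)
  have h2 : killE T U m σ = true ↔ T σ = true := by
    rw [killE_iff]
    exact ⟨fun h => h.1, fun h => ⟨h, h1⟩⟩
  rcases Bool.eq_false_or_eq_true (T σ) with h | h
  · rw [h]; exact h2.2 h
  · rw [h]
    by_contra h3
    rw [Bool.not_eq_false] at h3
    rw [h2, h] at h3
    exact absurd h3 (by simp)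

theorem killE_tree {T : StrSet} (hT : IsTree T) (U : Finset (List Bool)) (m : ℕ) :
    IsTree (killE T U m) := by
  intro σ ρ hσρ hρ
  rw [killE_iff] at hρ ⊢
  exact ⟨hT σ ρ hσρ hρ.1, fun ⟨τ, h1, h2, h3⟩ =>
    hρ.2 ⟨τ, h1, h2.trans hσρ, h3.trans hσρ.length_le⟩⟩

theorem killE_M (T : StrSet) (U : Finset (List Bool)) (m : ℕ) :
    M T - ∑ τ ∈ U, (1 / 2 : ℝ) ^ τ.length ≤ M (killE T U m) := by
  have h1 : paths T \ ⋃ τ ∈ U, cyl τ ⊆ paths (killE T U m) := by
    rintro x ⟨hx, hxτ⟩ n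
    rw [killE_iff]
    refine ⟨hx n, fun ⟨τ, h1, h2, _⟩ => hxτ ?_⟩
    simp only [Set.mem_iUnion]
    exact ⟨τ, h1, seg_eq_of_prefix h2⟩
  have h2 := MeasureTheory.measureReal_mono (μ := coin) h1
  have h3 := MeasureTheory.le_measureReal_sdiff (μ := coin) (s₁ := paths T) (s₂ := ⋃ τ ∈ U, cyl τ)
    (h := MeasureTheory.measure_ne_top _ _)
  have h4 : coin.real (⋃ τ ∈ U, cyl τ) ≤ ∑ τ ∈ U, (1 / 2 : ℝ) ^ τ.length := by
    refine (MeasureTheory.measureReal_biUnion_finset_le U cyl).trans ?_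
    exact Finset.sum_le_sum fun τ _ => (coin_real_cyl τ).le
  have h5 : M T - ∑ τ ∈ U, (1 / 2 : ℝ) ^ τ.length ≤ coin.real (paths T \ ⋃ τ ∈ U, cyl τ) := by
    refine le_trans ?_ h3
    have : M T = coin.real (paths T) := rfl
    linarith
  exact h5.trans h2

theorem killE_dead {T T' : StrSet} {U : Finset (List Bool)} {m : ℕ} (h : Sub T' (killE T U m))
    {τ ρ : List Bool} (hτ : τ ∈ U) (hρ : τ <+: ρ) (hm : m ≤ ρ.length) : T' ρ ≠ true :=
  fun h1 => (killE_iff.1 (h _ h1)).2 ⟨τ, hτ, hρ, hm⟩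

theorem mem_con {L : ℕ} {σ τ : List Bool} : τ ∈ con L σ ↔ τ.length = L ∧ σ <+: τ := by
  simp [con]

/-- The number of strings of length `L` above the strings of length `m`. -/
theorem card_con {L m : ℕ} (h : m ≤ L) {σ : List Bool} (hσ : σ.length = m) :
    (con L σ).card = 2 ^ (L - m) := by
  have e : con L σ = (strs (L - m)).image (fun ρ => σ ++ ρ) := by
    ext τ
    rw [mem_con, Finset.mem_image]
    constructor
    · rintro ⟨h1, ρ, rfl⟩
      refine ⟨ρ, ?_, rfl⟩
      rw [mem_strs]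
      rw [List.length_append] at h1
      omega
    · rintro ⟨ρ, hρ, rfl⟩
      rw [mem_strs] at hρ
      refine ⟨?_, List.prefix_append _ _⟩
      rw [List.length_append]
      omega
  rw [e, Finset.card_image_of_injective _ (fun _ _ h => List.append_cancel_left h), card_strs]

theorem Nb.subset {T0 T : StrSet} {m m' : ℕ} {c c' : ℝ} (hT : T ∈ Nb T0 m c) (hm : m ≤ m')
    (hc : c ≤ c') : Nb T m' c' ⊆ Nb T0 m c := by
  rintro T' ⟨h1, h2, h3, h4⟩
  exact ⟨h1, h2.trans hT.2.1, hT.2.2.1.trans (h3.mono hm), lt_of_le_of_lt hc h4⟩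

theorem Nb.self {T : StrSet} (hT : IsTree T) (m : ℕ) {c : ℝ} (hc : c < M T) : T ∈ Nb T m c :=
  ⟨hT, Sub.refl _, Agree.refl _ _, hc⟩

end Pool.Agent.OSM
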