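import Pool.Agent.OSM.Fib

/-!
# OSM/Greedy: choosing patterns one after the other

`greedy`. `ν i` is a law on subsets of `Y`; each point of `W` is in the random set with probability
at least `β`. Induction on `N` (number of laws). Step: let `W' ⊆ W` be the set obtained so far
(nonempty or not). The mean over `V ~ ν` of `card (W' ∩ V)` is at least `β * card W'`
(exchange the sums). The sets `V` with `ν V < (β / 2) / 2 ^ card Y` have total `ν`-mass at most
`β / 2` (there are `2 ^ card Y` sets), so they contribute at most `(β / 2) * card W'` to the mean;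
so there is `V` with `ν V ≥ (β / 2) / 2 ^ card Y` and `card (W' ∩ V) ≥ (β / 2) * card W'`
(otherwise the rest contributes less than `(β / 2) * card W'`; if `card W' = 0` then any `V` with
`ν V` large will do, which exists as the total mass is `1 ≥ β > β / 2`).
-/

set_option autoImplicit false

namespace Pool.Agent.OSM

open Finset
open scoped Classical

namespace GreedyAux

theorem step {Y : Type} [Fintype Y] (ν : Finset Y → ℝ)
    (h0 : ∀ V, 0 ≤ ν V) (h1 : ∑ V : Finset Y, ν V = 1) (W : Finset Y) {β : ℝ}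
    (hβ : 0 < β) (hβ1 : β ≤ 1)
    (hW : ∀ z ∈ W, β ≤ ∑ V : Finset Y, if z ∈ V then ν V else 0) :
    ∃ V : Finset Y, β / 2 / 2 ^ Fintype.card Y ≤ ν V ∧
      β / 2 * (W.card : ℝ) ≤ ((W.filter fun z => z ∈ V).card : ℝ) := by
  set thr : ℝ := β / 2 / 2 ^ Fintype.card Y with hthr
  have hthr0 : 0 < thr := by positivity
  have hcard : ((univ : Finset (Finset Y)).card : ℝ) * thr = β / 2 := by
    rw [card_univ, Fintype.card_finset, hthr]
    push_cast
    field_simp
  obtain ⟨V0, hV0⟩ : ∃ V, thr ≤ ν V := by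
    by_contra hc
    push Not at hc
    have h2 : ∑ V : Finset Y, ν V < ∑ _V : Finset Y, thr :=
      sum_lt_sum_of_nonempty univ_nonempty fun V _ => hc V
    rw [h1, sum_const, nsmul_eq_mul, hcard] at h2
    linarith
  by_contra hc
  push Not at hc
  have e1 : ∑ V : Finset Y, ν V * ((W.filter fun z => z ∈ V).card : ℝ) =
      ∑ z ∈ W, ∑ V : Finset Y, if z ∈ V then ν V else 0 := by
    rw [sum_comm]
    refine sum_congr rfl fun V _ => ?_
    rw [← sum_filter, sum_const, nsmul_eq_mul, mul_comm]
  have e2 : β * (W.card : ℝ) ≤ ∑ V : Finset Y, ν V * ((W.filter fun z => z ∈ V).card : ℝ) := by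
    rw [e1]
    calc β * (W.card : ℝ) = ∑ _z ∈ W, β := by rw [sum_const, nsmul_eq_mul, mul_comm]
      _ ≤ _ := sum_le_sum hW
  have hle : ∀ V : Finset Y, ((W.filter fun z => z ∈ V).card : ℝ) ≤ W.card := fun V => by
    exact_mod_cast card_le_card (filter_subset _ _)
  have e3 : ∑ V : Finset Y, ν V * ((W.filter fun z => z ∈ V).card : ℝ) <
      ∑ V : Finset Y, (ν V * (β / 2 * W.card) + thr * W.card) := by
    refine sum_lt_sum (fun V _ => ?_) ⟨V0, mem_univ _, ?_⟩
    · rcases le_or_gt thr (ν V) with h | h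
      · have := mul_le_mul_of_nonneg_left (hc V h).le (h0 V)
        have : 0 ≤ thr * (W.card : ℝ) := by positivity
        linarith
      · have a1 : ν V * ((W.filter fun z => z ∈ V).card : ℝ) ≤ thr * W.card :=
          mul_le_mul h.le (hle V) (by positivity) hthr0.le
        have a2 : 0 ≤ ν V * (β / 2 * W.card) := mul_nonneg (h0 V) (by positivity)
        linarith
    · have a1 := mul_lt_mul_of_pos_left (hc V0 hV0) (hthr0.trans_le hV0)
      have : 0 ≤ thr * (W.card : ℝ) := by positivity
      linarith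
  have e4 : ∑ V : Finset Y, (ν V * (β / 2 * W.card) + thr * W.card) = β * (W.card : ℝ) := by
    rw [sum_add_distrib, ← sum_mul, h1, sum_const, nsmul_eq_mul]
    linear_combination (W.card : ℝ) * hcard
  linarith

end GreedyAux

theorem greedy {Y : Type} [Fintype Y] {N : ℕ} (ν : Fin N → Finset Y → ℝ)
    (h0 : ∀ i V, 0 ≤ ν i V) (h1 : ∀ i, ∑ V : Finset Y, ν i V = 1) (W : Finset Y) {β : ℝ}
    (hβ : 0 < β) (hβ1 : β ≤ 1)
    (hW : ∀ i, ∀ z ∈ W, β ≤ ∑ V : Finset Y, if z ∈ V then ν i V else 0) :
    ∃ V : Fin N → Finset Y, (∀ i, β / 2 / 2 ^ Fintype.card Y ≤ ν i (V i)) ∧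
      (β / 2) ^ N * dens W ≤ dens (W.filter fun z => ∀ i, z ∈ V i) := by
  induction N generalizing W with
  | zero =>
    refine ⟨fun i => i.elim0, fun i => i.elim0, ?_⟩
    rw [pow_zero, one_mul]
    refine le_of_eq ?_
    congr 1
    ext z
    simp
  | succ N ih =>
    obtain ⟨V0, hV0, hV1⟩ := GreedyAux.step (ν 0) (h0 0) (h1 0) W hβ hβ1 (hW 0)
    obtain ⟨V, hV, hd⟩ := ih (fun i => ν i.succ) (fun i => h0 i.succ) (fun i => h1 i.succ)
      (W.filter fun z => z ∈ V0) (fun i z hz => hW i.succ z (mem_filter.1 hz).1)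
    refine ⟨Fin.cons V0 V, ?_, ?_⟩
    · intro i
      refine Fin.cases ?_ (fun j => ?_) i
      · exact hV0
      · exact hV j
    · have e1 : β / 2 * dens W ≤ dens (W.filter fun z => z ∈ V0) := by
        unfold dens
        rw [← mul_div_assoc]
        gcongr
      have e2 : (W.filter fun z => ∀ i, z ∈ (Fin.cons V0 V : Fin (N + 1) → Finset Y) i) =
          (W.filter fun z => z ∈ V0).filter fun z => ∀ i, z ∈ V i := by
        ext z
        simp only [mem_filter, Fin.forall_fin_succ, Fin.cons_zero, Fin.cons_succ]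
        tauto
      rw [e2]
      refine le_trans ?_ hd
      rw [pow_succ, mul_assoc]
      gcongr

end Pool.Agent.OSM
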