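import Pool.Agent.OSM.BLow
import Pool.Agent.OSM.Sample

/-!
# OSM/BLowB: the lower bound of `b` in terms of the law of samples

From `b_low` with `k' = n0 + r`. For a state `a` with point `x` (note `cut n (G i) = x i` for
`i < k`), the product in `b_low` is over the `i` with `k ≤ i < n0 + r` of `f_a (cut n (G i))`: for
`i < n0` this is `f_a (y (index of (i, s i)))`, the indices being different for different `i`
(`finProdFinEquiv` is injective), for `i = n0 + t` it is the `t`-th new sample. All factors are in
`[0, 1]` (`f_sum`, `f_nonneg` of the image), so this product is at least the product over all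
samples `y` and all new samples, i.e. the summand of
`(m.map ..).pr (j + r) x (Fin.append y _)` (`pr_append`). Also `q ^ n ≤ q ^ (n0 + r - k)`.
-/

set_option autoImplicit false

namespace Pool.Agent.OSM

open Finset Pool.Agent.PTree
open scoped Classical

/-- Products of numbers in `[0, 1]` over an injective selection of indices. -/
theorem prod_sel_le {j n0 k : ℕ} (h : Fin j → ℝ) (h0 : ∀ t, 0 ≤ h t) (h1 : ∀ t, h t ≤ 1)
    (e : Fin n0 → Fin j) (he : Function.Injective e) :
    ∏ t, h t ≤ ∏ i : Fin n0, (if k ≤ (i : ℕ) then h (e i) else 1) := by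
  have e1 : ∏ i : Fin n0, (if k ≤ (i : ℕ) then h (e i) else 1) =
      ∏ t ∈ (univ.filter fun i : Fin n0 => k ≤ (i : ℕ)).map ⟨e, he⟩, h t := by
    rw [Finset.prod_map, Finset.prod_filter]
    rfl
  rw [e1, ← Finset.prod_mul_prod_compl
    ((univ.filter fun i : Fin n0 => k ≤ (i : ℕ)).map ⟨e, he⟩) h]
  exact mul_le_of_le_one_right (Finset.prod_nonneg fun t _ => h0 t)
    (Finset.prod_le_one (fun t _ => h0 t) fun t _ => h1 t)

theorem b_low2 {A : Type} [Fintype A] [Nonempty A] {F : Forb A} {n n' k n0 ℓ r j : ℕ}
    {T : StrSet} {q q' : ℝ} (hq : 0 < q) (hq1 : q ≤ 1) (hq' : 0 < q') (hn : n ≤ n')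
    (hk : k ≤ n0) (hr : n0 + r ≤ n) {m : Mx (Fin k → Str A n') (Str A n')}
    (hm : Fit F n' T k q q' m) (hj : n0 * ℓ ≤ j) (x : Fin k → Str A n) (y : Fin j → Str A n)
    (s : Fin n0 → Fin ℓ) (G : ℕ → ℕ → A)
    (hG : ∀ i : Fin n0, cut n (G i) = merge n0 x (sel (fun t => y (t.castLE hj)) s) i) :
    q' * q ^ n * (m.map (fun x i => res hn (x i)) (res hn)).pr (j + r) x
        (Fin.append y fun t : Fin r => cut n (G (n0 + t))) ≤
      b (F.or (FPin (n0 + r) n G)) n' T (n0 + r) q := by
  have hfit := Fit.map hn hq hm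
  set P := m.map (fun x i => res hn (x i)) (res hn) with hP
  have hok : P.Ok := hfit.ok
  have hlow := b_low (k' := n0 + r) hq hq' hn (by omega) (hr.trans hn) hm G P hP
  refine le_trans ?_ hlow
  have hx : x = fun i : Fin k => cut n (G i) := by
    funext i
    have h1 := hG ⟨i, i.2.trans_le hk⟩
    rw [h1]
    unfold merge
    rw [dif_pos i.2]
  have hone : ∀ a z, P.f a z ≤ 1 := fun a z => by
    rw [← hok.f_sum a]
    exact Finset.single_le_sum (f := fun z => P.f a z) (fun z _ => hok.f_nonneg a z)
      (Finset.mem_univ z)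
  have hsum : P.pr (j + r) x (Fin.append y fun t : Fin r => cut n (G (n0 + t))) ≤
      ∑ a, (if P.x a = (fun i : Fin k => cut n (G i)) then
        P.w a * ∏ i : Fin (n0 + r), (if k ≤ (i : ℕ) then P.f a (cut n (G i)) else 1) else 0) := by
    rw [Mx.pr_append, hx]
    refine Finset.sum_le_sum fun a _ => ?_
    split_ifs with ha
    · rw [mul_assoc]
      refine mul_le_mul_of_nonneg_left ?_ (hok.w_nonneg a)
      rw [Fin.prod_univ_add]
      have e2 : ∏ i : Fin r, (if k ≤ ((Fin.natAdd n0 i : Fin (n0 + r)) : ℕ) then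
          P.f a (cut n (G ((Fin.natAdd n0 i : Fin (n0 + r)) : ℕ))) else 1) =
          ∏ i : Fin r, P.f a (cut n (G (n0 + i))) := by
        refine Finset.prod_congr rfl fun i _ => ?_
        rw [Fin.val_natAdd, if_pos (by omega)]
      rw [e2]
      refine mul_le_mul_of_nonneg_right ?_ (Finset.prod_nonneg fun i _ => hok.f_nonneg a _)
      have e3 : ∏ i : Fin n0, (if k ≤ ((Fin.castAdd r i : Fin (n0 + r)) : ℕ) then
          P.f a (cut n (G ((Fin.castAdd r i : Fin (n0 + r)) : ℕ))) else 1) =
          ∏ i : Fin n0, (if k ≤ (i : ℕ) then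
            P.f a (y ((finProdFinEquiv (i, s i)).castLE hj)) else 1) := by
        refine Finset.prod_congr rfl fun i _ => ?_
        rw [Fin.val_castAdd]
        split_ifs with hki
        · rw [hG i]
          unfold merge
          rw [dif_neg (by omega)]
          rfl
        · rfl
      rw [e3]
      refine prod_sel_le (fun t => P.f a (y t)) (fun t => hok.f_nonneg a _)
        (fun t => hone a _) (fun i => (finProdFinEquiv (i, s i)).castLE hj) ?_
      intro i i' hii
      have h2 : finProdFinEquiv (i, s i) = finProdFinEquiv (i', s i') := by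
        apply Fin.ext
        have := congrArg Fin.val hii
        simpa using this
      have h3 := finProdFinEquiv.injective h2
      exact (Prod.mk.inj h3).1
    · exact le_rfl
  have hq2 : q ^ n ≤ q ^ (n0 + r - k) := pow_le_pow_of_le_one hq.le hq1 (by omega)
  have hnn : 0 ≤ P.pr (j + r) x (Fin.append y fun t : Fin r => cut n (G (n0 + t))) :=
    Mx.pr_nonneg hok _ _ _
  exact mul_le_mul (mul_le_mul_of_nonneg_left hq2 hq'.le) hsum hnn (by positivity)

end Pool.Agent.OSM
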