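import Pool.Agent.OSM.Fit

/-!
# OSM/BLow: a lower bound of `b` for the condition that `G` extends `g`

Let `m` fit at level `n'`, let `n ≤ n'`, `k ≤ k' ≤ n'`, and let `g : Fin k' → Str A n` be the
restriction of `G` (first `n` letters of the first `k'` coordinates). Write `f'_a` for the image of
`m.f a` under `res`. For a state `a` whose point restricts to the first `k` entries of `g`, all
tuples `y : Fin k' → Str A n'` with `y i = m.x a i` (`i < k`) and, for `i ≥ k`, `y i` in the support
of `m.f a` and `res (y i) = g i`, belong to `gs (F.or (FPin k' n G)) n' T k' q`, with reservoir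
`R_a` = the support of `m.f a` (`q ≤ dens R_a` because `1 = ∑ f ≤ card R_a * (1 / q) / card`;
`Good.extend` for `F`; a sequence whose first `k'` coordinates are `y` at level `n'` is compatible
with `G`). The number of these `y` is at least `∏_{k ≤ i < k'} (q * f'_a (g i) * card (Str A n'))`,
since `f'_a (g i) ≤ (number of elements of the support above g i) * (1 / q) / card`.
For fixed `x : Fin k → Str A n'` (restricting to `g`) let `a` run through the states with point
`x`; the number `N_x` of the `y ∈ gs` which extend `x` is at least the maximum over `a` of these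
products, so at least their average with the weights `m.w a`; and
`∑_{a : x a = x} w a ≤ (1 / q') / card ^ k`. So
`N_x * (1 / q') / card ^ k ≥ ∑_{a : x a = x} w a * ∏ (q * f'_a (g i) * card)`. Sum over `x` and
divide by `card ^ k'`.
-/

set_option autoImplicit false

namespace Pool.Agent.OSM

open Finset Pool.Agent.PTree
open scoped Classical

/-- the support of a probability function of small density is large -/
private theorem supp_dens {α : Type} [Fintype α] [Nonempty α] {q : ℝ} (hq : 0 < q) {f : α → ℝ}
    (h0 : ∀ y, 0 ≤ f y) (h1 : ∑ y, f y = 1)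
    (h2 : ∀ y, f y ≤ (1 / q) / (Fintype.card α : ℝ)) :
    q ≤ dens (univ.filter fun y => 0 < f y) := by
  have hN : (0 : ℝ) < Fintype.card α := by exact_mod_cast Fintype.card_pos
  have e : ∑ y, f y = ∑ y ∈ univ.filter (fun y => 0 < f y), f y := by
    rw [Finset.sum_filter]
    refine Finset.sum_congr rfl fun y _ => ?_
    split_ifs with h
    · rfl
    · exact le_antisymm (not_lt.1 h) (h0 y)
  have h3 : ∑ y ∈ univ.filter (fun y => 0 < f y), f y ≤
      ((univ.filter fun y => 0 < f y).card : ℝ) * ((1 / q) / (Fintype.card α : ℝ)) := by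
    rw [← nsmul_eq_mul]
    exact Finset.sum_le_card_nsmul _ _ _ fun y _ => h2 y
  rw [← e, h1] at h3
  unfold dens
  rw [le_div_iff₀ hN]
  have h4 : ((univ.filter fun y => 0 < f y).card : ℝ) * ((1 / q) / (Fintype.card α : ℝ)) =
      ((univ.filter fun y => 0 < f y).card : ℝ) / (q * (Fintype.card α : ℝ)) := by
    field_simp
  rw [h4, le_div_iff₀ (mul_pos hq hN)] at h3
  linarith

private theorem card_fin_ge {k k' : ℕ} :
    (univ.filter fun i : Fin k' => k ≤ (i : ℕ)).card = k' - k := by
  have h : (univ.filter fun i : Fin k' => k ≤ (i : ℕ)).image (fun i : Fin k' => (i : ℕ)) =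
      Finset.Ico k k' := by
    ext j
    rw [Finset.mem_image, Finset.mem_Ico]
    constructor
    · rintro ⟨i, hi, rfl⟩
      exact ⟨(Finset.mem_filter.1 hi).2, i.2⟩
    · rintro ⟨h1, h2⟩
      exact ⟨⟨j, h2⟩, Finset.mem_filter.2 ⟨Finset.mem_univ _, h1⟩, rfl⟩
  rw [← Finset.card_image_of_injective _ Fin.val_injective, h, Nat.card_Ico]

theorem b_low {A : Type} [Fintype A] [Nonempty A] {F : Forb A} {n n' k k' : ℕ} {T : StrSet}
    {q q' : ℝ} (hq : 0 < q) (hq' : 0 < q') (hn : n ≤ n') (hk : k ≤ k') (hk' : k' ≤ n')
    {m : Mx (Fin k → Str A n') (Str A n')} (hm : Fit F n' T k q q' m) (G : ℕ → ℕ → A)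
    (P : Mx (Fin k → Str A n) (Str A n)) (hP : P = m.map (fun x i => res hn (x i)) (res hn)) :
    q' * q ^ (k' - k) * ∑ a, (if P.x a = (fun i : Fin k => cut n (G i)) then
      P.w a * ∏ i : Fin k', (if k ≤ (i : ℕ) then P.f a (cut n (G i)) else 1) else 0) ≤
      b (F.or (FPin k' n G)) n' T k' q := by
  subst hP
  set N : ℝ := (Fintype.card (Str A n') : ℝ) with hNdef
  have hN : 0 < N := by
    rw [hNdef]; exact_mod_cast Fintype.card_pos
  have hcx : ∀ r : ℕ, (Fintype.card (Fin r → Str A n') : ℝ) = N ^ r := by
    intro r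
    rw [Fintype.card_fun, Fintype.card_fin]
    push_cast
    rfl
  -- the image functions
  set f' : m.ι → Str A n → ℝ := fun a y' => ∑ y, if res hn y = y' then m.f a y else 0 with hf'
  set c : m.ι → Fin k' → Finset (Str A n') := fun a i =>
    if h : (i : ℕ) < k then {m.x a ⟨i, h⟩} else
      univ.filter fun s => 0 < m.f a s ∧ res hn s = cut n (G i) with hc
  set S : Finset (Fin k' → Str A n') := gs (F.or (FPin k' n G)) n' T k' q with hS
  have h1 : ∀ a, (fun i => res hn (m.x a i)) = (fun i : Fin k => cut n (G i)) →
      Fintype.piFinset (c a) ⊆ S.filter fun y => (fun i : Fin k => y (i.castLE hk)) = m.x a := by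
    intro a ha y hy
    rw [Fintype.mem_piFinset] at hy
    have hx : ∀ i : Fin k, y (i.castLE hk) = m.x a i := by
      intro i
      have h := hy (i.castLE hk)
      have hlt : ((i.castLE hk : Fin k') : ℕ) < k := i.2
      simp only [hc, dif_pos hlt, Finset.mem_singleton] at h
      exact h
    have hR : ∀ i : Fin k', k ≤ (i : ℕ) → 0 < m.f a (y i) ∧ res hn (y i) = cut n (G i) := by
      intro i hi
      have h := hy i
      simp only [hc, dif_neg (not_lt.2 hi), Finset.mem_filter, Finset.mem_univ, true_and] at h
      exact h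
    have hres : ∀ i : Fin k', res hn (y i) = cut n (G i) := by
      intro i
      by_cases hi : (i : ℕ) < k
      · have e : y i = m.x a ⟨i, hi⟩ := by
          rw [← hx ⟨i, hi⟩]
          rfl
        rw [e]
        exact congrFun ha ⟨i, hi⟩
      · exact (hR i (not_lt.1 hi)).2
    rw [Finset.mem_filter]
    refine ⟨?_, funext hx⟩
    rw [hS, mem_gs]
    refine ⟨univ.filter fun y => 0 < m.f a y,
      supp_dens hq (hm.ok.f_nonneg a) (hm.ok.f_sum a) (hm.f_le a), ?_⟩
    have hg : Good F n' T y (univ.filter fun y => 0 < m.f a y) :=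
      Good.extend hk hx (fun i hi => Finset.mem_filter.2 ⟨Finset.mem_univ _, (hR i hi).1⟩)
        (hm.good a)
    intro G' hG' hG''
    rintro (hb | ⟨_, _, i, hi, j, hj, hne⟩)
    · exact hg G' hG' hG'' hb
    · apply hne
      have e1 := congrFun (hres ⟨i, hi⟩) ⟨j, hj⟩
      rw [← hG' ⟨i, hi⟩] at e1
      exact e1
  have h2 : ∀ a, ∏ i : Fin k', (if k ≤ (i : ℕ) then q * f' a (cut n (G i)) * N else 1) ≤
      ((Fintype.piFinset (c a)).card : ℝ) := by
    intro a
    rw [Fintype.card_piFinset]
    push_cast
    apply Finset.prod_le_prod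
    · intro i _
      split_ifs
      · have : 0 ≤ f' a (cut n (G i)) := by
          rw [hf']
          exact Finset.sum_nonneg fun y _ => by
            split_ifs
            · exact hm.ok.f_nonneg a y
            · exact le_rfl
        positivity
      · exact zero_le_one
    · intro i _
      by_cases hi : k ≤ (i : ℕ)
      · rw [if_pos hi]
        simp only [hc, dif_neg (not_lt.2 hi)]
        have e : f' a (cut n (G i)) =
            ∑ y ∈ univ.filter (fun s => 0 < m.f a s ∧ res hn s = cut n (G i)), m.f a y := by
          simp only [hf']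
          rw [Finset.sum_filter]
          refine Finset.sum_congr rfl fun y _ => ?_
          by_cases hy : res hn y = cut n (G i)
          · rw [if_pos hy]
            split_ifs with h
            · rfl
            · exact le_antisymm (not_lt.1 fun h' => h ⟨h', hy⟩) (hm.ok.f_nonneg a y)
          · rw [if_neg hy, if_neg fun h => hy h.2]
        have h3 : f' a (cut n (G i)) ≤
            ((univ.filter fun s => 0 < m.f a s ∧ res hn s = cut n (G i)).card : ℝ) *
              ((1 / q) / N) := by
          rw [e, ← nsmul_eq_mul]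
          exact Finset.sum_le_card_nsmul _ _ _ fun y _ => hm.f_le a y
        have h4 := mul_le_mul_of_nonneg_left h3 (mul_pos hq hN).le
        have h5 : q * N * (((univ.filter fun s => 0 < m.f a s ∧
            res hn s = cut n (G i)).card : ℝ) * ((1 / q) / N)) =
            ((univ.filter fun s => 0 < m.f a s ∧ res hn s = cut n (G i)).card : ℝ) := by
          field_simp
        rw [h5] at h4
        linarith
      · rw [if_neg hi]
        simp only [hc, dif_pos (not_le.1 hi), Finset.card_singleton, Nat.cast_one]
        exact le_rfl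
  have hprod : ∀ x : Fin k' → ℝ, ∏ i : Fin k', (if k ≤ (i : ℕ) then q * x i * N else 1) =
      (q * N) ^ (k' - k) * ∏ i : Fin k', (if k ≤ (i : ℕ) then x i else 1) := by
    intro x
    have h : ∀ i : Fin k', (if k ≤ (i : ℕ) then q * x i * N else 1) =
        (if k ≤ (i : ℕ) then q * N else 1) * (if k ≤ (i : ℕ) then x i else 1) := by
      intro i
      split_ifs <;> ring
    rw [Finset.prod_congr rfl fun i _ => h i, Finset.prod_mul_distrib]
    congr 1
    rw [Finset.prod_ite, Finset.prod_const_one, mul_one, Finset.prod_const, card_fin_ge]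
  -- sum over the points
  set Nx : (Fin k → Str A n') → ℝ := fun x =>
    ((S.filter fun y => (fun i : Fin k => y (i.castLE hk)) = x).card : ℝ) with hNx
  have h3 : ∑ x, Nx x = (S.card : ℝ) := by
    simp only [hNx]
    have h := Finset.card_eq_sum_card_fiberwise (s := S) (t := univ)
      (f := fun y : Fin k' → Str A n' => (fun i : Fin k => y (i.castLE hk)))
      (fun _ _ => Finset.mem_coe.2 (Finset.mem_univ _))
    rw [h]
    push_cast
    rfl
  have h4 : ∑ a, (if (fun i => res hn (m.x a i)) = (fun i : Fin k => cut n (G i)) then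
      m.w a * ∏ i : Fin k', (if k ≤ (i : ℕ) then q * f' a (cut n (G i)) * N else 1) else 0) ≤
      ∑ a, m.w a * Nx (m.x a) := by
    refine Finset.sum_le_sum fun a _ => ?_
    split_ifs with ha
    · refine mul_le_mul_of_nonneg_left ?_ (hm.ok.w_nonneg a)
      refine (h2 a).trans ?_
      simp only [hNx]
      exact_mod_cast Finset.card_le_card (h1 a ha)
    · exact mul_nonneg (hm.ok.w_nonneg a) (Nat.cast_nonneg _)
  have h5 : ∑ a, m.w a * Nx (m.x a) ≤ (S.card : ℝ) * ((1 / q') / N ^ k) := by
    have e : ∑ a, m.w a * Nx (m.x a) = ∑ x, Nx x * ∑ a, (if m.x a = x then m.w a else 0) := by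
      have e1 : ∀ x, Nx x * ∑ a, (if m.x a = x then m.w a else 0) =
          ∑ a, (if m.x a = x then m.w a * Nx (m.x a) else 0) := by
        intro x
        rw [Finset.mul_sum]
        refine Finset.sum_congr rfl fun a _ => ?_
        split_ifs with h
        · rw [h]; ring
        · rw [mul_zero]
      rw [Finset.sum_congr rfl fun x _ => e1 x, Finset.sum_comm]
      refine Finset.sum_congr rfl fun a _ => ?_
      rw [Finset.sum_ite_eq univ (m.x a) (fun _ => m.w a * Nx (m.x a)),
        if_pos (Finset.mem_univ _)]
    rw [e, ← h3, Finset.sum_mul]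
    refine Finset.sum_le_sum fun x _ => ?_
    refine mul_le_mul_of_nonneg_left ?_ (Nat.cast_nonneg _)
    have h := hm.x_le x
    rw [hcx k] at h
    exact h
  have h6 : (q * N) ^ (k' - k) * ∑ a, (if (fun i => res hn (m.x a i)) =
      (fun i : Fin k => cut n (G i)) then
      m.w a * ∏ i : Fin k', (if k ≤ (i : ℕ) then f' a (cut n (G i)) else 1) else 0) ≤
      (S.card : ℝ) * ((1 / q') / N ^ k) := by
    refine le_trans (le_of_eq ?_) (h4.trans h5)
    rw [Finset.mul_sum]
    refine Finset.sum_congr rfl fun a _ => ?_
    split_ifs with ha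
    · rw [hprod]; ring
    · rw [mul_zero]
  have hb : b (F.or (FPin k' n G)) n' T k' q = (S.card : ℝ) / N ^ k' := by
    unfold b dens
    rw [hcx k']
  rw [hb, le_div_iff₀ (pow_pos hN _)]
  have e7 : N ^ k' = N ^ (k' - k) * N ^ k := by
    rw [← pow_add, Nat.sub_add_cancel hk]
  have h8 := mul_le_mul_of_nonneg_left h6 (mul_pos hq' (pow_pos hN k)).le
  have e9 : q' * N ^ k * ((S.card : ℝ) * ((1 / q') / N ^ k)) = S.card := by
    have := (pow_pos hN k).ne'
    field_simp
  rw [e9] at h8
  have e10 : (∑ a, (if (m.map (fun x i => res hn (x i)) (res hn)).x a =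
      (fun i : Fin k => cut n (G i)) then
      (m.map (fun x i => res hn (x i)) (res hn)).w a * ∏ i : Fin k', (if k ≤ (i : ℕ) then
        (m.map (fun x i => res hn (x i)) (res hn)).f a (cut n (G i)) else 1) else 0)) =
      ∑ a, (if (fun i => res hn (m.x a i)) = (fun i : Fin k => cut n (G i)) then
      m.w a * ∏ i : Fin k', (if k ≤ (i : ℕ) then f' a (cut n (G i)) else 1) else 0) := by
    refine Finset.sum_congr rfl fun a _ => ?_
    have ep : (∏ i : Fin k', (if k ≤ (i : ℕ) then
        (m.map (fun x i => res hn (x i)) (res hn)).f a (cut n (G i)) else 1)) =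
        ∏ i : Fin k', (if k ≤ (i : ℕ) then f' a (cut n (G i)) else 1) := by
      refine Finset.prod_congr rfl fun i _ => ?_
      by_cases hi : k ≤ (i : ℕ)
      · rw [if_pos hi, if_pos hi]
        simp only [hf', Mx.map]
        refine Finset.sum_congr rfl fun y _ => ?_
        by_cases hy : res hn y = cut n (G i)
        · rw [if_pos hy, if_pos hy]
        · rw [if_neg hy, if_neg hy]
      · rw [if_neg hi, if_neg hi]
    rw [ep]
    by_cases ha : (fun i => res hn (m.x a i)) = (fun i : Fin k => cut n (G i))
    · have ha' : (m.map (fun x i => res hn (x i)) (res hn)).x a =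
          (fun i : Fin k => cut n (G i)) := ha
      rw [if_pos ha, if_pos ha']
      rfl
    · have ha' : ¬ (m.map (fun x i => res hn (x i)) (res hn)).x a =
          (fun i : Fin k => cut n (G i)) := ha
      rw [if_neg ha, if_neg ha']
  rw [e10]
  refine le_trans (le_of_eq ?_) h8
  rw [e7, mul_pow]
  ring

end Pool.Agent.OSM
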