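import Pool.Agent.OSM.Fib

/-!
# OSM/Basic: basic properties of `Good` and `b`

Proofs.
* `Good.loc`: by `Forb.loc` (in both directions, `Agree` is symmetric: `Agree.symm`).
* `Good.restrict`: let `G` be as in the definition for level `n`, tuple `res x i` and reservoir the
  image. For `i < k` let `G' i` be a sequence with first `n'` letters `x i`; for `i ≥ k` choose
  `s ∈ R` with `res s = cut n (G i)` and let `G' i` have the first `n'` letters `s` (continue with
  any letter of the nonempty `A`). If `G` were bad at level `n` then so is `G'` (`loc`, they agree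
  on the first `n` letters), hence `G'` is bad at level `n'` (`mono_le`), contradiction.
* `b_anti`: the map `fun x i => res h (x i)` maps `gs n'` into `gs n` (`Good.restrict`, and the
  image of `R` has at least the density of `R`: `dens_image_ge (eqFib_res h)`); use
  `dens_le_of_maps (eqFib_comp (eqFib_res h) k)`.
* `Good.extend`: if `x' : Fin k' → _` extends `x` and the new coordinates are in `R` then
  `(x', R)` is good.
* `b_extend`: for each `x ∈ gs k` choose a good `R` with `q ≤ dens R`; all extensions of `x` by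
  elements of `R` are in `gs k'`: their number is `R.card ^ (k' - k) ≥ (q * card) ^ (k' - k)`.
  (E.g. induction on `k'`: `b k q * q ≤ b (k+1) q`, with `Fin.snoc`; `gs (k+1)` contains
  `snoc x s`, `x ∈ gs k`, `s ∈ R x`; the map `snoc` is injective.)
-/

set_option autoImplicit false

namespace Pool.Agent.OSM

open Finset Pool.Agent.PTree
open scoped Classical

variable {A : Type}

theorem Forb.mono_le (F : Forb A) {n n' : ℕ} (h : n ≤ n') {T : StrSet} {G : ℕ → ℕ → A}
    (hb : F.bad n T G) : F.bad n' T G := by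
  induction n', h using Nat.le_induction with
  | base => exact hb
  | succ m _ ih => exact F.mono ih

theorem Forb.Le.trans {F F' F'' : Forb A} (h : F.Le F') (h' : F'.Le F'') : F.Le F'' :=
  fun n T G hb => h' n T G (h n T G hb)

theorem Forb.Le.refl (F : Forb A) : F.Le F := fun _ _ _ h => h

theorem Forb.le_or_left (F F' : Forb A) : F.Le (F.or F') := fun _ _ _ h => Or.inl h

theorem Good.loc {F : Forb A} {n k : ℕ} {T T' : StrSet} {x : Fin k → Str A n}
    {R : Finset (Str A n)} (h : Agree n T T') (hg : Good F n T x R) : Good F n T' x R := by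
  intro G h1 h2 hb
  exact hg G h1 h2 (F.loc h.symm (fun _ _ _ _ => rfl) hb)

theorem Good.mono {F F' : Forb A} {n k : ℕ} {T : StrSet} {x : Fin k → Str A n}
    {R R' : Finset (Str A n)} (hF : F'.Le F) (hR : R' ⊆ R) (hg : Good F n T x R) :
    Good F' n T x R' := by
  intro G h1 h2 hb
  exact hg G h1 (fun i hi => hR (h2 i hi)) (hF n T G hb)

theorem Good.restrict [Nonempty A] {F : Forb A} {n n' k : ℕ} (h : n ≤ n') {T : StrSet}
    {x : Fin k → Str A n'} {R : Finset (Str A n')} (hg : Good F n' T x R) :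
    Good F n T (fun i => res h (x i)) (R.image (res h)) := by
  intro G h1 h2 hb
  have key : ∀ i : ℕ, ∃ t : Str A n', res h t = cut n (G i) ∧ (∀ hi : i < k, t = x ⟨i, hi⟩) ∧
      (k ≤ i → t ∈ R) := by
    intro i
    by_cases hi : i < k
    · exact ⟨x ⟨i, hi⟩, (h1 ⟨i, hi⟩).symm, fun _ => rfl, fun h3 => absurd hi (not_lt.mpr h3)⟩
    · obtain ⟨t, ht, he⟩ := Finset.mem_image.mp (h2 i (not_lt.mp hi))
      exact ⟨t, he, fun h3 => absurd h3 hi, fun _ => ht⟩
  choose t ht1 ht2 ht3 using key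
  have hcut : ∀ i, cut n' (fun j => if hj : j < n' then t i ⟨j, hj⟩ else Classical.arbitrary A) =
      t i := by
    intro i
    funext j
    simp only [cut, Fin.is_lt, dif_pos, Fin.eta]
  refine hg (fun i j => if hj : j < n' then t i ⟨j, hj⟩ else Classical.arbitrary A) ?_ ?_ ?_
  · intro i
    rw [hcut, ht2 i i.2]
  · intro i hi
    rw [hcut]
    exact ht3 i hi
  · apply F.mono_le h
    refine F.loc (fun _ _ => rfl) ?_ hb
    intro i _ j hj
    have h3 := congrFun (ht1 i) ⟨j, hj⟩
    simp only [res, cut] at h3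
    rw [dif_pos (hj.trans_le h)]
    exact h3

theorem Good.extend {F : Forb A} {n k k' : ℕ} (hk : k ≤ k') {T : StrSet}
    {x : Fin k → Str A n} {x' : Fin k' → Str A n} {R : Finset (Str A n)}
    (hx : ∀ i : Fin k, x' (i.castLE hk) = x i) (hR : ∀ i : Fin k', k ≤ (i : ℕ) → x' i ∈ R)
    (hg : Good F n T x R) : Good F n T x' R := by
  intro G h1 h2 hb
  refine hg G (fun i => ?_) (fun i hi => ?_) hb
  · have h3 := h1 (i.castLE hk)
    rw [hx] at h3
    exact h3
  · by_cases hi' : i < k'
    · have h3 := h1 ⟨i, hi'⟩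
      rw [h3]
      exact hR ⟨i, hi'⟩ hi
    · exact h2 i (not_lt.mp hi')

variable [Fintype A]

theorem mem_gs {F : Forb A} {n k : ℕ} {T : StrSet} {q : ℝ} {x : Fin k → Str A n} :
    x ∈ gs F n T k q ↔ ∃ R : Finset (Str A n), q ≤ dens R ∧ Good F n T x R := by
  simp [gs]

theorem b_nonneg (F : Forb A) (n : ℕ) (T : StrSet) (k : ℕ) (q : ℝ) : 0 ≤ b F n T k q :=
  dens_nonneg _

theorem b_le_one (F : Forb A) (n : ℕ) (T : StrSet) (k : ℕ) (q : ℝ) : b F n T k q ≤ 1 :=
  dens_le_one _

theorem b_anti [Nonempty A] (F : Forb A) {n n' : ℕ} (h : n ≤ n') (T : StrSet) (k : ℕ) (q : ℝ) :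
    b F n' T k q ≤ b F n T k q := by
  refine dens_le_of_maps (eqFib_comp (eqFib_res h) k) fun x hx => ?_
  obtain ⟨R, hR, hg⟩ := mem_gs.mp hx
  refine mem_gs.mpr ⟨_, hR.trans (dens_image_ge (eqFib_res h) R), ?_⟩
  refine (hg.restrict h).mono (Forb.Le.refl F) ?_
  intro z hz
  simp only [Finset.mem_image] at hz ⊢
  exact hz

theorem b_loc (F : Forb A) {n : ℕ} {T T' : StrSet} (h : Agree n T T') (k : ℕ) (q : ℝ) :
    b F n T' k q = b F n T k q := by
  have e : gs F n T' k q = gs F n T k q := by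
    ext x
    rw [mem_gs, mem_gs]
    constructor
    · rintro ⟨R, hR, hg⟩
      exact ⟨R, hR, hg.loc h.symm⟩
    · rintro ⟨R, hR, hg⟩
      exact ⟨R, hR, hg.loc h⟩
  unfold b
  rw [e]

theorem b_anti_q (F : Forb A) (n : ℕ) (T : StrSet) (k : ℕ) {q r : ℝ} (h : q ≤ r) :
    b F n T k r ≤ b F n T k q := by
  refine dens_mono fun x hx => ?_
  obtain ⟨R, hR, hg⟩ := mem_gs.mp hx
  exact mem_gs.mpr ⟨R, h.trans hR, hg⟩

theorem b_anti_forb {F F' : Forb A} (h : F.Le F') (n : ℕ) (T : StrSet) (k : ℕ) (q : ℝ) :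
    b F' n T k q ≤ b F n T k q := by
  refine dens_mono fun x hx => ?_
  obtain ⟨R, hR, hg⟩ := mem_gs.mp hx
  exact mem_gs.mpr ⟨R, hR, hg.mono h (Finset.Subset.refl R)⟩

theorem Robust.mono {F : Forb A} {k : ℕ} {q q' : ℝ} {N N' : Set StrSet}
    (h : Robust F k q q' N) (hN : N' ⊆ N) : Robust F k q q' N' :=
  fun T hT => h T (hN hT)

private theorem b_step [Nonempty A] (F : Forb A) (n : ℕ) (T : StrSet) (m : ℕ) {q : ℝ} :
    b F n T m q * q ≤ b F n T (m + 1) q := by
  have hR : ∀ x : Fin m → Str A n, ∃ R : Finset (Str A n), x ∈ gs F n T m q →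
      q ≤ dens R ∧ Good F n T x R := by
    intro x
    by_cases hx : x ∈ gs F n T m q
    · obtain ⟨R, h⟩ := mem_gs.mp hx
      exact ⟨R, fun _ => h⟩
    · exact ⟨∅, fun h => absurd h hx⟩
  choose R hR using hR
  obtain ⟨N, hN⟩ : ∃ N : ℕ, N = Fintype.card (Str A n) := ⟨_, rfl⟩
  have hN0 : 0 < N := by rw [hN]; exact Fintype.card_pos
  have hNr : (0 : ℝ) < (N : ℝ) := by exact_mod_cast hN0
  have hcard : ∀ j : ℕ, Fintype.card (Fin j → Str A n) = N ^ j := by
    intro j
    rw [hN]
    simp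
  obtain ⟨S, hS⟩ : ∃ S : Finset ((_ : Fin m → Str A n) × Str A n),
      S = (gs F n T m q).sigma R := ⟨_, rfl⟩
  have hinj : Set.InjOn (fun p : (_ : Fin m → Str A n) × Str A n =>
      (Fin.snoc p.1 p.2 : Fin (m + 1) → Str A n)) (S : Set _) := by
    rintro ⟨x, s⟩ _ ⟨y, t⟩ _ h
    have h' : (Fin.snoc x s : Fin (m + 1) → Str A n) = Fin.snoc y t := h
    obtain ⟨h1, h2⟩ := Fin.snoc_injective2 h'
    rw [h1, h2]
  have himg : S.image (fun p => (Fin.snoc p.1 p.2 : Fin (m + 1) → Str A n)) ⊆
      gs F n T (m + 1) q := by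
    intro z hz
    obtain ⟨⟨x, s⟩, hp, rfl⟩ := Finset.mem_image.mp hz
    rw [hS, Finset.mem_sigma] at hp
    obtain ⟨h1, h2⟩ := hR x hp.1
    refine mem_gs.mpr ⟨R x, h1, h2.extend (Nat.le_succ m) (fun i => ?_) (fun i hi => ?_)⟩
    · exact Fin.snoc_castSucc (α := fun _ => Str A n) s x i
    · have hi' : i = Fin.last m := by
        apply Fin.ext
        have := i.2
        simp only [Fin.val_last]
        omega
      rw [hi']
      change (Fin.snoc (α := fun _ => Str A n) x s (Fin.last m)) ∈ R x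
      rw [Fin.snoc_last]
      exact hp.2
  have h1 : ((gs F n T m q).card : ℝ) * (q * N) ≤ ((gs F n T (m + 1) q).card : ℝ) := by
    have h2 : S.card ≤ (gs F n T (m + 1) q).card := by
      rw [← Finset.card_image_of_injOn hinj]
      exact Finset.card_le_card himg
    have h3 : (S.card : ℝ) = ∑ x ∈ gs F n T m q, ((R x).card : ℝ) := by
      rw [hS, Finset.card_sigma]
      push_cast
      rfl
    have h4 : ∑ x ∈ gs F n T m q, (q * N : ℝ) ≤ ∑ x ∈ gs F n T m q, ((R x).card : ℝ) := by
      refine Finset.sum_le_sum fun x hx => ?_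
      have h5 := (hR x hx).1
      unfold dens at h5
      rw [← hN, le_div_iff₀ hNr] at h5
      exact h5
    rw [Finset.sum_const, nsmul_eq_mul] at h4
    have h6 : (S.card : ℝ) ≤ ((gs F n T (m + 1) q).card : ℝ) := by exact_mod_cast h2
    linarith
  unfold b dens
  rw [hcard, hcard]
  push_cast
  rw [pow_succ, div_mul_eq_mul_div, div_le_div_iff₀ (by positivity) (by positivity)]
  have h7 : (0 : ℝ) ≤ (N : ℝ) ^ m := by positivity
  calc ((gs F n T m q).card : ℝ) * q * ((N : ℝ) ^ m * N)
      = ((gs F n T m q).card : ℝ) * (q * N) * (N : ℝ) ^ m := by ring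
    _ ≤ ((gs F n T (m + 1) q).card : ℝ) * (N : ℝ) ^ m := mul_le_mul_of_nonneg_right h1 h7

/-- New fixed coordinates can be taken from the reservoir. -/
theorem b_extend [Nonempty A] (F : Forb A) (n : ℕ) (T : StrSet) {k k' : ℕ} (hk : k ≤ k') {q : ℝ}
    (hq : 0 ≤ q) : b F n T k q * q ^ (k' - k) ≤ b F n T k' q := by
  induction k', hk using Nat.le_induction with
  | base => simp
  | succ m hm ih =>
    have e : m + 1 - k = (m - k) + 1 := by omega
    rw [e, pow_succ, ← mul_assoc]
    exact (mul_le_mul_of_nonneg_right ih hq).trans (b_step F n T m)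

end Pool.Agent.OSM
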