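import Pool.Agent.OSM.KillE

/-!
# OSM/Chain: countably many systems with countably many steps each

Construct by recursion on `s` states `(T_s, m_s, c_s, f_s)`, `f_s : ∀ j, P j`, and step counters,
starting with the full tree (`fun _ => true`, `M_full`), `m = 0`, `c = 1/2` and `f_0 = p0`. At stage
`s = Nat.pair j i` (that is `Nat.unpair s = (j, i)`) perform step `i` of system `j`: `Hold j i (f_s j)
(Nb T_s m_s c_s)` holds because all the steps `i' < i` of `j` were performed at the earlier stages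
`Nat.pair j i'` (`Nat.pair_lt_pair_right`) and no other step of `j`. Change `f_s` at `j` to the new
`p'` (`Function.update`), the others keep their `Hold` by `anti` (`Nb.subset`). Invariant: for all
`j`, `Hold j (number of i with Nat.pair j i < s) (f_s j) (Nb T_s m_s c_s)`. (Alternatively keep in
the state a counter `i_s : ℕ → ℕ` with the invariant `Hold j (i_s j) (f_s j) (Nb ..)` and at stage
`s` perform the next step of system `(Nat.unpair s).1`; every `j` is treated infinitely often; the
sequence `p` of system `j` is then obtained from the stages at which its counter changes.)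
Increase `m_s` strictly, and choose `c_{s+1}` strictly larger than `c_s` and less than `M T_{s+1}`
(after the step replace `(m1, c1)` by `(m1 + 1, (c1 + M T1) / 2)`, using `anti`). The limit tree
exists by `limit_tree` (`PTree/Hull`), see `OSM/Fusion`; it is in all `Nb T_s m_s c_s`.
-/

set_option autoImplicit false

namespace Pool.Agent.OSM

open Finset Pool.Agent.PTree
open scoped Classical

/-- The states of the recursion. -/
private structure St (P : ℕ → Type) (Hold : ∀ j, ℕ → P j → Set StrSet → Prop) where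
  T : StrSet
  m : ℕ
  c : ℝ
  f : ∀ j, P j
  k : ℕ → ℕ
  tree : IsTree T
  lt : c < M T
  hold : ∀ j, Hold j (k j) (f j) (Nb T m c)

private theorem next_ex {P : ℕ → Type} {Hold : ∀ j, ℕ → P j → Set StrSet → Prop}
    (anti : ∀ j i p N N', N' ⊆ N → Hold j i p N → Hold j i p N')
    {R : ∀ j, P j → P j → Prop}
    (hstep : ∀ j i p T0 m c, IsTree T0 → c < M T0 → Hold j i p (Nb T0 m c) →
      ∃ T1 m1 c1 p', T1 ∈ Nb T0 m c ∧ m ≤ m1 ∧ c ≤ c1 ∧ c1 < M T1 ∧ R j p p' ∧
        Hold j (i + 1) p' (Nb T1 m1 c1)) (σ : St P Hold) (j : ℕ) :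
    ∃ σ' : St P Hold, σ'.T ∈ Nb σ.T σ.m σ.c ∧ σ.m < σ'.m ∧ σ.c < σ'.c ∧ σ'.k j = σ.k j + 1 ∧
      (∀ j', j' ≠ j → σ'.k j' = σ.k j' ∧ σ'.f j' = σ.f j') ∧ R j (σ.f j) (σ'.f j) := by
  obtain ⟨T1, m1, c1, p', hT1, hm1, hc1, hlt, hR, hH⟩ :=
    hstep j (σ.k j) (σ.f j) σ.T σ.m σ.c σ.tree σ.lt (σ.hold j)
  have hc2 : c1 < (c1 + M T1) / 2 := by linarith
  refine ⟨⟨T1, m1 + 1, (c1 + M T1) / 2, Function.update σ.f j p',
    Function.update σ.k j (σ.k j + 1), hT1.1, by linarith, ?_⟩, hT1, ?_, ?_, ?_, ?_, ?_⟩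
  · intro j'
    by_cases hj : j' = j
    · subst hj
      rw [Function.update_self, Function.update_self]
      exact anti _ _ _ _ _ (Nb.subset (Nb.self hT1.1 m1 hlt) (Nat.le_succ _) hc2.le) hH
    · rw [Function.update_of_ne hj, Function.update_of_ne hj]
      exact anti _ _ _ _ _ (Nb.subset hT1 (hm1.trans (Nat.le_succ _)) (hc1.trans hc2.le)) (σ.hold j')
  · exact Nat.lt_succ_of_le hm1
  · exact lt_of_le_of_lt hc1 hc2
  · exact Function.update_self _ _ _
  · intro j' hj
    exact ⟨Function.update_of_ne hj _ _, Function.update_of_ne hj _ _⟩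
  · show R j (σ.f j) (Function.update σ.f j p' j)
    rw [Function.update_self]
    exact hR

theorem chain {P : ℕ → Type} (p0 : ∀ j, P j) (Hold : ∀ j, ℕ → P j → Set StrSet → Prop)
    (anti : ∀ j i p N N', N' ⊆ N → Hold j i p N → Hold j i p N')
    (h0 : ∀ j N, Hold j 0 (p0 j) N) (R : ∀ j, P j → P j → Prop)
    (hstep : ∀ j i p T0 m c, IsTree T0 → c < M T0 → Hold j i p (Nb T0 m c) →
      ∃ T1 m1 c1 p', T1 ∈ Nb T0 m c ∧ m ≤ m1 ∧ c ≤ c1 ∧ c1 < M T1 ∧ R j p p' ∧
        Hold j (i + 1) p' (Nb T1 m1 c1)) :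
    ∃ T, IsTree T ∧ 0 < M T ∧ ∀ j, ∃ p : ℕ → P j, ∀ i, R j (p i) (p (i + 1)) ∧
      ∃ N : Set StrSet, T ∈ N ∧ Hold j i (p i) N := by
  choose next hT hm hc hk hoth hR using next_ex anti hstep
  let init : St P Hold :=
    { T := fun _ => true, m := 0, c := 1 / 2, f := p0, k := fun _ => 0
      tree := fun _ _ _ _ => rfl
      lt := by rw [M_full]; norm_num
      hold := fun j => h0 j _ }
  let S : ℕ → St P Hold := fun n => Nat.rec init (fun n σ => next σ (Nat.unpair n).1) n
  have hS0 : S 0 = init := rfl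
  have hSs : ∀ n, S (n + 1) = next (S n) (Nat.unpair n).1 := fun n => rfl
  -- the steps
  have sT : ∀ n, (S (n + 1)).T ∈ Nb (S n).T (S n).m (S n).c := fun n => by
    rw [hSs]; exact hT _ _
  have sm : ∀ n, (S n).m < (S (n + 1)).m := fun n => by rw [hSs]; exact hm _ _
  have sc : ∀ n, (S n).c < (S (n + 1)).c := fun n => by rw [hSs]; exact hc _ _
  -- nothing happens to the system `j` between its stages
  have const : ∀ (j a b : ℕ), a ≤ b → (∀ s, a ≤ s → s < b → (Nat.unpair s).1 ≠ j) →
      (S b).k j = (S a).k j ∧ (S b).f j = (S a).f j := by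
    intro j a b hab
    induction b, hab using Nat.le_induction with
    | base => intro _; exact ⟨rfl, rfl⟩
    | succ b hab ih =>
      intro h
      obtain ⟨h1, h2⟩ := ih fun s hs hsb => h s hs (hsb.trans (Nat.lt_succ_self _))
      obtain ⟨h3, h4⟩ := hoth (S b) (Nat.unpair b).1 j (h b hab (Nat.lt_succ_self _)).symm
      rw [hSs]
      exact ⟨h3.trans h1, h4.trans h2⟩
  have btw : ∀ j i s, Nat.pair j i + 1 ≤ s → s < Nat.pair j (i + 1) → (Nat.unpair s).1 ≠ j := by
    intro j i s h1 h2 h3
    have h4 : s = Nat.pair j (Nat.unpair s).2 := by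
      conv_lhs => rw [← Nat.pair_unpair s, h3]
    rw [h4] at h1 h2
    have h5 : i < (Nat.unpair s).2 := by
      by_contra hcon
      push Not at hcon
      rcases hcon.eq_or_lt with h | h
      · rw [h] at h1; omega
      · have := Nat.pair_lt_pair_right j h
        omega
    have h6 : (Nat.unpair s).2 < i + 1 := by
      by_contra hcon
      push Not at hcon
      rcases hcon.eq_or_lt with h | h
      · rw [← h] at h2; omega
      · have := Nat.pair_lt_pair_right j h
        omega
    omega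
  have nx : ∀ j i, Nat.pair j i + 1 ≤ Nat.pair j (i + 1) := fun j i =>
    Nat.pair_lt_pair_right j (Nat.lt_succ_self i)
  have adv : ∀ j i, (S (Nat.pair j (i + 1))).k j = (S (Nat.pair j i)).k j + 1 ∧
      R j ((S (Nat.pair j i)).f j) ((S (Nat.pair j (i + 1))).f j) := by
    intro j i
    obtain ⟨h1, h2⟩ := const j _ _ (nx j i) (btw j i)
    have h3 : (Nat.unpair (Nat.pair j i)).1 = j := by rw [Nat.unpair_pair]
    have h4 := hk (S (Nat.pair j i)) (Nat.unpair (Nat.pair j i)).1
    have h5 := hR (S (Nat.pair j i)) (Nat.unpair (Nat.pair j i)).1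
    rw [← hSs] at h4 h5
    rw [h3] at h4 h5
    rw [h1, h2]
    exact ⟨h4, h5⟩
  have cnt : ∀ j i, (S (Nat.pair j i)).k j = i := by
    intro j i
    induction i with
    | zero =>
      obtain ⟨h1, -⟩ := const j 0 (Nat.pair j 0) (Nat.zero_le _) (by
        intro s _ hs h3
        have h4 : s = Nat.pair j (Nat.unpair s).2 := by
          conv_lhs => rw [← Nat.pair_unpair s, h3]
        rw [h4] at hs
        rcases Nat.eq_zero_or_pos (Nat.unpair s).2 with h | h
        · rw [h] at hs; omega
        · have := Nat.pair_lt_pair_right j h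
          omega)
      rw [h1]
      rfl
    | succ i ih => rw [(adv j i).1, ih]
  -- the limit
  have cmono : Monotone fun n => (S n).c := monotone_nat_of_le_succ fun n => (sc n).le
  have hSub : ∀ i j, i ≤ j → Sub (S j).T (S i).T := by
    intro i j hij
    induction j, hij using Nat.le_induction with
    | base => exact Sub.refl _
    | succ j hij ih => exact (sT j).2.1.trans ih
  have hall : ∀ i j, (S i).c ≤ M (S j).T := by
    intro i j
    rcases le_total i j with h | h
    · exact (cmono h).trans (S j).lt.le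
    · exact (S i).lt.le.trans (hSub j i h).M
  obtain ⟨Ts, t1, t2, t3, t4⟩ := limit_tree (fun n => (S n).T) (fun n => (S n).m) sm
    (fun n => (S n).tree) (fun n => (sT n).2.1) (fun n => (sT n).2.2.1)
    (c := ⨆ i, (S i).c) (fun j => ciSup_le fun i => hall i j)
  have hbdd : BddAbove (Set.range fun i => (S i).c) := by
    refine ⟨M (S 0).T, ?_⟩
    rintro _ ⟨i, rfl⟩
    exact hall i 0
  have hlt : ∀ i, (S i).c < M Ts := fun i =>
    lt_of_lt_of_le (sc i) ((le_ciSup hbdd (i + 1)).trans t4)
  refine ⟨Ts, t1, ?_, fun j => ⟨fun i => (S (Nat.pair j i)).f j, fun i => ⟨(adv j i).2, ?_⟩⟩⟩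
  · have h1 := hlt 0
    have h2 : (S 0).c = 1 / 2 := rfl
    rw [h2] at h1
    linarith
  · refine ⟨Nb (S (Nat.pair j i)).T (S (Nat.pair j i)).m (S (Nat.pair j i)).c,
      ⟨t1, t2 _, t3 _, hlt _⟩, ?_⟩
    have h1 := (S (Nat.pair j i)).hold j
    rwa [cnt j i] at h1

end Pool.Agent.OSM
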