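import Pool.Agent.OSM.Fit

/-!
# OSM/NearMax: nearly maximal trees

`hs` is the supremum over the levels of the potential. By `hv_le` it is bounded on a robust set.
* `hv_le_hs`, `exists_level`: `le_ciSup`, `exists_lt_of_lt_ciSup` (the values are bounded, and
  increasing in `n` by `hv_mono`, so that all larger levels will do as well).
* `near_max`: the function `T ↦ hs T / J + C * M T` is bounded on the nonempty set `X`; take an
  element with a value at least the supremum minus `δ`.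
* `kl_bound`: `klu Q J ≤ klu m' J` (`klu_map`) `≤ hv n' T' + J * δ / 2 ≤ hs T' + J * δ / 2`, and
  `kl_le_of_fit` (`Q` fits at `(n, T2)`: `Fit.map`, `Fit.loc`):
  the sum is `≤ klu P J + klu Q J - 2 hv n T2 ≤ hs T' - hv n T2 + J δ ≤ J (ρ + 2 δ)`.
-/

set_option autoImplicit false

namespace Pool.Agent.OSM

open Finset Pool.Agent.PTree
open scoped Classical

variable {A : Type} [Fintype A] [Nonempty A] {F : Forb A} {k J : ℕ} {q q' : ℝ} {N : Set StrSet}

noncomputable def hs (F : Forb A) (k : ℕ) (q q' : ℝ) (J : ℕ) (T : StrSet) : ℝ :=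
  ⨆ n, hv F k q q' J n T

theorem nearMax_bdd (hq : 0 < q) (hq' : 0 < q') (hrob : Robust F k q q' N) {T : StrSet}
    (hT : T ∈ N) : BddAbove (Set.range fun n => hv F k q q' J n T) := by
  refine ⟨Real.log (1 / q') + J * Real.log (1 / q), ?_⟩
  rintro _ ⟨n, rfl⟩
  exact hv_le hq hq' (hrob T hT n) J

theorem hv_le_hs (hq : 0 < q) (hq' : 0 < q') (hrob : Robust F k q q' N) {T : StrSet} (hT : T ∈ N)
    (n : ℕ) : hv F k q q' J n T ≤ hs F k q q' J T :=
  le_ciSup (nearMax_bdd (J := J) hq hq' hrob hT) n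

theorem hs_le (hq : 0 < q) (hq' : 0 < q') (hrob : Robust F k q q' N) {T : StrSet} (hT : T ∈ N) :
    hs F k q q' J T ≤ Real.log (1 / q') + J * Real.log (1 / q) :=
  ciSup_le fun n => hv_le hq hq' (hrob T hT n) J

theorem hs_nonneg (F : Forb A) (k : ℕ) (q q' : ℝ) (J : ℕ) (T : StrSet) :
    0 ≤ hs F k q q' J T :=
  Real.iSup_nonneg fun n => hv_nonneg F k q q' J n T

theorem exists_level (hq : 0 < q) (hq' : 0 < q') (hrob : Robust F k q q' N) {T : StrSet}
    (hT : T ∈ N) {δ : ℝ} (hδ : 0 < δ) :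
    ∃ n0, ∀ n ≥ n0, hs F k q q' J T - δ ≤ hv F k q q' J n T := by
  have h1 : hs F k q q' J T - δ < ⨆ n, hv F k q q' J n T := by
    change hs F k q q' J T - δ < hs F k q q' J T
    linarith
  obtain ⟨n0, hn0⟩ := exists_lt_of_lt_ciSup h1
  refine ⟨n0, fun n hn => ?_⟩
  exact hn0.le.trans (hv_mono hq hq' hn (hrob T hT n) J)

theorem near_max (hq : 0 < q) (hq' : 0 < q') (hrob : Robust F k q q' N) (hJ : 0 < J)
    {X : Set StrSet} (hX : X ⊆ N) (hne : X.Nonempty) {C : ℝ} (hC : 0 ≤ C) {δ : ℝ} (hδ : 0 < δ) :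
    ∃ T ∈ X, ∀ T' ∈ X, hs F k q q' J T' / J + C * M T' ≤ hs F k q q' J T / J + C * M T + δ := by
  have hJ' : (0 : ℝ) < J := by exact_mod_cast hJ
  have hbdd : BddAbove ((fun T => hs F k q q' J T / J + C * M T) '' X) := by
    refine ⟨(Real.log (1 / q') + J * Real.log (1 / q)) / J + C, ?_⟩
    rintro _ ⟨T, hT, rfl⟩
    have h1 : hs F k q q' J T / J ≤ (Real.log (1 / q') + J * Real.log (1 / q)) / J :=
      div_le_div_of_nonneg_right (hs_le hq hq' hrob (hX hT)) hJ'.le
    have h2 : C * M T ≤ C := by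
      have := mul_le_mul_of_nonneg_left (M_le_one T) hC
      linarith
    change hs F k q q' J T / J + C * M T ≤ _
    linarith
  have hne' : ((fun T => hs F k q q' J T / J + C * M T) '' X).Nonempty := hne.image _
  obtain ⟨_, ⟨T, hT, rfl⟩, hlt⟩ := exists_lt_of_lt_csSup hne'
    (show sSup ((fun T => hs F k q q' J T / J + C * M T) '' X) - δ <
      sSup ((fun T => hs F k q q' J T / J + C * M T) '' X) by linarith)
  refine ⟨T, hT, fun T' hT' => ?_⟩
  have h3 : hs F k q q' J T' / J + C * M T' ≤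
      sSup ((fun T => hs F k q q' J T / J + C * M T) '' X) :=
    le_csSup hbdd ⟨T', hT', rfl⟩
  have h4 : sSup ((fun T => hs F k q q' J T / J + C * M T) '' X) - δ <
      hs F k q q' J T / J + C * M T := hlt
  linarith

theorem kl_bound (hq : 0 < q) (hq' : 0 < q') (hrob : Robust F k q q' N) {T2 T' : StrSet}
    (hT' : T' ∈ N) {n n' : ℕ} (hn : n ≤ n') (hA : Agree n T2 T') {δ ρ : ℝ}
    (hlev : hs F k q q' J T2 - J * δ ≤ hv F k q q' J n T2)
    (hρ : hs F k q q' J T' ≤ hs F k q q' J T2 + J * ρ)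
    {P : Mx (Fin k → Str A n) (Str A n)} (hP : Fit F n T2 k q q' P)
    (hP' : klu P J ≤ hv F k q q' J n T2 + J * δ / 2)
    {m' : Mx (Fin k → Str A n') (Str A n')} (hm : Fit F n' T' k q q' m')
    (hm' : klu m' J ≤ hv F k q q' J n' T' + J * δ / 2)
    (Q : Mx (Fin k → Str A n) (Str A n)) (hQ : Q = m'.map (fun x i => res hn (x i)) (res hn)) :
    kl Q (P.mid Q) J + kl P (P.mid Q) J ≤ J * (ρ + 2 * δ) := by
  subst hQ
  have h1 : Fit F n T2 k q q' (m'.map (fun x i => res hn (x i)) (res hn)) :=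
    (hm.map hn hq).loc hA.symm
  have h2 := kl_le_of_fit hP h1 J
  have h3 : klu (m'.map (fun x i => res hn (x i)) (res hn)) J ≤ klu m' J :=
    klu_map hm.ok (eqFib_comp (eqFib_res hn) k) (eqFib_res hn) J
  have h4 := hv_le_hs (J := J) hq hq' hrob hT' n'
  have h5 : (J : ℝ) * (ρ + 2 * δ) = J * ρ + J * δ + J * δ / 2 + J * δ / 2 := by ring
  rw [h5]
  linarith

end Pool.Agent.OSM
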