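import Pool.Agent.OSM.Basic

/-!
# OSM/ReqWin: robust conditions which satisfy a requirement

Proofs. Let `T ∈ N` and let `G` avoid `F' = F.or X` (`∀ n, ¬ F'.bad n T G`). Suppose
`p = (T, G) ∈ E`.
* `win_dec` (`X = FDec E Φ 0 0 L`): by `hreq.cont p _ (L + 1)` there is `n` such that all `p'` in
  `Ext E n T n n G` have `Agree (L + 1) (Φ p) (Φ p')`; so any two such values agree below `L + 1`,
  and `0 ≤ _` is trivial: `Dec E Φ 0 0 L n T G` holds, contradiction.
* `win_wid` (`X = FWid E Φ m K`): `S = Φ p` is perfect; by `exists_wide` there is `L ≥ m` such that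
  all nodes `σ` of `S` of length `m` have at least `K` nodes of `S` of length `L` above. Take `n`
  from `cont` for `L + 1` and enlarge it so that `L ≤ n` (`Ext.mono`). Then `Dec E Φ m K L n T G`:
  for `p'` in `Ext`, `Φ p'` and `S` agree on strings of length at most `L`, so
  `above (Φ p') σ L = above S σ L`, and `Φ p' σ = S σ`. Contradiction.
* `win_pin` (`X = FPin k m g`): `G i j = g i j` for all `i < k`, `j < m` (take `n = max k m` in the
  hypothesis on `G`), so `(T, G) ∉ E` by the assumption.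
* `above_card_mono`: for a perfect `S` each `τ ∈ above S σ L` has an extension of length `L'` in
  `S` (`Perfect.exists_length` in `PTree/Width`); this gives an injection (the extension determines
  `τ` as its initial segment of length `L`).
* `exists_wide`: apply `Perfect.width` to each of the finitely many nodes of length `m`, take the
  maximum.
-/

set_option autoImplicit false

namespace Pool.Agent.OSM

open Finset Pool.Agent.PTree
open scoped Classical

theorem above_card_mono {S : StrSet} (hS : Perfect S) {σ : List Bool} {L L' : ℕ} (h : L ≤ L')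
    (hσ : σ.length ≤ L) : (above S σ L).card ≤ (above S σ L').card := by
  apply card_le_card_of_surjOn (fun τ : List Bool => τ.take L)
  intro τ hτ
  obtain ⟨h1, h2, h3⟩ := mem_above.1 (mem_coe.1 hτ)
  obtain ⟨τ', hτ'⟩ := hS.exists_length h2 (l := L') (by omega)
  obtain ⟨h4, h5, h6⟩ := mem_above.1 hτ'
  refine ⟨τ', mem_coe.2 (mem_above.2 ⟨h4, h5, h3.trans h6⟩), ?_⟩
  have h7 := List.prefix_iff_eq_take.1 h6
  rw [h1] at h7
  exact h7.symm

theorem exists_wide {S : StrSet} (hS : Perfect S) (m K : ℕ) :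
    ∃ L, m ≤ L ∧ ∀ σ : List Bool, σ.length = m → S σ = true → K ≤ (above S σ L).card := by
  have h1 : ∀ σ : List Bool, ∃ L, S σ = true → ∀ l, L ≤ l → K ≤ (above S σ l).card := by
    intro σ
    by_cases h : S σ = true
    · obtain ⟨L, hL⟩ := hS.width K h
      exact ⟨L, fun _ => hL⟩
    · exact ⟨0, fun h' => absurd h' h⟩
  choose f hf using h1
  refine ⟨max m ((strs m).sup f), le_max_left _ _, fun σ hσ hS' => hf σ hS' _ ?_⟩
  exact (le_sup (f := f) (mem_strs.2 hσ)).trans (le_max_right _ _)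

variable {A : Type} [Fintype A] {F : Forb A} {E : Set (StrSet × (ℕ → ℕ → A))}
  {Φ : StrSet × (ℕ → ℕ → A) → StrSet}

theorem win_dec (hreq : Req E Φ) {L k : ℕ} {q s : ℝ} {N : Set StrSet} (hq : 0 < q) (hs : 0 < s)
    (hrob : Robust (F.or (FDec E Φ 0 0 L)) k q s N) : Win F E N := by
  refine ⟨F.or (FDec E Φ 0 0 L), k, q, s, hq, hs, Forb.le_or_left _ _, hrob, ?_⟩
  intro T _ G hG hE
  obtain ⟨n, hn⟩ := hreq.cont (T, G) hE (L + 1)
  refine hG n (Or.inr ?_)
  exact ⟨fun p hp p' hp' => (hn p hp).symm.trans (hn p' hp'), fun _ _ _ _ _ => Nat.zero_le _⟩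

theorem win_wid (hreq : Req E Φ) {m K k : ℕ} {q s : ℝ} {N : Set StrSet} (hq : 0 < q)
    (hs : 0 < s) (hrob : Robust (F.or (FWid E Φ m K)) k q s N) : Win F E N := by
  refine ⟨F.or (FWid E Φ m K), k, q, s, hq, hs, Forb.le_or_left _ _, hrob, ?_⟩
  intro T _ G hG hE
  obtain ⟨L, hmL, hL⟩ := exists_wide (hreq.perf (T, G) hE).1 m K
  obtain ⟨n, hn⟩ := hreq.cont (T, G) hE (L + 1)
  have hdec : Dec E Φ m K L n T G := by
    refine ⟨fun p hp p' hp' => (hn p hp).symm.trans (hn p' hp'), fun p hp σ hσ hΦ => ?_⟩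
    have h1 : above (Φ p) σ L = above (Φ (T, G)) σ L := by
      ext τ
      rw [mem_above, mem_above]
      constructor
      · rintro ⟨h2, h3, h4⟩
        exact ⟨h2, by rw [← hn p hp τ (by omega)]; exact h3, h4⟩
      · rintro ⟨h2, h3, h4⟩
        exact ⟨h2, by rw [hn p hp τ (by omega)]; exact h3, h4⟩
    rw [h1]
    exact hL σ hσ (by rw [← hn p hp σ (by omega)]; exact hΦ)
  refine hG (max n L) (Or.inr ?_)
  exact ⟨L, le_max_right _ _, hdec.of_subset
    (Ext.mono (le_max_left _ _) (le_max_left _ _) (le_max_left _ _))⟩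

theorem win_pin {k m k' : ℕ} {g : ℕ → ℕ → A} {q s : ℝ} {N : Set StrSet} (hq : 0 < q)
    (hs : 0 < s) (hrob : Robust (F.or (FPin k m g)) k' q s N)
    (hg : ∀ p ∈ E, p.1 ∈ N → ¬ ∀ i < k, ∀ j < m, p.2 i j = g i j) : Win F E N := by
  refine ⟨F.or (FPin k m g), k', q, s, hq, hs, Forb.le_or_left _ _, hrob, ?_⟩
  intro T hT G hG hE
  have h1 := hg (T, G) hE hT
  push Not at h1
  obtain ⟨i, hi, j, hj, hne⟩ := h1
  exact hG (max k m) (Or.inr ⟨le_max_left _ _, le_max_right _ _, i, hi, j, hj, hne⟩)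

end Pool.Agent.OSM
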