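import Pool.Agent.PTree.Hull
import Pool.Agent.PTree.Kill
import Pool.Agent.PTree.Width

/-!
# The one-step theorem: definitions

`StrSet` (sets of binary strings), `Agree`, `Sub`, `M` are in `Pool/Agent/PTree`.
`A` is a finite alphabet; the coordinates of a sequence `G : ℕ → ℕ → A` are the `G i : ℕ → A`.
-/

set_option autoImplicit false

namespace Pool.Agent.OSM

open Pool.Agent.PTree
open scoped Classical

/-- Strings of length `n` over the alphabet `A`. -/
abbrev Str (A : Type) (n : ℕ) : Type := Fin n → A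

/-- The initial segment of length `n`. -/
def cut {A : Type} (n : ℕ) (x : ℕ → A) : Str A n := fun i => x i

/-- The restriction of a string to a smaller length. -/
def res {A : Type} {n n' : ℕ} (h : n ≤ n') (s : Str A n') : Str A n := fun i => s (i.castLE h)

/-- The density of a finite set in a finite type. -/
noncomputable def dens {α : Type} [Fintype α] (s : Finset α) : ℝ :=
  (s.card : ℝ) / (Fintype.card α : ℝ)

/-- A set of forbidden pieces of information about `(T, G)`: `bad n T G` depends only on the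
strings of `T` of length less than `n` and on the first `n` letters of the first `n` coordinates
of `G`; it is inherited by larger pieces of information. -/
structure Forb (A : Type) where
  bad : ℕ → StrSet → (ℕ → ℕ → A) → Prop
  loc : ∀ {n : ℕ} {T T' : StrSet} {G G' : ℕ → ℕ → A}, Agree n T T' →
    (∀ i < n, ∀ j < n, G' i j = G i j) → bad n T G → bad n T' G'
  mono : ∀ {n : ℕ} {T : StrSet} {G : ℕ → ℕ → A}, bad n T G → bad (n + 1) T G

variable {A : Type}

/-- The union of two sets of forbidden pieces of information. -/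
def Forb.or (F F' : Forb A) : Forb A where
  bad n T G := F.bad n T G ∨ F'.bad n T G
  loc h h' := Or.imp (F.loc h h') (F'.loc h h')
  mono := Or.imp F.mono F'.mono

/-- Inclusion. -/
def Forb.Le (F F' : Forb A) : Prop := ∀ n T G, F.bad n T G → F'.bad n T G

/-- The sequences with the first `k` coordinates `x` (up to `n` letters) and with the other
coordinates (up to `n` letters) in `R` have no bad piece of information at level `n`. -/
def Good (F : Forb A) (n : ℕ) (T : StrSet) {k : ℕ} (x : Fin k → Str A n)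
    (R : Finset (Str A n)) : Prop :=
  ∀ G : ℕ → ℕ → A, (∀ i : Fin k, cut n (G i) = x i) → (∀ i, k ≤ i → cut n (G i) ∈ R) →
    ¬ F.bad n T G

/-- The `k`-tuples which have a good reservoir of density at least `q`. -/
noncomputable def gs [Fintype A] (F : Forb A) (n : ℕ) (T : StrSet) (k : ℕ) (q : ℝ) :
    Finset (Fin k → Str A n) :=
  Finset.univ.filter fun x => ∃ R : Finset (Str A n), q ≤ dens R ∧ Good F n T x R

/-- The density of the set of these tuples. -/
noncomputable def b [Fintype A] (F : Forb A) (n : ℕ) (T : StrSet) (k : ℕ) (q : ℝ) : ℝ :=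
  dens (gs F n T k q)

/-- The basic neighbourhoods of trees. -/
def Nb (T0 : StrSet) (m : ℕ) (c : ℝ) : Set StrSet :=
  {T | IsTree T ∧ Sub T T0 ∧ Agree m T0 T ∧ c < M T}

/-- Robustness of the condition `(F, k, q, q')` on a set of trees. -/
def Robust [Fintype A] (F : Forb A) (k : ℕ) (q q' : ℝ) (N : Set StrSet) : Prop :=
  ∀ T ∈ N, ∀ n, q' ≤ b F n T k q

/-- The set `N` of trees allows a robust condition stronger than `F` which keeps `(T, G)` out of
`E`. -/
def Win [Fintype A] (F : Forb A) (E : Set (StrSet × (ℕ → ℕ → A))) (N : Set StrSet) : Prop :=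
  ∃ (F' : Forb A) (k : ℕ) (q q' : ℝ), 0 < q ∧ 0 < q' ∧ F.Le F' ∧ Robust F' k q q' N ∧
    ∀ T ∈ N, ∀ G : ℕ → ℕ → A, (∀ n, ¬ F'.bad n T G) → (T, G) ∉ E

/-- The pairs in `E` which extend the first `n` levels of `T` and the first `m` letters of the
first `k` coordinates of `G`. -/
def Ext (E : Set (StrSet × (ℕ → ℕ → A))) (n : ℕ) (T : StrSet) (k m : ℕ) (G : ℕ → ℕ → A) :
    Set (StrSet × (ℕ → ℕ → A)) :=
  {p | p ∈ E ∧ Agree n T p.1 ∧ ∀ i < k, ∀ j < m, p.2 i j = G i j}

/-- The values of `Φ` have at least `N` nodes of length `L` above each of their nodes of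
length `m`, and are decided below `L + 1`. -/
def Dec (E : Set (StrSet × (ℕ → ℕ → A))) (Φ : StrSet × (ℕ → ℕ → A) → StrSet) (m N L : ℕ)
    (n : ℕ) (T : StrSet) (G : ℕ → ℕ → A) : Prop :=
  (∀ p ∈ Ext E n T n n G, ∀ p' ∈ Ext E n T n n G, Agree (L + 1) (Φ p) (Φ p')) ∧
    ∀ p ∈ Ext E n T n n G, ∀ σ : List Bool, σ.length = m → Φ p σ = true →
      N ≤ (above (Φ p) σ L).card

theorem Ext.mono {E : Set (StrSet × (ℕ → ℕ → A))} {n n' : ℕ} {T : StrSet} {k k' m m' : ℕ}
    {G : ℕ → ℕ → A} (h : n ≤ n') (hk : k ≤ k') (hm : m ≤ m') :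
    Ext E n' T k' m' G ⊆ Ext E n T k m G := fun _ hp =>
  ⟨hp.1, hp.2.1.mono h, fun i hi j hj => hp.2.2 i (hi.trans_le hk) j (hj.trans_le hm)⟩

theorem Ext.loc {E : Set (StrSet × (ℕ → ℕ → A))} {n k m : ℕ} {T T' : StrSet}
    {G G' : ℕ → ℕ → A} (h : Agree n T T') (h' : ∀ i < k, ∀ j < m, G' i j = G i j) :
    Ext E n T' k m G' ⊆ Ext E n T k m G := fun _ hp =>
  ⟨hp.1, h.trans hp.2.1, fun i hi j hj => (hp.2.2 i hi j hj).trans (h' i hi j hj)⟩

theorem Dec.of_subset {E : Set (StrSet × (ℕ → ℕ → A))} {Φ : StrSet × (ℕ → ℕ → A) → StrSet}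
    {m N L : ℕ} {n n' : ℕ} {T T' : StrSet} {G G' : ℕ → ℕ → A}
    (h : Ext E n' T' n' n' G' ⊆ Ext E n T n n G) (hd : Dec E Φ m N L n T G) :
    Dec E Φ m N L n' T' G' :=
  ⟨fun p hp p' hp' => hd.1 p (h hp) p' (h hp'), fun p hp => hd.2 p (h hp)⟩

/-- The pieces of information which decide the values of `Φ` below `L + 1`, with at least `N`
nodes of length `L` above each node of length `m`. -/
def FDec (E : Set (StrSet × (ℕ → ℕ → A))) (Φ : StrSet × (ℕ → ℕ → A) → StrSet) (m N L : ℕ) :
    Forb A where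
  bad n T G := Dec E Φ m N L n T G
  loc h h' hd := hd.of_subset (Ext.loc h h')
  mono hd := hd.of_subset (Ext.mono (Nat.le_succ _) (Nat.le_succ _) (Nat.le_succ _))

/-- The same for some `L` at most the level. -/
def FWid (E : Set (StrSet × (ℕ → ℕ → A))) (Φ : StrSet × (ℕ → ℕ → A) → StrSet) (m N : ℕ) :
    Forb A where
  bad n T G := ∃ L ≤ n, Dec E Φ m N L n T G
  loc := fun h h' ⟨L, hL, hd⟩ => ⟨L, hL, hd.of_subset (Ext.loc h h')⟩
  mono := fun ⟨L, hL, hd⟩ => ⟨L, hL.trans (Nat.le_succ _),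
    hd.of_subset (Ext.mono (Nat.le_succ _) (Nat.le_succ _) (Nat.le_succ _))⟩

/-- The pieces of information incompatible with `g` (first `m` letters of the first `k`
coordinates). -/
def FPin (k m : ℕ) (g : ℕ → ℕ → A) : Forb A where
  bad n _ G := k ≤ n ∧ m ≤ n ∧ ∃ i < k, ∃ j < m, G i j ≠ g i j
  loc := fun _ h' ⟨h1, h2, i, hi, j, hj, h⟩ => ⟨h1, h2, i, hi, j, hj, by
    rwa [h' i (hi.trans_le h1) j (hj.trans_le h2)]⟩
  mono := fun ⟨h1, h2, h3⟩ => ⟨h1.trans (Nat.le_succ _), h2.trans (Nat.le_succ _), h3⟩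

/-- A requirement: `Φ` is continuous on `E`, with values perfect subtrees of the first
component. -/
structure Req (E : Set (StrSet × (ℕ → ℕ → A))) (Φ : StrSet × (ℕ → ℕ → A) → StrSet) : Prop where
  cont : ∀ p ∈ E, ∀ L : ℕ, ∃ n : ℕ, ∀ p' ∈ Ext E n p.1 n n p.2, Agree L (Φ p) (Φ p')
  perf : ∀ p ∈ E, Perfect (Φ p) ∧ Sub (Φ p) p.1

/-- The expectation of a function of a random subset of `s` which contains each element with
probability `p`, independently. -/
noncomputable def Ex {α : Type} (p : ℝ) (s : Finset α) (F : Finset α → ℝ) : ℝ :=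
  ∑ u ∈ s.powerset, p ^ u.card * (1 - p) ^ (s.card - u.card) * F u

/-- The tree `T` without the strings of length at least `m` which extend a string in `U`. -/
noncomputable def killE (T : StrSet) (U : Finset (List Bool)) (m : ℕ) : StrSet :=
  fun σ => T σ && !(decide (∃ τ ∈ U, τ <+: σ ∧ m ≤ σ.length))

/-- The strings of length `L` which extend `σ`. -/
noncomputable def con (L : ℕ) (σ : List Bool) : Finset (List Bool) :=
  (strs L).filter fun τ => σ <+: τ

/-- Trees which are generic with respect to a requirement and the condition `F`. -/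
structure Gen [Fintype A] (F : Forb A) (E : Set (StrSet × (ℕ → ℕ → A)))
    (Φ : StrSet × (ℕ → ℕ → A) → StrSet) (T : StrSet) : Prop where
  dec : ∀ (L k : ℕ) (q s : ℝ), 0 < q → 0 < s → ∃ n, b (F.or (FDec E Φ 0 0 L)) n T k q < s
  wid : ∀ (m N k : ℕ) (q s : ℝ), 0 < q → 0 < s → ∃ n, b (F.or (FWid E Φ m N)) n T k q < s
  pin : ∀ (n k m : ℕ) (g : ℕ → ℕ → A) (q s : ℝ), Ext E n T k m g = ∅ → 0 < q → 0 < s →
    ∃ n', b (F.or (FPin k m g)) n' T k q < s

end Pool.Agent.OSM
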