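import Mathlib
import Pool.Agent.OSM.Defs

/-!
# OSM/Fib: densities and maps all of whose fibres have the same size

`dens s = s.card / Fintype.card α` (`OSM/Defs`).

Proofs. `dens_preimage`: the set on the left is the disjoint union over `y ∈ s` of the fibres, all
with `c` elements, and `card α = c * card β`. `dens_le_of_maps`: `s ⊆ φ⁻¹ t`, use
`dens_preimage`. `eqFib_res`: `c = card A ^ (n' - n)`; for instance, the fibre over `y` is the
image of `Str A (n' - n)` under the injective map `z ↦ fun i => if h : i < n then y ⟨i, h⟩ else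
z ⟨i - n, _⟩`; or compute it as `Fintype.piFinset fun i => if h : i < n then {y ⟨i, h⟩} else univ`.
`eqFib_comp`: the fibre over `y : Fin k → β` is `Fintype.piFinset fun i => fibre (y i)`
(`Fintype.card_piFinset`), so it has `c ^ k` elements.
-/

set_option autoImplicit false

namespace Pool.Agent.OSM

open Finset
open scoped Classical

/-- All fibres of `φ` have the same positive number of elements. -/
def EqFib {α β : Type} [Fintype α] (φ : α → β) : Prop :=
  ∃ c : ℕ, 0 < c ∧ ∀ y : β, (univ.filter fun x => φ x = y).card = c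

section

variable {α β : Type} [Fintype α] [Fintype β]

theorem dens_nonneg (s : Finset α) : 0 ≤ dens s := by
  unfold dens; positivity

theorem dens_le_one (s : Finset α) : dens s ≤ 1 := by
  unfold dens
  apply div_le_one_of_le₀ _ (by positivity)
  exact_mod_cast card_le_univ s

theorem dens_mono {s t : Finset α} (h : s ⊆ t) : dens s ≤ dens t := by
  unfold dens
  have : (s.card : ℝ) ≤ t.card := by exact_mod_cast card_le_card h
  gcongr

theorem dens_univ [Nonempty α] : dens (univ : Finset α) = 1 := by
  unfold dens
  rw [card_univ]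
  exact div_self (by exact_mod_cast Fintype.card_ne_zero)

theorem dens_union_le (s t : Finset α) : dens (s ∪ t) ≤ dens s + dens t := by
  unfold dens
  rw [← add_div]
  have : ((s ∪ t).card : ℝ) ≤ s.card + t.card := by exact_mod_cast card_union_le s t
  gcongr

theorem dens_pos {s : Finset α} (h : s.Nonempty) : 0 < dens s := by
  obtain ⟨x, hx⟩ := h
  have : Nonempty α := ⟨x⟩
  unfold dens
  have h1 : (0 : ℝ) < s.card := by exact_mod_cast card_pos.2 ⟨x, hx⟩
  have h2 : (0 : ℝ) < Fintype.card α := by exact_mod_cast Fintype.card_pos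
  positivity

theorem nonempty_of_dens {s : Finset α} (h : 0 < dens s) : s.Nonempty := by
  rw [nonempty_iff_ne_empty]
  rintro rfl
  simp [dens] at h

theorem card_eq_dens [Nonempty α] (s : Finset α) :
    (s.card : ℝ) = dens s * (Fintype.card α : ℝ) := by
  unfold dens
  rw [div_mul_cancel₀]
  exact_mod_cast Fintype.card_ne_zero

theorem EqFib.surjective {φ : α → β} (h : EqFib φ) : Function.Surjective φ := by
  obtain ⟨c, hc, h⟩ := h
  intro y
  have h1 : 0 < (univ.filter fun x => φ x = y).card := by rw [h y]; exact hc
  obtain ⟨x, hx⟩ := card_pos.1 h1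
  exact ⟨x, (mem_filter.1 hx).2⟩

omit [Fintype β] in
private theorem fib_card_filter {φ : α → β} {c : ℕ}
    (h : ∀ y : β, (univ.filter fun x => φ x = y).card = c) (s : Finset β) :
    (univ.filter fun x => φ x ∈ s).card = s.card * c := by
  have h1 := card_eq_sum_card_fiberwise (f := φ) (s := univ.filter fun x => φ x ∈ s) (t := s)
    (fun x hx => (mem_filter.1 hx).2)
  rw [h1, sum_congr rfl (g := fun _ => c), sum_const, smul_eq_mul]
  intro y hy
  rw [← h y]
  congr 1
  ext x
  simp only [mem_filter, mem_univ, true_and]
  constructor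
  · exact fun h => h.2
  · intro h
    exact ⟨h ▸ hy, h⟩

theorem EqFib.card {φ : α → β} {c : ℕ} (h : ∀ y : β, (univ.filter fun x => φ x = y).card = c) :
    Fintype.card α = c * Fintype.card β := by
  have h1 := fib_card_filter h univ
  simp only [mem_univ, filter_true, card_univ] at h1
  rw [h1, mul_comm]

theorem dens_preimage {φ : α → β} (h : EqFib φ) (s : Finset β) :
    dens (univ.filter fun x => φ x ∈ s) = dens s := by
  obtain ⟨c, hc, h⟩ := h
  unfold dens
  rw [fib_card_filter h s, EqFib.card h]
  push_cast
  have hc' : (c : ℝ) ≠ 0 := by exact_mod_cast hc.ne'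
  rw [mul_comm (c : ℝ), mul_div_mul_right _ _ hc']

theorem dens_le_of_maps {φ : α → β} (h : EqFib φ) {s : Finset α} {t : Finset β}
    (hst : ∀ x ∈ s, φ x ∈ t) : dens s ≤ dens t := by
  rw [← dens_preimage h t]
  exact dens_mono fun x hx => mem_filter.2 ⟨mem_univ _, hst x hx⟩

theorem dens_image_ge {φ : α → β} (h : EqFib φ) (s : Finset α) :
    dens s ≤ dens (s.image φ) :=
  dens_le_of_maps h fun _ hx => mem_image_of_mem φ hx

theorem eqFib_comp {φ : α → β} (h : EqFib φ) (k : ℕ) :
    EqFib fun (x : Fin k → α) (i : Fin k) => φ (x i) := by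
  obtain ⟨c, hc, h⟩ := h
  refine ⟨c ^ k, by positivity, fun y => ?_⟩
  refine (congrArg Finset.card (?_ : _ =
      Fintype.piFinset fun i => univ.filter fun a => φ a = y i)).trans ?_
  · ext x
    simp only [mem_filter, mem_univ, true_and, Fintype.mem_piFinset]
    exact funext_iff
  rw [Fintype.card_piFinset]
  simp [h]

end

theorem eqFib_res {A : Type} [Fintype A] [Nonempty A] {n n' : ℕ} (h : n ≤ n') :
    EqFib (res (A := A) h) := by
  refine ⟨Fintype.card A ^ (n' - n), by
    have : 0 < Fintype.card A := Fintype.card_pos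
    positivity, fun y => ?_⟩
  refine (congrArg Finset.card (?_ : _ =
      Fintype.piFinset fun i : Fin n' => if h : (i : ℕ) < n then {y ⟨i, h⟩} else univ)).trans ?_
  · ext x
    simp only [mem_filter, mem_univ, true_and, Fintype.mem_piFinset]
    constructor
    · rintro rfl i
      split_ifs with hi
      · rw [mem_singleton]; rfl
      · exact mem_univ _
    · intro hx
      funext i
      have h2 := hx (i.castLE h)
      rw [dif_pos (show ((i.castLE h : Fin n') : ℕ) < n from i.2), mem_singleton] at h2
      exact h2
  rw [Fintype.card_piFinset]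
  have h2 : ∀ i : Fin n', (if h : (i : ℕ) < n then ({y ⟨i, h⟩} : Finset A) else univ).card =
      if (i : ℕ) < n then 1 else Fintype.card A := by
    intro i
    split_ifs <;> simp
  rw [prod_congr rfl fun i _ => h2 i, Fin.prod_univ_eq_prod_range
    (fun i : ℕ => if i < n then 1 else Fintype.card A) n']
  obtain ⟨m, rfl⟩ := Nat.exists_eq_add_of_le h
  rw [prod_range_add, Nat.add_sub_cancel_left]
  rw [prod_congr rfl (g := fun _ => 1), prod_congr (s₁ := range m) rfl (g := fun _ => Fintype.card A)]
  · simp
  · intro i _
    simp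
  · intro i hi
    rw [mem_range] at hi
    simp [hi]

end Pool.Agent.OSM
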