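import Pool.Agent.OSM.Mx
import Pool.Agent.OSM.Fib

/-!
# OSM/MxKL: relative entropies of mixtures

`kl m m' l` is the relative entropy of the laws of `(x, y)`, `y : Fin l → Y`; `klu m l` the one
with respect to the uniform law.

Proofs.
* `kl_nonneg`, `kl_mono`: `d_nonneg`, `d_logsum` and `sum_snoc`, `pr_succ` (absolute continuity:
  if `(P.mid Q).pr = 0` then `P.pr = 0` since `(P.mid Q).pr = (P.pr + Q.pr) / 2`, `pr_mid`).
* `klu_mid`: pointwise `d_mid` (the uniform law is positive).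
* `klu_le`: `d_le_log` with `Ω = X × (Fin l → Y)` and `u = 1 / (card X * card Y ^ l)`
  (`Fintype.sum_prod_type`), `K = K' * K ^ l` (it is at least `1` as the probabilities sum up
  to `1`).
* `klu_map`: `pr_map` and `d_logsum` for each `(x', y')`, over the set of the `(x, y)` with
  `φ x = x'`, `ψ ∘ y = y'`; the number of these is
  `(card X / card X') * (card Y / card Y') ^ l` (`EqFib`, `eqFib_comp`), so the sum of
  `1 / (card X * card Y ^ l)` over this set is `1 / (card X' * card Y' ^ l)`.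
* `head_bad`: `(P.mid Q).pr` has mass at most `7 * kl P (P.mid Q) l` on
  `{P.pr ≤ (P.mid Q).pr / 2}` (`d_half`), and `Q.pr ≤ 2 * (P.mid Q).pr`.
* `tail_bad`: `d_incr` for fixed `(x, y)` (sum over `z`), and `Q.pr ≤ 2 * (P.mid Q).pr`.
-/

set_option autoImplicit false

namespace Pool.Agent.OSM

open Finset
open scoped Classical

variable {X Y : Type} [Fintype X] [Fintype Y]

noncomputable def kl (m m' : Mx X Y) (l : ℕ) : ℝ :=
  ∑ x, ∑ y : Fin l → Y, d (m.pr l x y) (m'.pr l x y)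

noncomputable def klu (m : Mx X Y) (l : ℕ) : ℝ :=
  ∑ x, ∑ y : Fin l → Y,
    d (m.pr l x y) (1 / ((Fintype.card X : ℝ) * (Fintype.card Y : ℝ) ^ l))

private theorem pr_ac {P Q : Mx X Y} (hP : P.Ok) (hQ : Q.Ok) (l : ℕ) (x : X) (y : Fin l → Y)
    (h : (P.mid Q).pr l x y = 0) : P.pr l x y = 0 ∧ Q.pr l x y = 0 := by
  rw [Mx.pr_mid] at h
  have h1 := Mx.pr_nonneg hP l x y
  have h2 := Mx.pr_nonneg hQ l x y
  constructor <;> linarith

private theorem kl_step {m m' : Mx X Y} (h : m.Ok) (h' : m'.Ok)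
    (hac : ∀ l x (y : Fin l → Y), m'.pr l x y = 0 → m.pr l x y = 0) (l : ℕ) (x : X)
    (y : Fin l → Y) : d (m.pr l x y) (m'.pr l x y) ≤
      ∑ z, d (m.pr (l + 1) x (Fin.snoc y z)) (m'.pr (l + 1) x (Fin.snoc y z)) := by
  have h1 := d_logsum (univ : Finset Y) (fun z => m.pr (l + 1) x (Fin.snoc y z))
    (fun z => m'.pr (l + 1) x (Fin.snoc y z)) (fun z _ => Mx.pr_nonneg h _ _ _)
    (fun z _ => Mx.pr_nonneg h' _ _ _) (fun z _ => hac _ _ _)
  rw [Mx.pr_succ h, Mx.pr_succ h'] at h1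
  exact h1

private theorem kl_succ (m m' : Mx X Y) (l : ℕ) : kl m m' (l + 1) =
    ∑ x, ∑ y : Fin l → Y, ∑ z, d (m.pr (l + 1) x (Fin.snoc y z))
      (m'.pr (l + 1) x (Fin.snoc y z)) := by
  unfold kl
  exact sum_congr rfl fun x _ => sum_snoc l _

private theorem kl_mono_gen {m m' : Mx X Y} (h : m.Ok) (h' : m'.Ok)
    (hac : ∀ l x (y : Fin l → Y), m'.pr l x y = 0 → m.pr l x y = 0) {l l' : ℕ} (hl : l ≤ l') :
    kl m m' l ≤ kl m m' l' := by
  induction l', hl using Nat.le_induction with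
  | base => exact le_rfl
  | succ n _ ih =>
    refine ih.trans ?_
    rw [kl_succ]
    unfold kl
    exact sum_le_sum fun x _ => sum_le_sum fun y _ => kl_step h h' hac n x y

theorem kl_nonneg {P Q : Mx X Y} (hP : P.Ok) (hQ : Q.Ok) (l : ℕ) : 0 ≤ kl P (P.mid Q) l := by
  unfold kl
  exact sum_nonneg fun x _ => sum_nonneg fun y _ => d_nonneg (Mx.pr_nonneg hP _ _ _)
    (Mx.pr_nonneg (Mx.mid_ok hP hQ) _ _ _) (fun h => (pr_ac hP hQ l x y h).1)

theorem kl_nonneg' {P Q : Mx X Y} (hP : P.Ok) (hQ : Q.Ok) (l : ℕ) : 0 ≤ kl Q (P.mid Q) l := by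
  unfold kl
  exact sum_nonneg fun x _ => sum_nonneg fun y _ => d_nonneg (Mx.pr_nonneg hQ _ _ _)
    (Mx.pr_nonneg (Mx.mid_ok hP hQ) _ _ _) (fun h => (pr_ac hP hQ l x y h).2)

theorem kl_mono {P Q : Mx X Y} (hP : P.Ok) (hQ : Q.Ok) {l l' : ℕ} (h : l ≤ l') :
    kl P (P.mid Q) l ≤ kl P (P.mid Q) l' :=
  kl_mono_gen hP (Mx.mid_ok hP hQ) (fun l x y h => (pr_ac hP hQ l x y h).1) h

theorem kl_mono' {P Q : Mx X Y} (hP : P.Ok) (hQ : Q.Ok) {l l' : ℕ} (h : l ≤ l') :
    kl Q (P.mid Q) l ≤ kl Q (P.mid Q) l' :=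
  kl_mono_gen hQ (Mx.mid_ok hP hQ) (fun l x y h => (pr_ac hP hQ l x y h).2) h

private theorem unif_pos (X Y : Type) [Fintype X] [Fintype Y] [Nonempty X] [Nonempty Y] (l : ℕ) :
    0 < 1 / ((Fintype.card X : ℝ) * (Fintype.card Y : ℝ) ^ l) := by
  have h1 : 0 < (Fintype.card X : ℝ) := by exact_mod_cast Fintype.card_pos
  have h2 : 0 < (Fintype.card Y : ℝ) := by exact_mod_cast Fintype.card_pos
  positivity

theorem klu_nonneg [Nonempty X] [Nonempty Y] {P : Mx X Y} (hP : P.Ok) (l : ℕ) :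
    0 ≤ klu P l := by
  unfold klu
  refine sum_nonneg fun x _ => sum_nonneg fun y _ => d_nonneg (Mx.pr_nonneg hP _ _ _)
    (unif_pos X Y l).le (fun h => ?_)
  exact absurd h (unif_pos X Y l).ne'

theorem klu_mid [Nonempty X] [Nonempty Y] {P Q : Mx X Y} (hP : P.Ok) (hQ : Q.Ok) (l : ℕ) :
    klu P l / 2 + klu Q l / 2 =
      klu (P.mid Q) l + kl P (P.mid Q) l / 2 + kl Q (P.mid Q) l / 2 := by
  unfold klu kl
  simp only [sum_div, ← sum_add_distrib]
  refine sum_congr rfl fun x _ => sum_congr rfl fun y _ => ?_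
  rw [Mx.pr_mid]
  exact d_mid (Mx.pr_nonneg hP l x y) (Mx.pr_nonneg hQ l x y) (unif_pos X Y l)

theorem klu_le [Nonempty X] [Nonempty Y] {P : Mx X Y} (hP : P.Ok) {K K' : ℝ} (hK0 : 0 < K)
    (hK0' : 0 < K') (hK : ∀ a y, P.f a y ≤ K / (Fintype.card Y : ℝ))
    (hK' : ∀ x, (∑ a, if P.x a = x then P.w a else 0) ≤ K' / (Fintype.card X : ℝ)) (l : ℕ) :
    klu P l ≤ Real.log K' + l * Real.log K := by
  have hX : 0 < (Fintype.card X : ℝ) := by exact_mod_cast Fintype.card_pos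
  have hY : 0 < (Fintype.card Y : ℝ) := by exact_mod_cast Fintype.card_pos
  have hu := unif_pos X Y l
  have hle : ∀ o : X × (Fin l → Y), P.pr l o.1 o.2 ≤
      (K' * K ^ l) * (1 / ((Fintype.card X : ℝ) * (Fintype.card Y : ℝ) ^ l)) := by
    intro o
    refine (Mx.pr_le hP hK hK' l o.1 o.2).trans (le_of_eq ?_)
    rw [div_pow]
    field_simp
  have hsum : ∑ o : X × (Fin l → Y), P.pr l o.1 o.2 = 1 := by
    rw [Fintype.sum_prod_type]
    exact Mx.pr_sum hP l
  have hcard : (Fintype.card (X × (Fin l → Y)) : ℝ) *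
      (1 / ((Fintype.card X : ℝ) * (Fintype.card Y : ℝ) ^ l)) = 1 := by
    rw [Fintype.card_prod, Fintype.card_fun, Fintype.card_fin, Nat.cast_mul, Nat.cast_pow]
    field_simp
  have hK1 : 1 ≤ K' * K ^ l := by
    have h1 : ∑ o : X × (Fin l → Y), P.pr l o.1 o.2 ≤ ∑ _o : X × (Fin l → Y),
      (K' * K ^ l) * (1 / ((Fintype.card X : ℝ) * (Fintype.card Y : ℝ) ^ l)) :=
      sum_le_sum fun o _ => hle o
    rw [hsum, sum_const, card_univ, nsmul_eq_mul] at h1
    calc (1 : ℝ) ≤ (Fintype.card (X × (Fin l → Y)) : ℝ) *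
          ((K' * K ^ l) * (1 / ((Fintype.card X : ℝ) * (Fintype.card Y : ℝ) ^ l))) := h1
      _ = (K' * K ^ l) * ((Fintype.card (X × (Fin l → Y)) : ℝ) *
          (1 / ((Fintype.card X : ℝ) * (Fintype.card Y : ℝ) ^ l))) := by ring
      _ = K' * K ^ l := by rw [hcard, mul_one]
  have h := d_le_log (fun o : X × (Fin l → Y) => P.pr l o.1 o.2)
    (fun o => Mx.pr_nonneg hP _ _ _) hle hsum hcard hK1
  rw [Fintype.sum_prod_type, Real.log_mul hK0'.ne' (pow_pos hK0 l).ne', Real.log_pow] at h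
  exact h

theorem klu_map {X' Y' : Type} [Fintype X'] [Fintype Y'] [Nonempty X] [Nonempty Y]
    {P : Mx X Y} (hP : P.Ok) {φ : X → X'} {ψ : Y → Y'} (hφ : EqFib φ) (hψ : EqFib ψ) (l : ℕ) :
    klu (P.map φ ψ) l ≤ klu P l := by
  obtain ⟨c, hc, hcf⟩ := hφ
  obtain ⟨c', hc', hcf'⟩ := eqFib_comp hψ l
  have hX : 0 < (Fintype.card X : ℝ) := by exact_mod_cast Fintype.card_pos
  have hY : 0 < (Fintype.card Y : ℝ) := by exact_mod_cast Fintype.card_pos
  have hu := unif_pos X Y l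
  have e1 := EqFib.card hcf
  have e2 := EqFib.card hcf'
  have hcf'' : ∀ y' : Fin l → Y',
      (univ.filter fun y : Fin l → Y => (fun i => ψ (y i)) = y').card = c' := fun y' => by
    rw [← hcf' y']
    congr
  rw [Fintype.card_fun, Fintype.card_fun, Fintype.card_fin] at e2
  have e1' : (Fintype.card X : ℝ) = c * Fintype.card X' := by exact_mod_cast e1
  have e2' : (Fintype.card Y : ℝ) ^ l = c' * (Fintype.card Y' : ℝ) ^ l := by exact_mod_cast e2
  have hc0 : (0 : ℝ) < c := by exact_mod_cast hc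
  have hc0' : (0 : ℝ) < c' := by exact_mod_cast hc'
  have hX' : (Fintype.card X' : ℝ) ≠ 0 := by
    intro h0
    rw [h0, mul_zero] at e1'
    exact hX.ne' e1'
  have hY' : (Fintype.card Y' : ℝ) ^ l ≠ 0 := by
    intro h0
    rw [h0, mul_zero] at e2'
    exact (pow_pos hY l).ne' e2'
  have key : ∀ (x' : X') (y' : Fin l → Y'), d ((P.map φ ψ).pr l x' y')
      (1 / ((Fintype.card X' : ℝ) * (Fintype.card Y' : ℝ) ^ l)) ≤
      ∑ o ∈ (univ : Finset (X × (Fin l → Y))).filter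
        (fun o => (φ o.1, fun i => ψ (o.2 i)) = (x', y')),
        d (P.pr l o.1 o.2) (1 / ((Fintype.card X : ℝ) * (Fintype.card Y : ℝ) ^ l)) := by
    intro x' y'
    have h1 : (P.map φ ψ).pr l x' y' = ∑ o ∈ (univ : Finset (X × (Fin l → Y))).filter
        (fun o => (φ o.1, fun i => ψ (o.2 i)) = (x', y')), P.pr l o.1 o.2 := by
      rw [Mx.pr_map hP, sum_filter, Fintype.sum_prod_type]
      refine sum_congr rfl fun x _ => sum_congr rfl fun y _ => ?_
      simp only [Prod.mk.injEq]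
    have h2 : 1 / ((Fintype.card X' : ℝ) * (Fintype.card Y' : ℝ) ^ l) =
        ∑ _o ∈ (univ : Finset (X × (Fin l → Y))).filter
        (fun o => (φ o.1, fun i => ψ (o.2 i)) = (x', y')),
          1 / ((Fintype.card X : ℝ) * (Fintype.card Y : ℝ) ^ l) := by
      have h3 : (univ : Finset (X × (Fin l → Y))).filter
          (fun o => (φ o.1, fun i => ψ (o.2 i)) = (x', y')) =
          (univ.filter fun x => φ x = x') ×ˢ
            (univ.filter fun y : Fin l → Y => (fun i => ψ (y i)) = y') := by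
        ext o
        simp only [mem_filter, mem_univ, true_and, mem_product, Prod.mk.injEq]
      rw [sum_const, h3, card_product, hcf, hcf'', nsmul_eq_mul, Nat.cast_mul, e1', e2']
      field_simp
    rw [h1, h2]
    exact d_logsum _ _ _ (fun o _ => Mx.pr_nonneg hP _ _ _) (fun o _ => hu.le)
      (fun o _ h => absurd h hu.ne')
  have hR : klu P l = ∑ o : X × (Fin l → Y),
      d (P.pr l o.1 o.2) (1 / ((Fintype.card X : ℝ) * (Fintype.card Y : ℝ) ^ l)) := by
    rw [Fintype.sum_prod_type]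
    rfl
  rw [hR, ← sum_fiberwise (univ : Finset (X × (Fin l → Y)))
    (fun o => ((φ o.1, fun i => ψ (o.2 i)) : X' × (Fin l → Y'))), Fintype.sum_prod_type]
  unfold klu
  exact sum_le_sum fun x' _ => sum_le_sum fun y' _ => key x' y'

/-- The probability under `P` that one of the two laws is small compared with their mean. -/
theorem head_bad {P Q : Mx X Y} (hP : P.Ok) (hQ : Q.Ok) (l : ℕ) :
    (∑ x, ∑ y : Fin l → Y, if Q.pr l x y < (P.mid Q).pr l x y / 2 ∨
        P.pr l x y < (P.mid Q).pr l x y / 2 then P.pr l x y else 0) ≤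
      14 * (kl Q (P.mid Q) l + kl P (P.mid Q) l) := by
  unfold kl
  rw [← sum_add_distrib, mul_sum]
  refine sum_le_sum fun x _ => ?_
  rw [← sum_add_distrib, mul_sum]
  refine sum_le_sum fun y _ => ?_
  have hP0 := Mx.pr_nonneg hP l x y
  have hQ0 := Mx.pr_nonneg hQ l x y
  have hR0 := Mx.pr_nonneg (Mx.mid_ok hP hQ) l x y
  have hR := Mx.pr_mid P Q l x y
  have hdP := d_nonneg hP0 hR0 (fun h => (pr_ac hP hQ l x y h).1)
  have hdQ := d_nonneg hQ0 hR0 (fun h => (pr_ac hP hQ l x y h).2)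
  split_ifs with h
  · rcases h with h | h
    · have h1 := d_half hQ0 hR0 h.le
      linarith
    · have h1 := d_half hP0 hR0 h.le
      linarith
  · linarith

/-- The next coordinates for which the conditional law of `Q` is small compared with that of the
mean. -/
noncomputable def zbad (P Q : Mx X Y) (l : ℕ) (x : X) (y : Fin l → Y) : Finset Y :=
  univ.filter fun z => Q.pr (l + 1) x (Fin.snoc y z) * (P.mid Q).pr l x y ≤
    1 / 2 * (P.mid Q).pr (l + 1) x (Fin.snoc y z) * Q.pr l x y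

theorem tail_bad {P Q : Mx X Y} (hP : P.Ok) (hQ : Q.Ok) (l : ℕ) :
    (∑ x, ∑ y : Fin l → Y, if (P.mid Q).pr l x y / 2 ≤ Q.pr l x y then
        ∑ z ∈ zbad P Q l x y, P.pr (l + 1) x (Fin.snoc y z) else 0) ≤
      28 * (kl Q (P.mid Q) (l + 1) - kl Q (P.mid Q) l) := by
  have hR := Mx.mid_ok hP hQ
  rw [kl_succ]
  unfold kl
  rw [← sum_sub_distrib, mul_sum]
  refine sum_le_sum fun x _ => ?_
  rw [← sum_sub_distrib, mul_sum]
  refine sum_le_sum fun y _ => ?_
  have hac : ∀ l x (y : Fin l → Y), (P.mid Q).pr l x y = 0 → Q.pr l x y = 0 :=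
    fun l x y h => (pr_ac hP hQ l x y h).2
  split_ifs with h
  · have h1 := d_incr (univ : Finset Y) (fun z => Q.pr (l + 1) x (Fin.snoc y z))
      (fun z => (P.mid Q).pr (l + 1) x (Fin.snoc y z)) (fun z _ => Mx.pr_nonneg hQ _ _ _)
      (fun z _ => Mx.pr_nonneg hR _ _ _) (fun z _ => hac _ _ _)
      (by rw [Mx.pr_succ hQ, Mx.pr_succ hR]; exact h)
    simp only [Mx.pr_succ hQ, Mx.pr_succ hR] at h1
    have h2 : ∑ z ∈ zbad P Q l x y, P.pr (l + 1) x (Fin.snoc y z) ≤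
        ∑ z ∈ zbad P Q l x y, 2 * (P.mid Q).pr (l + 1) x (Fin.snoc y z) := by
      refine sum_le_sum fun z _ => ?_
      have h3 := Mx.pr_mid P Q (l + 1) x (Fin.snoc y z)
      have h4 := Mx.pr_nonneg hQ (l + 1) x (Fin.snoc y z)
      linarith
    rw [← mul_sum] at h2
    unfold zbad at h2 ⊢
    linarith
  · have h1 := kl_step hQ hR hac l x y
    linarith

end Pool.Agent.OSM
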