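import Pool.Agent.OSM.Greedy
import Pool.Agent.OSM.MxKL

/-!
# OSM/Reservoir: a common reservoir for finitely many mixtures

Let `o = (x, y)`, `p₀ = P.pr l x y > 0`. Write `mid i = P.mid (Q i)`. By `HeadOk`,
`(Q i).pr o ≥ (mid i).pr o / 2` and `p₀ ≥ (mid i).pr o / 2`; also `(mid i).pr ≥ P.pr / 2`.

Let `W` be the set of the `z` with `P.pr (o, z) ≥ p₀ / (8 card Y)` and `z ∉ zbad P (Q i)` for all
`i`. The `P.pr (o, ·)`-mass of the complement is at most `p₀ / 8 + p₀ / 8`, so the mass of `W` is
at least `3 p₀ / 4`; as `P.pr (o, z) ≤ p₀ * (1 / q) / card Y` (`pr_snoc`, `f ≤ (1/q) / card Y`),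
`dens W ≥ 3 q / 4`.

For `z ∈ W`: `Q.pr (o, z) * mid.pr o > 1/2 * mid.pr (o, z) * Q.pr o ≥ 1/4 * P.pr (o, z) * Q.pr o`
and `P.pr (o, z) ≥ p₀ / (8 card Y) ≥ mid.pr o / (16 card Y)`, so
`Q.pr (o, z) ≥ Q.pr o / (64 card Y)` (`Q = Q i`, `mid.pr o > 0`).

Let `π a = (if Q.x a = x then Q.w a * ∏ f_a (y i) else 0) / Q.pr o`, a law on the states. So
`∑ a, π a * f_a z ≥ 1 / (64 card Y)`; as `f_a z ≤ (1 / q) / card Y`, the `π`-mass of the states with
`f_a z ≥ 1 / (128 card Y)` is at least `(1/64 - 1/128) * q = q / 128 =: β`. Let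
`V_a = {z : f_a z ≥ 1 / (128 card Y)}`, `ν i V = π {a : V_a = V}`. Apply `greedy`: `R` is the set
of the `z ∈ W` in all `V i`; `dens R ≥ (q / 256) ^ N * (3 q / 4)`.

`low`: for `z : Fin r → Y` with values in `R`:
`Q.pr (l + r) x (Fin.append y z) = ∑ a, (w a ∏ f_a (y i)) ∏ f_a (z i)` (over the states with point
`x`, `pr_append`) is at least the sum over the `a` with `V_a = V i`, for which
`f_a (z i) ≥ 1 / (128 card Y)`: this is `≥ Q.pr o * ν i (V i) * (1 / (128 card Y)) ^ r`, and
`Q.pr o ≥ mid.pr o / 2 ≥ p₀ / 4`, `ν i (V i) ≥ (q / 256) / 2 ^ card Y`.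

`state`: since `ν i (V i) > 0` there is a state `a` with `V_a = V i ⊇ R`, `π a > 0`.
-/

set_option autoImplicit false

namespace Pool.Agent.OSM

open Finset
open scoped Classical

/-- Neither of the two laws is small at `(x, y)` compared with their mean. -/
def HeadOk {X Y : Type} (P Q : Mx X Y) (l : ℕ) (x : X) (y : Fin l → Y) : Prop :=
  (P.mid Q).pr l x y / 2 ≤ Q.pr l x y ∧ (P.mid Q).pr l x y / 2 ≤ P.pr l x y

section aux
variable {X Y : Type} [Fintype X] [Fintype Y]

/-- The law of the state given `(x, y)`, times the probability of `(x, y)`. -/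
private noncomputable def wt (Q : Mx X Y) (l : ℕ) (x : X) (y : Fin l → Y) (a : Q.ι) : ℝ :=
  if Q.x a = x then Q.w a * ∏ i, Q.f a (y i) else 0

private theorem wt_nonneg {Q : Mx X Y} (hQ : Q.Ok) (l : ℕ) (x : X) (y : Fin l → Y) (a : Q.ι) :
    0 ≤ wt Q l x y a := by
  unfold wt
  split_ifs
  · exact mul_nonneg (hQ.w_nonneg a) (Finset.prod_nonneg fun i _ => hQ.f_nonneg a _)
  · exact le_rfl

private theorem wt_sum (Q : Mx X Y) (l : ℕ) (x : X) (y : Fin l → Y) :
    ∑ a, wt Q l x y a = Q.pr l x y := rfl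

private theorem wt_snoc (Q : Mx X Y) (l : ℕ) (x : X) (y : Fin l → Y) (z : Y) :
    Q.pr (l + 1) x (Fin.snoc y z) = ∑ a, wt Q l x y a * Q.f a z := by
  rw [Mx.pr_snoc]
  refine sum_congr rfl fun a _ => ?_
  unfold wt
  split_ifs
  · rfl
  · rw [zero_mul]

private theorem wt_append (Q : Mx X Y) (l r : ℕ) (x : X) (y : Fin l → Y) (z : Fin r → Y) :
    Q.pr (l + r) x (Fin.append y z) = ∑ a, wt Q l x y a * ∏ t, Q.f a (z t) := by
  rw [Mx.pr_append]
  refine sum_congr rfl fun a _ => ?_
  unfold wt
  split_ifs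
  · rfl
  · rw [zero_mul]

private theorem snoc_le {P : Mx X Y} (hP : P.Ok) {K : ℝ} (hK : ∀ a z, P.f a z ≤ K) (l : ℕ) (x : X)
    (y : Fin l → Y) (z : Y) : P.pr (l + 1) x (Fin.snoc y z) ≤ P.pr l x y * K := by
  rw [wt_snoc, ← wt_sum, sum_mul]
  exact sum_le_sum fun a _ => mul_le_mul_of_nonneg_left (hK a z) (wt_nonneg hP l x y a)

/-- the states with a large probability of `z`: the set of the large `z` -/
private noncomputable def Vs (Q : Mx X Y) (a : Q.ι) : Finset Y :=
  univ.filter fun z => 1 / (128 * (Fintype.card Y : ℝ)) ≤ Q.f a z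

end aux

theorem reservoir {X Y : Type} [Fintype X] [Fintype Y] [Nonempty Y] {P : Mx X Y} (hP : P.Ok)
    {q : ℝ} (hq : 0 < q) (hq1 : q ≤ 1) (hPf : ∀ a z, P.f a z ≤ (1 / q) / (Fintype.card Y : ℝ))
    {N : ℕ} (Q : Fin N → Mx X Y) (hQ : ∀ i, (Q i).Ok)
    (hQf : ∀ i a z, (Q i).f a z ≤ (1 / q) / (Fintype.card Y : ℝ)) (l : ℕ) (x : X)
    (y : Fin l → Y) (hpos : 0 < P.pr l x y) (hok : ∀ i, HeadOk P (Q i) l x y)
    (hbad : ∑ i, ∑ z ∈ zbad P (Q i) l x y, P.pr (l + 1) x (Fin.snoc y z) ≤ P.pr l x y / 8) :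
    ∃ R : Finset Y, 3 * q / 4 * (q / 256) ^ N ≤ dens R ∧
      (∀ i, ∀ (r : ℕ) (z : Fin r → Y), (∀ t, z t ∈ R) →
        P.pr l x y / 4 * (q / 256 / 2 ^ Fintype.card Y) *
          (1 / (128 * (Fintype.card Y : ℝ))) ^ r ≤ (Q i).pr (l + r) x (Fin.append y z)) ∧
      ∀ i, ∃ a : (Q i).ι, (Q i).x a = x ∧ (∀ t, 0 < (Q i).f a (y t)) ∧ ∀ z ∈ R, 0 < (Q i).f a z := by
  have hM : 0 < (Fintype.card Y : ℝ) := by exact_mod_cast Fintype.card_pos
  set M : ℝ := (Fintype.card Y : ℝ) with hMdef
  set p0 : ℝ := P.pr l x y with hp0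
  -- the heads
  have hQo : ∀ i, p0 / 4 ≤ (Q i).pr l x y := by
    intro i
    have h1 := (hok i).1
    have h2 := Mx.pr_mid P (Q i) l x y
    have h3 := Mx.pr_nonneg (hQ i) l x y
    rw [h2] at h1
    linarith
  have hQpos : ∀ i, 0 < (Q i).pr l x y := fun i => lt_of_lt_of_le (by positivity) (hQo i)
  -- the set W
  set W : Finset Y := univ.filter fun z => p0 / (8 * M) ≤ P.pr (l + 1) x (Fin.snoc y z) ∧
    ∀ i, z ∉ zbad P (Q i) l x y with hW
  have hmass : 3 * p0 / 4 ≤ ∑ z ∈ W, P.pr (l + 1) x (Fin.snoc y z) := by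
    have h1 := Mx.pr_succ hP l x y
    have h2 : ∀ z, P.pr (l + 1) x (Fin.snoc y z) ≤
        (if z ∈ W then P.pr (l + 1) x (Fin.snoc y z) else 0) + p0 / (8 * M) +
          ∑ i, (if z ∈ zbad P (Q i) l x y then P.pr (l + 1) x (Fin.snoc y z) else 0) := by
      intro z
      have h3 := Mx.pr_nonneg hP (l + 1) x (Fin.snoc y z)
      have h4 : 0 ≤ ∑ i, (if z ∈ zbad P (Q i) l x y then P.pr (l + 1) x (Fin.snoc y z) else 0) :=
        sum_nonneg fun i _ => by split_ifs; exacts [h3, le_rfl]
      have h5 : 0 ≤ p0 / (8 * M) := by positivity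
      by_cases hz : z ∈ W
      · rw [if_pos hz]; linarith
      · rw [if_neg hz]
        rw [hW, mem_filter] at hz
        simp only [mem_univ, true_and, not_and_or, not_le, not_forall, not_not] at hz
        rcases hz with hz | ⟨i, hz⟩
        · linarith
        · have h6 : P.pr (l + 1) x (Fin.snoc y z) ≤
              ∑ i, (if z ∈ zbad P (Q i) l x y then P.pr (l + 1) x (Fin.snoc y z) else 0) := by
            refine le_trans (le_of_eq ?_) (single_le_sum (f := fun i =>
              (if z ∈ zbad P (Q i) l x y then P.pr (l + 1) x (Fin.snoc y z) else 0))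
              (fun i _ => by split_ifs; exacts [h3, le_rfl]) (mem_univ i))
            simp only [if_pos hz]
          linarith
    have h3 := sum_le_sum (s := univ) fun z _ => h2 z
    rw [h1, sum_add_distrib, sum_add_distrib, sum_const, card_univ, nsmul_eq_mul, ← hMdef,
      sum_comm, ← sum_filter, filter_mem_eq_inter, univ_inter] at h3
    have h4 : ∀ i, (∑ z, if z ∈ zbad P (Q i) l x y then P.pr (l + 1) x (Fin.snoc y z) else 0) =
        ∑ z ∈ zbad P (Q i) l x y, P.pr (l + 1) x (Fin.snoc y z) := by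
      intro i
      rw [← sum_filter, filter_mem_eq_inter, univ_inter]
    simp only [h4] at h3
    have h5 : M * (p0 / (8 * M)) = p0 / 8 := by field_simp
    rw [h5] at h3
    linarith
  have hdW : 3 * q / 4 ≤ dens W := by
    have h1 : ∑ z ∈ W, P.pr (l + 1) x (Fin.snoc y z) ≤ ∑ _z ∈ W, p0 * (1 / q / M) :=
      sum_le_sum fun z _ => snoc_le hP hPf l x y z
    rw [sum_const, nsmul_eq_mul] at h1
    have h2 := hmass.trans h1
    unfold dens
    rw [← hMdef, le_div_iff₀ hM]
    have h3 : (W.card : ℝ) * (p0 * (1 / q / M)) = (W.card : ℝ) / (q * M) * p0 := by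
      field_simp
    rw [h3] at h2
    have h4 : 3 / 4 ≤ (W.card : ℝ) / (q * M) := by
      have : 3 / 4 * p0 ≤ (W.card : ℝ) / (q * M) * p0 := by linarith
      exact le_of_mul_le_mul_right this hpos
    rw [le_div_iff₀ (by positivity)] at h4
    linarith
  -- the tails
  have htail : ∀ i, ∀ z ∈ W, (Q i).pr l x y / (64 * M) ≤ (Q i).pr (l + 1) x (Fin.snoc y z) := by
    intro i z hz
    rw [hW, mem_filter] at hz
    obtain ⟨-, h1, h2⟩ := hz
    have h3 := h2 i
    unfold zbad at h3
    rw [mem_filter] at h3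
    simp only [mem_univ, true_and, not_le] at h3
    have h4 := Mx.pr_mid P (Q i) (l + 1) x (Fin.snoc y z)
    have h5 := Mx.pr_nonneg (hQ i) (l + 1) x (Fin.snoc y z)
    have h6 := (hok i).2
    have h7 := hQpos i
    have h8 : p0 / (16 * M) ≤ (P.mid (Q i)).pr (l + 1) x (Fin.snoc y z) := by
      have : p0 / (16 * M) = p0 / (8 * M) / 2 := by field_simp; norm_num
      rw [this, h4]
      linarith
    have h9 : 1 / 2 * (p0 / (16 * M)) * (Q i).pr l x y ≤
        1 / 2 * (P.mid (Q i)).pr (l + 1) x (Fin.snoc y z) * (Q i).pr l x y :=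
      mul_le_mul_of_nonneg_right (mul_le_mul_of_nonneg_left h8 (by norm_num)) h7.le
    have h10 : (Q i).pr (l + 1) x (Fin.snoc y z) * (P.mid (Q i)).pr l x y ≤
        (Q i).pr (l + 1) x (Fin.snoc y z) * (2 * p0) :=
      mul_le_mul_of_nonneg_left (by linarith) h5
    have h11 : p0 * ((Q i).pr l x y / (64 * M)) ≤ p0 * (Q i).pr (l + 1) x (Fin.snoc y z) := by
      have e : 1 / 2 * (p0 / (16 * M)) * (Q i).pr l x y = 2 * (p0 * ((Q i).pr l x y / (64 * M))) := by
        field_simp; norm_num
      rw [e] at h9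
      linarith
    exact le_of_mul_le_mul_left h11 hpos
  -- the law of the patterns
  set ν : Fin N → Finset Y → ℝ := fun i V =>
    ∑ a, if Vs (Q i) a = V then wt (Q i) l x y a / (Q i).pr l x y else 0 with hν
  have hν0 : ∀ i V, 0 ≤ ν i V := by
    intro i V
    refine sum_nonneg fun a _ => ?_
    split_ifs
    · exact div_nonneg (wt_nonneg (hQ i) l x y a) (hQpos i).le
    · exact le_rfl
  have hν1 : ∀ i, ∑ V : Finset Y, ν i V = 1 := by
    intro i
    rw [hν]
    simp only
    rw [sum_comm]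
    simp only [sum_ite_eq, mem_univ, if_true]
    rw [← sum_div, wt_sum, div_self (hQpos i).ne']
  have hβ : ∀ i, ∀ z ∈ W, q / 128 ≤ ∑ V : Finset Y, if z ∈ V then ν i V else 0 := by
    intro i z hz
    have e1 : (∑ V : Finset Y, if z ∈ V then ν i V else 0) =
        ∑ a, if z ∈ Vs (Q i) a then wt (Q i) l x y a / (Q i).pr l x y else 0 := by
      have e2 : ∀ V : Finset Y, (if z ∈ V then ν i V else 0) =
          ∑ a, if Vs (Q i) a = V then (if z ∈ Vs (Q i) a then
            wt (Q i) l x y a / (Q i).pr l x y else 0) else 0 := by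
        intro V
        rw [hν]
        simp only
        split_ifs with h
        · refine sum_congr rfl fun a _ => ?_
          split_ifs with h1 h2
          · rfl
          · rw [h1] at h2; exact absurd h h2
          · rfl
        · symm
          refine sum_eq_zero fun a _ => ?_
          split_ifs with h1 h2
          · rw [h1] at h2; exact absurd h2 h
          · rfl
          · rfl
      simp only [e2]
      rw [sum_comm]
      simp only [sum_ite_eq, mem_univ, if_true]
    rw [e1]
    set Sm := ∑ a, if z ∈ Vs (Q i) a then wt (Q i) l x y a / (Q i).pr l x y else 0 with hSm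
    have h1 : ∑ a, wt (Q i) l x y a / (Q i).pr l x y * (Q i).f a z ≤
        Sm * (1 / q / M) + 1 / (128 * M) := by
      have h2 : ∀ a, wt (Q i) l x y a / (Q i).pr l x y * (Q i).f a z ≤
          (if z ∈ Vs (Q i) a then wt (Q i) l x y a / (Q i).pr l x y else 0) * (1 / q / M) +
            wt (Q i) l x y a / (Q i).pr l x y * (1 / (128 * M)) := by
        intro a
        have h3 : 0 ≤ wt (Q i) l x y a / (Q i).pr l x y :=
          div_nonneg (wt_nonneg (hQ i) l x y a) (hQpos i).le
        have h4 : 0 ≤ 1 / (128 * M) := by positivity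
        split_ifs with h
        · have h5 := mul_le_mul_of_nonneg_left (hQf i a z) h3
          have h6 := mul_nonneg h3 h4
          linarith
        · unfold Vs at h
          rw [mem_filter] at h
          simp only [mem_univ, true_and, not_le] at h
          have h5 := mul_le_mul_of_nonneg_left h.le h3
          rw [zero_mul, zero_add]
          exact h5
      refine (sum_le_sum fun a _ => h2 a).trans (le_of_eq ?_)
      rw [sum_add_distrib, ← sum_mul, ← sum_mul, ← sum_div, wt_sum, div_self (hQpos i).ne', one_mul]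
    have h2 : ∑ a, wt (Q i) l x y a / (Q i).pr l x y * (Q i).f a z =
        (Q i).pr (l + 1) x (Fin.snoc y z) / (Q i).pr l x y := by
      rw [wt_snoc, sum_div]
      exact sum_congr rfl fun a _ => by ring
    have h3 : 1 / (64 * M) ≤ (Q i).pr (l + 1) x (Fin.snoc y z) / (Q i).pr l x y := by
      rw [le_div_iff₀ (hQpos i)]
      have := htail i z hz
      have e : 1 / (64 * M) * (Q i).pr l x y = (Q i).pr l x y / (64 * M) := by ring
      rw [e]
      exact this
    rw [h2] at h1
    have h4 : 1 / (128 * M) ≤ Sm * (1 / q / M) := by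
      have e : 1 / (64 * M) = 1 / (128 * M) + 1 / (128 * M) := by field_simp; norm_num
      linarith
    have h5 : 1 / (128 * M) * (q * M) ≤ Sm * (1 / q / M) * (q * M) :=
      mul_le_mul_of_nonneg_right h4 (by positivity)
    have e6 : 1 / (128 * M) * (q * M) = q / 128 := by field_simp
    have e7 : Sm * (1 / q / M) * (q * M) = Sm := by field_simp
    rw [e6, e7] at h5
    exact h5
  obtain ⟨V, hV, hR⟩ := greedy ν hν0 hν1 W (β := q / 128) (by positivity) (by linarith) hβ
  have e128 : q / 128 / 2 = q / 256 := by ring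
  rw [e128] at hR
  simp only [e128] at hV
  refine ⟨W.filter fun z => ∀ i, z ∈ V i, ?_, ?_, ?_⟩
  · refine le_trans ?_ hR
    rw [mul_comm]
    exact mul_le_mul_of_nonneg_left hdW (by positivity)
  · intro i r z hz
    rw [wt_append]
    have h1 : (Q i).pr l x y * ν i (V i) * (1 / (128 * M)) ^ r ≤
        ∑ a, wt (Q i) l x y a * ∏ t, (Q i).f a (z t) := by
      rw [hν]
      simp only
      rw [mul_sum, sum_mul]
      refine sum_le_sum fun a _ => ?_
      have h2 := wt_nonneg (hQ i) l x y a
      split_ifs with h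
      · have e : (Q i).pr l x y * (wt (Q i) l x y a / (Q i).pr l x y) = wt (Q i) l x y a := by
          have := (hQpos i).ne'
          field_simp
        rw [e]
        refine mul_le_mul_of_nonneg_left ?_ h2
        have h3 : ∏ _t : Fin r, (1 / (128 * M)) ≤ ∏ t, (Q i).f a (z t) := by
          refine Finset.prod_le_prod (fun t _ => by positivity) fun t _ => ?_
          have h4 := (mem_filter.1 (hz t)).2 i
          rw [← h] at h4
          unfold Vs at h4
          exact (mem_filter.1 h4).2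
        rwa [Finset.prod_const, Finset.card_univ, Fintype.card_fin] at h3
      · rw [mul_zero, zero_mul]
        exact mul_nonneg h2 (Finset.prod_nonneg fun t _ => (hQ i).f_nonneg a _)
    refine le_trans ?_ h1
    refine mul_le_mul_of_nonneg_right ?_ (by positivity)
    exact mul_le_mul (hQo i) (hV i) (by positivity) (hQpos i).le
  · intro i
    have h1 : 0 < ν i (V i) := lt_of_lt_of_le (by positivity) (hV i)
    have h2 : ∃ a, 0 < (if Vs (Q i) a = V i then wt (Q i) l x y a / (Q i).pr l x y else 0) := by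
      by_contra hc
      simp only [not_exists, not_lt] at hc
      exact absurd h1 (not_lt.2 (sum_nonpos fun a _ => hc a))
    obtain ⟨a, ha⟩ := h2
    split_ifs at ha with h
    · have hw : 0 < wt (Q i) l x y a := by
        rcases (wt_nonneg (hQ i) l x y a).eq_or_lt with h3 | h3
        · rw [← h3, zero_div] at ha; exact absurd ha (lt_irrefl _)
        · exact h3
      unfold wt at hw
      split_ifs at hw with h3
      · refine ⟨a, h3, ?_, ?_⟩
        · intro t
          rcases ((hQ i).f_nonneg a (y t)).eq_or_lt with h4 | h4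
          · exfalso
            rw [Finset.prod_eq_zero (mem_univ t) h4.symm, mul_zero] at hw
            exact lt_irrefl _ hw
          · exact h4
        · intro z hz
          have h4 := (mem_filter.1 hz).2 i
          rw [← h] at h4
          unfold Vs at h4
          exact lt_of_lt_of_le (by positivity) (mem_filter.1 h4).2
      · exact absurd hw (lt_irrefl _)
    · exact absurd ha (lt_irrefl _)

end Pool.Agent.OSM
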