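import Pool.Agent.OSM.Talagrand
import Pool.Agent.OSM.Reservoir

/-!
# OSM/Typical: typical samples

`S` is a finite set (of strings `σ`), `A σ` a finite set (of strings above `σ`), `Q σ U` (`U ⊆ A σ`)
the mixture obtained after `U` has been removed. Write `mid = P.mid (Q σ U)`,
`K σ U l = kl (Q σ U) mid l + kl P mid l`, `κ = ∑_σ Ex (K σ U (2 * J0))`.

For a sample `o = (x, y)`, `y : Fin j → Y`, let
* `hbad σ o = Ex_U [¬ HeadOk P (Q σ U) j x y]`,
* `dd σ o = Ex_U [HeadOk · tmass σ U o]`, `tmass σ U o = ∑ z ∈ zbad P (Q σ U) j x y,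
  P.pr (j+1) x (snoc y z)` (not divided by `P.pr j x y`).

(1) Choice of `j`: for `J0 ≤ j < 2 J0` let
`D j = ∑_σ Ex (kl (Q σ U) mid (j+1) - kl (Q σ U) mid j) ≥ 0` (`kl_mono'`). The sum over these `j`
telescopes, so it is at most `∑_σ Ex (kl (Q σ U) mid (2 J0)) ≤ κ` (`kl_nonneg'`, `kl_nonneg`);
so there is `j` with `J0 * D j ≤ κ` (`J0 > 0`).
(2) `∑_o P.pr o * hbad σ o = Ex_U (∑_o [¬ HeadOk] P.pr o) ≤ Ex (14 * K σ U j) ≤ 14 * Ex (K σ U (2 J0))`
(`head_bad`, `kl_mono`, `kl_mono'`; `¬ HeadOk` is the event of `head_bad`). Hence the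
`P`-probability of `{o : ∃ σ ∈ S, 1/8 < hbad σ o}` is at most `8 * 14 * κ ≤ 112 / 1000 ≤ 1 / 8`.
(3) `∑_o ∑_σ dd σ o ≤ 28 * D j` (`tail_bad`: on `HeadOk` its condition holds). Let `θ = 1/(32 B)`;
the number of `σ` with `dd σ o > θ * P.pr o`, times `θ * P.pr o`, is at most `∑_σ dd σ o`. So the
mean over `o` (with weights `P.pr o`) of this number is at most `28 * D j / θ ≤ 896 * B * κ / J0`,
and the probability that it is at least `M0 / 2` is at most `1792 * B * κ / (J0 * M0) ≤ 1/8` by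
`h2`.
(4) The probability of the bad event `Bad` is at most `1 / 4` (`pr_marg`). As
`1/4 + 1/8 + 1/8 < 1` there is `o` with `P.pr o > 0` outside the three events. (Formally: the sum
of the `P.pr o` is `1` (`pr_sum`), and the sums over the three events are at most `1/2` in total.)
-/

set_option autoImplicit false

namespace Pool.Agent.OSM

open Finset
open scoped Classical

theorem ex_sum {α ι : Type} (p : ℝ) (s : Finset α) (t : Finset ι) (F : ι → Finset α → ℝ) :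
    ∑ i ∈ t, Ex p s (F i) = Ex p s (fun u => ∑ i ∈ t, F i u) := by
  unfold Ex
  rw [Finset.sum_comm]
  refine Finset.sum_congr rfl fun u _ => ?_
  rw [Finset.mul_sum]

theorem inv_bounds {B : ℕ} (hB : 0 < B) : 0 ≤ 1 / (B : ℝ) ∧ 1 / (B : ℝ) ≤ 1 := by
  have h : (1 : ℝ) ≤ B := by exact_mod_cast hB
  refine ⟨by positivity, ?_⟩
  rw [div_le_one (by linarith)]
  exact h

theorem ex_nonneg {α : Type} {B : ℕ} (hB : 0 < B) (s : Finset α) {F : Finset α → ℝ}
    (h : ∀ u ⊆ s, 0 ≤ F u) : 0 ≤ Ex (1 / (B : ℝ)) s F := by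
  have := ex_mono (inv_bounds hB).1 (inv_bounds hB).2 s (F := fun _ => 0) (F' := F) h
  rwa [ex_const] at this

/-- The sum over `(x, y)` commutes with the expectation. -/
theorem ex_sum2 {X Y α : Type} [Fintype X] [Fintype Y] (p : ℝ) (s : Finset α) (j : ℕ)
    (F : X → (Fin j → Y) → Finset α → ℝ) :
    ∑ x, ∑ y : Fin j → Y, Ex p s (F x y) = Ex p s (fun u => ∑ x, ∑ y : Fin j → Y, F x y u) := by
  have h : ∀ x, ∑ y : Fin j → Y, Ex p s (F x y) = Ex p s (fun u => ∑ y : Fin j → Y, F x y u) :=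
    fun x => ex_sum p s univ (F x)
  rw [Finset.sum_congr rfl fun x _ => h x]
  exact ex_sum p s univ _

/-- The expected probability of the bad heads. -/
theorem head_part {X Y α τ : Type} [Fintype X] [Fintype Y] {P : Mx X Y} (hP : P.Ok)
    (S : Finset τ) (A : τ → Finset α) (Q : τ → Finset α → Mx X Y)
    (hQ : ∀ σ ∈ S, ∀ U ⊆ A σ, (Q σ U).Ok) {B J0 : ℕ} (hB : 0 < B) {κ : ℝ}
    (hκ : ∑ σ ∈ S, Ex (1 / (B : ℝ)) (A σ) (fun U =>
      kl (Q σ U) (P.mid (Q σ U)) (2 * J0) + kl P (P.mid (Q σ U)) (2 * J0)) ≤ κ)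
    {j : ℕ} (hj : j ≤ 2 * J0) :
    ∑ x, ∑ y : Fin j → Y, ∑ σ ∈ S, P.pr j x y * Ex (1 / (B : ℝ)) (A σ)
      (fun U => if HeadOk P (Q σ U) j x y then 0 else 1) ≤ 14 * κ := by
  have e1 : ∑ x, ∑ y : Fin j → Y, ∑ σ ∈ S, P.pr j x y * Ex (1 / (B : ℝ)) (A σ)
      (fun U => if HeadOk P (Q σ U) j x y then 0 else 1) =
      ∑ σ ∈ S, Ex (1 / (B : ℝ)) (A σ) (fun U => ∑ x, ∑ y : Fin j → Y,
        P.pr j x y * (if HeadOk P (Q σ U) j x y then 0 else 1)) := by
    have : ∀ x, ∑ y : Fin j → Y, ∑ σ ∈ S, P.pr j x y * Ex (1 / (B : ℝ)) (A σ)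
        (fun U => if HeadOk P (Q σ U) j x y then 0 else 1) =
        ∑ σ ∈ S, ∑ y : Fin j → Y, Ex (1 / (B : ℝ)) (A σ) (fun U =>
        P.pr j x y * (if HeadOk P (Q σ U) j x y then 0 else 1)) := by
      intro x
      rw [Finset.sum_comm]
      refine Finset.sum_congr rfl fun σ _ => Finset.sum_congr rfl fun y _ => ?_
      rw [ex_mul]
    rw [Finset.sum_congr rfl fun x _ => this x, Finset.sum_comm]
    refine Finset.sum_congr rfl fun σ _ => ?_
    rw [ex_sum2]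
  rw [e1]
  have hb := inv_bounds hB
  have e2 : ∀ σ ∈ S, Ex (1 / (B : ℝ)) (A σ) (fun U => ∑ x, ∑ y : Fin j → Y,
        P.pr j x y * (if HeadOk P (Q σ U) j x y then 0 else 1)) ≤
      14 * Ex (1 / (B : ℝ)) (A σ) (fun U =>
      kl (Q σ U) (P.mid (Q σ U)) (2 * J0) + kl P (P.mid (Q σ U)) (2 * J0)) := by
    intro σ hσ
    rw [← ex_mul]
    apply ex_mono hb.1 hb.2
    intro U hU
    have h1 := head_bad hP (hQ σ hσ U hU) j
    have h2 := kl_mono hP (hQ σ hσ U hU) hj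
    have h3 := kl_mono' hP (hQ σ hσ U hU) hj
    refine le_trans ?_ (h1.trans (by linarith))
    refine Finset.sum_le_sum fun x _ => Finset.sum_le_sum fun y _ => ?_
    by_cases hh : HeadOk P (Q σ U) j x y
    · rw [if_pos hh, mul_zero]
      split_ifs
      · exact Mx.pr_nonneg hP _ _ _
      · exact le_rfl
    · rw [if_neg hh, mul_one, if_pos]
      unfold HeadOk at hh
      rw [not_and_or, not_le, not_le] at hh
      exact hh
  calc _ ≤ ∑ σ ∈ S, 14 * Ex (1 / (B : ℝ)) (A σ) (fun U =>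
      kl (Q σ U) (P.mid (Q σ U)) (2 * J0) + kl P (P.mid (Q σ U)) (2 * J0)) :=
        Finset.sum_le_sum e2
    _ ≤ 14 * κ := by rw [← Finset.mul_sum]; linarith

/-- The masses of the bad tails. -/
theorem tail_part {X Y α τ : Type} [Fintype X] [Fintype Y] {P : Mx X Y} (hP : P.Ok)
    (S : Finset τ) (A : τ → Finset α) (Q : τ → Finset α → Mx X Y)
    (hQ : ∀ σ ∈ S, ∀ U ⊆ A σ, (Q σ U).Ok) {B : ℕ} (hB : 0 < B) {j : ℕ} {D : ℝ}
    (hD : ∑ σ ∈ S, Ex (1 / (B : ℝ)) (A σ) (fun U =>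
      kl (Q σ U) (P.mid (Q σ U)) (j + 1) - kl (Q σ U) (P.mid (Q σ U)) j) ≤ D) :
    ∑ x, ∑ y : Fin j → Y, ∑ σ ∈ S, Ex (1 / (B : ℝ)) (A σ)
      (fun U => if HeadOk P (Q σ U) j x y then
          ∑ z ∈ zbad P (Q σ U) j x y, P.pr (j + 1) x (Fin.snoc y z) else 0) ≤ 28 * D := by
  have e1 : ∑ x, ∑ y : Fin j → Y, ∑ σ ∈ S, Ex (1 / (B : ℝ)) (A σ)
      (fun U => if HeadOk P (Q σ U) j x y then
          ∑ z ∈ zbad P (Q σ U) j x y, P.pr (j + 1) x (Fin.snoc y z) else 0) =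
      ∑ σ ∈ S, Ex (1 / (B : ℝ)) (A σ) (fun U => ∑ x, ∑ y : Fin j → Y,
        if HeadOk P (Q σ U) j x y then
          ∑ z ∈ zbad P (Q σ U) j x y, P.pr (j + 1) x (Fin.snoc y z) else 0) := by
    have : ∀ x, ∑ y : Fin j → Y, ∑ σ ∈ S, Ex (1 / (B : ℝ)) (A σ)
        (fun U => if HeadOk P (Q σ U) j x y then
          ∑ z ∈ zbad P (Q σ U) j x y, P.pr (j + 1) x (Fin.snoc y z) else 0) =
        ∑ σ ∈ S, ∑ y : Fin j → Y, Ex (1 / (B : ℝ)) (A σ)
        (fun U => if HeadOk P (Q σ U) j x y then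
          ∑ z ∈ zbad P (Q σ U) j x y, P.pr (j + 1) x (Fin.snoc y z) else 0) := by
      intro x
      rw [Finset.sum_comm]
    rw [Finset.sum_congr rfl fun x _ => this x, Finset.sum_comm]
    refine Finset.sum_congr rfl fun σ _ => ?_
    rw [ex_sum2]
  rw [e1]
  have hb := inv_bounds hB
  have e2 : ∀ σ ∈ S, Ex (1 / (B : ℝ)) (A σ) (fun U => ∑ x, ∑ y : Fin j → Y,
        if HeadOk P (Q σ U) j x y then
          ∑ z ∈ zbad P (Q σ U) j x y, P.pr (j + 1) x (Fin.snoc y z) else 0) ≤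
      28 * Ex (1 / (B : ℝ)) (A σ) (fun U =>
      kl (Q σ U) (P.mid (Q σ U)) (j + 1) - kl (Q σ U) (P.mid (Q σ U)) j) := by
    intro σ hσ
    rw [← ex_mul]
    apply ex_mono hb.1 hb.2
    intro U hU
    refine le_trans ?_ (tail_bad hP (hQ σ hσ U hU) j)
    refine Finset.sum_le_sum fun x _ => Finset.sum_le_sum fun y _ => ?_
    by_cases hh : HeadOk P (Q σ U) j x y
    · rw [if_pos hh, if_pos hh.1]
    · rw [if_neg hh]
      split_ifs
      · exact Finset.sum_nonneg fun z _ => Mx.pr_nonneg hP _ _ _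
      · exact le_rfl
  calc _ ≤ ∑ σ ∈ S, 28 * Ex (1 / (B : ℝ)) (A σ) (fun U =>
      kl (Q σ U) (P.mid (Q σ U)) (j + 1) - kl (Q σ U) (P.mid (Q σ U)) j) :=
        Finset.sum_le_sum e2
    _ ≤ 28 * D := by rw [← Finset.mul_sum]; linarith

/-- The choice of `j`. -/
theorem choose_j {X Y α τ : Type} [Fintype X] [Fintype Y] {P : Mx X Y} (hP : P.Ok)
    (S : Finset τ) (A : τ → Finset α) (Q : τ → Finset α → Mx X Y)
    (hQ : ∀ σ ∈ S, ∀ U ⊆ A σ, (Q σ U).Ok) {B J0 : ℕ} (hB : 0 < B) (hJ0 : 0 < J0) {κ : ℝ}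
    (hκ : ∑ σ ∈ S, Ex (1 / (B : ℝ)) (A σ) (fun U =>
      kl (Q σ U) (P.mid (Q σ U)) (2 * J0) + kl P (P.mid (Q σ U)) (2 * J0)) ≤ κ) :
    ∃ j, J0 ≤ j ∧ j < 2 * J0 ∧ ∑ σ ∈ S, Ex (1 / (B : ℝ)) (A σ) (fun U =>
      kl (Q σ U) (P.mid (Q σ U)) (j + 1) - kl (Q σ U) (P.mid (Q σ U)) j) ≤ κ / J0 := by
  have hb := inv_bounds hB
  have hne : (Ico J0 (2 * J0)).Nonempty := ⟨J0, by rw [Finset.mem_Ico]; omega⟩
  have hsum : ∑ j ∈ Ico J0 (2 * J0), ∑ σ ∈ S, Ex (1 / (B : ℝ)) (A σ) (fun U =>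
      kl (Q σ U) (P.mid (Q σ U)) (j + 1) - kl (Q σ U) (P.mid (Q σ U)) j) ≤
      ∑ _j ∈ Ico J0 (2 * J0), κ / J0 := by
    rw [Finset.sum_const, Nat.card_Ico, nsmul_eq_mul]
    have e1 : ((2 * J0 - J0 : ℕ) : ℝ) * (κ / J0) = κ := by
      have : 2 * J0 - J0 = J0 := by omega
      rw [this]
      have hJ : (J0 : ℝ) ≠ 0 := by positivity
      field_simp
    rw [e1, Finset.sum_comm]
    refine le_trans ?_ hκ
    refine Finset.sum_le_sum fun σ hσ => ?_
    rw [ex_sum]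
    apply ex_mono hb.1 hb.2
    intro U hU
    rw [Finset.sum_Ico_eq_sum_range]
    have e2 : ∀ n, ∑ i ∈ range n, (kl (Q σ U) (P.mid (Q σ U)) (J0 + i + 1) -
        kl (Q σ U) (P.mid (Q σ U)) (J0 + i)) =
        kl (Q σ U) (P.mid (Q σ U)) (J0 + n) - kl (Q σ U) (P.mid (Q σ U)) J0 := by
      intro n
      have := Finset.sum_range_sub (fun i => kl (Q σ U) (P.mid (Q σ U)) (J0 + i)) n
      simpa [add_assoc] using this
    rw [e2]
    have e3 : J0 + (2 * J0 - J0) = 2 * J0 := by omega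
    rw [e3]
    have h1 := kl_nonneg hP (hQ σ hσ U hU) (2 * J0)
    have h2 := kl_nonneg' hP (hQ σ hσ U hU) J0
    linarith
  obtain ⟨j, hj, h⟩ := Finset.exists_le_of_sum_le hne hsum
  rw [Finset.mem_Ico] at hj
  exact ⟨j, hj.1, hj.2, h⟩

/-- `typical` gives a sample with the properties used in `OSM/Contra`. -/
theorem typical {X Y α τ : Type} [Fintype X] [Fintype Y] {P : Mx X Y} (hP : P.Ok)
    (S : Finset τ) (A : τ → Finset α) (Q : τ → Finset α → Mx X Y)
    (hQ : ∀ σ ∈ S, ∀ U ⊆ A σ, (Q σ U).Ok) {B J0 M0 : ℕ} (hB : 0 < B) (hJ0 : 0 < J0)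
    (hM0 : 0 < M0) {κ : ℝ}
    (hκ : ∑ σ ∈ S, Ex (1 / (B : ℝ)) (A σ) (fun U =>
      kl (Q σ U) (P.mid (Q σ U)) (2 * J0) + kl P (P.mid (Q σ U)) (2 * J0)) ≤ κ)
    (h1 : κ ≤ 1 / 1000) (h2 : 14336 * B * κ ≤ J0 * M0)
    (Bad : X → (Fin J0 → Y) → Prop)
    (hBad : (∑ x, ∑ y : Fin J0 → Y, if Bad x y then P.pr J0 x y else 0) ≤ 1 / 4) :
    ∃ (j : ℕ) (hj : J0 ≤ j) (x : X) (y : Fin j → Y), j < 2 * J0 ∧ 0 < P.pr j x y ∧
      ¬ Bad x (fun i => y (i.castLE hj)) ∧
      (∀ σ ∈ S, Ex (1 / (B : ℝ)) (A σ) (fun U => if HeadOk P (Q σ U) j x y then 0 else 1) ≤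
        1 / 8) ∧
      (((S.filter fun σ => 1 / (32 * (B : ℝ)) * P.pr j x y < Ex (1 / (B : ℝ)) (A σ) (fun U =>
        if HeadOk P (Q σ U) j x y then
          ∑ z ∈ zbad P (Q σ U) j x y, P.pr (j + 1) x (Fin.snoc y z) else 0)).card : ℝ) <
        M0 / 2) := by
  obtain ⟨j, hj, hj2, hD⟩ := choose_j hP S A Q hQ hB hJ0 hκ
  have hA := head_part hP S A Q hQ hB hκ hj2.le
  have hT := tail_part hP S A Q hQ hB hD
  by_contra hcon
  push Not at hcon
  have hBr : (0 : ℝ) < B := by exact_mod_cast hB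
  have hMr : (0 : ℝ) < M0 := by exact_mod_cast hM0
  have hJr : (0 : ℝ) < J0 := by exact_mod_cast hJ0
  have hb0 : ∀ σ ∈ S, ∀ x (y : Fin j → Y), 0 ≤ Ex (1 / (B : ℝ)) (A σ)
      (fun U => if HeadOk P (Q σ U) j x y then 0 else 1) := by
    intro σ _ x y
    apply ex_nonneg hB
    intro U _
    split_ifs <;> norm_num
  have hd0 : ∀ σ ∈ S, ∀ x (y : Fin j → Y), 0 ≤ Ex (1 / (B : ℝ)) (A σ)
      (fun U => if HeadOk P (Q σ U) j x y then
          ∑ z ∈ zbad P (Q σ U) j x y, P.pr (j + 1) x (Fin.snoc y z) else 0) := by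
    intro σ _ x y
    apply ex_nonneg hB
    intro U _
    split_ifs
    · exact Finset.sum_nonneg fun z _ => Mx.pr_nonneg hP _ _ _
    · exact le_rfl
  -- the pointwise inequality
  have key : ∀ x (y : Fin j → Y), P.pr j x y ≤
      P.pr j x y * (if Bad x (fun i => y (i.castLE hj)) then 1 else 0) +
      8 * ∑ σ ∈ S, P.pr j x y * Ex (1 / (B : ℝ)) (A σ)
        (fun U => if HeadOk P (Q σ U) j x y then 0 else 1) +
      (64 * B / M0) * ∑ σ ∈ S, Ex (1 / (B : ℝ)) (A σ)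
        (fun U => if HeadOk P (Q σ U) j x y then
          ∑ z ∈ zbad P (Q σ U) j x y, P.pr (j + 1) x (Fin.snoc y z) else 0) := by
    intro x y
    have hp0 : 0 ≤ P.pr j x y := Mx.pr_nonneg hP _ _ _
    have t1 : 0 ≤ P.pr j x y * (if Bad x (fun i => y (i.castLE hj)) then (1 : ℝ) else 0) := by
      apply mul_nonneg hp0
      split_ifs <;> norm_num
    have t2 : 0 ≤ 8 * ∑ σ ∈ S, P.pr j x y * Ex (1 / (B : ℝ)) (A σ)
        (fun U => if HeadOk P (Q σ U) j x y then 0 else 1) := by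
      apply mul_nonneg (by norm_num)
      exact Finset.sum_nonneg fun σ hσ => mul_nonneg hp0 (hb0 σ hσ x y)
    have t3 : 0 ≤ (64 * B / M0) * ∑ σ ∈ S, Ex (1 / (B : ℝ)) (A σ)
        (fun U => if HeadOk P (Q σ U) j x y then
          ∑ z ∈ zbad P (Q σ U) j x y, P.pr (j + 1) x (Fin.snoc y z) else 0) := by
      apply mul_nonneg (by positivity)
      exact Finset.sum_nonneg fun σ hσ => hd0 σ hσ x y
    rcases hp0.lt_or_eq with hpos | hzero
    · by_cases hbad : Bad x (fun i => y (i.castLE hj))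
      · rw [if_pos hbad] at t1 ⊢
        linarith
      · by_cases hall : ∀ σ ∈ S, Ex (1 / (B : ℝ)) (A σ)
            (fun U => if HeadOk P (Q σ U) j x y then 0 else 1) ≤ 1 / 8
        · have hc := hcon j hj x y hj2 hpos hbad hall
          have h3 : ((S.filter fun σ => 1 / (32 * (B : ℝ)) * P.pr j x y <
              Ex (1 / (B : ℝ)) (A σ) (fun U => if HeadOk P (Q σ U) j x y then
              ∑ z ∈ zbad P (Q σ U) j x y, P.pr (j + 1) x (Fin.snoc y z) else 0)).card : ℝ) *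
              (1 / (32 * (B : ℝ)) * P.pr j x y) ≤
              ∑ σ ∈ S, Ex (1 / (B : ℝ)) (A σ) (fun U => if HeadOk P (Q σ U) j x y then
              ∑ z ∈ zbad P (Q σ U) j x y, P.pr (j + 1) x (Fin.snoc y z) else 0) := by
            rw [← nsmul_eq_mul]
            refine le_trans (Finset.card_nsmul_le_sum _
              (fun σ => Ex (1 / (B : ℝ)) (A σ) (fun U => if HeadOk P (Q σ U) j x y then
              ∑ z ∈ zbad P (Q σ U) j x y, P.pr (j + 1) x (Fin.snoc y z) else 0)) _ ?_) ?_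
            · intro σ hσ
              rw [Finset.mem_filter] at hσ
              exact hσ.2.le
            · exact Finset.sum_le_sum_of_subset_of_nonneg (Finset.filter_subset _ _)
                fun σ hσ _ => hd0 σ hσ x y
          have h4 : (M0 : ℝ) / 2 * (1 / (32 * (B : ℝ)) * P.pr j x y) ≤
              ∑ σ ∈ S, Ex (1 / (B : ℝ)) (A σ) (fun U => if HeadOk P (Q σ U) j x y then
              ∑ z ∈ zbad P (Q σ U) j x y, P.pr (j + 1) x (Fin.snoc y z) else 0) :=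
            le_trans (mul_le_mul_of_nonneg_right hc (by positivity)) h3
          have h5 := mul_le_mul_of_nonneg_left h4 (by positivity : (0 : ℝ) ≤ 64 * B / M0)
          have h6 : (64 * B / M0 : ℝ) * ((M0 : ℝ) / 2 * (1 / (32 * (B : ℝ)) * P.pr j x y)) =
              P.pr j x y := by
            field_simp
            ring
          rw [h6] at h5
          linarith
        · push Not at hall
          obtain ⟨σ, hσ, hlt⟩ := hall
          have h3 : P.pr j x y * Ex (1 / (B : ℝ)) (A σ)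
              (fun U => if HeadOk P (Q σ U) j x y then 0 else 1) ≤
              ∑ σ ∈ S, P.pr j x y * Ex (1 / (B : ℝ)) (A σ)
              (fun U => if HeadOk P (Q σ U) j x y then 0 else 1) :=
            Finset.single_le_sum (f := fun σ => P.pr j x y * Ex (1 / (B : ℝ)) (A σ)
              (fun U => if HeadOk P (Q σ U) j x y then 0 else 1))
              (fun σ hσ => mul_nonneg hp0 (hb0 σ hσ x y)) hσ
          have h4 : P.pr j x y * (1 / 8) ≤ P.pr j x y * Ex (1 / (B : ℝ)) (A σ)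
              (fun U => if HeadOk P (Q σ U) j x y then 0 else 1) :=
            mul_le_mul_of_nonneg_left hlt.le hp0
          linarith
    · rw [← hzero] at t1 t2 ⊢
      linarith
  -- summation
  have hsum := Finset.sum_le_sum fun x (_ : x ∈ (univ : Finset X)) =>
    Finset.sum_le_sum fun y (_ : y ∈ (univ : Finset (Fin j → Y))) => key x y
  rw [Mx.pr_sum hP j] at hsum
  simp only [Finset.sum_add_distrib, ← Finset.mul_sum] at hsum
  have hm := Mx.pr_marg hP hj (fun x y => if Bad x y then (1 : ℝ) else 0)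
  have hm' : ∑ x, ∑ y : Fin J0 → Y, P.pr J0 x y * (if Bad x y then (1 : ℝ) else 0) ≤ 1 / 4 := by
    refine le_trans (le_of_eq ?_) hBad
    refine Finset.sum_congr rfl fun x _ => Finset.sum_congr rfl fun y _ => ?_
    split_ifs <;> simp
  rw [hm] at hsum
  simp only [Finset.mul_sum] at hsum hA
  simp only [← Finset.mul_sum] at hsum
  have hA' := hA
  simp only [← Finset.mul_sum] at hA'
  have hT' := mul_le_mul_of_nonneg_left hT (by positivity : (0 : ℝ) ≤ 64 * B / M0)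
  have hfin : (64 * B / M0 : ℝ) * (28 * (κ / J0)) ≤ 1 / 8 := by
    have e : (64 * B / M0 : ℝ) * (28 * (κ / J0)) = (14336 * B * κ) / (J0 * M0) / 8 := by
      field_simp
      ring
    rw [e]
    have : (14336 * B * κ) / (J0 * M0) ≤ 1 := by
      rw [div_le_one (by positivity)]
      exact h2
    linarith
  linarith

/-- For a good `σ` there are `2 B` sets `U` which cover most of `A`. -/
theorem family {X Y α : Type} [Fintype X] [Fintype Y] {P : Mx X Y} (A : Finset α)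
    (Q : Finset α → Mx X Y) {B : ℕ} (hB : 0 < B) (j : ℕ) (x : X) (y : Fin j → Y)
    (hP : P.Ok) (hpos : 0 < P.pr j x y)
    (h1 : Ex (1 / (B : ℝ)) A (fun U => if HeadOk P (Q U) j x y then 0 else 1) ≤ 1 / 8)
    (h2 : Ex (1 / (B : ℝ)) A (fun U => if HeadOk P (Q U) j x y then
          ∑ z ∈ zbad P (Q U) j x y, P.pr (j + 1) x (Fin.snoc y z) else 0) ≤
        1 / (32 * (B : ℝ)) * P.pr j x y) :
    ∃ U : Fin (2 * B) → Finset α, (∀ i, U i ⊆ A ∧ HeadOk P (Q (U i)) j x y ∧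
        ∑ z ∈ zbad P (Q (U i)) j x y, P.pr (j + 1) x (Fin.snoc y z) ≤
          1 / (16 * (B : ℝ)) * P.pr j x y) ∧
      (A.filter fun a => ∀ i, a ∉ U i).card ≤ 3 * B := by
  -- `cover` with `V` = the sets with the two properties; the mean of the indicator of `V` is at
  -- least `1 - 1/8 - 1/2` (Markov's inequality for the second one)
  have hBr : (0 : ℝ) < B := by exact_mod_cast hB
  have hb := inv_bounds hB
  obtain ⟨V, hV⟩ : ∃ V : Set (Finset α), V = {U | HeadOk P (Q U) j x y ∧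
        ∑ z ∈ zbad P (Q U) j x y, P.pr (j + 1) x (Fin.snoc y z) ≤
          1 / (16 * (B : ℝ)) * P.pr j x y} := ⟨_, rfl⟩
  have hVmem : ∀ U, U ∈ V ↔ (HeadOk P (Q U) j x y ∧
        ∑ z ∈ zbad P (Q U) j x y, P.pr (j + 1) x (Fin.snoc y z) ≤
          1 / (16 * (B : ℝ)) * P.pr j x y) := by
    intro U
    rw [hV]
    rfl
  have hmean : 3 / 8 ≤ Ex (1 / (B : ℝ)) A (fun u => if u ∈ V then 1 else 0) := by
    have hpt : ∀ U ⊆ A, 1 + (-1) * (if HeadOk P (Q U) j x y then (0 : ℝ) else 1) +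
        (-(16 * B / P.pr j x y)) * (if HeadOk P (Q U) j x y then
          ∑ z ∈ zbad P (Q U) j x y, P.pr (j + 1) x (Fin.snoc y z) else 0) ≤
        (if U ∈ V then 1 else 0) := by
      intro U _
      by_cases hh : HeadOk P (Q U) j x y
      · rw [if_pos hh, if_pos hh]
        have ht0 : 0 ≤ ∑ z ∈ zbad P (Q U) j x y, P.pr (j + 1) x (Fin.snoc y z) :=
          Finset.sum_nonneg fun z _ => Mx.pr_nonneg hP _ _ _
        have hc0 : 0 < 16 * B / P.pr j x y := by positivity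
        by_cases ht : ∑ z ∈ zbad P (Q U) j x y, P.pr (j + 1) x (Fin.snoc y z) ≤
            1 / (16 * (B : ℝ)) * P.pr j x y
        · rw [if_pos ((hVmem U).2 ⟨hh, ht⟩)]
          have := mul_nonneg hc0.le ht0
          linarith
        · rw [if_neg (fun h => ht ((hVmem U).1 h).2)]
          rw [not_le] at ht
          have h5 := mul_lt_mul_of_pos_left ht hc0
          have h6 : 16 * B / P.pr j x y * (1 / (16 * (B : ℝ)) * P.pr j x y) = 1 := by
            field_simp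
          rw [h6] at h5
          linarith
      · rw [if_neg hh, if_neg hh, if_neg (fun h => hh ((hVmem U).1 h).1)]
        linarith
    have h5 := ex_mono hb.1 hb.2 A hpt
    rw [ex_add, ex_add, ex_mul, ex_mul, ex_const] at h5
    have h6 : 16 * B / P.pr j x y * (1 / (32 * (B : ℝ)) * P.pr j x y) = 1 / 2 := by
      field_simp
      norm_num
    have h7 := mul_le_mul_of_nonneg_left h2 (by positivity : 0 ≤ 16 * B / P.pr j x y)
    rw [h6] at h7
    linarith
  obtain ⟨U, hU, hc⟩ := cover hB A V hmean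
  exact ⟨U, fun i => ⟨(hU i).2, ((hVmem _).1 (hU i).1).1, ((hVmem _).1 (hU i).1).2⟩, hc⟩

end Pool.Agent.OSM
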