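import Pool.Agent.OSM.BLowB
import Pool.Agent.OSM.DenseR
import Pool.Agent.OSM.Typical
import Pool.Agent.OSM.NearMax
import Pool.Agent.OSM.KillE
import Pool.Agent.OSM.ReqWin

/-!
# OSM/Contra: the contradiction
-/

set_option autoImplicit false

namespace Pool.Agent.OSM

open Finset Pool.Agent.PTree
open scoped Classical

/-- The lower bound of the probabilities of the relevant pieces of information. -/
noncomputable def cstar (q q' cmin : ℝ) (n K : ℕ) : ℝ :=
  q' * q ^ n * (cmin / 4 * (q / 256 / 2 ^ K) * (1 / (128 * (K : ℝ))) ^ n)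

theorem ex_exists {α : Type} {p : ℝ} {s : Finset α} {V : Finset α → Prop}
    (h : Ex p s (fun U => if V U then 0 else 1) ≤ 1 / 8) : ∃ U ⊆ s, V U := by
  by_contra hcon
  push Not at hcon
  have h1 : Ex p s (fun U => if V U then 0 else 1) = Ex p s (fun _ => 1) :=
    ex_congr p s fun u hu => by simp [hcon u hu]
  rw [h1, ex_const] at h
  norm_num at h

theorem exists_seq {A : Type} [Nonempty A] {n n0 : ℕ} (x : Fin n0 → Str A n) :
    ∃ G : ℕ → ℕ → A, ∀ i : Fin n0, cut n (G i) = x i := by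
  refine ⟨fun i j => if h : i < n0 ∧ j < n then x ⟨i, h.1⟩ ⟨j, h.2⟩ else
    Classical.arbitrary A, fun i => ?_⟩
  funext j
  simp [cut]

/-- The committing arrangements. -/
def CC {A : Type} (E : Set (StrSet × (ℕ → ℕ → A))) (Φ : StrSet × (ℕ → ℕ → A) → StrSet)
    (T1 : StrSet) (M0 m0 n : ℕ) {k n0 : ℕ} (x : Fin k → Str A n) (y : Fin n0 → Str A n) : Prop :=
  ∀ G : ℕ → ℕ → A, (∀ i : Fin n0, cut n (G i) = merge n0 x y i) → Dec E Φ 0 M0 m0 n0 T1 G

theorem cut_res {A : Type} {n0 n : ℕ} (h : n0 ≤ n) (x : ℕ → A) : res h (cut n x) = cut n0 x := by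
  funext i
  simp [res, cut]

theorem cut_eq_iff {A : Type} {n : ℕ} {x y : ℕ → A} : cut n x = cut n y ↔ ∀ j < n, x j = y j := by
  constructor
  · intro h j hj
    exact congrFun h ⟨j, hj⟩
  · intro h
    funext j
    exact h j j.2

/-- The probability that the samples contain no committing arrangement. -/
theorem comm_prob {A : Type} [Fintype A] [Nonempty A] {F : Forb A}
    {E : Set (StrSet × (ℕ → ℕ → A))} {Φ : StrSet × (ℕ → ℕ → A) → StrSet}
    {k : ℕ} {q q' : ℝ} (hq : 0 < q) (hq' : 0 < q')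
    {T1 T2 : StrSet} {n0 m0 ℓ M0 n : ℕ} (hn0 : n0 ≤ n)
    (hA12 : Agree n0 T1 T2)
    (hub1 : b (F.or (FDec E Φ 0 M0 m0)) n0 T1 k (3 * q / 4) < q' / 100)
    (hℓ : 4 * Fintype.card (Str A n0) * (n0 + 5) ≤ ℓ)
    {P : Mx (Fin k → Str A n) (Str A n)} (hP : Fit F n T2 k q q' P) :
    (∑ x, ∑ y : Fin (n0 * ℓ) → Str A n,
      if ∃ r : Fin n0 → Fin ℓ, CC E Φ T1 M0 m0 n x (sel y r) then 0 else P.pr (n0 * ℓ) x y) ≤
      1 / 50 := by
  set Exc : Finset (Fin k → Str A n) := univ.filter fun x =>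
    (fun i => res hn0 (x i)) ∈ gs (F.or (FDec E Φ 0 M0 m0)) n0 T1 k (3 * q / 4) with hExc
  refine sample hP.ok (res hn0) Exc ?_ hℓ _ ?_
  · have h0 : ∀ x, (∑ a, @ite ℝ (P.x a = x) (Classical.propDecidable _) (P.w a) 0) ≤
        (1 / q') / (Fintype.card (Fin k → Str A n) : ℝ) := fun x => by
      convert hP.x_le x
    refine (exc_mass hP.ok h0 Exc).trans ?_
    have h2 : dens Exc = dens (gs (F.or (FDec E Φ 0 M0 m0)) n0 T1 k (3 * q / 4)) := by
      rw [← dens_preimage (eqFib_comp (eqFib_res (A := A) hn0) k)]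
      congr 1
      ext x
      simp [hExc]
    rw [h2]
    have h1 : dens (gs (F.or (FDec E Φ 0 M0 m0)) n0 T1 k (3 * q / 4)) ≤ q' / 100 := hub1.le
    calc 1 / q' * dens (gs (F.or (FDec E Φ 0 M0 m0)) n0 T1 k (3 * q / 4))
        ≤ 1 / q' * (q' / 100) := mul_le_mul_of_nonneg_left h1 (by positivity)
      _ = 1 / 100 := by field_simp
  · intro a ha
    have ha' : (fun i => res hn0 (P.x a i)) ∉
        gs (F.or (FDec E Φ 0 M0 m0)) n0 T1 k (3 * q / 4) := fun h =>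
      ha (mem_filter.2 ⟨mem_univ _, h⟩)
    obtain ⟨s, G, h1, h2, h3, h4⟩ := committing hq hn0 hA12 hP a ha'
    refine ⟨s, fun i => by convert h1 i, fun y hy G' hG' => ?_⟩
    refine h4.of_subset (Ext.loc (Agree.refl _ _) fun i hi j hj => ?_)
    have h5 : cut n0 (G' i) = cut n0 (G i) := by
      have h6 := hG' ⟨i, hi⟩
      rw [← cut_res hn0 (G' i), h6, merge]
      by_cases hik : i < k
      · rw [dif_pos hik, ← h2 ⟨i, hi⟩ hik]
      · rw [dif_neg hik, hy ⟨i, hi⟩, ← h3 ⟨i, hi⟩ (not_lt.1 hik)]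
    exact cut_eq_iff.1 h5 j hj

theorem pr_append_nil {X Y : Type} [Fintype Y] (m : Mx X Y) (l : ℕ) (x : X) (y : Fin l → Y)
    (z : Fin 0 → Y) : m.pr (l + 0) x (Fin.append y z) = m.pr l x y := by
  rw [Mx.pr_append, Mx.pr]
  refine Finset.sum_congr rfl fun a _ => ?_
  simp

/-- The bad samples. -/
def BadP {X Y : Type} {l : ℕ} (U V : X → (Fin l → Y) → Prop) (x : X) (y : Fin l → Y) : Prop :=
  ¬ U x y ∨ V x y

theorem badP_prob {X Y : Type} [Fintype X] [Fintype Y] {P : Mx X Y} (hP : P.Ok) (l : ℕ)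
    (U V : X → (Fin l → Y) → Prop)
    (hU : (∑ x, ∑ y : Fin l → Y, if U x y then 0 else P.pr l x y) ≤ 1 / 50)
    (hV : (∑ x, ∑ y : Fin l → Y, if V x y then P.pr l x y else 0) ≤ 1 / 100) :
    (∑ x, ∑ y : Fin l → Y, if BadP U V x y then P.pr l x y else 0) ≤ 1 / 4 := by
  have h3 : ∀ (x : X) (y : Fin l → Y), (if BadP U V x y then P.pr l x y else 0) ≤
      (if U x y then 0 else P.pr l x y) + (if V x y then P.pr l x y else 0) := by
    intro x y
    have h4 := Mx.pr_nonneg hP l x y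
    by_cases h5 : U x y <;> by_cases h6 : V x y <;> simp [BadP, h5, h6, h4]
  refine (Finset.sum_le_sum fun x _ => Finset.sum_le_sum fun y _ => h3 x y).trans ?_
  simp_rw [Finset.sum_add_distrib]
  linarith

theorem contra {A : Type} [Fintype A] [Nonempty A] {F : Forb A}
    {E : Set (StrSet × (ℕ → ℕ → A))} {Φ : StrSet × (ℕ → ℕ → A) → StrSet} (hreq : Req E Φ)
    {k : ℕ} {q q' : ℝ} (hq : 0 < q) (hq1 : q ≤ 1) (hq' : 0 < q') (hq1' : q' ≤ 1)
    {T1 T2 : StrSet} {n0 m0 ℓ B M0 L n : ℕ} (hkn0 : k ≤ n0) (hn0 : n0 ≤ n) (hn0p : 0 < n0)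
    (hm0 : m0 ≤ n0) (hmL : m0 ≤ L) (hLn : L ≤ n) (hB : 0 < B) (hM0 : 0 < M0)
    (hA12 : Agree n0 T1 T2)
    (hub1 : b (F.or (FDec E Φ 0 M0 m0)) n0 T1 k (3 * q / 4) < q' / 100)
    (hub2 : b (F.or (FDec E Φ m0 (3 * B + 1) L)) n T2 n0 (3 * q / 4 * (q / 256) ^ (2 * B)) <
      q' * q ^ n0 / (100 * (ℓ : ℝ) ^ n0))
    (hℓ : 4 * Fintype.card (Str A n0) * (n0 + 5) ≤ ℓ)
    {P : Mx (Fin k → Str A n) (Str A n)} (hP : Fit F n T2 k q q' P) {cmin : ℝ}
    (hcmin : 0 < cmin)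
    (hcmin' : ∀ j ≤ 2 * (n0 * ℓ), ∀ (x : Fin k → Str A n) (y : Fin j → Str A n),
      0 < P.pr j x y → cmin ≤ P.pr j x y)
    (TE : List Bool → Finset (List Bool) → StrSet) (nE : List Bool → Finset (List Bool) → ℕ)
    (hnE : ∀ σ U, n ≤ nE σ U)
    (mE : (σ : List Bool) → (U : Finset (List Bool)) →
      Mx (Fin k → Str A (nE σ U)) (Str A (nE σ U)))
    (hEA : ∀ σ ∈ strs m0, ∀ U ⊆ con L σ, Agree n T2 (TE σ U))
    (hES : ∀ σ ∈ strs m0, ∀ U ⊆ con L σ, Sub (TE σ U) (killE T2 U n))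
    (hEF : ∀ σ ∈ strs m0, ∀ U ⊆ con L σ, Fit F (nE σ U) (TE σ U) k q q' (mE σ U))
    (hEP : ∀ σ ∈ strs m0, ∀ U ⊆ con L σ, ∀ k' ≤ n, ∀ g : ℕ → ℕ → A,
      Ext E (n + 1) (TE σ U) k' n g = ∅ →
      b (F.or (FPin k' n g)) (nE σ U) (TE σ U) k' q <
        cstar q q' cmin n (Fintype.card (Str A n)))
    {κ : ℝ}
    (hκ : ∑ σ ∈ strs m0, Ex (1 / (B : ℝ)) (con L σ) (fun U =>
      kl ((mE σ U).map (fun x i => res (hnE σ U) (x i)) (res (hnE σ U)))
          (P.mid ((mE σ U).map (fun x i => res (hnE σ U) (x i)) (res (hnE σ U))))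
          (2 * (n0 * ℓ)) +
        kl P (P.mid ((mE σ U).map (fun x i => res (hnE σ U) (x i)) (res (hnE σ U))))
          (2 * (n0 * ℓ))) ≤ κ)
    (h1 : κ ≤ 1 / 1000) (h2 : 14336 * B * κ ≤ (n0 * ℓ : ℕ) * M0) : False := by
  set K := Fintype.card (Str A n) with hK
  have hKpos : 0 < K := Fintype.card_pos
  have hKpos' : (0 : ℝ) < K := by exact_mod_cast hKpos
  have hK1 : (1 : ℝ) ≤ K := by exact_mod_cast hKpos
  set Q : List Bool → Finset (List Bool) → Mx (Fin k → Str A n) (Str A n) := fun σ U =>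
    (mE σ U).map (fun x i => res (hnE σ U) (x i)) (res (hnE σ U)) with hQdef
  have hQF : ∀ σ ∈ strs m0, ∀ U ⊆ con L σ, Fit F n (TE σ U) k q q' (Q σ U) :=
    fun σ hσ U hU => (hEF σ hσ U hU).map (hnE σ U) hq
  have hℓp : 0 < ℓ := by
    have h3 : 0 < Fintype.card (Str A n0) := Fintype.card_pos
    have h4 : 0 < 4 * Fintype.card (Str A n0) * (n0 + 5) := by positivity
    omega
  have hJ0 : 0 < n0 * ℓ := Nat.mul_pos hn0p hℓp
  set u : ℝ := 1 / (128 * (K : ℝ)) with hu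
  have hu0 : 0 < u := by positivity
  have hu1 : u ≤ 1 := by
    rw [hu, div_le_one (by positivity)]
    linarith
  -- the lower bound for the pieces of information
  have key : ∀ σ ∈ strs m0, ∀ U ⊆ con L σ, ∀ (j : ℕ) (hj : n0 * ℓ ≤ j) (x : Fin k → Str A n)
      (y : Fin j → Str A n) (s : Fin n0 → Fin ℓ) (r : ℕ), n0 + r ≤ n → ∀ G : ℕ → ℕ → A,
      (∀ i : Fin n0, cut n (G i) = merge n0 x (sel (fun t => y (t.castLE hj)) s) i) →
      Ext E (n + 1) (TE σ U) (n0 + r) n G = ∅ →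
      (Q σ U).pr (j + r) x (Fin.append y fun t : Fin r => cut n (G (n0 + t))) <
        cmin / 4 * (q / 256 / 2 ^ K) * u ^ n := by
    intro σ hσ U hU j hj x y s r hr G hG hempty
    have h3 := b_low2 (r := r) hq hq1 hq' (hnE σ U) hkn0 hr (hEF σ hσ U hU) hj x y s G hG
    have h4 := hEP σ hσ U hU (n0 + r) hr G hempty
    have h5 := h3.trans_lt h4
    rw [cstar] at h5
    exact lt_of_mul_lt_mul_left h5 (by positivity)
  -- the exceptional set
  set Z := gs (F.or (FDec E Φ m0 (3 * B + 1) L)) n T2 n0 (3 * q / 4 * (q / 256) ^ (2 * B))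
    with hZ
  have hZ' : (ℓ : ℝ) ^ n0 * dens Z ≤ q' * q ^ n0 / 100 := by
    have h3 : dens Z < q' * q ^ n0 / (100 * (ℓ : ℝ) ^ n0) := hub2
    have h4 : (0 : ℝ) < (ℓ : ℝ) ^ n0 := by positivity
    rw [lt_div_iff₀ (by positivity)] at h3
    rw [le_div_iff₀ (by norm_num)]
    nlinarith
  have hexc := exc_bound hkn0 hP.ok hq hq' hP.f_le (fun x => by convert hP.x_le x) Z hZ'
  have hcom := comm_prob (ℓ := ℓ) (m0 := m0) (M0 := M0) (E := E) (Φ := Φ) hq hq' hn0 hA12 hub1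
    hℓ hP
  have hbad := badP_prob hP.ok (n0 * ℓ)
    (fun x y => ∃ r : Fin n0 → Fin ℓ, CC E Φ T1 M0 m0 n x (sel y r))
    (fun x y => ∃ r : Fin n0 → Fin ℓ, merge n0 x (sel y r) ∈ Z) (by convert hcom) (by convert hexc)
  obtain ⟨j, hj, x, y, hj2, hpos, hnb, hhead, hcard⟩ := typical (α := List Bool) hP.ok (strs m0)
    (con L) Q (fun σ hσ U hU => (hQF σ hσ U hU).ok) hB hJ0 hM0 hκ h1 h2 _ hbad
  obtain ⟨hnb1, hnb2⟩ := not_or.1 (show ¬ (¬ (∃ r : Fin n0 → Fin ℓ, CC E Φ T1 M0 m0 n x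
      (sel (fun t => y (t.castLE hj)) r)) ∨ ∃ r : Fin n0 → Fin ℓ,
      merge n0 x (sel (fun t => y (t.castLE hj)) r) ∈ Z) from hnb)
  obtain ⟨r, hr⟩ := not_not.1 hnb1
  have hZr : merge n0 x (sel (fun t => y (t.castLE hj)) r) ∉ Z := fun h => hnb2 ⟨r, h⟩
  obtain ⟨G0, hG0⟩ := exists_seq (merge n0 x (sel (fun t => y (t.castLE hj)) r))
  have hDec0 : Dec E Φ 0 M0 m0 n0 T1 G0 := hr G0 hG0
  have hPc : cmin ≤ P.pr j x y := hcmin' j hj2.le x y hpos
  have hsub : ∀ σ ∈ strs m0, ∀ U ⊆ con L σ, ∀ (k' : ℕ) (g : ℕ → ℕ → A),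
      Ext E (n + 1) (TE σ U) k' n g ⊆ Ext E n T2 k' n g := by
    intro σ hσ U hU k' g p hp
    exact ⟨hp.1, (hEA σ hσ U hU).trans (hp.2.1.mono (Nat.le_succ n)), hp.2.2⟩
  by_cases hE0 : Ext E n T2 n0 n G0 = ∅
  · have hσ : List.replicate m0 false ∈ strs m0 := mem_strs.2 (by simp)
    obtain ⟨U, hU, hok⟩ := ex_exists (hhead _ hσ)
    have h3 := key _ hσ U hU j hj x y r 0 (by omega) G0 hG0
      (Set.subset_eq_empty (hsub _ hσ U hU _ G0) (by simpa using hE0))
    rw [pr_append_nil] at h3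
    have h4 := Mx.pr_mid P (Q (List.replicate m0 false) U) j x y
    have h5 := hok.1
    have h6 := Mx.pr_nonneg (hQF _ hσ U hU).ok j x y
    have h7 : cmin / 4 ≤ (Q (List.replicate m0 false) U).pr j x y := by
      rw [h4] at h5
      linarith
    have h8 : cmin / 4 * (q / 256 / 2 ^ K) * u ^ n ≤ cmin / 4 * 1 * 1 := by
      have h9 : q / 256 / 2 ^ K ≤ 1 := by
        rw [div_le_one (by positivity)]
        have : (1 : ℝ) ≤ 2 ^ K := one_le_pow₀ (by norm_num)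
        linarith
      exact mul_le_mul (mul_le_mul_of_nonneg_left h9 (by positivity))
        (pow_le_one₀ hu0.le hu1) (by positivity) (by positivity)
    linarith
  · obtain ⟨p, hp⟩ := Set.nonempty_iff_ne_empty.2 hE0
    have hperf := (hreq.perf p hp.1).1
    have hp1 : p ∈ Ext E n0 T1 n0 n0 G0 :=
      ⟨hp.1, hA12.trans (hp.2.1.mono hn0), fun i hi t ht => hp.2.2 i hi t (ht.trans_le hn0)⟩
    have hM := hDec0.2 p hp1 [] rfl hperf.nil
    set Bd := (strs m0).filter fun σ => 1 / (32 * (B : ℝ)) * P.pr j x y <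
      Ex (1 / (B : ℝ)) (con L σ) (fun U => if HeadOk P (Q σ U) j x y then
          ∑ z ∈ zbad P (Q σ U) j x y, P.pr (j + 1) x (Fin.snoc y z) else 0) with hBd
    have hBdc : Bd.card < (above (Φ p) [] m0).card := by
      have h3 : (Bd.card : ℝ) < M0 := by
        have h4 : (0 : ℝ) < M0 := by exact_mod_cast hM0
        linarith
      exact lt_of_lt_of_le (by exact_mod_cast h3) hM
    obtain ⟨σ, hσ1, hσ2⟩ := Finset.exists_mem_notMem_of_card_lt_card hBdc
    have hσ3 := mem_above.1 hσ1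
    have hσ : σ ∈ strs m0 := mem_strs.2 hσ3.1
    have hEx2 := not_lt.1 fun h => hσ2 (mem_filter.2 ⟨hσ, h⟩)
    obtain ⟨U, hU, hcov⟩ := family (con L σ) (Q σ) hB j x y hP.ok hpos (hhead σ hσ) hEx2
    have hcov' : ((con L σ).filter fun a => ∀ i, a ∉ U i).card ≤ 3 * B := by convert hcov
    have hB' : (0 : ℝ) < B := by exact_mod_cast hB
    obtain ⟨R, hR, hlow, hstate⟩ := reservoir hP.ok hq hq1 hP.f_le (fun i => Q σ (U i))
      (fun i => (hQF σ hσ (U i) (hU i).1).ok) (fun i => (hQF σ hσ (U i) (hU i).1).f_le) j x y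
      hpos (fun i => (hU i).2.1) (by
        refine (Finset.sum_le_sum fun i _ => (hU i).2.2).trans (le_of_eq ?_)
        rw [Finset.sum_const, Finset.card_univ, Fintype.card_fin, nsmul_eq_mul]
        push_cast
        field_simp
        ring)
    have hgood : Good F n T2 (merge n0 x (sel (fun t => y (t.castLE hj)) r)) R := by
      obtain ⟨a, ha1, ha2, ha3⟩ := hstate ⟨0, by omega⟩
      have hg := (hQF σ hσ _ (hU ⟨0, by omega⟩).1).good a
      have hg1 := hg.loc (hEA σ hσ _ (hU ⟨0, by omega⟩).1).symm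
      refine (hg1.extend hkn0 (x' := merge n0 x (sel (fun t => y (t.castLE hj)) r)) ?_ ?_).mono
        (Forb.Le.refl F) ?_
      · intro i
        have ha1' : (Q σ (U ⟨0, by omega⟩)).x a = x := ha1
        rw [ha1', merge, dif_pos (show ((i.castLE hkn0 : Fin n0) : ℕ) < k from i.2)]
        rfl
      · intro i hi
        rw [merge, dif_neg (not_lt.2 hi)]
        exact mem_filter.2 ⟨mem_univ _, ha2 _⟩
      · intro z hz
        exact mem_filter.2 ⟨mem_univ _, ha3 z hz⟩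
    have hng : ¬ Good (F.or (FDec E Φ m0 (3 * B + 1) L)) n T2
        (merge n0 x (sel (fun t => y (t.castLE hj)) r)) R := fun h => hZr (mem_gs.2 ⟨R, hR, h⟩)
    obtain ⟨G, hG⟩ := not_forall.1 hng
    obtain ⟨hG1, hG⟩ := Classical.not_imp.1 hG
    obtain ⟨hG2, hG3⟩ := Classical.not_imp.1 hG
    have hD : Dec E Φ m0 (3 * B + 1) L n T2 G :=
      (not_not.1 hG3).resolve_left (hgood G hG1 hG2)
    -- one of the sets makes the information terminal
    have hterm : ∃ i, Ext E (n + 1) (TE σ (U i)) n n G = ∅ := by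
      by_cases hEn : Ext E n T2 n n G = ∅
      · exact ⟨⟨0, by omega⟩, Set.subset_eq_empty (hsub σ hσ _ (hU _).1 _ G) hEn⟩
      · obtain ⟨p', hp'⟩ := Set.nonempty_iff_ne_empty.2 hEn
        have hGG : ∀ i < n0, ∀ t < n, G i t = G0 i t := by
          intro i hi
          have h3 : cut n (G i) = cut n (G0 i) := by
            rw [hG1 ⟨i, hi⟩, hG0 ⟨i, hi⟩]
          exact cut_eq_iff.1 h3
        have hp'1 : p' ∈ Ext E n0 T1 n0 n0 G0 :=
          ⟨hp'.1, hA12.trans (hp'.2.1.mono hn0), fun i hi t ht => by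
            rw [hp'.2.2 i (hi.trans_le hn0) t (ht.trans_le hn0), hGG i hi t (ht.trans_le hn0)]⟩
        have h3 : Φ p' σ = true := by
          rw [hDec0.1 p hp1 p' hp'1 σ (by rw [hσ3.1]; exact Nat.lt_succ_self _)]
          exact hσ3.2.1
        have h4 := hD.2 p' hp' σ hσ3.1 h3
        obtain ⟨w, hw1, hw2⟩ := Finset.exists_mem_notMem_of_card_lt_card
          (lt_of_le_of_lt hcov' (lt_of_lt_of_le (Nat.lt_succ_self _) h4))
        have hw := mem_above.1 hw1
        have hw3 : ∃ i, w ∈ U i := by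
          by_contra hcon
          push Not at hcon
          exact hw2 (mem_filter.2 ⟨mem_con.2 ⟨hw.1, hw.2.2⟩, hcon⟩)
        obtain ⟨i, hi⟩ := hw3
        refine ⟨i, Set.eq_empty_iff_forall_notMem.2 fun p'' hp'' => ?_⟩
        have hp2 := hsub σ hσ _ (hU i).1 _ G hp''
        have h5 : Φ p'' w = true := by
          rw [hD.1 p' hp' p'' hp2 w (by rw [hw.1]; exact Nat.lt_succ_self _)]
          exact hw.2.1
        have hperf2 := hreq.perf p'' hp''.1
        obtain ⟨τ, hτ⟩ := hperf2.1.exists_length h5 (l := n) (by rw [hw.1]; exact hLn)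
        have hτ' := mem_above.1 hτ
        have h6 : p''.1 τ = true := hperf2.2 τ hτ'.2.1
        rw [hp''.2.1 τ (by rw [hτ'.1]; exact Nat.lt_succ_self _)] at h6
        exact killE_dead (hES σ hσ _ (hU i).1) hi hτ'.2.2 (by rw [hτ'.1]) h6
    obtain ⟨i, hi⟩ := hterm
    have h3 := key σ hσ (U i) (hU i).1 j hj x y r (n - n0) (by omega) G hG1
      (by rw [Nat.add_sub_cancel' hn0]; exact hi)
    have h4 := hlow i (n - n0) (fun t => cut n (G (n0 + t)))
      (fun t => hG2 _ (Nat.le_add_right _ _))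
    have h5 : cmin / 4 * (q / 256 / 2 ^ K) * u ^ n ≤
        P.pr j x y / 4 * (q / 256 / 2 ^ K) * u ^ (n - n0) := by
      refine mul_le_mul (mul_le_mul_of_nonneg_right (by linarith) (by positivity)) ?_
        (by positivity) (by positivity)
      exact pow_le_pow_of_le_one hu0.le hu1 (Nat.sub_le _ _)
    linarith

end Pool.Agent.OSM
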