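import Pool.Agent.OSM.Basic

/-!
# OSM/Distinct: making components of two coordinates different

The alphabet is `Fin e → Bool` (`e` components). `FSame e a a' c l` is the set of the pieces of
information for which the components `c` of the coordinates `a ≠ a'` agree on the first `l` digits.

`distinct`. Let `k' = max k (max (a + 1) (a' + 1))`, `r = q' * q ^ (k' - k)`; by `b_extend`
`r ≤ b F n T k' q` for all `T ∈ N`, `n`. Choose `l` with `(e : ℝ) * (1 / 2) ^ l ≤ r / 2`, and let
`F' = F.or (FSames)` where bad means: for some `c` the components agree up to `l`. For `n < l` or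
`n ≤ max a a'` nothing is added, so the bound holds. Otherwise let `x ∈ gs F n T k' q` with
components of `x a`, `x a'` different below `l` for all `c`: then the same reservoir is good for
`F'`. The tuples `x : Fin k' → Str _ n` for which the components `c` of `x a` and `x a'` agree up
to `l ≤ n` have density `(1 / 2) ^ l` (for fixed other entries; e.g. by `dens_preimage` for the map
`x ↦ (x a restricted to component c and the first l letters, the same for a')` onto
`(Fin l → Bool) × (Fin l → Bool)`, whose fibres have the same size, or count directly the fibre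
over `x a`). So `b F' n T k' q ≥ r - e * (1/2) ^ l ≥ r / 2`.
-/

set_option autoImplicit false

namespace Pool.Agent.OSM

open Finset Pool.Agent.PTree
open scoped Classical

/-- For some component the coordinates `a` and `a'` agree up to `l`. -/
def FSame (e a a' l : ℕ) : Forb (Fin e → Bool) where
  bad n _ G := a < n ∧ a' < n ∧ l ≤ n ∧ ∃ c : Fin e, ∀ i < l, G a i c = G a' i c
  loc := fun _ h' ⟨h1, h2, h3, c, h⟩ => ⟨h1, h2, h3, c, fun i hi => by
    rw [h' a h1 i (hi.trans_le h3), h' a' h2 i (hi.trans_le h3)]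
    exact h i hi⟩
  mono := fun ⟨h1, h2, h3, h⟩ => ⟨h1.trans (Nat.lt_succ_self _), h2.trans (Nat.lt_succ_self _),
    h3.trans (Nat.le_succ _), h⟩

/-- The tuples for which the components `c` of the entries `a`, `a'` agree below `l`. -/
noncomputable def sameSetMN (e k' n l : ℕ) (a a' : Fin k') (c : Fin e) :
    Finset (Fin k' → Str (Fin e → Bool) n) :=
  univ.filter fun x => ∀ i : Fin n, (i : ℕ) < l → x a i c = x a' i c

/-- Change the component `c` of the entry `a` below `l`. -/
noncomputable def putMN {e k' n l : ℕ} (a : Fin k') (c : Fin e)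
    (p : (Fin k' → Str (Fin e → Bool) n) × (Fin l → Bool)) : Fin k' → Str (Fin e → Bool) n :=
  fun b i c' => if h : b = a ∧ c' = c ∧ (i : ℕ) < l then p.2 ⟨i, h.2.2⟩ else p.1 b i c'

theorem dens_sameSetMN {e k' n l : ℕ} {a a' : Fin k'} (ha : a ≠ a') (hl : l ≤ n) (c : Fin e) :
    dens (sameSetMN e k' n l a a' c) ≤ (1 / 2) ^ l := by
  have hinj : Set.InjOn (putMN (l := l) a c)
      ((sameSetMN e k' n l a a' c ×ˢ (univ : Finset (Fin l → Bool)) : Finset _) :
        Set ((Fin k' → Str (Fin e → Bool) n) × (Fin l → Bool))) := by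
    rintro ⟨x, z⟩ hx ⟨x', z'⟩ hx' hxx
    have h1 : ∀ i : Fin n, (i : ℕ) < l → x a i c = x a' i c := by
      have := hx
      simp only [sameSetMN, Finset.coe_product, Finset.coe_filter, Finset.mem_univ, true_and,
        Set.mem_prod, Set.mem_ofPred_eq, Finset.coe_univ, Set.mem_univ, and_true] at this
      exact this
    have h1' : ∀ i : Fin n, (i : ℕ) < l → x' a i c = x' a' i c := by
      have := hx'
      simp only [sameSetMN, Finset.coe_product, Finset.coe_filter, Finset.mem_univ, true_and,
        Set.mem_prod, Set.mem_ofPred_eq, Finset.coe_univ, Set.mem_univ, and_true] at this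
      exact this
    have h2 : ∀ (b : Fin k') (i : Fin n) (c' : Fin e), putMN (l := l) a c (x, z) b i c' = putMN (l := l) a c (x', z') b i c' :=
      fun b i c' => by rw [hxx]
    have hz : z = z' := by
      funext i
      have h3 := h2 a ⟨i, i.2.trans_le hl⟩ c
      unfold putMN at h3
      rw [dif_pos ⟨rfl, rfl, i.2⟩, dif_pos ⟨rfl, rfl, i.2⟩] at h3
      exact h3
    have hne : ∀ (b : Fin k') (i : Fin n) (c' : Fin e), ¬ (b = a ∧ c' = c ∧ (i : ℕ) < l) → x b i c' = x' b i c' := by
      intro b i c' hc
      have h3 := h2 b i c'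
      unfold putMN at h3
      rw [dif_neg hc, dif_neg hc] at h3
      exact h3
    have hxe : x = x' := by
      funext b i c'
      by_cases hc : b = a ∧ c' = c ∧ (i : ℕ) < l
      · obtain ⟨rfl, rfl, hi⟩ := hc
        rw [h1 i hi, h1' i hi]
        exact hne a' i c' (fun h => ha h.1.symm)
      · exact hne b i c' hc
    rw [hxe, hz]
  have hcard := Finset.card_le_card_of_injOn (t := univ) (putMN (l := l) a c)
    (fun _ _ => Finset.mem_univ _) hinj
  rw [Finset.card_product, Finset.card_univ, Finset.card_univ, Fintype.card_fun,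
    Fintype.card_bool, Fintype.card_fin] at hcard
  have hpos : 0 < (Fintype.card (Fin k' → Str (Fin e → Bool) n) : ℝ) := by
    exact_mod_cast Fintype.card_pos
  have h2 : ((sameSetMN e k' n l a a' c).card : ℝ) * 2 ^ l ≤
      (Fintype.card (Fin k' → Str (Fin e → Bool) n) : ℝ) := by
    exact_mod_cast hcard
  unfold dens
  rw [div_le_iff₀ hpos, one_div, inv_pow, ← div_eq_inv_mul, le_div_iff₀ (by positivity)]
  exact h2

theorem dens_le_addMN {α ι : Type} [Fintype α] [Fintype ι] {s t : Finset α} (S : ι → Finset α)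
    {c : ℝ} (h : ∀ x ∈ s, x ∈ t ∨ ∃ i, x ∈ S i) (hS : ∀ i, dens (S i) ≤ c) :
    dens s ≤ dens t + (Fintype.card ι : ℝ) * c := by
  have hsub : s ⊆ t ∪ univ.biUnion S := by
    intro x hx
    rw [Finset.mem_union, Finset.mem_biUnion]
    rcases h x hx with h1 | ⟨i, h1⟩
    · exact Or.inl h1
    · exact Or.inr ⟨i, Finset.mem_univ _, h1⟩
  have h1 : dens s ≤ dens t + dens (univ.biUnion S) :=
    (dens_mono hsub).trans (dens_union_le _ _)
  have h2 : dens (univ.biUnion S) ≤ ∑ i, dens (S i) := by
    unfold dens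
    rw [← Finset.sum_div]
    refine div_le_div_of_nonneg_right ?_ (Nat.cast_nonneg _)
    have := Finset.card_biUnion_le (s := (univ : Finset ι)) (t := S)
    exact_mod_cast this
  have h3 : ∑ i, dens (S i) ≤ (Fintype.card ι : ℝ) * c := by
    have := Finset.sum_le_sum fun (i : ι) (_ : i ∈ (univ : Finset ι)) => hS i
    rwa [Finset.sum_const, Finset.card_univ, nsmul_eq_mul] at this
  linarith

theorem distinct (e : ℕ) {F : Forb (Fin e → Bool)} {k : ℕ} {q q' : ℝ} (hq : 0 < q)
    (hq' : 0 < q') {N : Set StrSet} (hrob : Robust F k q q' N) {a a' : ℕ} (ha : a ≠ a') :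
    ∃ (l k' : ℕ) (r : ℝ), 0 < r ∧ Robust (F.or (FSame e a a' l)) k' q r N := by
  have hbase : ∀ T ∈ N, ∀ n, q' * q ^ (max k (max (a + 1) (a' + 1)) - k) ≤
      b F n T (max k (max (a + 1) (a' + 1))) q := by
    intro T hT n
    refine le_trans ?_ (b_extend F n T (le_max_left k (max (a + 1) (a' + 1))) hq.le)
    exact mul_le_mul_of_nonneg_right (hrob T hT n) (by positivity)
  have hak : a < max k (max (a + 1) (a' + 1)) := by
    have h1 := le_max_right k (max (a + 1) (a' + 1))
    have h2 := le_max_left (a + 1) (a' + 1)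
    omega
  have hak' : a' < max k (max (a + 1) (a' + 1)) := by
    have h1 := le_max_right k (max (a + 1) (a' + 1))
    have h2 := le_max_right (a + 1) (a' + 1)
    omega
  generalize max k (max (a + 1) (a' + 1)) = k' at hbase hak hak'
  set r : ℝ := q' * q ^ (k' - k) with hr
  have hr0 : 0 < r := by positivity
  have he : (0 : ℝ) < (e : ℝ) + 1 := by positivity
  obtain ⟨l, hl⟩ := exists_pow_lt_of_lt_one (x := r / 2 / ((e : ℝ) + 1)) (y := (1 / 2 : ℝ))
    (by positivity) (by norm_num)
  have hel : (e : ℝ) * (1 / 2) ^ l ≤ r / 2 := by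
    rw [lt_div_iff₀ he] at hl
    have : (0 : ℝ) ≤ (1 / 2) ^ l := by positivity
    nlinarith
  refine ⟨l, k', r / 2, by positivity, fun T hT n => ?_⟩
  have hb := hbase T hT n
  by_cases hc : a < n ∧ a' < n ∧ l ≤ n
  · obtain ⟨han, han', hln⟩ := hc
    have hne : (⟨a, hak⟩ : Fin k') ≠ ⟨a', hak'⟩ := fun h => ha (congrArg Fin.val h)
    have h1 : b F n T k' q ≤ b (F.or (FSame e a a' l)) n T k' q +
        (Fintype.card (Fin e) : ℝ) * (1 / 2) ^ l := by
      refine dens_le_addMN (fun c => sameSetMN e k' n l ⟨a, hak⟩ ⟨a', hak'⟩ c) ?_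
        (fun c => dens_sameSetMN hne hln c)
      intro x hx
      rw [mem_gs] at hx
      obtain ⟨R, hR, hg⟩ := hx
      by_cases hx2 : ∃ c, x ∈ sameSetMN e k' n l ⟨a, hak⟩ ⟨a', hak'⟩ c
      · exact Or.inr hx2
      · left
        rw [mem_gs]
        refine ⟨R, hR, fun G hG hG' hbad => ?_⟩
        rcases hbad with hbad | hbad
        · exact hg G hG hG' hbad
        · obtain ⟨-, -, -, c, hcc⟩ := hbad
          apply hx2
          refine ⟨c, ?_⟩
          unfold sameSetMN
          rw [Finset.mem_filter]
          refine ⟨Finset.mem_univ _, fun i hi => ?_⟩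
          have e1 : G a i c = x ⟨a, hak⟩ i c := congrFun (congrFun (hG ⟨a, hak⟩) i) c
          have e2 : G a' i c = x ⟨a', hak'⟩ i c := congrFun (congrFun (hG ⟨a', hak'⟩) i) c
          rw [← e1, ← e2]
          exact hcc i hi
    rw [Fintype.card_fin] at h1
    linarith
  · have hsub : gs F n T k' q ⊆ gs (F.or (FSame e a a' l)) n T k' q := by
      intro x hx
      rw [mem_gs] at hx ⊢
      obtain ⟨R, hR, hg⟩ := hx
      refine ⟨R, hR, fun G hG hG' hbad => ?_⟩
      rcases hbad with hbad | hbad
      · exact hg G hG hG' hbad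
      · exact hc ⟨hbad.1, hbad.2.1, hbad.2.2.1⟩
    have h1 : b F n T k' q ≤ b (F.or (FSame e a a' l)) n T k' q := dens_mono hsub
    linarith

/-- Sequences which avoid `FSame` have different components. -/
theorem ne_of_avoid {e a a' l : ℕ} {T : StrSet} {G : ℕ → ℕ → Fin e → Bool}
    (h : ∀ n, ¬ (FSame e a a' l).bad n T G) (c : Fin e) :
    (fun i => G a i c) ≠ fun i => G a' i c := by
  intro hc
  refine h (max (a + 1) (max (a' + 1) l)) ⟨?_, ?_, ?_, c, fun i _ => congrFun hc i⟩
  · have := le_max_left (a + 1) (max (a' + 1) l)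
    omega
  · have h1 := le_max_right (a + 1) (max (a' + 1) l)
    have h2 := le_max_left (a' + 1) l
    omega
  · exact (le_max_right (a' + 1) l).trans (le_max_right _ _)

end Pool.Agent.OSM
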