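import Pool.Agent.OSM.Fusion
import Pool.Agent.OSM.ReqWin

/-!
# OSM/GenEx: existence of generic trees when the requirement cannot be won

`gen_exists`. Apply `fusion` to an enumeration `Q` of the countably many parameters
* `(F.or (FDec E Φ 0 0 L), k, 1 / (i + 1), 1 / (i' + 1))`,
* `(F.or (FWid E Φ m1 K), k, 1 / (i + 1), 1 / (i' + 1))`,
* `(F.or (FPin k m1 g), k, 1 / (i + 1), 1 / (i' + 1))`, `g` the extension (by a fixed letter) of a
  function `Fin k → Fin m1 → A`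
(the index set is a countable nonempty type, e.g.
`(ℕ × ℕ × ℕ × ℕ) ⊕ (ℕ × ℕ × ℕ × ℕ × ℕ) ⊕ ((p : ℕ × ℕ) × (Fin p.1 → Fin p.2 → A) × ℕ × ℕ)`; use
`exists_surjective_nat`). Let `T'` be the tree obtained. For each parameter the second alternative
is impossible by `hno` (with `T1 := T'`, note `T' ∈ Nb T0 m c`, `c1 < M T'`): for `FDec`, `FWid`
use `win_dec`, `win_wid`. For `FPin k m1 g` with `Ext E n T' k m1 g = ∅`: the neighbourhood
`Nb T' (max m2 n) c1 ⊆ Nb T' m2 c1` is robust too, and no `p ∈ E` with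
`p.1 ∈ Nb T' (max m2 n) c1` agrees with `g` (it would be in `Ext E n T' k m1 g`), so `win_pin`
applies. So the first alternative holds for all parameters. For arbitrary real `q, s > 0` choose
`i, i'` with `1 / (i + 1) ≤ q`, `1 / (i' + 1) ≤ s` and use `b_anti_q`. For arbitrary `g` replace it
by the extension `g'` of its restriction: `FPin k m1 g` and `FPin k m1 g'` have the same `bad`, and
`Ext E n T' k m1 g = Ext E n T' k m1 g'`.

`Gen.pin_all`. There are finitely many restrictions of `g` to `k × m`; for each of them (with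
`Ext = ∅`) take the `n'` of `Gen.pin`, let `n0` be the maximum and use `b_anti`.
-/

set_option autoImplicit false

namespace Pool.Agent.OSM

open Finset Pool.Agent.PTree
open scoped Classical

variable {A : Type} [Fintype A] [Nonempty A] {F : Forb A} {E : Set (StrSet × (ℕ → ℕ → A))}
  {Φ : StrSet × (ℕ → ℕ → A) → StrSet}

/-- The extension of a finite table. -/
private noncomputable def tab {k m : ℕ} (z : Fin k → Fin m → A) : ℕ → ℕ → A := fun i j =>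
  if h : i < k ∧ j < m then z ⟨i, h.1⟩ ⟨j, h.2⟩ else Classical.arbitrary A

omit [Fintype A] in
private theorem tab_eq {k m : ℕ} (g : ℕ → ℕ → A) {i j : ℕ} (hi : i < k) (hj : j < m) :
    tab (fun (i : Fin k) (j : Fin m) => g i j) i j = g i j := by
  rw [tab, dif_pos ⟨hi, hj⟩]

omit [Fintype A] in
private theorem ext_tab {k m n : ℕ} {T : StrSet} (g : ℕ → ℕ → A) (h : Ext E n T k m g = ∅) :
    Ext E n T k m (tab fun (i : Fin k) (j : Fin m) => g i j) = ∅ := by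
  rw [Set.eq_empty_iff_forall_notMem] at h ⊢
  rintro p ⟨h1, h2, h3⟩
  refine h p ⟨h1, h2, fun i hi j hj => ?_⟩
  rw [h3 i hi j hj, tab_eq g hi hj]

private theorem b_tab {k m : ℕ} (g : ℕ → ℕ → A) (n : ℕ) (T : StrSet) (k' : ℕ) (q : ℝ) :
    b (F.or (FPin k m g)) n T k' q ≤
      b (F.or (FPin k m (tab fun (i : Fin k) (j : Fin m) => g i j))) n T k' q := by
  apply b_anti_forb
  rintro n' T' G (h | ⟨h1, h2, i, hi, j, hj, h⟩)
  · exact Or.inl h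
  · refine Or.inr ⟨h1, h2, i, hi, j, hj, ?_⟩
    rwa [tab_eq g hi hj] at h

theorem gen_exists (hreq : Req E Φ) {T0 : StrSet} {m : ℕ} {c : ℝ}
    (hno : ∀ T1 m1 c1, T1 ∈ Nb T0 m c → m ≤ m1 → c ≤ c1 → c1 < M T1 → ¬ Win F E (Nb T1 m1 c1))
    {T : StrSet} (hT : T ∈ Nb T0 m c) (m' : ℕ) {δ : ℝ} (hδ : 0 < δ) :
    ∃ T' ∈ Nb T0 m c, Sub T' T ∧ Agree m' T T' ∧ M T - δ < M T' ∧ Gen F E Φ T' := by
  let Q1 : ℕ × ℕ × ℕ × ℕ → Forb A × ℕ × ℝ × ℝ := fun x =>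
    (F.or (FDec E Φ 0 0 x.1), x.2.1, 1 / ((x.2.2.1 : ℝ) + 1), 1 / ((x.2.2.2 : ℝ) + 1))
  let Q2 : ℕ × ℕ × ℕ × ℕ × ℕ → Forb A × ℕ × ℝ × ℝ := fun x =>
    (F.or (FWid E Φ x.1 x.2.1), x.2.2.1, 1 / ((x.2.2.2.1 : ℝ) + 1), 1 / ((x.2.2.2.2 : ℝ) + 1))
  let Q3 : (Σ p : ℕ × ℕ, (Fin p.1 → Fin p.2 → A)) × ℕ × ℕ → Forb A × ℕ × ℝ × ℝ := fun x =>
    (F.or (FPin x.1.1.1 x.1.1.2 (tab x.1.2)), x.1.1.1, 1 / ((x.2.1 : ℝ) + 1), 1 / ((x.2.2 : ℝ) + 1))
  have hX : (Set.range Q1 ∪ Set.range Q2 ∪ Set.range Q3).Countable :=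
    ((Set.countable_range _).union (Set.countable_range _)).union (Set.countable_range _)
  obtain ⟨Q, hQ⟩ := hX.exists_eq_range ⟨Q1 (0, 0, 0, 0), Or.inl (Or.inl ⟨_, rfl⟩)⟩
  obtain ⟨T', h1, h2, h3, h4, h5⟩ := fusion Q hT m' hδ
  have alt : ∀ x ∈ Set.range Q1 ∪ Set.range Q2 ∪ Set.range Q3,
      (∃ n, b x.1 n T' x.2.1 x.2.2.1 < x.2.2.2) ∨
        ∃ m1 c1, m ≤ m1 ∧ c ≤ c1 ∧ c1 < M T' ∧ Robust x.1 x.2.1 x.2.2.1 x.2.2.2 (Nb T' m1 c1) := by
    intro x hx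
    rw [hQ] at hx
    obtain ⟨i, rfl⟩ := hx
    exact h5 i
  refine ⟨T', h1, h2, h3, h4, ⟨?_, ?_, ?_⟩⟩
  · intro L k q s hq hs
    obtain ⟨i, hi⟩ := exists_nat_one_div_lt hq
    obtain ⟨i', hi'⟩ := exists_nat_one_div_lt hs
    rcases alt (Q1 (L, k, i, i')) (Or.inl (Or.inl ⟨_, rfl⟩)) with ⟨n, hn⟩ | ⟨m1, c1, a1, a2, a3, a4⟩
    · exact ⟨n, (b_anti_q _ _ _ _ hi.le).trans_lt (lt_trans hn hi')⟩
    · exact absurd (win_dec hreq (by positivity) (by positivity) a4) (hno T' m1 c1 h1 a1 a2 a3)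
  · intro m0 N k q s hq hs
    obtain ⟨i, hi⟩ := exists_nat_one_div_lt hq
    obtain ⟨i', hi'⟩ := exists_nat_one_div_lt hs
    rcases alt (Q2 (m0, N, k, i, i')) (Or.inl (Or.inr ⟨_, rfl⟩)) with
      ⟨n, hn⟩ | ⟨m1, c1, a1, a2, a3, a4⟩
    · exact ⟨n, (b_anti_q _ _ _ _ hi.le).trans_lt (lt_trans hn hi')⟩
    · exact absurd (win_wid hreq (by positivity) (by positivity) a4) (hno T' m1 c1 h1 a1 a2 a3)
  · intro n k m0 g q s hE hq hs
    obtain ⟨i, hi⟩ := exists_nat_one_div_lt hq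
    obtain ⟨i', hi'⟩ := exists_nat_one_div_lt hs
    rcases alt (Q3 (⟨(k, m0), fun (i : Fin k) (j : Fin m0) => g i j⟩, i, i')) (Or.inr ⟨_, rfl⟩) with
      ⟨n', hn⟩ | ⟨m1, c1, a1, a2, a3, a4⟩
    · exact ⟨n', (b_tab g _ _ _ _).trans_lt ((b_anti_q _ _ _ _ hi.le).trans_lt (lt_trans hn hi'))⟩
    · exfalso
      have hsub : Nb T' (max m1 n) c1 ⊆ Nb T' m1 c1 :=
        Nb.subset (Nb.self h1.1 m1 a3) (le_max_left _ _) le_rfl
      refine hno T' (max m1 n) c1 h1 (a1.trans (le_max_left _ _)) a2 a3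
        (win_pin (q := 1 / ((i : ℝ) + 1)) (s := 1 / ((i' : ℝ) + 1)) (by positivity) (by positivity)
          (Robust.mono a4 hsub) ?_)
      intro p hp hpN hall
      have hE' := ext_tab g hE
      rw [Set.eq_empty_iff_forall_notMem] at hE'
      exact hE' p ⟨hp, hpN.2.2.1.mono (le_max_right _ _), hall⟩

theorem Gen.pin_all {T : StrSet} (hG : Gen F E Φ T) (n k m : ℕ) {q s : ℝ} (hq : 0 < q)
    (hs : 0 < s) : ∃ n0, ∀ n' ≥ n0, ∀ g : ℕ → ℕ → A, Ext E n T k m g = ∅ →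
      b (F.or (FPin k m g)) n' T k q < s := by
  have h1 : ∀ z : Fin k → Fin m → A, ∃ n1, Ext E n T k m (tab z) = ∅ →
      b (F.or (FPin k m (tab z))) n1 T k q < s := by
    intro z
    by_cases h : Ext E n T k m (tab z) = ∅
    · obtain ⟨n1, hn1⟩ := hG.pin n k m (tab z) q s h hq hs
      exact ⟨n1, fun _ => hn1⟩
    · exact ⟨0, fun h' => absurd h' h⟩
  choose N hN using h1
  refine ⟨univ.sup N, fun n' hn' g hg => ?_⟩
  have h2 : N (fun (i : Fin k) (j : Fin m) => g i j) ≤ n' :=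
    (Finset.le_sup (f := N) (Finset.mem_univ _)).trans hn'
  exact (b_tab g _ _ _ _).trans_lt ((b_anti _ h2 _ _ _).trans_lt (hN _ (ext_tab g hg)))

end Pool.Agent.OSM
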