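import Pool.Agent.OSM.ReqWin

/-!
# OSM/UBTwo: at a generic tree, many nodes are decided up to a fixed length

`ub_two`. Let `q, s > 0`; put `q₁ = q / 2`. By `Gen.wid` and `b_anti` there is `n₃ ≥ k` (and
`n₃ ≥ m`) with
`b (F.or (FWid E Φ m K)) n₃ T k q₁ < s / 2`; let `V₁` be the set of the `x ∈ (Str n₃)^k` counted by
it (`gs`). Let `L = n₃`. By `Gen.dec` and `b_anti` there is `n₄ ≥ n₃` with
`b (F.or (FDec E Φ 0 0 L)) n₄ T n₃ q < (s / 2) * q₁ ^ n₃ / card (Str A n₃) ^ n₃ =: s₄`; let `V₂` be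
the set counted by it (`n₃` coordinates!). We show that `n = n₄` works.

Let `X` be the set of `x ∈ (Str n₄)^k` in `gs (F.or (FDec E Φ m K L)) n₄ T k q` with
`res x ∉ V₁` (coordinatewise restriction to length `n₃`). The `x` with `res x ∈ V₁` have density
`< s / 2` (`dens_preimage`). Let `x ∈ X`, with good reservoir `R` (for
`F.or (FDec E Φ m K L)`), `q ≤ dens R`. Let `R' ⊆ Str A n₃` be the set of the strings `s'` above
which there are at least `q₁ * card (Str A n₄) / card (Str A n₃)` elements of `R`. Then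
`q₁ ≤ dens R'` (the elements of `R` above the other strings have density `< q₁ = q / 2`).
`(res x, R')` is good for `F` (`Good.restrict`, `Good.mono`); as `res x ∉ V₁` it is not good for
`F.or (FWid E Φ m K)`: there is `G` with `cut n₃ (G i) = res (x i)` for `i < k`,
`cut n₃ (G i) ∈ R'` for `i ≥ k`, and `FWid E Φ m K` is bad at `(n₃, T, G)`: for some `L' ≤ n₃`,
`Dec E Φ m K L' n₃ T G`. (`m ≤ L'` may be assumed: if `L' < m`, then `above _ σ L'` is empty for
`σ` of length `m`; so no value of `Φ` in `Ext` has a node of length `m` unless `K = 0`; as the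
values are perfect this means `Ext = ∅` or `K = 0`, and the claims below are trivial.)
Consider the tuples `y ∈ (Str n₄)^{n₃}` with `y i = x i` for `i < k`, and, for `k ≤ i < n₃`,
`y i ∈ R` with `res (y i) = cut n₃ (G i)`. There are at least
`(q₁ * card (Str A n₄) / card (Str A n₃)) ^ (n₃ - k)` of them. Each is in `V₂`, with reservoir `R`:
`(y, R)` is good for `F` (`Good.extend`). Let `G'` have the first coordinates `y` and the others in
`R` (at level `n₄`), and suppose `Dec E Φ 0 0 L n₄ T G'`. All `p ∈ Ext E n₄ T n₄ n₄ G'` are in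
`Ext E n₃ T n₃ n₃ G`, so the value `Φ p` has at least `K` nodes of length `L'` above each of its
nodes of length `m`, so at least `K` nodes of length `L = n₃` (`above_card_mono`). So
`Dec E Φ m K L n₄ T G'`, which contradicts the goodness of `(x, R)` for `F.or (FDec E Φ m K L)`
(the coordinates `i ≥ k` of `G'` are in `R`, the others are `x`).
Hence `V₂`, whose elements restrict (to the first `k` coordinates) to elements of
`(Str n₄)^k`, has at least
`X.card * (q₁ * card (Str A n₄) / card (Str A n₃)) ^ (n₃ - k)` elements, so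
`dens V₂ ≥ dens X * (q₁ / card (Str A n₃)) ^ (n₃ - k) ≥ dens X * (q₁ / card (Str A n₃)) ^ n₃`
(`q ≤ 1` if `R` exists), and `dens X < s / 2`. So `b (F.or (FDec E Φ m K L)) n₄ T k q < s`.
-/

set_option autoImplicit false

namespace Pool.Agent.OSM

open Finset Pool.Agent.PTree
open scoped Classical

private theorem ub_union {α : Type} [Fintype α] (W X P : Finset α) (h : ∀ x ∈ W, x ∈ X ∨ x ∈ P) :
    dens W ≤ dens X + dens P :=
  (dens_mono (fun x hx => mem_union.2 (h x hx))).trans (dens_union_le X P)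

/-- the strings above which there are many elements of `R` -/
private theorem ub_dens {A : Type} [Fintype A] [Nonempty A] {n n' : ℕ} (h : n ≤ n') {c : ℕ}
    (hc0 : 0 < c) (hc : ∀ y : Str A n, (univ.filter fun x => res h x = y).card = c)
    (h1 : (Fintype.card (Str A n') : ℝ) = c * Fintype.card (Str A n))
    (R : Finset (Str A n')) {q₁ : ℝ} (hR : 2 * q₁ ≤ dens R) :
    q₁ ≤ dens (univ.filter fun y : Str A n =>
      q₁ * c ≤ ((R.filter fun x => res h x = y).card : ℝ)) := by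
  set R' := univ.filter fun y : Str A n => q₁ * c ≤ ((R.filter fun x => res h x = y).card : ℝ)
    with hR'
  have hN : (0 : ℝ) < Fintype.card (Str A n) := by
    exact_mod_cast Fintype.card_pos
  have hc0' : (0 : ℝ) < c := by exact_mod_cast hc0
  rcases lt_or_ge q₁ 0 with hq | hq
  · exact hq.le.trans (dens_nonneg _)
  have h2 : (R.card : ℝ) = ∑ y : Str A n, ((R.filter fun x => res h x = y).card : ℝ) := by
    have h3 := card_eq_sum_card_fiberwise (s := R) (t := univ) (f := res h) (fun x _ => mem_univ _)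
    exact_mod_cast h3
  have h3 : ∀ y : Str A n, ((R.filter fun x => res h x = y).card : ℝ) ≤
      (if y ∈ R' then (c : ℝ) else 0) + q₁ * c := by
    intro y
    by_cases hy : y ∈ R'
    · rw [if_pos hy]
      have h4 : (R.filter fun x => res h x = y).card ≤ c := by
        rw [← hc y]
        exact card_le_card (filter_subset_filter _ (subset_univ _))
      have h5 : ((R.filter fun x => res h x = y).card : ℝ) ≤ c := by exact_mod_cast h4
      have h6 : 0 ≤ q₁ * c := by positivity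
      linarith
    · rw [if_neg hy, zero_add]
      rw [hR', mem_filter] at hy
      push Not at hy
      exact (hy (mem_univ _)).le
  have h4 : (R.card : ℝ) ≤ c * R'.card + q₁ * c * Fintype.card (Str A n) := by
    rw [h2]
    refine (sum_le_sum fun y _ => h3 y).trans (le_of_eq ?_)
    rw [sum_add_distrib, sum_const, card_univ, nsmul_eq_mul, ← sum_filter, sum_const, nsmul_eq_mul]
    have e : univ.filter (fun y => y ∈ R') = R' := by ext; simp
    rw [e]
    ring
  have h5 := card_eq_dens R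
  rw [h5, h1] at h4
  have h6 : 2 * q₁ * (c * Fintype.card (Str A n)) ≤ dens R * (c * Fintype.card (Str A n)) :=
    mul_le_mul_of_nonneg_right hR (by positivity)
  unfold dens
  rw [le_div_iff₀ hN]
  have h7 : c * (q₁ * Fintype.card (Str A n)) ≤ c * (R'.card : ℝ) := by linarith
  exact le_of_mul_le_mul_left h7 hc0'

private theorem ub_card (n k : ℕ) (hk : k ≤ n) (a : ℝ) :
    ∏ i : Fin n, (if (i : ℕ) < k then (1 : ℝ) else a) = a ^ (n - k) := by
  have h : (univ.filter (fun i : Fin n => (i : ℕ) < k)).card = min n k := Fin.card_filter_val_lt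
  have h2 := card_filter_add_card_filter_not (s := (univ : Finset (Fin n)))
    (fun i : Fin n => (i : ℕ) < k)
  rw [h, card_univ, Fintype.card_fin] at h2
  rw [prod_ite, prod_const_one, prod_const, one_mul]
  congr 1
  omega

private theorem ub_point {A : Type} [Fintype A] [Nonempty A] {F : Forb A}
    {E : Set (StrSet × (ℕ → ℕ → A))} {Φ : StrSet × (ℕ → ℕ → A) → StrSet} (hreq : Req E Φ)
    {T : StrSet} {m K k n₃ n₄ : ℕ} (h : n₃ ≤ n₄) (hk : k ≤ n₃) {c : ℕ} (hc0 : 0 < c)
    (hc : ∀ y : Str A n₃, (univ.filter fun x => res h x = y).card = c)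
    (hcc : (Fintype.card (Str A n₄) : ℝ) = c * Fintype.card (Str A n₃)) {q₁ : ℝ} (hq : 0 < q₁)
    {x : Fin k → Str A n₄} (hx : x ∈ gs (F.or (FDec E Φ m K n₃)) n₄ T k (2 * q₁))
    (hx' : (fun i => res h (x i)) ∉ gs (F.or (FWid E Φ m K)) n₃ T k q₁) :
    ∃ Y : Finset (Fin n₃ → Str A n₄), Y ⊆ gs (F.or (FDec E Φ 0 0 n₃)) n₄ T n₃ (2 * q₁) ∧
      (∀ y ∈ Y, ∀ i : Fin k, y (i.castLE hk) = x i) ∧ (q₁ * c) ^ (n₃ - k) ≤ (Y.card : ℝ) := by
  have hc0' : (0 : ℝ) < c := by exact_mod_cast hc0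
  obtain ⟨R, hR, hg⟩ := mem_gs.1 hx
  set R' := univ.filter fun y : Str A n₃ => q₁ * c ≤ ((R.filter fun x => res h x = y).card : ℝ)
    with hR'
  have hR'd : q₁ ≤ dens R' := ub_dens h hc0 hc hcc R hR
  have hgF : Good F n₃ T (fun i => res h (x i)) R' := by
    refine (Good.restrict h hg).mono (Forb.le_or_left _ _) fun y hy => ?_
    rw [hR', mem_filter] at hy
    have h1 : (0 : ℝ) < ((R.filter fun x => res h x = y).card : ℝ) :=
      lt_of_lt_of_le (by positivity) hy.2
    have h2 : 0 < (R.filter fun x => res h x = y).card := by exact_mod_cast h1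
    obtain ⟨z, hz⟩ := card_pos.1 h2
    rw [mem_filter] at hz
    exact mem_image.2 ⟨z, hz.1, hz.2⟩
  have h2 : ¬ Good (F.or (FWid E Φ m K)) n₃ T (fun i => res h (x i)) R' :=
    fun hh => hx' (mem_gs.2 ⟨R', hR'd, hh⟩)
  unfold Good at h2
  push Not at h2
  obtain ⟨G, hG1, hG2, hbad⟩ := h2
  obtain ⟨L', hL', hdec⟩ : ∃ L' ≤ n₃, Dec E Φ m K L' n₃ T G := hbad.resolve_left (hgF G hG1 hG2)
  refine ⟨Fintype.piFinset (fun i : Fin n₃ => if hi : (i : ℕ) < k then {x ⟨i, hi⟩} else
    R.filter (fun z => res h z = cut n₃ (G i))), ?_, ?_, ?_⟩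
  · intro y hy
    rw [Fintype.mem_piFinset] at hy
    have hy1 : ∀ i : Fin k, y (i.castLE hk) = x i := by
      intro i
      have h3 := hy (i.castLE hk)
      rw [dif_pos (show ((i.castLE hk : Fin n₃) : ℕ) < k from i.2), mem_singleton] at h3
      exact h3
    have hy2 : ∀ i : Fin n₃, k ≤ (i : ℕ) → y i ∈ R ∧ res h (y i) = cut n₃ (G i) := by
      intro i hi
      have h3 := hy i
      rw [dif_neg (not_lt.2 hi), mem_filter] at h3
      exact h3
    have hy3 : ∀ i : Fin n₃, res h (y i) = cut n₃ (G i) := by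
      intro i
      rcases lt_or_ge (i : ℕ) k with hi | hi
      · have h3 := hG1 ⟨i, hi⟩
        have h4 := hy1 ⟨i, hi⟩
        have e : (⟨(i : ℕ), hi⟩ : Fin k).castLE hk = i := rfl
        rw [e] at h4
        rw [h4]
        exact h3.symm
      · exact (hy2 i hi).2
    refine mem_gs.2 ⟨R, hR, fun G' h3 h4 hb => ?_⟩
    have hgood : Good F n₄ T y R := Good.extend hk hy1 (fun i hi => (hy2 i hi).1)
      (hg.mono (Forb.le_or_left _ _) (Subset.refl _))
    rcases hb with hb | hb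
    · exact hgood G' h3 h4 hb
    have hD : Dec E Φ m K n₃ n₄ T G' := by
      refine ⟨hb.1, fun p hp σ hσ hΦ => ?_⟩
      have hp' : p ∈ Ext E n₃ T n₃ n₃ G := by
        refine ⟨hp.1, hp.2.1.mono h, fun i hi j hj => ?_⟩
        refine (hp.2.2 i (hi.trans_le h) j (hj.trans_le h)).trans ?_
        have h5 := congrFun (h3 ⟨i, hi⟩) ⟨j, hj.trans_le h⟩
        have h6 := congrFun (hy3 ⟨i, hi⟩) ⟨j, hj⟩
        exact h5.trans h6
      have h5 := hdec.2 p hp' σ hσ hΦ
      by_cases hmL : m ≤ L'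
      · exact h5.trans (above_card_mono (hreq.perf p hp.1).1 hL' (by omega))
      · have h6 : above (Φ p) σ L' = ∅ := by
          rw [eq_empty_iff_forall_notMem]
          intro τ hτ
          obtain ⟨h7, -, h8⟩ := mem_above.1 hτ
          have := h8.length_le
          omega
        rw [h6, card_empty] at h5
        omega
    refine hg G' (fun i => ?_) (fun i hi => ?_) (Or.inr hD)
    · have h5 := h3 (i.castLE hk)
      rw [hy1] at h5
      exact h5
    · rcases lt_or_ge i n₃ with hi' | hi'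
      · rw [show cut n₄ (G' i) = y ⟨i, hi'⟩ from h3 ⟨i, hi'⟩]
        exact (hy2 ⟨i, hi'⟩ hi).1
      · exact h4 i hi'
  · intro y hy i
    rw [Fintype.mem_piFinset] at hy
    have h3 := hy (i.castLE hk)
    rw [dif_pos (show ((i.castLE hk : Fin n₃) : ℕ) < k from i.2), mem_singleton] at h3
    exact h3
  · rw [Fintype.card_piFinset, Nat.cast_prod, ← ub_card n₃ k hk]
    refine prod_le_prod (fun i _ => ?_) fun i _ => ?_
    · split_ifs
      · exact zero_le_one
      · positivity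
    · by_cases hi : (i : ℕ) < k
      · rw [if_pos hi, dif_pos hi, card_singleton, Nat.cast_one]
      · rw [if_neg hi, dif_neg hi]
        have h3 := hG2 i (not_lt.1 hi)
        rw [hR', mem_filter] at h3
        exact h3.2

theorem ub_two {A : Type} [Fintype A] [Nonempty A] {F : Forb A}
    {E : Set (StrSet × (ℕ → ℕ → A))} {Φ : StrSet × (ℕ → ℕ → A) → StrSet} (hreq : Req E Φ)
    {T : StrSet} (hG : Gen F E Φ T) (m K k : ℕ) {q s : ℝ} (hq : 0 < q) (hs : 0 < s) :
    ∃ L n, m ≤ L ∧ L ≤ n ∧ k ≤ n ∧ b (F.or (FDec E Φ m K L)) n T k q < s := by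
  obtain ⟨q₁, hq₁⟩ : ∃ q₁ : ℝ, q = 2 * q₁ := ⟨q / 2, by ring⟩
  subst hq₁
  have hq₁ : 0 < q₁ := by linarith
  obtain ⟨n, hn⟩ := hG.wid m K k q₁ (s / 2) hq₁ (by linarith)
  obtain ⟨n₃, h1, h2, h3⟩ : ∃ n₃, n ≤ n₃ ∧ k ≤ n₃ ∧ m ≤ n₃ :=
    ⟨max n (max k m), le_max_left _ _, (le_max_left _ _).trans (le_max_right _ _),
      (le_max_right _ _).trans (le_max_right _ _)⟩
  have hV1 : b (F.or (FWid E Φ m K)) n₃ T k q₁ < s / 2 :=
    lt_of_le_of_lt (b_anti _ h1 T k q₁) hn
  have hN3 : (0 : ℝ) < Fintype.card (Str A n₃) := by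
    exact_mod_cast Fintype.card_pos
  obtain ⟨n', hn'⟩ := hG.dec n₃ n₃ (2 * q₁) (s / 2 * (q₁ / Fintype.card (Str A n₃)) ^ (n₃ - k)) hq
    (by positivity)
  obtain ⟨n₄, h4, h5⟩ : ∃ n₄, n' ≤ n₄ ∧ n₃ ≤ n₄ := ⟨max n' n₃, le_max_left _ _, le_max_right _ _⟩
  have hV2 : b (F.or (FDec E Φ 0 0 n₃)) n₄ T n₃ (2 * q₁) <
      s / 2 * (q₁ / Fintype.card (Str A n₃)) ^ (n₃ - k) :=
    lt_of_le_of_lt (b_anti _ h4 T n₃ (2 * q₁)) hn'
  refine ⟨n₃, n₄, h3, h5, h2.trans h5, ?_⟩
  obtain ⟨c, hc0, hc'⟩ := eqFib_res (A := A) h5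
  have hc : ∀ y : Str A n₃, (univ.filter fun x => res h5 x = y).card = c := fun y => by
    convert hc' y
  have hc0' : (0 : ℝ) < c := by exact_mod_cast hc0
  have hN4 : (Fintype.card (Str A n₄) : ℝ) = c * Fintype.card (Str A n₃) := by
    exact_mod_cast EqFib.card hc'
  set W := gs (F.or (FDec E Φ m K n₃)) n₄ T k (2 * q₁) with hW
  set V₁ := gs (F.or (FWid E Φ m K)) n₃ T k q₁ with hV₁
  set V₂ := gs (F.or (FDec E Φ 0 0 n₃)) n₄ T n₃ (2 * q₁) with hV₂
  set X := W.filter (fun x => (fun i => res h5 (x i)) ∉ V₁) with hX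
  have hpre : dens (univ.filter (fun x : Fin k → Str A n₄ => (fun i => res h5 (x i)) ∈ V₁)) =
      dens V₁ := by
    have := dens_preimage (eqFib_comp (eqFib_res (A := A) h5) k) V₁
    convert this
  have hY : ∀ x : Fin k → Str A n₄, ∃ Y : Finset (Fin n₃ → Str A n₄), x ∈ X →
      (Y ⊆ V₂ ∧ (∀ y ∈ Y, ∀ i : Fin k, y (i.castLE h2) = x i) ∧
        (q₁ * c) ^ (n₃ - k) ≤ (Y.card : ℝ)) := by
    intro x
    by_cases hx : x ∈ X
    · rw [hX, mem_filter] at hx
      obtain ⟨Y, hY⟩ := ub_point hreq h5 h2 hc0 hc hN4 hq₁ hx.1 hx.2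
      exact ⟨Y, fun _ => hY⟩
    · exact ⟨∅, fun h => absurd h hx⟩
  choose Y hY using hY
  have hdisj : ∀ x ∈ X, ∀ x' ∈ X, x ≠ x' → Disjoint (Y x) (Y x') := by
    intro x hx x' hx' hne
    rw [disjoint_left]
    intro y hy hy'
    apply hne
    funext i
    rw [← (hY x hx).2.1 y hy i, ← (hY x' hx').2.1 y hy' i]
  have hcard : (X.card : ℝ) * (q₁ * c) ^ (n₃ - k) ≤ (V₂.card : ℝ) := by
    have e1 : (X.biUnion Y).card ≤ V₂.card := by
      refine card_le_card fun y hy => ?_
      obtain ⟨x, hx, hyx⟩ := mem_biUnion.1 hy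
      exact (hY x hx).1 hyx
    rw [card_biUnion hdisj] at e1
    have e2 : ((∑ x ∈ X, (Y x).card : ℕ) : ℝ) ≤ (V₂.card : ℝ) := by exact_mod_cast e1
    refine le_trans ?_ e2
    rw [Nat.cast_sum, ← nsmul_eq_mul, ← sum_const]
    exact sum_le_sum fun x hx => (hY x hx).2.2
  have hXd : dens X < s / 2 := by
    have e1 := card_eq_dens X
    have e2 := card_eq_dens V₂
    have e3 : (Fintype.card (Fin k → Str A n₄) : ℝ) = (c * Fintype.card (Str A n₃)) ^ k := by
      rw [Fintype.card_fun, Fintype.card_fin, Nat.cast_pow, hN4]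
    have e4 : (Fintype.card (Fin n₃ → Str A n₄) : ℝ) =
        (c * Fintype.card (Str A n₃)) ^ k * (c * Fintype.card (Str A n₃)) ^ (n₃ - k) := by
      rw [Fintype.card_fun, Fintype.card_fin, Nat.cast_pow, hN4, ← pow_add]
      congr 1
      omega
    rw [e1, e2, e3, e4] at hcard
    have e5 : dens V₂ < s / 2 * (q₁ / Fintype.card (Str A n₃)) ^ (n₃ - k) := hV2
    obtain ⟨N, hN⟩ : ∃ N : ℝ, N = Fintype.card (Str A n₃) := ⟨_, rfl⟩
    rw [← hN] at hcard e5 hN3
    have e6 : dens X * ((c * N) ^ k * (q₁ * c) ^ (n₃ - k)) ≤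
        dens V₂ * ((c * N) ^ k * (c * N) ^ (n₃ - k)) := by linarith
    have e7 : (c * N) ^ (n₃ - k) * (q₁ / N) ^ (n₃ - k) = (q₁ * c) ^ (n₃ - k) := by
      rw [← mul_pow]
      congr 1
      field_simp
    have e8 : dens X * ((c * N) ^ k * (q₁ * c) ^ (n₃ - k)) <
        s / 2 * ((c * N) ^ k * (q₁ * c) ^ (n₃ - k)) := by
      refine lt_of_le_of_lt e6 ?_
      have e9 : dens V₂ * ((c * N) ^ k * (c * N) ^ (n₃ - k)) <
          s / 2 * (q₁ / N) ^ (n₃ - k) * ((c * N) ^ k * (c * N) ^ (n₃ - k)) :=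
        mul_lt_mul_of_pos_right e5 (by positivity)
      refine e9.trans_le (le_of_eq ?_)
      rw [← e7]
      ring
    exact lt_of_mul_lt_mul_right e8 (by positivity)
  have e1 : dens W ≤ dens X + dens V₁ := by
    rw [← hpre]
    refine ub_union W X _ fun x hx => ?_
    rw [hX, mem_filter, mem_filter]
    by_cases hx1 : (fun i => res h5 (x i)) ∈ V₁
    · exact Or.inr ⟨mem_univ _, hx1⟩
    · exact Or.inl ⟨hx, hx1⟩
  have e2 : dens V₁ < s / 2 := hV1
  have e3 : dens W < s := by linarith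
  exact e3

end Pool.Agent.OSM
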