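import Pool.Agent.OSM.Contra
import Pool.Agent.OSM.UBTwo
import Pool.Agent.OSM.GenEx

/-!
# OSM/Step: one requirement can be won
-/

set_option autoImplicit false

namespace Pool.Agent.OSM

open Finset Pool.Agent.PTree
open scoped Classical

theorem exists_min_pos {ι : Type} [Finite ι] (f : ι → ℝ) :
    ∃ c : ℝ, 0 < c ∧ ∀ i, 0 < f i → c ≤ f i := by
  have := Fintype.ofFinite ι
  by_cases h : (univ.filter fun i => 0 < f i).Nonempty
  · obtain ⟨i, hi, hmin⟩ := Finset.exists_min_image _ f h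
    exact ⟨f i, (mem_filter.1 hi).2, fun j hj => hmin j (mem_filter.2 ⟨mem_univ _, hj⟩)⟩
  · refine ⟨1, one_pos, fun i hi => ?_⟩
    exact absurd ⟨i, mem_filter.2 ⟨mem_univ _, hi⟩⟩ h

theorem dec_zero {A : Type} {E : Set (StrSet × (ℕ → ℕ → A))}
    {Φ : StrSet × (ℕ → ℕ → A) → StrSet} (hreq : Req E Φ) {m K L n : ℕ} {T : StrSet}
    {G : ℕ → ℕ → A} (h : Dec E Φ m K L n T G) : Dec E Φ 0 K L n T G := by
  refine ⟨h.1, fun p hp σ hσ hS => ?_⟩
  have hperf := (hreq.perf p hp.1).1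
  obtain rfl := List.length_eq_zero_iff.1 hσ
  obtain ⟨τ, hτ⟩ := hperf.exists_length hS (l := m) (Nat.zero_le _)
  have hτ' := mem_above.1 hτ
  refine (h.2 p hp τ hτ'.1 hτ'.2.1).trans (Finset.card_le_card fun w hw => ?_)
  have hw' := mem_above.1 hw
  exact mem_above.2 ⟨hw'.1, hw'.2.1, List.nil_prefix⟩

/-- The trees used after a removal, with their levels and mixtures. -/
theorem exists_kill {A : Type} [Fintype A] [Nonempty A] {F : Forb A}
    {E : Set (StrSet × (ℕ → ℕ → A))} {Φ : StrSet × (ℕ → ℕ → A) → StrSet} (hreq : Req E Φ)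
    {k : ℕ} {q q' : ℝ} (hq : 0 < q) (hq' : 0 < q') {T0 : StrSet} {m : ℕ} {c : ℝ}
    (hrob : Robust F k q q' (Nb T0 m c))
    (hno : ∀ T1 m1 c1, T1 ∈ Nb T0 m c → m ≤ m1 → c ≤ c1 → c1 < M T1 → ¬ Win F E (Nb T1 m1 c1))
    {T1 T2 : StrSet} {n0 n L : ℕ} (hT2 : T2 ∈ Nb T0 m c) (hT21 : T2 ∈ Nb T1 n0 c) (hmn0 : m ≤ n0)
    (hn0 : n0 ≤ n) {J : ℕ} {δ δ' cs : ℝ} (hδ : 0 < δ) (hδ' : 0 < δ') (hJ : 0 < J) (hcs : 0 < cs)
    (U : Finset (List Bool)) (hU : c < M T2 - (U.card : ℝ) * (1 / 2) ^ L)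
    (hUL : ∀ τ ∈ U, τ.length = L) :
    ∃ (T' : StrSet) (n' : ℕ) (_ : n ≤ n') (m' : Mx (Fin k → Str A n') (Str A n')),
      T' ∈ Nb T1 n0 c ∧ Gen F E Φ T' ∧ Agree n T2 T' ∧ Sub T' (killE T2 U n) ∧
      M T2 - (U.card : ℝ) * (1 / 2) ^ L - δ' < M T' ∧ Fit F n' T' k q q' m' ∧
      klu m' J ≤ hv F k q q' J n' T' + J * δ / 2 ∧
      ∀ k' ≤ n, ∀ g : ℕ → ℕ → A, Ext E (n + 1) T' k' n g = ∅ →
        b (F.or (FPin k' n g)) n' T' k' q < cs := by
  have hsum : ∑ τ ∈ U, (1 / 2 : ℝ) ^ τ.length = (U.card : ℝ) * (1 / 2) ^ L := by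
    rw [Finset.sum_congr rfl fun τ hτ => by rw [hUL τ hτ], Finset.sum_const, nsmul_eq_mul]
  have hkM := killE_M T2 U n
  rw [hsum] at hkM
  have hkill : killE T2 U n ∈ Nb T0 m c :=
    ⟨killE_tree hT2.1 U n, (killE_sub T2 U n).trans hT2.2.1,
      hT2.2.2.1.trans ((killE_agree T2 U n).mono (hmn0.trans hn0)), hU.trans_le hkM⟩
  obtain ⟨T', h1, h2, h3, h4, h5⟩ := gen_exists hreq hno hkill n hδ'
  have hA : Agree n T2 T' := (killE_agree T2 U n).trans h3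
  have hpin : ∀ k' : ℕ, ∃ n1, ∀ n' ≥ n1, ∀ g : ℕ → ℕ → A, Ext E (n + 1) T' k' n g = ∅ →
      b (F.or (FPin k' n g)) n' T' k' q < cs := fun k' => h5.pin_all (n + 1) k' n hq hcs
  choose n1 hn1 using hpin
  set n' := max n ((range (n + 1)).sup n1) with hn'
  have hbT : q' ≤ b F n' T' k q := hrob T' h1 n'
  have hJδ : 0 < (J : ℝ) * δ / 2 := by positivity
  obtain ⟨m', hm1, hm2⟩ := exists_near hq hq' hbT J hJδ
  refine ⟨T', n', le_max_left _ _, m', ⟨h1.1, ?_, ?_, h1.2.2.2⟩, h5, hA, h2, by linarith, hm1,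
    hm2, ?_⟩
  · exact (h2.trans (killE_sub T2 U n)).trans hT21.2.1
  · exact hT21.2.2.1.trans (hA.mono hn0)
  · intro k' hk' g hg
    refine hn1 k' n' ?_ g hg
    exact (Finset.le_sup (f := n1) (mem_range.2 (Nat.lt_succ_of_le hk'))).trans (le_max_right _ _)

theorem ex_linear {α : Type} (p : ℝ) (s : Finset α) (a c : ℝ) :
    Ex p s (fun U => a * (U.card : ℝ) + c) = a * (p * s.card) + c := by
  rw [ex_add p s (fun U => a * (U.card : ℝ)) (fun _ => c), ex_mul, ex_card, ex_const]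

theorem step {A : Type} [Fintype A] [Nonempty A] {F : Forb A}
    {E : Set (StrSet × (ℕ → ℕ → A))} {Φ : StrSet × (ℕ → ℕ → A) → StrSet} (hreq : Req E Φ)
    {k : ℕ} {q q' : ℝ} (hq : 0 < q) (hq' : 0 < q') {T0 : StrSet} (hT0 : IsTree T0) {m : ℕ}
    {c : ℝ} (hc : c < M T0) (hrob : Robust F k q q' (Nb T0 m c)) :
    ∃ T1 m1 c1, T1 ∈ Nb T0 m c ∧ m ≤ m1 ∧ c ≤ c1 ∧ c1 < M T1 ∧ Win F E (Nb T1 m1 c1) := by
  by_contra hcon
  have hno : ∀ T1 m1 c1, T1 ∈ Nb T0 m c → m ≤ m1 → c ≤ c1 → c1 < M T1 →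
      ¬ Win F E (Nb T1 m1 c1) := fun T1 m1 c1 h1 h2 h3 h4 h5 =>
    hcon ⟨T1, m1, c1, h1, h2, h3, h4, h5⟩
  have hT0' : T0 ∈ Nb T0 m c := Nb.self hT0 m hc
  have hb0 := hrob T0 hT0' 0
  have hq1' : q' ≤ 1 := hb0.trans (b_le_one _ _ _ _ _)
  have hq1 : q ≤ 1 := by
    obtain ⟨x, hx⟩ := nonempty_of_dens (hq'.trans_le hb0)
    obtain ⟨R, hR, -⟩ := mem_gs.1 hx
    exact hR.trans (dens_le_one R)
  have hlq : 0 ≤ Real.log (1 / q) := Real.log_nonneg (by rw [le_div_iff₀ hq]; linarith)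
  -- the first tree
  obtain ⟨T1, hT1, -, -, -, hG1⟩ := gen_exists hreq hno hT0' 0 one_pos
  set gap := M T1 - c with hgap
  have hgap0 : 0 < gap := by have := hT1.2.2.2; linarith
  set C := 8 * (Real.log (1 / q) + 2) / gap with hC
  have hC0 : 0 < C := by positivity
  have hCg : C * gap = 8 * (Real.log (1 / q) + 2) := by
    rw [hC]; field_simp
  set M0 := ⌈57344 * C⌉₊ + 1 with hM0
  have hM0C : 57344 * C ≤ M0 := by
    rw [hM0]; push_cast
    linarith [Nat.le_ceil (57344 * C)]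
  obtain ⟨ms, hms⟩ := exists_pow_lt_of_lt_one (show 0 < gap / 4 by positivity)
    (show (1 / 2 : ℝ) < 1 by norm_num)
  obtain ⟨m0, n1, hmm0, hm0n1, hkn1, hub1⟩ := ub_two hreq hG1 ms M0 k
    (show 0 < 3 * q / 4 by positivity) (show 0 < q' / 100 by positivity)
  set n0 := max n1 (max m 1) with hn0def
  have hn1n0 : n1 ≤ n0 := le_max_left _ _
  have hmn0 : m ≤ n0 := (le_max_left _ _).trans (le_max_right _ _)
  have h1n0 : 1 ≤ n0 := (le_max_right _ _).trans (le_max_right _ _)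
  have hub1' : b (F.or (FDec E Φ 0 M0 m0)) n0 T1 k (3 * q / 4) < q' / 100 := by
    refine lt_of_le_of_lt ((b_anti _ hn1n0 T1 k _).trans (b_anti_forb ?_ n1 T1 k _)) hub1
    intro n T G hbad
    exact hbad.imp id fun h => dec_zero hreq h
  set ℓ := max (4 * Fintype.card (Str A n0) * (n0 + 5)) ⌈Real.log (1 / q')⌉₊ with hℓ
  have hℓ1 : 4 * Fintype.card (Str A n0) * (n0 + 5) ≤ ℓ := le_max_left _ _
  have hℓ2 : Real.log (1 / q') ≤ ℓ :=
    (Nat.le_ceil _).trans (by exact_mod_cast le_max_right _ _)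
  have hℓ0 : 0 < ℓ := by
    have h3 : 0 < Fintype.card (Str A n0) := Fintype.card_pos
    have h4 : 0 < 4 * Fintype.card (Str A n0) * (n0 + 5) := by positivity
    omega
  set J := 2 * (n0 * ℓ) with hJ
  have hJ0 : 0 < J := by positivity
  have hJ0' : (0 : ℝ) < J := by exact_mod_cast hJ0
  have hJ1 : (1 : ℝ) ≤ J := by exact_mod_cast hJ0
  have hℓJ : (ℓ : ℝ) ≤ J := by
    have : ℓ ≤ J := by nlinarith
    exact_mod_cast this
  set B := ⌈2000 * J * C⌉₊ + 1 with hB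
  have hB0 : 0 < B := Nat.succ_pos _
  have hB0' : (0 : ℝ) < B := by exact_mod_cast hB0
  have hBC : 2000 * J * C ≤ B := by
    rw [hB]; push_cast
    linarith [Nat.le_ceil (2000 * (J : ℝ) * C)]
  set δ := C / (4 * B * 2 ^ m0) with hδ
  have hδ0 : 0 < δ := by positivity
  have hδ1 : δ ≤ 1 := by
    rw [hδ, div_le_one (by positivity)]
    have h3 : (1 : ℝ) ≤ 2 ^ m0 := one_le_pow₀ (by norm_num)
    have h4 : C ≤ B := by nlinarith
    nlinarith
  -- the second tree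
  have hN1 : Nb T1 n0 c ⊆ Nb T0 m c := Nb.subset hT1 hmn0 le_rfl
  have hrob1 : Robust F k q q' (Nb T1 n0 c) := hrob.mono hN1
  set X : Set StrSet := {T | T ∈ Nb T1 n0 c ∧ Gen F E Φ T} with hX
  have hT1X : T1 ∈ X := ⟨Nb.self hT1.1 n0 hT1.2.2.2, hG1⟩
  obtain ⟨T2, hT2X, hT2max⟩ := near_max hq hq' hrob1 hJ0 (X := X) (fun T h => h.1) ⟨T1, hT1X⟩
    hC0.le hδ0
  have hT2 : T2 ∈ Nb T0 m c := hN1 hT2X.1
  have hMT2 : c + gap / 2 ≤ M T2 := by
    have h3 := hT2max T1 hT1X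
    have h4 := hs_nonneg F k q q' J T1
    have h5 := hs_le (J := J) hq hq' hrob1 hT2X.1
    have h6 : hs F k q q' J T2 / J ≤ Real.log (1 / q) + 1 := by
      rw [div_le_iff₀ hJ0']
      nlinarith
    have h7 : 0 ≤ hs F k q q' J T1 / J := by positivity
    have h8 : C * (M T1 - M T2) ≤ C * (gap / 8) := by
      have : C * (gap / 8) = Real.log (1 / q) + 2 := by linarith
      rw [this]
      linarith
    have h9 := le_of_mul_le_mul_left h8 hC0
    linarith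
  obtain ⟨L, n2, hm0L, hLn2, hn0n2, hub2⟩ := ub_two hreq hT2X.2 m0 (3 * B + 1) n0
    (show 0 < 3 * q / 4 * (q / 256) ^ (2 * B) by positivity)
    (show 0 < q' * q ^ n0 / (100 * (ℓ : ℝ) ^ n0) by positivity)
  have hJδ : 0 < (J : ℝ) * δ := by positivity
  obtain ⟨n3, hn3⟩ := exists_level (J := J) hq hq' hrob1 hT2X.1 hJδ
  set n := max n2 n3 with hn
  have hn2n : n2 ≤ n := le_max_left _ _
  have hlev := hn3 n (le_max_right _ _)
  have hub2' := (b_anti (F.or (FDec E Φ m0 (3 * B + 1) L)) hn2n T2 n0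
    (3 * q / 4 * (q / 256) ^ (2 * B))).trans_lt hub2
  obtain ⟨P, hP, hPkl⟩ := exists_near hq hq' (hrob1 T2 hT2X.1 n) J (half_pos hJδ)
  obtain ⟨cmin, hcmin, hcmin'⟩ := exists_min_pos
    (fun o : (j : Fin (J + 1)) × (Fin k → Str A n) × (Fin j → Str A n) => P.pr o.1 o.2.1 o.2.2)
  set cs := cstar q q' cmin n (Fintype.card (Str A n)) with hcs
  have hcs0 : 0 < cs := by
    have h3 : (0 : ℝ) < Fintype.card (Str A n) := by exact_mod_cast Fintype.card_pos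
    rw [hcs, cstar]
    positivity
  have hpowgap : (1 / 2 : ℝ) ^ m0 ≤ gap / 4 :=
    (pow_le_pow_of_le_one (by norm_num) (by norm_num) hmm0).trans hms.le
  have hcard : ∀ σ ∈ strs m0, ∀ U ⊆ con L σ, (U.card : ℝ) * (1 / 2) ^ L ≤ (1 / 2) ^ m0 := by
    intro σ hσ U hU
    have h3 := Finset.card_le_card hU
    rw [card_con hm0L (mem_strs.1 hσ)] at h3
    have h4 : (U.card : ℝ) ≤ 2 ^ (L - m0) := by exact_mod_cast h3
    calc (U.card : ℝ) * (1 / 2) ^ L ≤ 2 ^ (L - m0) * (1 / 2) ^ L :=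
          mul_le_mul_of_nonneg_right h4 (by positivity)
      _ = (1 / 2) ^ m0 := by
          rw [← Nat.sub_add_cancel hm0L, pow_add, Nat.add_sub_cancel, ← mul_assoc, ← mul_pow]
          norm_num
  have hδC : 0 < δ / C := by positivity
  have hkill : ∀ (σ : List Bool) (U : Finset (List Bool)),
      ∃ (T' : StrSet) (n' : ℕ) (_ : n ≤ n') (m' : Mx (Fin k → Str A n') (Str A n')),
        σ ∈ strs m0 → U ⊆ con L σ → T' ∈ Nb T1 n0 c ∧ Gen F E Φ T' ∧ Agree n T2 T' ∧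
        Sub T' (killE T2 U n) ∧
        M T2 - (U.card : ℝ) * (1 / 2) ^ L - δ / C < M T' ∧ Fit F n' T' k q q' m' ∧
        klu m' J ≤ hv F k q q' J n' T' + J * δ / 2 ∧
        ∀ k' ≤ n, ∀ g : ℕ → ℕ → A, Ext E (n + 1) T' k' n g = ∅ →
          b (F.or (FPin k' n g)) n' T' k' q < cs := by
    intro σ U
    by_cases h : σ ∈ strs m0 ∧ U ⊆ con L σ
    · obtain ⟨T', n', hn', m', h3⟩ := exists_kill hreq hq hq' hrob hno hT2 hT2X.1 hmn0
        (hn0n2.trans hn2n) hδ0 hδC hJ0 hcs0 (n := n) (L := L) U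
        (by have := hcard σ h.1 U h.2; linarith)
        (fun τ hτ => (mem_con.1 (h.2 hτ)).1)
      exact ⟨T', n', hn', m', fun _ _ => h3⟩
    · exact ⟨T2, n, le_rfl, P, fun h1 h2 => absurd ⟨h1, h2⟩ h⟩
  choose TE nE hnE mE hE using hkill
  have hcon2 : ∀ σ ∈ strs m0, ((con L σ).card : ℝ) = 2 ^ (L - m0) := by
    intro σ hσ
    rw [card_con hm0L (mem_strs.1 hσ)]
    push_cast
    rfl
  refine contra (κ := 2 * J * C / B) hreq hq hq1 hq' hq1' (hkn1.trans hn1n0)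
    (hn0n2.trans hn2n) h1n0 (hm0n1.trans hn1n0) hm0L (hLn2.trans hn2n) hB0 (Nat.succ_pos _)
    hT2X.1.2.2.1 hub1' hub2' hℓ1 hP hcmin
    (fun j hj x y hpos => hcmin' ⟨⟨j, Nat.lt_succ_of_le hj⟩, x, y⟩ hpos) TE nE hnE mE
    (fun σ hσ U hU => (hE σ U hσ hU).2.2.1) (fun σ hσ U hU => (hE σ U hσ hU).2.2.2.1)
    (fun σ hσ U hU => (hE σ U hσ hU).2.2.2.2.2.1)
    (fun σ hσ U hU => (hE σ U hσ hU).2.2.2.2.2.2.2) ?_ ?_ ?_
  · have h3 : ∀ σ ∈ strs m0, Ex (1 / (B : ℝ)) (con L σ) (fun U =>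
        kl ((mE σ U).map (fun x i => res (hnE σ U) (x i)) (res (hnE σ U)))
          (P.mid ((mE σ U).map (fun x i => res (hnE σ U) (x i)) (res (hnE σ U)))) J +
        kl P (P.mid ((mE σ U).map (fun x i => res (hnE σ U) (x i)) (res (hnE σ U)))) J) ≤
        J * C * (1 / 2) ^ m0 / B + 4 * J * δ := by
      intro σ hσ
      have h4 : ∀ U ⊆ con L σ,
          kl ((mE σ U).map (fun x i => res (hnE σ U) (x i)) (res (hnE σ U)))
            (P.mid ((mE σ U).map (fun x i => res (hnE σ U) (x i)) (res (hnE σ U)))) J +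
          kl P (P.mid ((mE σ U).map (fun x i => res (hnE σ U) (x i)) (res (hnE σ U)))) J ≤
          J * C * (1 / 2) ^ L * (U.card : ℝ) + 4 * J * δ := by
        intro U hU
        obtain ⟨g1, g2, g3, g4, g5, g6, g7, g8⟩ := hE σ U hσ hU
        have g9 := hT2max (TE σ U) ⟨g1, g2⟩
        have g10 : hs F k q q' J (TE σ U) ≤ hs F k q q' J T2 +
            J * (C * ((U.card : ℝ) * (1 / 2) ^ L) + 2 * δ) := by
          have g11 : C * (M T2 - M (TE σ U)) ≤ C * ((U.card : ℝ) * (1 / 2) ^ L) + δ := by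
            have g12 : C * (M T2 - M (TE σ U)) ≤ C * ((U.card : ℝ) * (1 / 2) ^ L + δ / C) :=
              mul_le_mul_of_nonneg_left (by linarith) hC0.le
            rw [mul_add, mul_div_cancel₀ _ hC0.ne'] at g12
            exact g12
          have g13 : hs F k q q' J (TE σ U) / J ≤ hs F k q q' J T2 / J +
              (C * ((U.card : ℝ) * (1 / 2) ^ L) + 2 * δ) := by linarith
          rw [div_le_iff₀ hJ0'] at g13
          have g14 : (hs F k q q' J T2 / J + (C * ((U.card : ℝ) * (1 / 2) ^ L) + 2 * δ)) * J =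
              hs F k q q' J T2 + J * (C * ((U.card : ℝ) * (1 / 2) ^ L) + 2 * δ) := by
            field_simp
          linarith
        have g15 := kl_bound hq hq' hrob1 g1 (hnE σ U) g3 hlev g10 hP
          (by linarith) g6 g7 _ rfl
        refine g15.trans (le_of_eq ?_)
        ring
      have h11 : (0 : ℝ) ≤ 1 / B := by positivity
      have h12 : (1 : ℝ) / B ≤ 1 := by
        rw [div_le_one hB0']
        exact_mod_cast hB0
      refine (ex_mono h11 h12 _ h4).trans ?_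
      rw [ex_linear, hcon2 σ hσ]
      have h13 : (1 / 2 : ℝ) ^ L * 2 ^ (L - m0) = (1 / 2) ^ m0 := by
        rw [← Nat.sub_add_cancel hm0L, pow_add, Nat.add_sub_cancel, mul_right_comm, ← mul_pow]
        norm_num
      have h14 : (J : ℝ) * C * (1 / 2) ^ L * (1 / B * 2 ^ (L - m0)) =
          J * C * ((1 / 2) ^ L * 2 ^ (L - m0)) / B := by ring
      rw [h14, h13]
    refine (Finset.sum_le_sum h3).trans ?_
    rw [Finset.sum_const, card_strs, nsmul_eq_mul]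
    have h15 : (2 : ℝ) ^ m0 * (1 / 2) ^ m0 = 1 := by
      rw [← mul_pow]; norm_num
    have h16 : (2 : ℝ) ^ m0 * (4 * J * δ) = J * C / B := by
      rw [hδ]; field_simp
    push_cast
    rw [mul_add, h16]
    have h17 : (2 : ℝ) ^ m0 * (J * C * (1 / 2) ^ m0 / B) = J * C / B := by
      calc (2 : ℝ) ^ m0 * (J * C * (1 / 2) ^ m0 / B) =
            (2 ^ m0 * (1 / 2) ^ m0) * (J * C / B) := by ring
        _ = _ := by rw [h15, one_mul]
    rw [h17]
    refine le_of_eq ?_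
    ring
  · rw [div_le_iff₀ hB0']
    linarith
  · have h3 : 14336 * (B : ℝ) * (2 * J * C / B) = 28672 * J * C := by
      field_simp
      ring
    have h4 : (0 : ℝ) ≤ ((n0 * ℓ : ℕ) : ℝ) := by positivity
    have h5 : (J : ℝ) = 2 * ((n0 * ℓ : ℕ) : ℝ) := by rw [hJ]; push_cast; ring
    rw [h3, h5]
    calc 28672 * (2 * ((n0 * ℓ : ℕ) : ℝ)) * C = ((n0 * ℓ : ℕ) : ℝ) * (57344 * C) := by ring
      _ ≤ _ := mul_le_mul_of_nonneg_left hM0C h4

end Pool.Agent.OSM
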