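import Pool.Agent.OSM.Basic

/-!
# OSM/Sys: the initial condition of a forward functional

`Ψ` is continuous on `D` and assigns to each `T ∈ D` trees `Ψ T c`, `c : Fin e`. The bad pieces of
information are those `(n, T, G)` for which some coordinate `G i`, `i < n`, is not a possible tuple
of strings of length `n` of the trees `Ψ T' c`, for `T' ∈ D` extending `T` below `n`.

`sys_pos`. For `T ∈ D` let `R` be the set of the `y : Str (Fin e → Bool) n` such that for all `c`
the string `List.ofFn fun t => y t c` (= `seg` of any extension) is in `Ψ T c`. It is good for the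
empty tuple (take `T' = T`). The bijection between `Str (Fin e → Bool) n` and
`Fin e → (Fin n → Bool)` shows that its density is the product over `c` of the density of the
strings of length `n` in `Ψ T c`, each at least `M (Ψ T c) ≥ δ` (`M_le_lv`, `coin_lv` in
`PTree/Basic`; `Fintype.card_piFinset` or `Fintype.card_pi`). So `gs` contains the only element of
`Fin 0 → _`, its density is `1`.

`sys_paths`. Let `G` avoid `FSys` at all levels, `T ∈ D`. Fix `i, c, L`. By continuity at `T` there
is `m` such that all `T' ∈ D` which agree with `T` below `m` have `Agree (L + 1) (Ψ T c) (Ψ T' c)`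
(see `cont_agree` in `PTree/Kill`). Let `n = max (max m L) (i + 1)`; there is `T' ∈ D` agreeing with
`T` below `n` such that the string of length `n` is in `Ψ T' c`, so the one of length `L` is in
`Ψ T' c` (tree, `seg_prefix`), so in `Ψ T c`.
-/

set_option autoImplicit false

namespace Pool.Agent.OSM

open Finset Pool.Agent.PTree
open scoped Classical

variable {e : ℕ}

theorem seg_comp_eq {n i : ℕ} {G G' : ℕ → ℕ → Fin e → Bool} (c : Fin e)
    (h : ∀ t < n, G' i t = G i t) : seg (fun t => G' i t c) n = seg (fun t => G i t c) n := by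
  rw [seg_eq_iff]
  intro t ht
  rw [h t ht]

/-- The initial condition. -/
def FSys (D : Set StrSet) (Ψ : StrSet → Fin e → StrSet)
    (htree : ∀ T ∈ D, ∀ c, IsTree (Ψ T c)) : Forb (Fin e → Bool) where
  bad n T G := ∃ i < n, ¬ ∃ T' ∈ D, Agree n T T' ∧
    ∀ c, Ψ T' c (seg (fun t => G i t c) n) = true
  loc := fun {n T T' G G'} h h' ⟨i, hi, hb⟩ => ⟨i, hi, fun ⟨T'', h1, h2, h3⟩ => hb ⟨T'', h1,
    h.trans h2, fun c => by
      rw [← seg_comp_eq c (h' i hi)]
      exact h3 c⟩⟩
  mono := fun {n T G} ⟨i, hi, hb⟩ => ⟨i, hi.trans (Nat.lt_succ_self _), fun ⟨T'', h1, h2, h3⟩ =>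
    hb ⟨T'', h1, h2.mono (Nat.le_succ _), fun c =>
      htree T'' h1 c _ _ (seg_prefix _ (Nat.le_succ n)) (h3 c)⟩⟩

private theorem card_level (S : StrSet) (n : ℕ) :
    ((strs n).filter (fun σ => S σ = true)).card =
      ((univ : Finset (Fin n → Bool)).filter fun v => S (List.ofFn v) = true).card := by
  rw [strs, Finset.filter_image, Finset.card_image_of_injective _ List.ofFn_injective]

private theorem card_prod (S : Fin e → StrSet) (n : ℕ) :
    ((univ : Finset (Str (Fin e → Bool) n)).filter fun y =>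
      ∀ c, S c (List.ofFn fun t => y t c) = true).card =
      ∏ c, ((univ : Finset (Fin n → Bool)).filter fun v => S c (List.ofFn v) = true).card := by
  rw [← Fintype.card_piFinset]
  refine Finset.card_bij (fun y _ => fun c t => y t c) ?_ ?_ ?_
  · intro y hy
    rw [Fintype.mem_piFinset]
    intro c
    rw [mem_filter]
    exact ⟨mem_univ _, (mem_filter.1 hy).2 c⟩
  · intro y _ y' _ h
    funext t c
    exact congrFun (congrFun h c) t
  · intro z hz
    rw [Fintype.mem_piFinset] at hz
    refine ⟨fun t c => z c t, ?_, rfl⟩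
    rw [mem_filter]
    exact ⟨mem_univ _, fun c => (mem_filter.1 (hz c)).2⟩

theorem sys_pos {D : Set StrSet} {Ψ : StrSet → Fin e → StrSet}
    (htree : ∀ T ∈ D, ∀ c, IsTree (Ψ T c)) {δ : ℝ} (hδ : 0 ≤ δ) {T : StrSet} (hT : T ∈ D)
    (hM : ∀ c, δ ≤ M (Ψ T c)) (n : ℕ) : 1 ≤ b (FSys D Ψ htree) n T 0 (δ ^ e) := by
  have hall : gs (FSys D Ψ htree) n T 0 (δ ^ e) = univ := by
    rw [Finset.eq_univ_iff_forall]
    intro x
    rw [mem_gs]
    refine ⟨(univ : Finset (Str (Fin e → Bool) n)).filter fun y =>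
      ∀ c, Ψ T c (List.ofFn fun t => y t c) = true, ?_, ?_⟩
    · rw [dens, card_prod]
      have h1 : ∀ c, δ ≤ ((((univ : Finset (Fin n → Bool)).filter
          fun v => Ψ T c (List.ofFn v) = true).card : ℕ) : ℝ) * (1 / 2) ^ n := by
        intro c
        have h2 := (hM c).trans (M_le_lv (Ψ T c) n)
        rwa [coin_lv, card_level] at h2
      have h2 : δ ^ e ≤ ∏ c : Fin e, (((((univ : Finset (Fin n → Bool)).filter
          fun v => Ψ T c (List.ofFn v) = true).card : ℕ) : ℝ) * (1 / 2) ^ n) := by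
        have h3 : δ ^ e = ∏ _c : Fin e, δ := by simp
        rw [h3]
        exact Finset.prod_le_prod (fun _ _ => hδ) (fun c _ => h1 c)
      refine h2.trans (le_of_eq ?_)
      rw [Finset.prod_mul_distrib, Finset.prod_const, Finset.card_univ, Fintype.card_fin,
        Nat.cast_prod, div_eq_mul_inv]
      congr 1
      rw [Fintype.card_fun, Fintype.card_fun, Fintype.card_bool, Fintype.card_fin, Fintype.card_fin]
      push_cast
      rw [one_mul, inv_pow, inv_pow, ← pow_mul, ← pow_mul, mul_comm]
    · rintro G - hG ⟨i, hi, hb⟩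
      apply hb
      refine ⟨T, hT, Agree.refl n T, fun c => ?_⟩
      have h1 := (mem_filter.1 (hG i (Nat.zero_le i))).2 c
      rw [seg_eq_ofFn]
      exact h1
  rw [b, hall, dens_univ]

theorem sys_paths {D : Set StrSet} {Ψ : StrSet → Fin e → StrSet} (hΨ : ContinuousOn Ψ D)
    (htree : ∀ T ∈ D, ∀ c, IsTree (Ψ T c)) {T : StrSet} (hT : T ∈ D) {G : ℕ → ℕ → Fin e → Bool}
    (hG : ∀ n, ¬ (FSys D Ψ htree).bad n T G) (i : ℕ) (c : Fin e) (L : ℕ) :
    Ψ T c (seg (fun t => G i t c) L) = true := by
  obtain ⟨m, hm⟩ := cont_agree hΨ hT (L + 1)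
  have h1 := hG (max (max m L) (i + 1))
  have h2 : ∃ T' ∈ D, Agree (max (max m L) (i + 1)) T T' ∧
      ∀ c, Ψ T' c (seg (fun t => G i t c) (max (max m L) (i + 1))) = true := by
    by_contra hc
    exact h1 ⟨i, lt_of_lt_of_le (Nat.lt_succ_self i) (le_max_right _ _), hc⟩
  obtain ⟨T', hT', hA, hc⟩ := h2
  have h3 := hm T' hT' (hA.mono ((le_max_left _ _).trans (le_max_left _ _))) c
  have h4 : Ψ T' c (seg (fun t => G i t c) L) = true :=
    htree T' hT' c _ _ (seg_prefix _ ((le_max_right _ _).trans (le_max_left _ _))) (hc c)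
  rw [← h3 _ (by rw [seg_length]; exact Nat.lt_succ_self L)]
  exact h4

end Pool.Agent.OSM
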