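import Pool.Agent.OSM.Outer
import Pool.Agent.OSM.Sys
import Pool.Agent.OSM.Distinct
import Pool.Agent.OSM.Step

/-!
# OSM/Final: the one-step theorem

Systems are indexed by `s = Nat.pair j i`: `D_s = {T ∈ D j : ∀ c, 1 / (i + 1) ≤ M (Ψ j T c)}`,
`F0 s = FSys D_s (Ψ j)`, `q0 s = (1 / (i + 1)) ^ e j`. Requirement `t` of system `s`:
`Q s t T G := (T, G) ∉ E' s t ∧ (a ≠ a' → ∀ c, component c of G a ≠ component c of G a')` where
`(a, a') = Nat.unpair t` and `E' s t` is the set of the `(T, G)`, `G : ℕ → ℕ → Fin (e j) → Bool`,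
such that `(T, fun c i m => G i m c) ∈ E j t` and the value of `Φ j t` there is a perfect subset of
`T`. `hstep` of `outer`: `step` (for `Req (E' s t) (Φ' s t)`, `req_of_continuousOn`) followed by
`distinct`. If `T ∈ D j` then there is `i` with `T ∈ D_s` (`positive_iff`), the left alternative
of `outer` contradicts `sys_pos`; so there is `G`, and `sys_paths` shows that its components are
paths.
-/

set_option autoImplicit false

namespace Pool.Agent.OSM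

open Finset Filter Topology Pool.Agent.PTree
open scoped Classical

/-- The pairs for which the value of `Φ` is a perfect subset of `T`, with the coordinates of `G`
rearranged. -/
def EPerf {e : ℕ} (E : Set (StrSet × (Fin e → ℕ → ℕ → Bool)))
    (Φ : StrSet × (Fin e → ℕ → ℕ → Bool) → StrSet) :
    Set (StrSet × (ℕ → ℕ → Fin e → Bool)) :=
  {p | (p.1, fun c i m => p.2 i m c) ∈ E ∧ Perfect (Φ (p.1, fun c i m => p.2 i m c)) ∧
    Sub (Φ (p.1, fun c i m => p.2 i m c)) p.1}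

theorem req_of_continuousOn {e : ℕ} {E : Set (StrSet × (Fin e → ℕ → ℕ → Bool))}
    {Φ : StrSet × (Fin e → ℕ → ℕ → Bool) → StrSet} (hΦ : ContinuousOn Φ E) :
    Req (EPerf E Φ) (fun p => Φ (p.1, fun c i m => p.2 i m c)) := by
  refine ⟨fun p hp L => ?_, fun p hp => hp.2⟩
  by_contra hcon
  push Not at hcon
  choose z hz hzL using hcon
  set u : StrSet × (ℕ → ℕ → Fin e → Bool) → StrSet × (Fin e → ℕ → ℕ → Bool) :=
    fun p => (p.1, fun c i m => p.2 i m c) with hu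
  have h1 : Tendsto (fun n => u (z n)) atTop (𝓝 (u p)) := by
    rw [nhds_prod_eq]
    refine Tendsto.prodMk ?_ ?_
    · rw [tendsto_pi_nhds]
      intro σ
      refine tendsto_const_nhds.congr' ?_
      filter_upwards [eventually_gt_atTop σ.length] with n hn
      exact ((hz n).2.1 σ hn).symm
    · rw [tendsto_pi_nhds]
      intro c
      rw [tendsto_pi_nhds]
      intro i
      rw [tendsto_pi_nhds]
      intro m
      refine tendsto_const_nhds.congr' ?_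
      filter_upwards [eventually_gt_atTop i, eventually_gt_atTop m] with n hn hm
      exact (congrFun ((hz n).2.2 i hn m hm) c).symm
  have h2 : Tendsto (fun n => u (z n)) atTop (𝓝[E] (u p)) :=
    tendsto_nhdsWithin_iff.2 ⟨h1, Eventually.of_forall fun n => (hz n).1.1⟩
  have h3 : Tendsto (fun n => Φ (u (z n))) atTop (𝓝 (Φ (u p))) := (hΦ (u p) hp.1).tendsto.comp h2
  have h4 : ∀ᶠ n in atTop, Agree L (Φ (u p)) (Φ (u (z n))) := h3 (agree_mem_nhds (Φ (u p)) L)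
  obtain ⟨n, hn⟩ := h4.exists
  exact hzL n hn

/-- The tasks. -/
def Task {e : ℕ} (E : Set (StrSet × (ℕ → ℕ → Fin e → Bool))) (t : ℕ) (T : StrSet)
    (G : ℕ → ℕ → Fin e → Bool) : Prop :=
  (T, G) ∉ E ∧ ((Nat.unpair t).1 ≠ (Nat.unpair t).2 → ∀ c : Fin e,
    (fun i => G (Nat.unpair t).1 i c) ≠ fun i => G (Nat.unpair t).2 i c)

theorem task_step {e : ℕ} {E : Set (StrSet × (ℕ → ℕ → Fin e → Bool))}
    {Φ : StrSet × (ℕ → ℕ → Fin e → Bool) → StrSet} (hreq : Req E Φ) (t : ℕ)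
    (F : Forb (Fin e → Bool)) (k : ℕ) (q q' : ℝ) (T0 : StrSet) (m : ℕ) (c : ℝ)
    (hT0 : IsTree T0) (hc : c < M T0) (hq : 0 < q) (hq' : 0 < q')
    (hrob : Robust F k q q' (Nb T0 m c)) :
    ∃ (T1 : StrSet) (m1 : ℕ) (c1 : ℝ) (F' : Forb (Fin e → Bool)) (k' : ℕ) (r r' : ℝ),
      T1 ∈ Nb T0 m c ∧ m ≤ m1 ∧ c ≤ c1 ∧ c1 < M T1 ∧ 0 < r ∧ 0 < r' ∧ F.Le F' ∧
      Robust F' k' r r' (Nb T1 m1 c1) ∧
      ∀ T ∈ Nb T1 m1 c1, ∀ G : ℕ → ℕ → Fin e → Bool, (∀ n, ¬ F'.bad n T G) → Task E t T G := by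
  obtain ⟨T1, m1, c1, h1, h2, h3, h4, F', k', r, r', h5, h6, h7, h8, h9⟩ :=
    step hreq hq hq' hT0 hc hrob
  by_cases ht : (Nat.unpair t).1 = (Nat.unpair t).2
  · exact ⟨T1, m1, c1, F', k', r, r', h1, h2, h3, h4, h5, h6, h7, h8, fun T hT G hG =>
      ⟨h9 T hT G hG, fun h => absurd ht h⟩⟩
  · obtain ⟨l, k2, r2, h10, h11⟩ := distinct e h5 h6 h8 ht
    refine ⟨T1, m1, c1, F'.or (FSame e (Nat.unpair t).1 (Nat.unpair t).2 l), k2, r, r2, h1, h2,
      h3, h4, h5, h10, h7.trans (Forb.le_or_left _ _), h11, fun T hT G hG =>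
      ⟨h9 T hT G fun n hn => hG n (Or.inl hn), fun _ c => ?_⟩⟩
    exact ne_of_avoid (T := T) (fun n hn => hG n (Or.inr hn)) c

/-- The one-step theorem. -/
theorem main (e : ℕ → ℕ) (D : ℕ → Set StrSet) (Ψ : (j : ℕ) → StrSet → Fin (e j) → StrSet)
    (hΨ : ∀ j, ContinuousOn (Ψ j) (D j)) (hpos : ∀ j, ∀ T ∈ D j, ∀ c, Positive (Ψ j T c))
    (E : (j : ℕ) → ℕ → Set (StrSet × (Fin (e j) → ℕ → ℕ → Bool)))
    (Φ : (j : ℕ) → ℕ → StrSet × (Fin (e j) → ℕ → ℕ → Bool) → StrSet)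
    (hΦ : ∀ j i, ContinuousOn (Φ j i) (E j i)) :
    ∃ T, Positive T ∧ ∀ j, T ∈ D j →
      ∃ G : Fin (e j) → ℕ → ℕ → Bool, (∀ c, ManyPaths (Ψ j T c) (G c)) ∧
        ∀ i, (T, G) ∈ E j i → ¬ (Perfect (Φ j i (T, G)) ∧ Sub (Φ j i (T, G)) T) := by
  -- the systems
  set D' : ℕ → Set StrSet := fun s => {T | T ∈ D (Nat.unpair s).1 ∧
    ∀ c, 1 / ((Nat.unpair s).2 + 1 : ℝ) ≤ M (Ψ (Nat.unpair s).1 T c)} with hD'
  have htree : ∀ s, ∀ T ∈ D' s, ∀ c, IsTree (Ψ (Nat.unpair s).1 T c) := fun s T hT c =>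
    ((positive_iff _).1 (hpos _ T hT.1 c)).1
  obtain ⟨T, hT1, hT2, hT3⟩ := outer (A := fun s => Fin (e (Nat.unpair s).1) → Bool)
    (fun s => FSys (D' s) (Ψ (Nat.unpair s).1) (htree s))
    (fun s => (1 / ((Nat.unpair s).2 + 1 : ℝ)) ^ e (Nat.unpair s).1)
    (fun s => by positivity)
    (fun s t T G => Task (EPerf (E (Nat.unpair s).1 t) (Φ (Nat.unpair s).1 t)) t T G)
    (fun s t F k q q' T0 m c h1 h2 h3 h4 h5 =>
      task_step (req_of_continuousOn (hΦ (Nat.unpair s).1 t)) t F k q q' T0 m c h1 h2 h3 h4 h5)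
  have hall : ∀ s, T ∈ D' s → ∃ G : Fin (e (Nat.unpair s).1) → ℕ → ℕ → Bool,
      (∀ c, ManyPaths (Ψ (Nat.unpair s).1 T c) (G c)) ∧
      ∀ i, (T, G) ∈ E (Nat.unpair s).1 i → ¬ (Perfect (Φ (Nat.unpair s).1 i (T, G)) ∧
        Sub (Φ (Nat.unpair s).1 i (T, G)) T) := by
    intro s hs
    rcases hT3 s with ⟨n, hn⟩ | ⟨G, hG1, hG2⟩
    · have h1 := sys_pos (htree s) (δ := 1 / ((Nat.unpair s).2 + 1 : ℝ)) (by positivity) hs hs.2 n
      exact absurd hn (not_lt.2 h1)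
    · refine ⟨fun c i m => G i m c, fun c => ⟨fun a a' haa => ?_, fun i n => ?_⟩,
        fun i hi hcon => ?_⟩
      · by_contra hne
        have h1 := (hG2 (Nat.pair a a')).2
        rw [Nat.unpair_pair] at h1
        exact h1 hne c haa
      · exact sys_paths ((hΨ (Nat.unpair s).1).mono fun T hT => hT.1) (htree s) hs hG1 i c n
      · exact (hG2 i).1 ⟨hi, hcon⟩
  refine ⟨T, (positive_iff T).2 ⟨hT1, hT2⟩, fun j hj => ?_⟩
  have hposM : ∀ c, 0 < M (Ψ j T c) := fun c => ((positive_iff _).1 (hpos j T hj c)).2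
  obtain ⟨i, hi⟩ : ∃ i : ℕ, ∀ c, 1 / ((i : ℝ) + 1) ≤ M (Ψ j T c) := by
    have h1 : ∀ c, ∃ i : ℕ, 1 / ((i : ℝ) + 1) < M (Ψ j T c) := fun c =>
      exists_nat_one_div_lt (hposM c)
    choose g hg using h1
    refine ⟨univ.sup g, fun c => le_trans ?_ (hg c).le⟩
    have h2 : (g c : ℝ) ≤ (univ.sup g : ℕ) := by
      exact_mod_cast Finset.le_sup (f := g) (mem_univ c)
    exact one_div_le_one_div_of_le (by positivity) (by linarith)
  have hTs : T ∈ D' (Nat.pair j i) := by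
    simp only [hD', Set.mem_ofPred_eq]
    rw [Nat.unpair_pair]
    exact ⟨hj, hi⟩
  have hmain := hall (Nat.pair j i) hTs
  rw [Nat.unpair_pair] at hmain
  exact hmain

end Pool.Agent.OSM
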