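import Pool.Agent.OSM.MxKL
import Pool.Agent.OSM.Basic

/-!
# OSM/Fit: mixtures of good states, and the potential

A mixture fits `(F, n, T, k, q, q')` if all its states `(x, f)` are good (the support of `f` is a
good reservoir for `x`), `f` has density at most `1 / q`, and the law of the point has density at
most `1 / q'`. `hv` is the infimum of their entropies with respect to the uniform law, for `J`
samples.

Proofs.
* `fit_exists`: states = the elements `x` of `gs F n T k q`, equal weights, `f` uniform on a good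
  reservoir `R` of density at least `q` (`R` is the support).
* `Fit.map`: `map_ok`; the density of the image is at most `1 / q` again because all fibres have
  the same size (`eqFib_res`, `eqFib_comp`); goodness by `Good.restrict` and `Good.mono` (the
  support of the image of `f` is contained in the image of the support of `f`).
* `Fit.mid`: clear (the weights are halved and added).
* `hv_le`: `fit_exists` and `klu_le` (`K = 1 / q`, `K' = 1 / q'`).
* `hv_mono`: for `m'` fitting at level `n'` the image fits at level `n` (`Fit.map`) and has at most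
  its entropy (`klu_map`); the infimum at level `n'` is over a nonempty set.
* `kl_le_of_fit`: `klu_mid`, and `hv ≤ klu (P.mid Q)`.
-/

set_option autoImplicit false

namespace Pool.Agent.OSM

open Finset Pool.Agent.PTree
open scoped Classical

variable {A : Type} [Fintype A]

structure Fit (F : Forb A) (n : ℕ) (T : StrSet) (k : ℕ) (q q' : ℝ)
    (m : Mx (Fin k → Str A n) (Str A n)) : Prop where
  ok : m.Ok
  f_le : ∀ a y, m.f a y ≤ (1 / q) / (Fintype.card (Str A n) : ℝ)
  x_le : ∀ x, (∑ a, if m.x a = x then m.w a else 0) ≤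
    (1 / q') / (Fintype.card (Fin k → Str A n) : ℝ)
  good : ∀ a, Good F n T (m.x a) (univ.filter fun y => 0 < m.f a y)

/-- The potential at level `n`. -/
noncomputable def hv (F : Forb A) (k : ℕ) (q q' : ℝ) (J n : ℕ) (T : StrSet) : ℝ :=
  sInf {r : ℝ | ∃ m : Mx (Fin k → Str A n) (Str A n), Fit F n T k q q' m ∧ r = klu m J}

variable [Nonempty A] {F : Forb A} {n n' k : ℕ} {T T' : StrSet} {q q' : ℝ}

theorem fit_exists (hq : 0 < q) (hq' : 0 < q') (hb : q' ≤ b F n T k q) :
    ∃ m, Fit F n T k q q' m := by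
  have hY : 0 < (Fintype.card (Str A n) : ℝ) := by exact_mod_cast Fintype.card_pos
  have hX : 0 < (Fintype.card (Fin k → Str A n) : ℝ) := by exact_mod_cast Fintype.card_pos
  have hG : 0 < dens (gs F n T k q) := lt_of_lt_of_le hq' hb
  have hGc : q' * (Fintype.card (Fin k → Str A n) : ℝ) ≤ ((gs F n T k q).card : ℝ) := by
    rw [card_eq_dens]
    exact mul_le_mul_of_nonneg_right hb hX.le
  have hGpos : (0 : ℝ) < ((gs F n T k q).card : ℝ) := lt_of_lt_of_le (mul_pos hq' hX) hGc
  have hch : ∀ x : {x // x ∈ gs F n T k q}, ∃ R : Finset (Str A n), q ≤ dens R ∧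
      Good F n T x.1 R := fun x => mem_gs.1 x.2
  choose R hR1 hR2 using hch
  have hRc : ∀ x, q * (Fintype.card (Str A n) : ℝ) ≤ ((R x).card : ℝ) := by
    intro x
    rw [card_eq_dens]
    exact mul_le_mul_of_nonneg_right (hR1 x) hY.le
  have hRpos : ∀ x, (0 : ℝ) < ((R x).card : ℝ) := fun x => lt_of_lt_of_le (mul_pos hq hY) (hRc x)
  refine ⟨⟨{x // x ∈ gs F n T k q}, inferInstance, fun _ => 1 / ((gs F n T k q).card : ℝ),
    fun x => x.1, fun x y => if y ∈ R x then 1 / ((R x).card : ℝ) else 0⟩,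
    ⟨?_, ?_, ?_, ?_⟩, ?_, ?_, ?_⟩
  · intro a
    exact div_nonneg zero_le_one hGpos.le
  · change ∑ _a : {x // x ∈ gs F n T k q}, 1 / ((gs F n T k q).card : ℝ) = 1
    rw [sum_const, card_univ, Fintype.card_coe, nsmul_eq_mul]
    field_simp
  · intro a y
    change 0 ≤ if y ∈ R a then 1 / ((R a).card : ℝ) else 0
    split_ifs
    · exact div_nonneg zero_le_one (hRpos a).le
    · exact le_rfl
  · intro a
    change ∑ y, (if y ∈ R a then 1 / ((R a).card : ℝ) else 0) = 1
    rw [← sum_filter, sum_const, nsmul_eq_mul]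
    have e : (univ.filter fun y => y ∈ R a) = R a := by
      ext y
      simp
    rw [e]
    have := hRpos a
    field_simp
  · intro a y
    change (if y ∈ R a then 1 / ((R a).card : ℝ) else 0) ≤ _
    split_ifs
    · rw [div_div]
      exact one_div_le_one_div_of_le (mul_pos hq hY) (hRc a)
    · positivity
  · intro x
    change (∑ a : {x // x ∈ gs F n T k q}, if a.1 = x then 1 / ((gs F n T k q).card : ℝ) else 0) ≤ _
    rw [← sum_filter, sum_const, nsmul_eq_mul]
    have h1 : ((univ.filter fun a : {x // x ∈ gs F n T k q} => a.1 = x).card) ≤ 1 := by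
      rw [card_le_one]
      intro a ha a' ha'
      rw [mem_filter] at ha ha'
      exact Subtype.ext (ha.2.trans ha'.2.symm)
    have h2 : (((univ.filter fun a : {x // x ∈ gs F n T k q} => a.1 = x).card : ℕ) : ℝ) ≤ 1 := by
      exact_mod_cast h1
    calc (((univ.filter fun a : {x // x ∈ gs F n T k q} => a.1 = x).card : ℕ) : ℝ) *
          (1 / ((gs F n T k q).card : ℝ)) ≤ 1 * (1 / ((gs F n T k q).card : ℝ)) :=
          mul_le_mul_of_nonneg_right h2 (div_nonneg zero_le_one hGpos.le)
      _ = 1 / ((gs F n T k q).card : ℝ) := one_mul _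
      _ ≤ 1 / (q' * (Fintype.card (Fin k → Str A n) : ℝ)) :=
          one_div_le_one_div_of_le (mul_pos hq' hX) hGc
      _ = 1 / q' / (Fintype.card (Fin k → Str A n) : ℝ) := by rw [div_div]
  · intro a
    refine Good.mono (Forb.Le.refl F) ?_ (hR2 a)
    intro y hy
    rw [mem_filter] at hy
    by_contra hc
    have h1 : (0 : ℝ) < (if y ∈ R a then 1 / ((R a).card : ℝ) else 0) := hy.2
    rw [if_neg hc] at h1
    exact lt_irrefl _ h1

/-- The sum over a fibre of a bounded function. -/
theorem fib_sum_le {α β : Type} [Fintype α] [Fintype β] [Nonempty α] {φ : α → β} (hφ : EqFib φ)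
    (g : α → ℝ) {K : ℝ} (hg : ∀ x, g x ≤ K / (Fintype.card α : ℝ)) (y : β) :
    (∑ x, if φ x = y then g x else 0) ≤ K / (Fintype.card β : ℝ) := by
  obtain ⟨c, hc, hcf⟩ := hφ
  have hα : 0 < (Fintype.card α : ℝ) := by exact_mod_cast Fintype.card_pos
  have e : (Fintype.card α : ℝ) = c * Fintype.card β := by exact_mod_cast EqFib.card hcf
  have hc0 : (0 : ℝ) < c := by exact_mod_cast hc
  rw [← sum_filter]
  calc ∑ x ∈ univ.filter (fun x => φ x = y), g x ≤
        ∑ _x ∈ univ.filter (fun x => φ x = y), K / (Fintype.card α : ℝ) :=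
        sum_le_sum fun x _ => hg x
    _ = c * (K / (Fintype.card α : ℝ)) := by
        rw [sum_const, nsmul_eq_mul]
        congr 1
        exact_mod_cast hcf y
    _ = K / (Fintype.card β : ℝ) := by
        have hβ : (Fintype.card β : ℝ) ≠ 0 := by
          intro h0
          rw [h0, mul_zero] at e
          exact hα.ne' e
        rw [e]
        field_simp

theorem sum_map_x {X X' ι : Type} [Fintype ι] [Fintype X] (φ : X → X') (x : ι → X) (w : ι → ℝ)
    (x' : X') : (∑ a, if φ (x a) = x' then w a else 0) =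
      ∑ z, if φ z = x' then (∑ a, if x a = z then w a else 0) else 0 := by
  have h2 : ∀ z : X, (if φ z = x' then ∑ a, (if x a = z then w a else 0) else 0) =
      ∑ a, if x a = z then (if φ z = x' then w a else 0) else 0 := by
    intro z
    by_cases hx : φ z = x'
    · rw [if_pos hx]
      refine sum_congr rfl fun a _ => ?_
      rw [if_pos hx]
    · rw [if_neg hx]
      symm
      refine sum_eq_zero fun a _ => ?_
      rw [if_neg hx]
      simp
  simp_rw [h2]
  rw [sum_comm]
  refine sum_congr rfl fun a _ => ?_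
  rw [sum_eq_single (x a)]
  · rw [if_pos rfl]
  · intro z _ hz
    rw [if_neg (fun e => hz e.symm)]
  · intro hx
    exact absurd (mem_univ _) hx

theorem fib_sum_x {X X' ι : Type} [Fintype ι] [Fintype X] [Fintype X'] [Nonempty X]
    {φ : X → X'} (hφ : EqFib φ) (x : ι → X) (w : ι → ℝ) {K : ℝ}
    (hK : ∀ z, (∑ a, if x a = z then w a else 0) ≤ K / (Fintype.card X : ℝ)) (x' : X') :
    (∑ a, if φ (x a) = x' then w a else 0) ≤ K / (Fintype.card X' : ℝ) := by
  rw [sum_map_x]
  exact fib_sum_le hφ _ hK x'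

theorem Fit.map (h : n ≤ n') (hq : 0 < q) {m : Mx (Fin k → Str A n') (Str A n')}
    (hm : Fit F n' T k q q' m) :
    Fit F n T k q q' (m.map (fun x i => res h (x i)) (res h)) := by
  have hres := eqFib_res (A := A) h
  have hcomp := eqFib_comp hres k
  refine ⟨Mx.map_ok hm.ok _ _, ?_, ?_, ?_⟩
  · intro a y'
    exact fib_sum_le hres (m.f a) (hm.f_le a) y'
  · intro x'
    have h1 := fib_sum_x hcomp m.x m.w (K := 1 / q') (fun x => by convert hm.x_le x) x'
    change (∑ a : m.ι, if (fun i => res h (m.x a i)) = x' then m.w a else 0) ≤ _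
    convert h1
  · intro a
    refine Good.mono (Forb.Le.refl F) ?_ (Good.restrict h (hm.good a))
    intro y' hy'
    rw [mem_filter] at hy'
    have h1 : (0 : ℝ) < ∑ y, if res h y = y' then m.f a y else 0 := by
      have h2 := hy'.2
      unfold Mx.map at h2
      convert h2
    by_contra hc
    apply lt_irrefl (0 : ℝ)
    refine lt_of_lt_of_le h1 ?_
    refine sum_nonpos fun y _ => ?_
    split_ifs with hy
    · by_contra hp
      push Not at hp
      apply hc
      rw [← hy]
      exact mem_image_of_mem _ (mem_filter.2 ⟨mem_univ _, hp⟩)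
    · exact le_rfl

omit [Nonempty A] in
theorem Fit.mid {m m' : Mx (Fin k → Str A n) (Str A n)} (hm : Fit F n T k q q' m)
    (hm' : Fit F n T k q q' m') : Fit F n T k q q' (m.mid m') := by
  refine ⟨Mx.mid_ok hm.ok hm'.ok, ?_, ?_, ?_⟩
  · rintro (a | a) y
    · exact hm.f_le a y
    · exact hm'.f_le a y
  · intro x
    have e : (∑ a, if (m.mid m').x a = x then (m.mid m').w a else 0) =
        (∑ a, if m.x a = x then m.w a / 2 else 0) + ∑ a, if m'.x a = x then m'.w a / 2 else 0 :=
      Fintype.sum_sum_type _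
    rw [e]
    have e1 : (∑ a, if m.x a = x then m.w a / 2 else 0) =
        (∑ a, if m.x a = x then m.w a else 0) / 2 := by
      rw [sum_div]
      refine sum_congr rfl fun a _ => ?_
      split_ifs
      · rfl
      · simp
    have e2 : (∑ a, if m'.x a = x then m'.w a / 2 else 0) =
        (∑ a, if m'.x a = x then m'.w a else 0) / 2 := by
      rw [sum_div]
      refine sum_congr rfl fun a _ => ?_
      split_ifs
      · rfl
      · simp
    rw [e1, e2]
    have h1 := hm.x_le x
    have h2 := hm'.x_le x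
    linarith
  · rintro (a | a)
    · exact hm.good a
    · exact hm'.good a

omit [Nonempty A] in
theorem Fit.loc (h : Agree n T T') {m : Mx (Fin k → Str A n) (Str A n)}
    (hm : Fit F n T k q q' m) : Fit F n T' k q q' m :=
  ⟨hm.ok, hm.f_le, hm.x_le, fun a => (hm.good a).loc h⟩

theorem hv_nonneg (F : Forb A) (k : ℕ) (q q' : ℝ) (J n : ℕ) (T : StrSet) :
    0 ≤ hv F k q q' J n T := by
  apply Real.sInf_nonneg
  rintro r ⟨m, hm, rfl⟩
  exact klu_nonneg hm.ok J

omit [Nonempty A] in
theorem hv_loc (h : Agree n T T') (J : ℕ) : hv F k q q' J n T' = hv F k q q' J n T := by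
  unfold hv
  congr 1
  ext r
  constructor
  · rintro ⟨m, hm, hr⟩
    exact ⟨m, hm.loc h.symm, hr⟩
  · rintro ⟨m, hm, hr⟩
    exact ⟨m, hm.loc h, hr⟩

theorem hv_bdd (F : Forb A) (k : ℕ) (q q' : ℝ) (J n : ℕ) (T : StrSet) :
    BddBelow {r : ℝ | ∃ m : Mx (Fin k → Str A n) (Str A n), Fit F n T k q q' m ∧ r = klu m J} := by
  refine ⟨0, ?_⟩
  rintro r ⟨m, hm, rfl⟩
  exact klu_nonneg hm.ok J

theorem hv_le_klu {m : Mx (Fin k → Str A n) (Str A n)} (hm : Fit F n T k q q' m) (J : ℕ) :
    hv F k q q' J n T ≤ klu m J :=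
  csInf_le (hv_bdd F k q q' J n T) ⟨m, hm, rfl⟩

theorem hv_le (hq : 0 < q) (hq' : 0 < q') (hb : q' ≤ b F n T k q) (J : ℕ) :
    hv F k q q' J n T ≤ Real.log (1 / q') + J * Real.log (1 / q) := by
  obtain ⟨m, hm⟩ := fit_exists hq hq' hb
  exact (hv_le_klu hm J).trans (klu_le hm.ok (one_div_pos.2 hq) (one_div_pos.2 hq') hm.f_le
    (fun x => by convert hm.x_le x) J)

theorem hv_mono (hq : 0 < q) (hq' : 0 < q') (h : n ≤ n') (hb : q' ≤ b F n' T k q) (J : ℕ) :
    hv F k q q' J n T ≤ hv F k q q' J n' T := by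
  obtain ⟨m0, hm0⟩ := fit_exists hq hq' hb
  apply le_csInf
  · exact ⟨_, m0, hm0, rfl⟩
  · rintro r ⟨m, hm, rfl⟩
    have hres := eqFib_res (A := A) h
    exact (hv_le_klu (hm.map h hq) J).trans (klu_map hm.ok (eqFib_comp hres k) hres J)

theorem exists_near (hq : 0 < q) (hq' : 0 < q') (hb : q' ≤ b F n T k q) (J : ℕ) {η : ℝ}
    (hη : 0 < η) : ∃ m, Fit F n T k q q' m ∧ klu m J ≤ hv F k q q' J n T + η := by
  obtain ⟨m0, hm0⟩ := fit_exists hq hq' hb
  have hne : {r : ℝ | ∃ m : Mx (Fin k → Str A n) (Str A n), Fit F n T k q q' m ∧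
      r = klu m J}.Nonempty := ⟨_, m0, hm0, rfl⟩
  obtain ⟨r, ⟨m, hm, hr⟩, hlt⟩ := Real.lt_sInf_add_pos hne hη
  exact ⟨m, hm, by rw [← hr]; exact hlt.le⟩

theorem kl_le_of_fit {P Q : Mx (Fin k → Str A n) (Str A n)} (hP : Fit F n T k q q' P)
    (hQ : Fit F n T k q q' Q) (J : ℕ) :
    kl Q (P.mid Q) J + kl P (P.mid Q) J ≤ klu P J + klu Q J - 2 * hv F k q q' J n T := by
  have h1 := klu_mid hP.ok hQ.ok J
  have h2 := hv_le_klu (hP.mid hQ) J
  linarith

end Pool.Agent.OSM
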