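import Pool.Agent.OSM.Basic
import Pool.Agent.OSM.KillE

/-!
# OSM/Fusion: generic trees for countably many parameters

`fusion`. Construct `(T_i, m_i, c_i)` with `T_0 = T`, `m_0 = max m m'`, `c_0 = max c (M T - δ)`,
`c_i < M T_i`, `T_{i+1} ∈ Nb T_i m_i c_i`, `m_i < m_{i+1}`, `c_i ≤ c_{i+1}`. Step `i`, with
`(F, k, q, s) = Q i`: if there are `T'' ∈ Nb T_i m_i c_i` and `n` with `b F n T'' k q < s`, let
`T_{i+1} = T''`, `m_{i+1} = max n (m_i + 1)` and `c_{i+1}` with `c_i ≤ c_{i+1} < M T''` (for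
instance `c_i`); otherwise `Robust F k q s (Nb T_i m_i c_i)`, keep `T_i` and increase `m_i` by one.
To make sure that `c_i < M T'` for the limit `T'`, choose
`c_{i+1} = (c_i + M T_{i+1}) / 2 > c_i`. The limit exists by `limit_tree` (`PTree/Hull`): `T'` is a
tree contained in all `T_i`, agrees with `T_i` up to `m_i`, and `c_i ≤ M T'` for all `i` (apply
`limit_tree` to the shifted sequence; as `c_i < c_{i+1}` this gives `c_i < M T'`). In the first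
case `b F n T' k q = b F n T_{i+1} k q < s` (`b_loc`), in the second case
`Nb T' m_i c_i ⊆ Nb T_i m_i c_i` (`Nb.subset`) is robust.

Look at `stable_tree` in `PTree/Stable.lean` for a similar recursion.
-/

set_option autoImplicit false

namespace Pool.Agent.OSM

open Finset Pool.Agent.PTree
open scoped Classical

theorem fusion_step {A : Type} [Fintype A] (Q : Forb A × ℕ × ℝ × ℝ) {T : StrSet} {m : ℕ} {c : ℝ}
    (hT : IsTree T) (hc : c < M T) :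
    ∃ (T1 : StrSet) (m1 : ℕ) (c1 : ℝ), T1 ∈ Nb T m c ∧ m < m1 ∧ c < c1 ∧ c1 < M T1 ∧
      ((∃ n ≤ m1, b Q.1 n T1 Q.2.1 Q.2.2.1 < Q.2.2.2) ∨
        Robust Q.1 Q.2.1 Q.2.2.1 Q.2.2.2 (Nb T m c)) := by
  by_cases h : ∃ T1 ∈ Nb T m c, ∃ n, b Q.1 n T1 Q.2.1 Q.2.2.1 < Q.2.2.2
  · obtain ⟨T1, hT1, n, hn⟩ := h
    have h1 := hT1.2.2.2
    exact ⟨T1, max n (m + 1), (c + M T1) / 2, hT1, by omega, by linarith, by linarith,
      Or.inl ⟨n, le_max_left _ _, hn⟩⟩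
  · push Not at h
    exact ⟨T, m + 1, (c + M T) / 2, Nb.self hT m hc, by omega, by linarith, by linarith,
      Or.inr fun T1 hT1 n => h T1 hT1 n⟩

theorem fusion {A : Type} [Fintype A] [Nonempty A] (Q : ℕ → Forb A × ℕ × ℝ × ℝ) {T0 T : StrSet}
    {m : ℕ} {c : ℝ} (hT : T ∈ Nb T0 m c) (m' : ℕ) {δ : ℝ} (hδ : 0 < δ) :
    ∃ T' ∈ Nb T0 m c, Sub T' T ∧ Agree m' T T' ∧ M T - δ < M T' ∧
      ∀ i, (∃ n, b (Q i).1 n T' (Q i).2.1 (Q i).2.2.1 < (Q i).2.2.2) ∨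
        ∃ m1 c1, m ≤ m1 ∧ c ≤ c1 ∧ c1 < M T' ∧
          Robust (Q i).1 (Q i).2.1 (Q i).2.2.1 (Q i).2.2.2 (Nb T' m1 c1) := by
  let S : Type := {p : StrSet × ℕ × ℝ // IsTree p.1 ∧ p.2.2 < M p.1}
  have hstep : ∀ (i : ℕ) (p : S), ∃ p' : S, p'.1.1 ∈ Nb p.1.1 p.1.2.1 p.1.2.2 ∧
      p.1.2.1 < p'.1.2.1 ∧ p.1.2.2 < p'.1.2.2 ∧
      ((∃ n ≤ p'.1.2.1, b (Q i).1 n p'.1.1 (Q i).2.1 (Q i).2.2.1 < (Q i).2.2.2) ∨
        Robust (Q i).1 (Q i).2.1 (Q i).2.2.1 (Q i).2.2.2 (Nb p.1.1 p.1.2.1 p.1.2.2)) := by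
    rintro i ⟨⟨T, m, c⟩, hT, hc⟩
    obtain ⟨T1, m1, c1, h1, h2, h3, h4, h5⟩ := fusion_step (Q i) hT hc
    exact ⟨⟨⟨T1, m1, c1⟩, h1.1, h4⟩, h1, h2, h3, h5⟩
  choose nx hnx using hstep
  have hc0 : max c (M T - δ) < M T := max_lt hT.2.2.2 (by linarith)
  let p : ℕ → S := fun i => Nat.rec ⟨⟨T, max m m', max c (M T - δ)⟩, hT.1, hc0⟩
    (fun i q => nx i q) i
  have hp0 : p 0 = ⟨⟨T, max m m', max c (M T - δ)⟩, hT.1, hc0⟩ := rfl
  have hps : ∀ i, p (i + 1) = nx i (p i) := fun i => rfl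
  have hmm : ∀ i, (p i).1.2.1 < (p (i + 1)).1.2.1 := fun i => by
    rw [hps]; exact (hnx i (p i)).2.1
  have hcc : ∀ i, (p i).1.2.2 < (p (i + 1)).1.2.2 := fun i => by
    rw [hps]; exact (hnx i (p i)).2.2.1
  have hnb : ∀ i, (p (i + 1)).1.1 ∈ Nb (p i).1.1 (p i).1.2.1 (p i).1.2.2 := fun i => by
    rw [hps]; exact (hnx i (p i)).1
  have hmono : Monotone fun i => (p i).1.2.1 := monotone_nat_of_le_succ fun i => (hmm i).le
  have hcmono : StrictMono fun i => (p i).1.2.2 := strictMono_nat_of_lt_succ hcc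
  have hsub : ∀ i j, i ≤ j → Sub (p j).1.1 (p i).1.1 := by
    intro i j hij
    induction j, hij using Nat.le_induction with
    | base => exact Sub.refl _
    | succ j _ ih => exact (hnb j).2.1.trans ih
  have hcM : ∀ i j, (p i).1.2.2 ≤ M (p j).1.1 := by
    intro i j
    rcases le_total i j with hij | hij
    · exact (hcmono.monotone hij).trans (p j).2.2.le
    · exact (p i).2.2.le.trans (hsub j i hij).M
  have hbdd : BddAbove (Set.range fun i => (p i).1.2.2) := by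
    refine ⟨M (p 0).1.1, ?_⟩
    rintro _ ⟨i, rfl⟩
    exact hcM i 0
  obtain ⟨Ts, h1, h2, h3, h4⟩ := limit_tree (fun i => (p i).1.1) (fun i => (p i).1.2.1) hmm
    (fun i => (p i).2.1) (fun i => (hnb i).2.1) (fun i => (hnb i).2.2.1)
    (c := ⨆ i, (p i).1.2.2) (fun j => ciSup_le fun i => hcM i j)
  have h5 : ∀ i, (p i).1.2.2 < M Ts := fun i =>
    (hcc i).trans_le ((le_ciSup hbdd (i + 1)).trans h4)
  have h6 : ∀ i, Ts ∈ Nb (p i).1.1 (p i).1.2.1 (p i).1.2.2 := fun i =>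
    ⟨h1, h2 i, h3 i, h5 i⟩
  have h7 := h2 0
  have h8 := h3 0
  have h9 := h5 0
  rw [hp0] at h7 h8 h9
  have h10 := h6 0
  rw [hp0] at h10
  refine ⟨Ts, Nb.subset hT (le_max_left _ _) (le_max_left _ _) h10, h7,
    h8.mono (le_max_right _ _), (le_max_right _ _).trans_lt h9, fun i => ?_⟩
  rcases (hnx i (p i)).2.2.2 with ⟨n, hn1, hn2⟩ | h
  · left
    refine ⟨n, ?_⟩
    rw [← hps] at hn1 hn2
    rw [b_loc (Q i).1 ((h3 (i + 1)).mono hn1)]
    exact hn2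
  · right
    refine ⟨(p i).1.2.1, (p i).1.2.2, ?_, ?_, h5 i, h.mono (Nb.subset (h6 i) le_rfl le_rfl)⟩
    · have := hmono (Nat.zero_le i)
      exact (le_max_left m m').trans this
    · have := hcmono.monotone (Nat.zero_le i)
      exact (le_max_left c (M T - δ)).trans this

end Pool.Agent.OSM
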