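import Mathlib

/-!
# OSM/KL: relative entropy of nonnegative numbers

`d p r = p * log (p / r) + r - p` (with `log 0 = 0`, `x / 0 = 0`). For `r > 0` it is
`r * φ (p / r)` with `φ t = t * log t + 1 - t ≥ 0` (`InformationTheory.klFun` in Mathlib, or prove
it from `Real.add_one_le_exp`/`Real.log_le_sub_one_of_pos`).

Proofs.
* `d_half`: for `t ≤ 1/2`, `φ t ≥ φ (1/2) = (1 - log 2) / 2 > 1/7` (`Real.log_two_lt_d9`); `φ` is
  decreasing on `[0, 1]`; direct proof: for `0 < t ≤ 1/2`,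
  `t log t ≥ t log (1/2) + (t - 1/2)` (from `log x ≤ x - 1` with `x = (1/2) / t`), so
  `φ t ≥ 1/2 - t log 2 ≥ (1 - log 2) / 2`.
* `d_mid`: if `a + c = 0` both sides are `u`. Otherwise expand the logarithms of quotients
  (`Real.log_div`), the terms with `log ((a + c) / 2)` and `log u` cancel; the cases `a = 0`,
  `c = 0` separately.
* `d_logsum`: the log sum inequality. If `R = ∑ r = 0` all terms vanish. If not, with `P = ∑ p`:
  for `P > 0`, `∑ d (p i) (r i) - d P R = ∑ p i * log (p i * R / (r i * P))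
  = P * ∑ d (p i / P) (r i / R) ≥ 0` (the sums of `p i / P` and `r i / R` are both `1`); for
  `P = 0` both sides are `R`.
* `d_incr`: for `P ≥ R / 2`, `R > 0`: by the same identity and `d_half`,
  `∑ d (p i) (r i) - d P R ≥ P * ∑_{p i / P ≤ (r i / R) / 2} (r i / R) / 7
  ≥ (1 / 14) * ∑_{bad} r i`. If `R = 0` everything is `0`.
* `d_le_log`: `∑ P log (P / u) ≤ log K * ∑ P`, and `∑ u = ∑ P = 1`.
-/

set_option autoImplicit false

namespace Pool.Agent.OSM

open Finset
open scoped Classical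

noncomputable def d (p r : ℝ) : ℝ := p * Real.log (p / r) + r - p

private theorem d_zero_zero : d 0 0 = 0 := by
  unfold d
  simp

private theorem d_zero_left (r : ℝ) : d 0 r = r := by
  unfold d
  simp

/-- change of the reference point -/
private theorem d_change {a m u : ℝ} (ha : 0 ≤ a) (hm : 0 < a → 0 < m) (hu : 0 < a → 0 < u) :
    a * Real.log (a / u) = a * Real.log (a / m) + a * Real.log (m / u) := by
  rcases ha.eq_or_lt with h | h
  · rw [← h]
    ring
  · rw [Real.log_div h.ne' (hu h).ne', Real.log_div h.ne' (hm h).ne',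
      Real.log_div (hm h).ne' (hu h).ne']
    ring

theorem d_nonneg {p r : ℝ} (hp : 0 ≤ p) (hr : 0 ≤ r) (h : r = 0 → p = 0) : 0 ≤ d p r := by
  rcases hr.eq_or_lt with h0 | h0
  · have h1 := h h0.symm
    rw [← h0, h1, d_zero_zero]
  · rcases hp.eq_or_lt with h1 | h1
    · rw [← h1, d_zero_left]
      exact hr
    · have h2 := Real.log_le_sub_one_of_pos (div_pos h0 h1)
      have h3 : Real.log (p / r) = - Real.log (r / p) := by
        rw [← Real.log_inv, inv_div]
      unfold d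
      rw [h3]
      have h4 := mul_le_mul_of_nonneg_left h2 hp
      have h5 : p * (r / p - 1) = r - p := by field_simp
      rw [h5] at h4
      linarith

theorem d_half {p r : ℝ} (hp : 0 ≤ p) (hr : 0 ≤ r) (h : p ≤ r / 2) : r / 7 ≤ d p r := by
  rcases hr.eq_or_lt with h0 | h0
  · have h1 : p = 0 := by rw [← h0] at h; linarith
    rw [← h0, h1, d_zero_zero]
    norm_num
  · rcases hp.eq_or_lt with h1 | h1
    · rw [← h1, d_zero_left]
      linarith
    · have h2p : 0 < 2 * p := by linarith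
      have h2 := Real.log_le_sub_one_of_pos (div_pos h0 h2p)
      have h3 : Real.log (p / r) = - Real.log 2 - Real.log (r / (2 * p)) := by
        rw [Real.log_div h1.ne' h0.ne', Real.log_div h0.ne' h2p.ne',
          Real.log_mul (by norm_num) h1.ne']
        ring
      unfold d
      rw [h3]
      have h4 := mul_le_mul_of_nonneg_left h2 hp
      have h5 : p * (r / (2 * p) - 1) = r / 2 - p := by field_simp
      rw [h5] at h4
      have h6 := Real.log_two_lt_d9
      have h7 := Real.log_two_gt_d9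
      nlinarith [mul_le_mul_of_nonneg_right h (show (0 : ℝ) ≤ Real.log 2 by linarith)]

theorem d_mid {a c u : ℝ} (ha : 0 ≤ a) (hc : 0 ≤ c) (hu : 0 < u) :
    d a u / 2 + d c u / 2 =
      d ((a + c) / 2) u + d a ((a + c) / 2) / 2 + d c ((a + c) / 2) / 2 := by
  have h1 := d_change (a := a) (m := (a + c) / 2) (u := u) ha (fun h => by positivity) (fun _ => hu)
  have h2 := d_change (a := c) (m := (a + c) / 2) (u := u) hc (fun h => by positivity) (fun _ => hu)
  unfold d
  rw [h1, h2]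
  ring

private theorem d_sum_zero {ι : Type} (s : Finset ι) (p r : ι → ℝ)
    (hr : ∀ i ∈ s, 0 ≤ r i) (h0 : ∀ i ∈ s, r i = 0 → p i = 0) (hR : ∑ i ∈ s, r i = 0) :
    ∑ i ∈ s, p i = 0 ∧ ∑ i ∈ s, d (p i) (r i) = 0 ∧ ∀ i ∈ s, r i = 0 := by
  have h1 : ∀ i ∈ s, r i = 0 := (Finset.sum_eq_zero_iff_of_nonneg hr).1 hR
  refine ⟨Finset.sum_eq_zero (fun i hi => h0 i hi (h1 i hi)), Finset.sum_eq_zero (fun i hi => ?_), h1⟩
  rw [h1 i hi, h0 i hi (h1 i hi), d_zero_zero]

/-- the defect in the log sum inequality -/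
private theorem d_defect {ι : Type} (s : Finset ι) (p r : ι → ℝ) (hp : ∀ i ∈ s, 0 ≤ p i)
    (hr : ∀ i ∈ s, 0 ≤ r i) (h0 : ∀ i ∈ s, r i = 0 → p i = 0) (hR : 0 < ∑ i ∈ s, r i)
    (hP : 0 < ∑ i ∈ s, p i) :
    ∑ i ∈ s, d (p i) (r i) - d (∑ i ∈ s, p i) (∑ i ∈ s, r i) =
      ∑ i ∈ s, d (p i) ((∑ j ∈ s, p j) / (∑ j ∈ s, r j) * r i) := by
  set P := ∑ i ∈ s, p i with hPd
  set R := ∑ i ∈ s, r i with hRd
  have hl : 0 < P / R := div_pos hP hR
  have h1 : ∀ i ∈ s, d (p i) (P / R * r i) =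
      p i * Real.log (p i / r i) - p i * Real.log (P / R) + P / R * r i - p i := by
    intro i hi
    unfold d
    rcases (hp i hi).eq_or_lt with h | h
    · rw [← h]
      ring
    · have hri : 0 < r i := lt_of_le_of_ne (hr i hi) (fun h' => h.ne' (h0 i hi h'.symm))
      rw [Real.log_div h.ne' (mul_pos hl hri).ne', Real.log_div h.ne' hri.ne',
        Real.log_mul hl.ne' hri.ne']
      ring
  rw [Finset.sum_congr rfl h1]
  unfold d
  simp only [Finset.sum_add_distrib, Finset.sum_sub_distrib, ← Finset.sum_mul, ← Finset.mul_sum]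
  rw [← hPd, ← hRd, div_mul_cancel₀ P hR.ne']
  ring

theorem d_logsum {ι : Type} (s : Finset ι) (p r : ι → ℝ) (hp : ∀ i ∈ s, 0 ≤ p i)
    (hr : ∀ i ∈ s, 0 ≤ r i) (h0 : ∀ i ∈ s, r i = 0 → p i = 0) :
    d (∑ i ∈ s, p i) (∑ i ∈ s, r i) ≤ ∑ i ∈ s, d (p i) (r i) := by
  rcases (Finset.sum_nonneg hr).eq_or_lt with hR | hR
  · obtain ⟨h1, h2, _⟩ := d_sum_zero s p r hr h0 hR.symm
    rw [h1, h2, ← hR, d_zero_zero]
  · rcases (Finset.sum_nonneg hp).eq_or_lt with hP | hP
    · have h1 : ∀ i ∈ s, p i = 0 := (Finset.sum_eq_zero_iff_of_nonneg hp).1 hP.symm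
      rw [← hP, d_zero_left]
      apply le_of_eq
      apply Finset.sum_congr rfl
      intro i hi
      rw [h1 i hi, d_zero_left]
    · have h1 := d_defect s p r hp hr h0 hR hP
      have h2 : 0 ≤ ∑ i ∈ s, d (p i) ((∑ j ∈ s, p j) / (∑ j ∈ s, r j) * r i) := by
        apply Finset.sum_nonneg
        intro i hi
        have hl : 0 < (∑ j ∈ s, p j) / (∑ j ∈ s, r j) := div_pos hP hR
        apply d_nonneg (hp i hi) (mul_nonneg hl.le (hr i hi))
        intro h
        rcases mul_eq_zero.1 h with h | h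
        · exact absurd h hl.ne'
        · exact h0 i hi h
      linarith

theorem d_incr {ι : Type} (s : Finset ι) (p r : ι → ℝ) (hp : ∀ i ∈ s, 0 ≤ p i)
    (hr : ∀ i ∈ s, 0 ≤ r i) (h0 : ∀ i ∈ s, r i = 0 → p i = 0)
    (h : (∑ i ∈ s, r i) / 2 ≤ ∑ i ∈ s, p i) :
    (1 / 14) * ∑ i ∈ s.filter (fun i => p i * (∑ j ∈ s, r j) ≤ 1 / 2 * r i * (∑ j ∈ s, p j)), r i
      ≤ ∑ i ∈ s, d (p i) (r i) - d (∑ i ∈ s, p i) (∑ i ∈ s, r i) := by
  rcases (Finset.sum_nonneg hr).eq_or_lt with hR | hR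
  · obtain ⟨h1, h2, h3⟩ := d_sum_zero s p r hr h0 hR.symm
    rw [h1, h2, ← hR, d_zero_zero]
    rw [Finset.sum_eq_zero (fun i hi => h3 i (Finset.mem_filter.1 hi).1)]
    norm_num
  · have hP : 0 < ∑ i ∈ s, p i := by linarith
    rw [d_defect s p r hp hr h0 hR hP]
    set P := ∑ i ∈ s, p i with hPd
    set R := ∑ i ∈ s, r i with hRd
    have hl : 0 < P / R := div_pos hP hR
    have hl2 : 1 / 2 ≤ P / R := by
      rw [le_div_iff₀ hR]
      linarith
    rw [Finset.sum_filter, Finset.mul_sum]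
    apply Finset.sum_le_sum
    intro i hi
    have hnn : 0 ≤ d (p i) (P / R * r i) := by
      apply d_nonneg (hp i hi) (mul_nonneg hl.le (hr i hi))
      intro h
      rcases mul_eq_zero.1 h with h | h
      · exact absurd h hl.ne'
      · exact h0 i hi h
    split_ifs with hb
    · have h1 : p i ≤ (P / R * r i) / 2 := by
        have : P / R * r i / 2 = (1 / 2 * r i * P) / R := by ring
        rw [this, le_div_iff₀ hR]
        exact hb
      have h2 := d_half (hp i hi) (mul_nonneg hl.le (hr i hi)) h1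
      have h3 := mul_le_mul_of_nonneg_right hl2 (hr i hi)
      linarith
    · rw [mul_zero]
      exact hnn

theorem d_le_log {Ω : Type} [Fintype Ω] (P : Ω → ℝ) {u K : ℝ} (hP : ∀ o, 0 ≤ P o)
    (hPK : ∀ o, P o ≤ K * u) (hsum : ∑ o, P o = 1) (hu : (Fintype.card Ω : ℝ) * u = 1)
    (hK : 1 ≤ K) : ∑ o, d (P o) u ≤ Real.log K := by
  have hu0 : 0 < u := by
    by_contra hn
    have h1 : (Fintype.card Ω : ℝ) * u ≤ 0 :=
      mul_nonpos_of_nonneg_of_nonpos (Nat.cast_nonneg _) (not_lt.1 hn)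
    linarith
  unfold d
  rw [Finset.sum_sub_distrib, Finset.sum_add_distrib, hsum, Finset.sum_const, Finset.card_univ,
    nsmul_eq_mul, hu]
  have h1 : ∑ o, P o * Real.log (P o / u) ≤ ∑ o, P o * Real.log K := by
    apply Finset.sum_le_sum
    intro o _
    rcases (hP o).eq_or_lt with h | h
    · rw [← h]
      simp
    · apply mul_le_mul_of_nonneg_left _ (hP o)
      apply Real.log_le_log (div_pos h hu0)
      rw [div_le_iff₀ hu0]
      exact hPK o
  rw [← Finset.sum_mul, hsum, one_mul] at h1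
  linarith

end Pool.Agent.OSM
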