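import Pool.Agent.OSM.KL

/-!
# OSM/Mx: finite mixtures of laws `δ_x × f^l`

A mixture `m` has states `a : m.ι` with weights `m.w a`, points `m.x a : X` and probability
functions `m.f a` on `Y`. `m.pr l x y` is the probability of `(x, y)`, `y : Fin l → Y`, when the
state is chosen with the weights, `x` is its point and the `y i` are independent with law `f a`.

Proofs: `pr_snoc` from `Fin.prod_univ_castSucc`; `pr_succ` from it and `f_sum`; `pr_sum` by
induction on `l` with `pr_succ`, using the equivalence `Fin.snocEquiv`/`Fin.consEquiv` between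
`(Fin (l+1) → Y)` and `(Fin l → Y) × Y` (provided below as `sum_snoc`); for `l = 0` the sum over
`x` of `if m.x a = x then m.w a` is `m.w a`. `pr_marg`: induction on `l' ≥ l` with `sum_snoc`,
`pr_succ` (the restriction of `Fin.snoc y z` to `Fin l`, `l ≤ l'`, is that of `y`).
`pr_le`: `∏ f a (y i) ≤ K ^ l` and the sum of the weights of the states with point `x` is at most
`K'`.
-/

set_option autoImplicit false

namespace Pool.Agent.OSM

open Finset
open scoped Classical

structure Mx (X Y : Type) where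
  ι : Type
  fin : Fintype ι
  w : ι → ℝ
  x : ι → X
  f : ι → Y → ℝ

attribute [instance] Mx.fin

variable {X Y : Type}

structure Mx.Ok [Fintype Y] (m : Mx X Y) : Prop where
  w_nonneg : ∀ a, 0 ≤ m.w a
  w_sum : ∑ a, m.w a = 1
  f_nonneg : ∀ a y, 0 ≤ m.f a y
  f_sum : ∀ a, ∑ y, m.f a y = 1

noncomputable def Mx.pr (m : Mx X Y) (l : ℕ) (x : X) (y : Fin l → Y) : ℝ :=
  ∑ a, if m.x a = x then m.w a * ∏ i, m.f a (y i) else 0

/-- The mixture of two mixtures with equal weights. -/
noncomputable def Mx.mid (m m' : Mx X Y) : Mx X Y where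
  ι := m.ι ⊕ m'.ι
  fin := inferInstance
  w := Sum.elim (fun a => m.w a / 2) (fun a => m'.w a / 2)
  x := Sum.elim m.x m'.x
  f := Sum.elim m.f m'.f

/-- The image of a mixture. -/
noncomputable def Mx.map {X' Y' : Type} [Fintype Y] (m : Mx X Y) (φ : X → X') (ψ : Y → Y') :
    Mx X' Y' where
  ι := m.ι
  fin := m.fin
  w := m.w
  x := fun a => φ (m.x a)
  f := fun a y' => ∑ y, if ψ y = y' then m.f a y else 0

theorem sum_snoc [Fintype Y] (l : ℕ) (g : (Fin (l + 1) → Y) → ℝ) :
    ∑ y, g y = ∑ y : Fin l → Y, ∑ z : Y, g (Fin.snoc y z) := by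
  rw [← (Fin.snocEquiv (fun _ : Fin (l + 1) => Y)).sum_comp, Fintype.sum_prod_type,
    Finset.sum_comm]
  rfl

theorem Mx.mid_ok [Fintype Y] {m m' : Mx X Y} (h : m.Ok) (h' : m'.Ok) : (m.mid m').Ok := by
  refine ⟨?_, ?_, ?_, ?_⟩
  · rintro (a | a)
    · exact div_nonneg (h.w_nonneg a) two_pos.le
    · exact div_nonneg (h'.w_nonneg a) two_pos.le
  · have e : ∑ a, (m.mid m').w a = (∑ a, m.w a / 2) + ∑ a, m'.w a / 2 :=
      Fintype.sum_sum_type (Sum.elim (fun a => m.w a / 2) (fun a => m'.w a / 2))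
    rw [e, ← Finset.sum_div, ← Finset.sum_div, h.w_sum, h'.w_sum]
    norm_num
  · rintro (a | a) y
    · exact h.f_nonneg a y
    · exact h'.f_nonneg a y
  · rintro (a | a)
    · exact h.f_sum a
    · exact h'.f_sum a

theorem Mx.pr_mid (m m' : Mx X Y) (l : ℕ) (x : X) (y : Fin l → Y) :
    (m.mid m').pr l x y = (m.pr l x y + m'.pr l x y) / 2 := by
  have e : (m.mid m').pr l x y =
      (∑ a, if m.x a = x then m.w a / 2 * ∏ i, m.f a (y i) else 0) +
        ∑ a, if m'.x a = x then m'.w a / 2 * ∏ i, m'.f a (y i) else 0 :=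
    Fintype.sum_sum_type _
  rw [e]
  unfold Mx.pr
  rw [add_div, Finset.sum_div, Finset.sum_div]
  congr 1 <;>
  · refine Finset.sum_congr rfl fun a _ => ?_
    split_ifs
    · ring
    · simp

theorem Mx.map_ok {X' Y' : Type} [Fintype Y] [Fintype Y'] {m : Mx X Y} (h : m.Ok)
    (φ : X → X') (ψ : Y → Y') : (m.map φ ψ).Ok := by
  refine ⟨h.w_nonneg, h.w_sum, ?_, ?_⟩
  · intro a y'
    refine Finset.sum_nonneg fun y _ => ?_
    split_ifs
    · exact h.f_nonneg a y
    · exact le_rfl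
  · intro a
    change ∑ y', ∑ y, (if ψ y = y' then m.f a y else 0) = 1
    rw [Finset.sum_comm, ← h.f_sum a]
    refine Finset.sum_congr rfl fun y _ => ?_
    simp

theorem Mx.pr_map {X' Y' : Type} [Fintype X] [Fintype Y] {m : Mx X Y} (h : m.Ok)
    (φ : X → X') (ψ : Y → Y') (l : ℕ) (x' : X') (y' : Fin l → Y') :
    (m.map φ ψ).pr l x' y' =
      ∑ x, ∑ y : Fin l → Y, if φ x = x' ∧ (fun i => ψ (y i)) = y' then m.pr l x y else 0 := by
  have e1 : ∀ a : m.ι, ∏ i, (∑ y, if ψ y = y' i then m.f a y else 0) =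
      ∑ y : Fin l → Y, if (fun i => ψ (y i)) = y' then ∏ i, m.f a (y i) else 0 := by
    intro a
    rw [Finset.prod_univ_sum, Fintype.piFinset_univ]
    refine Finset.sum_congr rfl fun y _ => ?_
    by_cases hy : (fun i => ψ (y i)) = y'
    · rw [if_pos hy]
      exact Finset.prod_congr rfl fun i _ => if_pos (congrFun hy i)
    · rw [if_neg hy]
      obtain ⟨i, hi⟩ := Function.ne_iff.1 hy
      exact Finset.prod_eq_zero (Finset.mem_univ i) (if_neg hi)
  have e2 : (m.map φ ψ).pr l x' y' = ∑ a : m.ι, if φ (m.x a) = x' then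
      m.w a * ∏ i, (∑ y, if ψ y = y' i then m.f a y else 0) else 0 := rfl
  rw [e2]
  unfold Mx.pr
  have e3 : ∀ x, ∀ y : Fin l → Y, (if φ x = x' ∧ (fun i => ψ (y i)) = y' then
      ∑ a, (if m.x a = x then m.w a * ∏ i, m.f a (y i) else 0) else 0) =
      ∑ a, if m.x a = x then (if φ x = x' ∧ (fun i => ψ (y i)) = y' then
        m.w a * ∏ i, m.f a (y i) else 0) else 0 := by
    intro x y
    by_cases hc : φ x = x' ∧ (fun i => ψ (y i)) = y'
    · rw [if_pos hc]
      refine Finset.sum_congr rfl fun a _ => ?_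
      rw [if_pos hc]
    · rw [if_neg hc]
      symm
      refine Finset.sum_eq_zero fun a _ => ?_
      rw [if_neg hc]
      simp
  simp_rw [e3]
  have e4 : ∀ x, (∑ y : Fin l → Y, ∑ a, if m.x a = x then
      (if φ x = x' ∧ (fun i => ψ (y i)) = y' then m.w a * ∏ i, m.f a (y i) else 0) else 0) =
      ∑ a, ∑ y : Fin l → Y, if m.x a = x then
      (if φ x = x' ∧ (fun i => ψ (y i)) = y' then m.w a * ∏ i, m.f a (y i) else 0) else 0 :=
    fun x => Finset.sum_comm
  simp_rw [e4]
  rw [Finset.sum_comm]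
  refine Finset.sum_congr rfl fun a _ => ?_
  rw [Finset.sum_eq_single (m.x a)]
  · rw [e1]
    by_cases hc : φ (m.x a) = x'
    · rw [if_pos hc, Finset.mul_sum]
      refine Finset.sum_congr rfl fun y _ => ?_
      rw [if_pos rfl]
      by_cases hy : (fun i => ψ (y i)) = y'
      · rw [if_pos hy, if_pos ⟨hc, hy⟩]
      · rw [if_neg hy, if_neg (fun h => hy h.2), mul_zero]
    · rw [if_neg hc]
      symm
      refine Finset.sum_eq_zero fun y _ => ?_
      rw [if_pos rfl, if_neg (fun h => hc h.1)]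
  · intro x _ hx
    refine Finset.sum_eq_zero fun y _ => ?_
    rw [if_neg (fun h => hx h.symm)]
  · intro hx
    exact absurd (Finset.mem_univ _) hx

variable [Fintype Y] {m : Mx X Y}

theorem Mx.pr_nonneg (h : m.Ok) (l : ℕ) (x : X) (y : Fin l → Y) : 0 ≤ m.pr l x y := by
  refine Finset.sum_nonneg fun a _ => ?_
  split_ifs
  · exact mul_nonneg (h.w_nonneg a) (Finset.prod_nonneg fun i _ => h.f_nonneg a _)
  · exact le_rfl

theorem Mx.pr_snoc (m : Mx X Y) (l : ℕ) (x : X) (y : Fin l → Y) (z : Y) :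
    m.pr (l + 1) x (Fin.snoc y z) =
      ∑ a, if m.x a = x then m.w a * (∏ i, m.f a (y i)) * m.f a z else 0 := by
  unfold Mx.pr
  refine Finset.sum_congr rfl fun a _ => ?_
  rw [Fin.prod_univ_castSucc]
  simp only [Fin.snoc_castSucc, Fin.snoc_last]
  split_ifs
  · ring
  · rfl

theorem Mx.pr_append (m : Mx X Y) (l r : ℕ) (x : X) (y : Fin l → Y) (z : Fin r → Y) :
    m.pr (l + r) x (Fin.append y z) =
      ∑ a, if m.x a = x then m.w a * (∏ i, m.f a (y i)) * ∏ i, m.f a (z i) else 0 := by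
  unfold Mx.pr
  refine Finset.sum_congr rfl fun a _ => ?_
  rw [Fin.prod_univ_add]
  simp only [Fin.append_left, Fin.append_right]
  split_ifs
  · ring
  · rfl

theorem Mx.pr_succ (h : m.Ok) (l : ℕ) (x : X) (y : Fin l → Y) :
    ∑ z, m.pr (l + 1) x (Fin.snoc y z) = m.pr l x y := by
  simp_rw [Mx.pr_snoc]
  rw [Finset.sum_comm]
  unfold Mx.pr
  refine Finset.sum_congr rfl fun a _ => ?_
  split_ifs
  · rw [← Finset.mul_sum, h.f_sum, mul_one]
  · simp

theorem Mx.pr_snoc_le (h : m.Ok) (l : ℕ) (x : X) (y : Fin l → Y) (z : Y) :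
    m.pr (l + 1) x (Fin.snoc y z) ≤ m.pr l x y := by
  rw [← Mx.pr_succ h l x y]
  exact Finset.single_le_sum (f := fun z => m.pr (l + 1) x (Fin.snoc y z))
    (fun z _ => Mx.pr_nonneg h _ _ _) (Finset.mem_univ z)

variable [Fintype X]

theorem Mx.pr_sum (h : m.Ok) (l : ℕ) : ∑ x, ∑ y : Fin l → Y, m.pr l x y = 1 := by
  induction l with
  | zero =>
    simp only [Mx.pr, Finset.univ_unique, Finset.sum_singleton, Finset.univ_eq_empty,
      Finset.prod_empty, mul_one]
    rw [Finset.sum_comm, ← h.w_sum]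
    refine Finset.sum_congr rfl fun a _ => ?_
    simp
  | succ l ih =>
    rw [← ih]
    refine Finset.sum_congr rfl fun x _ => ?_
    rw [sum_snoc]
    exact Finset.sum_congr rfl fun y _ => Mx.pr_succ h l x y

/-- Marginals. -/
theorem Mx.pr_marg (h : m.Ok) {l l' : ℕ} (hl : l ≤ l') (g : X → (Fin l → Y) → ℝ) :
    ∑ x, ∑ y : Fin l' → Y, m.pr l' x y * g x (fun i => y (i.castLE hl)) =
      ∑ x, ∑ y : Fin l → Y, m.pr l x y * g x y := by
  induction l', hl using Nat.le_induction with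
  | base => rfl
  | succ l' hl ih =>
    rw [← ih]
    refine Finset.sum_congr rfl fun x _ => ?_
    rw [sum_snoc]
    refine Finset.sum_congr rfl fun y _ => ?_
    rw [← Mx.pr_succ h l' x y, Finset.sum_mul]
    refine Finset.sum_congr rfl fun z _ => ?_
    congr 2
    funext i
    have e : i.castLE (hl.trans (Nat.le_succ l')) = (i.castLE hl).castSucc := rfl
    rw [e, Fin.snoc_castSucc]

theorem Mx.pr_le (h : m.Ok) {K K' : ℝ} (hK : ∀ a y, m.f a y ≤ K)
    (hK' : ∀ x, (∑ a, if m.x a = x then m.w a else 0) ≤ K') (l : ℕ) (x : X) (y : Fin l → Y) :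
    m.pr l x y ≤ K' * K ^ l := by
  have hpr : ∀ a, ∏ i, m.f a (y i) ≤ K ^ l := fun a => by
    have h1 : ∏ i, m.f a (y i) ≤ ∏ _i : Fin l, K :=
      Finset.prod_le_prod (fun i _ => h.f_nonneg a _) fun i _ => hK a _
    rwa [Finset.prod_const, Finset.card_univ, Fintype.card_fin] at h1
  have hne : Nonempty m.ι := by
    by_contra hc
    rw [not_nonempty_iff] at hc
    have h1 := h.w_sum
    rw [Finset.univ_eq_empty, Finset.sum_empty] at h1
    exact zero_ne_one h1
  obtain ⟨a0⟩ := hne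
  have hK0 : 0 ≤ K ^ l := (Finset.prod_nonneg fun i _ => h.f_nonneg a0 _).trans (hpr a0)
  calc m.pr l x y ≤ ∑ a, (if m.x a = x then m.w a else 0) * K ^ l := by
        unfold Mx.pr
        refine Finset.sum_le_sum fun a _ => ?_
        split_ifs
        · exact mul_le_mul_of_nonneg_left (hpr a) (h.w_nonneg a)
        · simp
    _ = (∑ a, if m.x a = x then m.w a else 0) * K ^ l := by rw [Finset.sum_mul]
    _ ≤ K' * K ^ l := mul_le_mul_of_nonneg_right (hK' x) hK0

end Pool.Agent.OSM
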