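import Pool.Agent.OSM.Turing

/-!
# `P` is not computably reducible to `P⁻`

The definitions of positive tree, perfect tree, sequence of distinct paths are in
`Pool/Agent/PTree/Defs.lean`.

(1) Let `Ψ j` (`j` a natural number) be countably many maps, each continuous on an arbitrary set
`D j` of trees, which assign to a tree `T ∈ D j` finitely many positive trees `Ψ j T c` (instances
of `P⁻`), and for each `j` let `Φ j i` be countably many maps, each continuous on an arbitrary set
`E j i` of pairs `(T, G)`. Then there is one positive tree `T` such that for every `j` with
`T ∈ D j` there are solutions `G c` of the instances `Ψ j T c` (sequences of pairwise distinct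
paths) such that no `Φ j i` which is defined at `(T, G)` has a perfect subtree of `T` as its value
there. Nothing is assumed about the values of `Φ j i` at other pairs.

(2) In particular there is a positive tree `T` such that for any finitely many positive trees
`T' c` computable from `T` there are solutions `G c` such that no perfect subtree of `T` is
computable from `T` and the `G c` together.

Proof idea. Conditions are closed sets `F` of pairs `(T, G)` such that, robustly for all trees `T`
in a neighbourhood, there are many good tuples `x` (first coordinates of `G`) with a reservoir of
positive measure for the other coordinates. If a requirement cannot be won then at generic trees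
arbitrarily many nodes of `S = Φ(T, G)` are decided by tuples from any reservoir. The potential of
`T` is the least relative entropy (with respect to the uniform law, per sample) of a mixture of
laws given by a point `x` and independent samples from a reservoir. At a nearly maximal tree the removal of a
random set of nodes above one of the many decided nodes changes the conditional laws of the samples
only a little (chain rule); by Talagrand's two-point inequality boundedly many harmless removals
cover most of the nodes, so some sample decides a node which can be removed.
-/

set_option autoImplicit false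

namespace Pool.Agent.Results.MP_0b3a63_lc.OneStep

open Pool.Agent.PTree Pool.Agent.OSM

/-- The one-step theorem, in its continuous form (1) and its computable form (2). -/
theorem result :
    (∀ (n : ℕ → ℕ) (D : ℕ → Set StrSet) (Ψ : (j : ℕ) → StrSet → Fin (n j) → StrSet),
      (∀ j, ContinuousOn (Ψ j) (D j)) → (∀ j, ∀ T ∈ D j, ∀ c, Positive (Ψ j T c)) →
      ∀ (E : (j : ℕ) → ℕ → Set (StrSet × (Fin (n j) → ℕ → ℕ → Bool)))
        (Φ : (j : ℕ) → ℕ → StrSet × (Fin (n j) → ℕ → ℕ → Bool) → StrSet),
        (∀ j i, ContinuousOn (Φ j i) (E j i)) →
        ∃ T, Positive T ∧ ∀ j, T ∈ D j →
          ∃ G : Fin (n j) → ℕ → ℕ → Bool, (∀ c, ManyPaths (Ψ j T c) (G c)) ∧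
            ∀ i, (T, G) ∈ E j i →
              ¬ (Perfect (Φ j i (T, G)) ∧ ∀ τ, Φ j i (T, G) τ = true → T τ = true)) ∧
    (∃ T, Positive T ∧ ∀ (n : ℕ) (T' : Fin n → StrSet), (∀ c, Positive (T' c)) →
      (∀ c, Nat.RecursiveIn {chT T} (chT (T' c))) →
      ∃ G : Fin n → ℕ → ℕ → Bool, (∀ c, ManyPaths (T' c) (G c)) ∧
        ∀ S, Perfect S → (∀ τ, S τ = true → T τ = true) →
          ¬ Nat.RecursiveIn (insert (chT T) (Set.range fun c => chG (G c))) (chT S)) :=
  ⟨fun n D Ψ hΨ hpos E Φ hΦ => main n D Ψ hΨ hpos E Φ hΦ, not_computably_reducible⟩

end Pool.Agent.Results.MP_0b3a63_lc.OneStep
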