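import Pool.Agent.OSM.Chain
import Pool.Agent.OSM.Basic

/-!
# OSM/Outer: the tree and the sequences

`compact`. For each `n` let `G_n` avoid `F n` at level `n`. The space `ℕ → ℕ → A` (`A` finite with
the discrete topology) is compact; take an ultrafilter limit `G` of the `G_n` along
`Filter.hyperfilter ℕ` (or a subsequence). For all `i, n` there is `n' ≥ i, n` such that `G_{n'}`
agrees with `G` on the first `n` letters of the first `n` coordinates; `G_{n'}` avoids `F n'` at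
level `n'`, so `F i` (`Le`) at level `n` (`mono_le`), and so does `G` (`loc`). To avoid topologies
on `A` one may also use König's lemma / `nonempty_sections_of_finite_cofiltered_system`, or equip
`A` with `⊥`.

`outer`. Apply `chain` with `P j` the type of statuses: `none` (start), `some none` (out),
`some (some (F, k, q, q'))` (condition), `R j p p'`: if `p = some none` then `p' = some none`, if
`p = some (some (F, _))` then `p' = some (some (F', _))` with `F.Le F'`, and `p' ≠ none`.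
`Hold j i p N`: for `p = none`: `i = 0`; for `p = some none`: `∀ T ∈ N, ∃ n, b (F0 j) n T 0 (q0 j) < 1`;
for a condition: `1 ≤ i`, `(F0 j).Le F`, `0 < q`, `0 < q'`, `Robust F k q q' N` and for all
`e < i - 1`, all `T ∈ N` and `G` avoiding `F` (all `n`): `Q j e T G`.
Step 0: if for some `T1 ∈ Nb T0 m c` and `n`, `b (F0 j) n T1 0 (q0 j) < 1`, take status out and
`Nb T1 (max m n) c` (`b_loc`: all its members agree with `T1` below `n`); otherwise
`Robust (F0 j) 0 (q0 j) 1 (Nb T0 m c)`. Step `i + 1`: if the status is out, nothing; if it is a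
condition use `hstep j i`. Let `T` be the tree obtained. For `j`, if some status is out then the
left alternative holds. Otherwise the statuses `p i`, `i ≥ 1`, are conditions with increasing
`F_i`, robust at `T`: `b F_i n T k_i q_i > 0` gives an element of `gs`, so a sequence which is not
bad for `F_i` at level `n` (the reservoir is nonempty: `q_i > 0`). Apply `compact`.
-/

set_option autoImplicit false

namespace Pool.Agent.OSM

open Finset Pool.Agent.PTree
open scoped Classical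

theorem Forb.Le.of_chain {A : Type} (F : ℕ → Forb A) (hF : ∀ i, (F i).Le (F (i + 1))) {i j : ℕ}
    (h : i ≤ j) : (F i).Le (F j) := by
  induction j, h using Nat.le_induction with
  | base => exact Forb.Le.refl _
  | succ j _ ih => exact ih.trans (hF j)

theorem compact {A : Type} [Fintype A] [Nonempty A] (F : ℕ → Forb A) {T : StrSet}
    (hF : ∀ i, (F i).Le (F (i + 1))) (h : ∀ i n, ∃ G : ℕ → ℕ → A, ¬ (F i).bad n T G) :
    ∃ G : ℕ → ℕ → A, ∀ i n, ¬ (F i).bad n T G := by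
  choose G' hG' using fun n => h n n
  have hlim : ∀ a b : ℕ, ∃ c : A, ∀ᶠ n in (Filter.hyperfilter ℕ : Filter ℕ), G' n a b = c := by
    intro a b
    by_contra hc
    push Not at hc
    have h1 : ∀ c : A, ∀ᶠ n in (Filter.hyperfilter ℕ : Filter ℕ), ¬ G' n a b = c := fun c =>
      hc c
    have h2 : ∀ᶠ n in (Filter.hyperfilter ℕ : Filter ℕ), ∀ c : A, ¬ G' n a b = c :=
      Filter.eventually_all.mpr h1
    obtain ⟨n, hn⟩ := h2.exists
    exact hn _ rfl
  choose g hg using hlim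
  refine ⟨g, fun i n hb => ?_⟩
  have h1 : ∀ᶠ n' in (Filter.hyperfilter ℕ : Filter ℕ), ∀ a ∈ Finset.range n,
      ∀ b ∈ Finset.range n, G' n' a b = g a b := by
    rw [Filter.eventually_all_finset]
    intro a _
    rw [Filter.eventually_all_finset]
    intro b _
    exact hg a b
  have h2 : ∀ᶠ n' in (Filter.hyperfilter ℕ : Filter ℕ), i ≤ n' ∧ n ≤ n' := by
    have h3 : ∀ᶠ n' in (Filter.cofinite : Filter ℕ), i ≤ n' ∧ n ≤ n' := by
      rw [Nat.cofinite_eq_atTop]
      exact (Filter.eventually_ge_atTop i).and (Filter.eventually_ge_atTop n)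
    exact h3.filter_mono Filter.hyperfilter_le_cofinite
  obtain ⟨n', hn1, hn2, hn3⟩ := (h1.and h2).exists
  have h4 : (F i).bad n T (G' n') := (F i).loc (Agree.refl _ _)
    (fun a ha b hb' => hn1 a (Finset.mem_range.mpr ha) b (Finset.mem_range.mpr hb')) hb
  exact hG' n' (Forb.Le.of_chain F hF hn2 _ _ _ ((F i).mono_le hn3 h4))

/-- The statuses. -/
abbrev St (A : Type) : Type := Option (Option (Forb A × ℕ × ℝ × ℝ))

/-- What a status says. -/
def HoldSt {A : Type} [Fintype A] (F0 : Forb A) (q0 : ℝ) (Q : ℕ → StrSet → (ℕ → ℕ → A) → Prop)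
    (i : ℕ) (p : St A) (N : Set StrSet) : Prop :=
  (p = none ∧ i = 0) ∨ (p = some none ∧ ∀ T ∈ N, ∃ n, b F0 n T 0 q0 < 1) ∨
    ∃ (F : Forb A) (k : ℕ) (q q' : ℝ), p = some (some (F, k, q, q')) ∧ 1 ≤ i ∧ F0.Le F ∧ 0 < q ∧
      0 < q' ∧ Robust F k q q' N ∧
      ∀ e, e + 1 < i → ∀ T ∈ N, ∀ G : ℕ → ℕ → A, (∀ n, ¬ F.bad n T G) → Q e T G

/-- The relation between consecutive statuses. -/
def RSt {A : Type} (p p' : St A) : Prop :=
  (p = none ∧ p' ≠ none) ∨ (p = some none ∧ p' = some none) ∨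
    ∃ c c' : Forb A × ℕ × ℝ × ℝ, p = some (some c) ∧ p' = some (some c') ∧ c.1.Le c'.1

theorem exists_notbad {A : Type} [Fintype A] [Nonempty A] {F : Forb A} {k : ℕ} {q q' : ℝ}
    {N : Set StrSet} (hq : 0 < q) (hq' : 0 < q') (hr : Robust F k q q' N) {T : StrSet}
    (hT : T ∈ N) (n : ℕ) : ∃ G : ℕ → ℕ → A, ¬ F.bad n T G := by
  have h1 : 0 < b F n T k q := hq'.trans_le (hr T hT n)
  have h2 : (gs F n T k q).Nonempty := by
    rw [Finset.nonempty_iff_ne_empty]
    intro h0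
    rw [b, h0, dens, Finset.card_empty] at h1
    simp at h1
  obtain ⟨x, hx⟩ := h2
  obtain ⟨R, hR, hg⟩ := mem_gs.mp hx
  have h3 : R.Nonempty := by
    rw [Finset.nonempty_iff_ne_empty]
    intro h0
    rw [h0, dens, Finset.card_empty] at hR
    simp at hR
    linarith
  obtain ⟨s, hs⟩ := h3
  obtain ⟨a0⟩ := ‹Nonempty A›
  refine ⟨fun i m => if hm : m < n then (if hi : i < k then x ⟨i, hi⟩ ⟨m, hm⟩ else s ⟨m, hm⟩)
    else a0, ?_⟩
  apply hg
  · intro i
    funext m
    simp [cut]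
  · intro i hi
    have : cut n (fun m => if hm : m < n then (if hi : i < k then x ⟨i, hi⟩ ⟨m, hm⟩
        else s ⟨m, hm⟩) else a0) = s := by
      funext m
      simp [cut, not_lt.mpr hi]
    rw [this]
    exact hs

theorem outer {A : ℕ → Type} [∀ j, Fintype (A j)] [∀ j, Nonempty (A j)]
    (F0 : ∀ j, Forb (A j)) (q0 : ℕ → ℝ) (hq0 : ∀ j, 0 < q0 j)
    (Q : ∀ j, ℕ → StrSet → (ℕ → ℕ → A j) → Prop)
    (hstep : ∀ j (e : ℕ) (F : Forb (A j)) (k : ℕ) (q q' : ℝ) (T0 : StrSet) (m : ℕ) (c : ℝ),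
      IsTree T0 → c < M T0 → 0 < q → 0 < q' → Robust F k q q' (Nb T0 m c) →
      ∃ (T1 : StrSet) (m1 : ℕ) (c1 : ℝ) (F' : Forb (A j)) (k' : ℕ) (r r' : ℝ),
        T1 ∈ Nb T0 m c ∧ m ≤ m1 ∧ c ≤ c1 ∧ c1 < M T1 ∧ 0 < r ∧ 0 < r' ∧ F.Le F' ∧
        Robust F' k' r r' (Nb T1 m1 c1) ∧
        ∀ T ∈ Nb T1 m1 c1, ∀ G : ℕ → ℕ → A j, (∀ n, ¬ F'.bad n T G) → Q j e T G) :
    ∃ T, IsTree T ∧ 0 < M T ∧ ∀ j, (∃ n, b (F0 j) n T 0 (q0 j) < 1) ∨
      ∃ G : ℕ → ℕ → A j, (∀ n, ¬ (F0 j).bad n T G) ∧ ∀ e, Q j e T G := by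
  obtain ⟨T, hT, hM, hch⟩ := chain (P := fun j => St (A j)) (fun _ => none)
    (fun j i p N => HoldSt (F0 j) (q0 j) (Q j) i p N)
    (by
      rintro j i p N N' hN (⟨h1, h2⟩ | ⟨h1, h2⟩ | ⟨F, k, q, q', h1, h2, h3, h4, h5, h6, h7⟩)
      · exact Or.inl ⟨h1, h2⟩
      · exact Or.inr (Or.inl ⟨h1, fun T hT => h2 T (hN hT)⟩)
      · exact Or.inr (Or.inr ⟨F, k, q, q', h1, h2, h3, h4, h5, h6.mono hN,
          fun e he T hT => h7 e he T (hN hT)⟩))
    (fun j N => Or.inl ⟨rfl, rfl⟩) (fun _ p p' => RSt p p')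
    (by
      rintro j i p T0 m c hT0 hc (⟨h1, h2⟩ | ⟨h1, h2⟩ | ⟨F, k, q, q', h1, h2, h3, h4, h5, h6, h7⟩)
      · by_cases hout : ∃ T1 ∈ Nb T0 m c, ∃ n, b (F0 j) n T1 0 (q0 j) < 1
        · obtain ⟨T1, hT1, n, hn⟩ := hout
          refine ⟨T1, max m n, c, some none, hT1, le_max_left _ _, le_rfl, hT1.2.2.2,
            Or.inl ⟨h1, by simp⟩, Or.inr (Or.inl ⟨rfl, fun T hT => ⟨n, ?_⟩⟩)⟩
          rw [b_loc (F0 j) (hT.2.2.1.mono (le_max_right m n))]
          exact hn
        · push Not at hout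
          refine ⟨T0, m, c, some (some (F0 j, 0, q0 j, 1)), Nb.self hT0 m hc, le_rfl, le_rfl, hc,
            Or.inl ⟨h1, by simp⟩, Or.inr (Or.inr ⟨F0 j, 0, q0 j, 1, rfl, by omega,
              Forb.Le.refl _, hq0 j, one_pos, fun T hT n => hout T hT n, fun e he => by omega⟩)⟩
      · exact ⟨T0, m, c, some none, Nb.self hT0 m hc, le_rfl, le_rfl, hc,
          Or.inr (Or.inl ⟨h1, rfl⟩), Or.inr (Or.inl ⟨rfl, h2⟩)⟩
      · obtain ⟨T1, m1, c1, F', k', r, r', g1, g2, g3, g4, g5, g6, g7, g8, g9⟩ :=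
          hstep j (i - 1) F k q q' T0 m c hT0 hc h4 h5 h6
        refine ⟨T1, m1, c1, some (some (F', k', r, r')), g1, g2, g3, g4,
          Or.inr (Or.inr ⟨_, _, h1, rfl, g7⟩),
          Or.inr (Or.inr ⟨F', k', r, r', rfl, by omega, h3.trans g7, g5, g6, g8,
            fun e he T hT G hG => ?_⟩)⟩
        rcases Nat.lt_or_ge (e + 1) i with he' | he'
        · exact h7 e he' T (Nb.subset g1 g2 g3 hT) G fun n hb => hG n (g7 _ _ _ hb)
        · have : e = i - 1 := by omega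
          subst this
          exact g9 T hT G hG)
  refine ⟨T, hT, hM, fun j => ?_⟩
  obtain ⟨p, hp⟩ := hch j
  by_cases hout : ∃ i, p i = some none
  · obtain ⟨i, hi⟩ := hout
    obtain ⟨-, N, hN, hH⟩ := hp i
    rcases hH with ⟨h1, h2⟩ | ⟨h1, h2⟩ | ⟨F, k, q, q', h1, h2, h3, h4, h5, h6, h7⟩
    · rw [hi] at h1; cases h1
    · exact Or.inl (h2 T hN)
    · rw [hi] at h1; cases h1
  · right
    push Not at hout
    have hc : ∀ i, ∃ c : Forb (A j) × ℕ × ℝ × ℝ, p (i + 1) = some (some c) := by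
      intro i
      obtain ⟨hr, -⟩ := hp i
      rcases hr with ⟨-, h2⟩ | ⟨h1, -⟩ | ⟨c, c', -, h2, -⟩
      · rcases hpi : p (i + 1) with _ | _ | c
        · exact absurd hpi h2
        · exact absurd hpi (hout _)
        · exact ⟨c, rfl⟩
      · exact absurd h1 (hout i)
      · exact ⟨c', h2⟩
    choose c hc using hc
    have hprop : ∀ i, (F0 j).Le (c i).1 ∧ 0 < (c i).2.2.1 ∧ 0 < (c i).2.2.2 ∧
        ∃ N : Set StrSet, T ∈ N ∧ Robust (c i).1 (c i).2.1 (c i).2.2.1 (c i).2.2.2 N ∧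
          ∀ e, e < i → ∀ G : ℕ → ℕ → A j, (∀ n, ¬ (c i).1.bad n T G) → Q j e T G := by
      intro i
      obtain ⟨-, N, hN, hH⟩ := hp (i + 1)
      rcases hH with ⟨h1, h2⟩ | ⟨h1, h2⟩ | ⟨F, k, q, q', h1, h2, h3, h4, h5, h6, h7⟩
      · omega
      · exact absurd h1 (hout _)
      · rw [hc i] at h1
        simp only [Option.some.injEq] at h1
        rw [h1]
        exact ⟨h3, h4, h5, N, hN, h6, fun e he G hG => h7 e (by omega) T hN G hG⟩
    obtain ⟨G, hG⟩ := compact (fun i => (c i).1) (T := T)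
      (by
        intro i
        obtain ⟨hr, -⟩ := hp (i + 1)
        rcases hr with ⟨h1, -⟩ | ⟨h1, -⟩ | ⟨d, d', h1, h2, h3⟩
        · rw [hc i] at h1; cases h1
        · rw [hc i] at h1; cases h1
        · rw [hc i] at h1
          rw [hc (i + 1)] at h2
          simp only [Option.some.injEq] at h1 h2
          rw [h1, h2]
          exact h3)
      (by
        intro i n
        obtain ⟨-, h1, h2, N, hN, h3, -⟩ := hprop i
        exact exists_notbad h1 h2 h3 hN n)
    refine ⟨G, fun n hb => hG 0 n ((hprop 0).1 _ _ _ hb), fun e => ?_⟩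
    obtain ⟨-, -, -, N, hN, -, h7⟩ := hprop (e + 1)
    exact h7 e (Nat.lt_succ_self e) G fun n => hG (e + 1) n

end Pool.Agent.OSM
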