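import Pool.Agent.OSM.Defs

/-!
# OSM/Talagrand: covering by few members of a family which is not improbable

`Ex p s F` (`OSM/Defs`) is the expectation of `F U` for a random subset `U` of `s` containing each
element with probability `p`.

`ex_insert`: `Finset.sum_powerset_insert`.

`tal`. For families `V, W` of subsets of `s` (with positive probability) let
`f U = min {card (U \ (U₁ ∪ U₂)) : U₁ ∈ V, U₂ ∈ W}`. Claim: `Ex p s (2 ^ f) ≤ 1 / (P V * P W)`.
Stated here without the minimum: there is a function `f : Finset α → ℕ` such that for all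
`U ⊆ s` there are `U₁ ∈ V`, `U₂ ∈ W` with `card (U \ (U₁ ∪ U₂)) ≤ f U`, and
`P V * P W * Ex p s (2 ^ f) ≤ 1`. Induction on `s`. For `s = ∅` both families are `{∅}`, `f = 0`.
For `insert a s`: let `V₀ = {U ⊆ s : U ∈ V}`, `V₁ = {U ⊆ s : insert a U ∈ V}`, `V⋆ = V₀ ∪ V₁`,
similarly `W`. `P V = (1 - p) P V₀ + p P V₁ ≤ P V⋆ (1 - p (1 - r))`, `r = P V₁ / P V⋆ ∈ [0, 1]`
(`P V⋆ > 0`), similarly `P W ≤ P W⋆ (1 - p (1 - r'))`. Let `f⋆` be the function for `(V⋆, W⋆)`,
`f₁` for `(V₁, W⋆)` (if `r > 0`), `f₂` for `(V⋆, W₁)` (if `r' > 0`). For `a ∉ U` use `f⋆ U`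
(members of `V⋆` come from members of `V` with or without `a`). For `insert a U` one may use
`f⋆ U + 1`, or `f₁ U`, or `f₂ U`; take the one of the three with the smallest bound:
`Ex (2 ^ f) ≤ ((1 - p) + p * min (2, 1 / r, 1 / r')) / (P V⋆ * P W⋆)` (the same choice for all
`U`). With `t = min (2, 1 / r, 1 / r') ∈ [1, 2]`: `r, r' ≤ 1 / t`, so
`P V * P W ≤ P V⋆ * P W⋆ * (1 - p (1 - 1 / t)) ^ 2`, and
`(1 + p (t - 1)) * (1 - p (1 - 1 / t)) ^ 2 ≤ exp (p (t - 1) - 2 p (1 - 1 / t))
= exp (p (t - 1) (1 - 2 / t)) ≤ 1` (`1 + x ≤ exp x`, and `1 - p (1 - 1/t) ≥ 0`).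

`cover`. Let `p = 1 / B`, `P V ≥ 3 / 8`. By `tal` with `W = V`: `Ex (2 ^ f) ≤ 64 / 9`, so
`Ex f ≤ 3` since `2 ^ x ≥ 64 / 9 + (x - 3) * c` for a suitable `c > 0` and all natural `x`
(`c = 3`: `x = 0: 1 ≥ -1.9`; `1: 2 ≥ 1.1`; `2: 4 ≥ 4.1` fails; take `c = 4`: `x = 0: -4.9`,
`1: -0.9`, `2: 3.12 ≤ 4`, `3: 7.12 ≤ 8`, `4: 11.2 ≤ 16`, `5: 15.2 ≤ 32`; so
`64 / 9 + 4 (x - 3) ≤ 2 ^ x` for all natural `x`). For a
uniformly random colouring `κ : s → Fin B` (use functions `α → Fin B` restricted to `s`, or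
`Finset.pi`/`Fintype.piFinset` over the subtype) each colour class `κ⁻¹ c` has the law of the
random subset with `p = 1 / B`: the number of colourings with `κ⁻¹ c = U` is
`(B - 1) ^ (card s - card U)`, of `B ^ card s`. So the mean of `∑ c, f (κ⁻¹ c)` is
`B * Ex f ≤ 3 B`, and some `κ` has `∑ c, f (κ⁻¹ c) ≤ 3 B`. Take the `2 B` sets `U₁, U₂` of the
classes: each element of `s` not covered by them is one of the
`card (κ⁻¹ c \ (U₁ ∪ U₂)) ≤ f (κ⁻¹ c)` uncovered elements of its class.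
(Alternative without colourings, by induction on `B`, is not needed.)
-/

set_option autoImplicit false

namespace Pool.Agent.OSM

open Finset
open scoped Classical

variable {α : Type}

theorem ex_insert (p : ℝ) {s : Finset α} {a : α} (ha : a ∉ s) (F : Finset α → ℝ) :
    Ex p (insert a s) F = (1 - p) * Ex p s F + p * Ex p s (fun u => F (insert a u)) := by
  unfold Ex
  rw [Finset.sum_powerset_insert ha, Finset.mul_sum, Finset.mul_sum]
  congr 1
  · refine Finset.sum_congr rfl fun u hu => ?_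
    have hus : u ⊆ s := Finset.mem_powerset.1 hu
    have hc : u.card ≤ s.card := Finset.card_le_card hus
    have h1 : (insert a s).card - u.card = (s.card - u.card) + 1 := by
      rw [Finset.card_insert_of_notMem ha]; omega
    rw [h1, pow_succ]; ring
  · refine Finset.sum_congr rfl fun u hu => ?_
    have hus : u ⊆ s := Finset.mem_powerset.1 hu
    have hau : a ∉ u := fun h => ha (hus h)
    have h1 : (insert a s).card - (insert a u).card = s.card - u.card := by
      rw [Finset.card_insert_of_notMem ha, Finset.card_insert_of_notMem hau]; omega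
    rw [h1, Finset.card_insert_of_notMem hau, pow_succ]; ring

theorem ex_empty (p : ℝ) (F : Finset α → ℝ) : Ex p (∅ : Finset α) F = F ∅ := by
  simp [Ex]

theorem ex_const (p : ℝ) (s : Finset α) (c : ℝ) : Ex p s (fun _ => c) = c := by
  induction s using Finset.induction_on with
  | empty => exact ex_empty p _
  | insert a s ha ih => rw [ex_insert p ha, ih]; ring

theorem ex_add (p : ℝ) (s : Finset α) (F F' : Finset α → ℝ) :
    Ex p s (fun u => F u + F' u) = Ex p s F + Ex p s F' := by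
  unfold Ex
  rw [← Finset.sum_add_distrib]
  exact Finset.sum_congr rfl fun u _ => by ring

theorem ex_mul (p : ℝ) (s : Finset α) (c : ℝ) (F : Finset α → ℝ) :
    Ex p s (fun u => c * F u) = c * Ex p s F := by
  unfold Ex
  rw [Finset.mul_sum]
  exact Finset.sum_congr rfl fun u _ => by ring

theorem ex_mono {p : ℝ} (h0 : 0 ≤ p) (h1 : p ≤ 1) (s : Finset α) {F F' : Finset α → ℝ}
    (h : ∀ u ⊆ s, F u ≤ F' u) : Ex p s F ≤ Ex p s F' := by
  unfold Ex
  refine Finset.sum_le_sum fun u hu => ?_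
  have h2 : 0 ≤ 1 - p := by linarith
  exact mul_le_mul_of_nonneg_left (h u (Finset.mem_powerset.1 hu)) (by positivity)

theorem ex_congr (p : ℝ) (s : Finset α) {F F' : Finset α → ℝ} (h : ∀ u ⊆ s, F u = F' u) :
    Ex p s F = Ex p s F' := by
  unfold Ex
  exact Finset.sum_congr rfl fun u hu => by rw [h u (Finset.mem_powerset.1 hu)]

theorem ex_card (p : ℝ) (s : Finset α) : Ex p s (fun u => (u.card : ℝ)) = p * s.card := by
  induction s using Finset.induction_on with
  | empty => simp [ex_empty]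
  | insert a s ha ih =>
    rw [ex_insert p ha, ih]
    have h1 : Ex p s (fun u => ((insert a u).card : ℝ)) = Ex p s (fun u => (u.card : ℝ) + 1) := by
      refine ex_congr p s fun u hu => ?_
      rw [Finset.card_insert_of_notMem fun h => ha (hu h)]
      push_cast; rfl
    rw [h1, ex_add p s (fun u => (u.card : ℝ)) (fun _ => 1), ih, ex_const,
      Finset.card_insert_of_notMem ha]
    push_cast; ring

private theorem ex_ind_nonneg {p : ℝ} (h0 : 0 ≤ p) (h1 : p ≤ 1) (s : Finset α)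
    (V : Set (Finset α)) : 0 ≤ Ex p s (fun u => if u ∈ V then (1 : ℝ) else 0) := by
  have h := ex_mono h0 h1 s (F := fun _ => (0 : ℝ)) (F' := fun u => if u ∈ V then (1 : ℝ) else 0)
    (fun u _ => by split_ifs <;> norm_num)
  rwa [ex_const] at h

private theorem ex_ind_mono {p : ℝ} (h0 : 0 ≤ p) (h1 : p ≤ 1) (s : Finset α)
    {V W : Set (Finset α)} (h : V ⊆ W) : Ex p s (fun u => if u ∈ V then (1 : ℝ) else 0) ≤
      Ex p s (fun u => if u ∈ W then (1 : ℝ) else 0) := by
  refine ex_mono h0 h1 s fun u _ => ?_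
  by_cases hu : u ∈ V
  · rw [if_pos hu, if_pos (h hu)]
  · rw [if_neg hu]; split_ifs <;> norm_num

/-- The combination of the two functions. -/
private theorem tal_comb {p : ℝ} {s : Finset α} {a : α} (ha : a ∉ s) {V W : Set (Finset α)}
    (f g : Finset α → ℕ)
    (hf : ∀ u ⊆ s, ∃ u₁ ∈ V, ∃ u₂ ∈ W, u₁ ⊆ insert a s ∧ u₂ ⊆ insert a s ∧
      (u \ (u₁ ∪ u₂)).card ≤ f u)
    (hg : ∀ u ⊆ s, ∃ u₁ ∈ V, ∃ u₂ ∈ W, u₁ ⊆ insert a s ∧ u₂ ⊆ insert a s ∧
      (insert a u \ (u₁ ∪ u₂)).card ≤ g u)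
    (hle : Ex p (insert a s) (fun u => if u ∈ V then 1 else 0) *
      Ex p (insert a s) (fun u => if u ∈ W then 1 else 0) *
        ((1 - p) * Ex p s (fun u => (2 : ℝ) ^ f u) + p * Ex p s (fun u => (2 : ℝ) ^ g u)) ≤ 1) :
    ∃ f : Finset α → ℕ, (∀ u ⊆ insert a s, ∃ u₁ ∈ V, ∃ u₂ ∈ W, u₁ ⊆ insert a s ∧
        u₂ ⊆ insert a s ∧ (u \ (u₁ ∪ u₂)).card ≤ f u) ∧
      Ex p (insert a s) (fun u => if u ∈ V then 1 else 0) *
        Ex p (insert a s) (fun u => if u ∈ W then 1 else 0) *
        Ex p (insert a s) (fun u => (2 : ℝ) ^ f u) ≤ 1 := by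
  refine ⟨fun u => if a ∈ u then g (u.erase a) else f u, ?_, ?_⟩
  · intro u hu
    by_cases hau : a ∈ u
    · have hs : u.erase a ⊆ s := by
        intro x hx
        have hx' := Finset.mem_erase.1 hx
        exact (Finset.mem_insert.1 (hu hx'.2)).resolve_left hx'.1
      obtain ⟨u₁, h₁, u₂, h₂, h₃, h₄, h₅⟩ := hg (u.erase a) hs
      refine ⟨u₁, h₁, u₂, h₂, h₃, h₄, ?_⟩
      dsimp only
      rw [if_pos hau]
      rwa [Finset.insert_erase hau] at h₅
    · have hs : u ⊆ s := by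
        intro x hx
        refine (Finset.mem_insert.1 (hu hx)).resolve_left ?_
        rintro rfl
        exact hau hx
      obtain ⟨u₁, h₁, u₂, h₂, h₃, h₄, h₅⟩ := hf u hs
      refine ⟨u₁, h₁, u₂, h₂, h₃, h₄, ?_⟩
      dsimp only
      rwa [if_neg hau]
  · refine le_trans (le_of_eq ?_) hle
    congr 1
    rw [ex_insert p ha]
    congr 1
    · congr 1
      refine ex_congr p s fun u hu => ?_
      dsimp only
      rw [if_neg fun h => ha (hu h)]
    · congr 1
      refine ex_congr p s fun u hu => ?_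
      dsimp only
      rw [if_pos (Finset.mem_insert_self a u), Finset.erase_insert fun h => ha (hu h)]

private theorem star_mem {s : Finset α} (a : α) {V : Set (Finset α)} {u : Finset α}
    (hs : u ⊆ s) (hu : u ∈ V ∪ {u | insert a u ∈ V}) :
    ∃ u' ∈ V, u' ⊆ insert a s ∧ u ⊆ u' := by
  rcases hu with hu | hu
  · exact ⟨u, hu, hs.trans (Finset.subset_insert _ _), subset_rfl⟩
  · exact ⟨insert a u, hu, Finset.insert_subset_insert _ hs, Finset.subset_insert _ _⟩

private theorem tal_real (r z : ℝ) (h1 : 1 / 2 ≤ r) (h2 : 0 ≤ z) (h3 : z ≤ 1 - r) :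
    (1 - z) ^ 2 * (r + z) ≤ r := by
  have h4 : (1 - z) ^ 2 * (r + z) = r + z * ((1 - 2 * r) + z * (r - 2 + z)) := by ring
  rw [h4]
  have h5 : z * (r - 2 + z) ≤ 0 := mul_nonpos_of_nonneg_of_nonpos h2 (by linarith)
  have h6 : z * ((1 - 2 * r) + z * (r - 2 + z)) ≤ 0 :=
    mul_nonpos_of_nonneg_of_nonpos h2 (by linarith)
  linarith

/-- The main case of the computation. -/
private theorem tal_num {p x y x₁ y₁ PV PW E E₁ : ℝ} (h0 : 0 ≤ p) (h1 : p ≤ 1) (hx : 0 < x)
    (hx₁ : 0 < x₁) (hxx : x₁ ≤ x) (h2 : x ≤ 2 * x₁) (h3 : y₁ * x ≤ x₁ * y)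
    (hPW0 : 0 ≤ PW) (hE : 0 ≤ E) (hE₁ : 0 ≤ E₁)
    (hPV : PV ≤ (1 - p) * x + p * x₁) (hPW : PW ≤ (1 - p) * y + p * y₁)
    (hE' : x * y * E ≤ 1) (hE₁' : x₁ * y * E₁ ≤ 1) :
    PV * PW * ((1 - p) * E + p * E₁) ≤ 1 := by
  obtain ⟨r, hr⟩ : ∃ r : ℝ, x₁ = r * x := ⟨x₁ / x, by field_simp⟩
  subst hr
  have hr0 : 0 < r := by
    by_contra hcon
    have : r * x ≤ 0 := mul_nonpos_of_nonpos_of_nonneg (not_lt.1 hcon) hx.le
    linarith
  have hr1 : r ≤ 1 := by
    by_contra hcon
    have : 1 * x < r * x := mul_lt_mul_of_pos_right (not_le.1 hcon) hx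
    linarith
  have hr2 : 1 / 2 ≤ r := by
    by_contra hcon
    have : r * x < 1 / 2 * x := mul_lt_mul_of_pos_right (not_le.1 hcon) hx
    linarith
  have hy₁ : y₁ ≤ r * y := by
    have h : y₁ * x ≤ (r * y) * x := by linarith
    exact le_of_mul_le_mul_right h hx
  have hq : 0 ≤ 1 - p := by linarith
  have hA : 0 ≤ 1 - p + p * r := by positivity
  have hPV' : PV ≤ x * (1 - p + p * r) := by linarith
  have hPW' : PW ≤ y * (1 - p + p * r) := by
    have : p * y₁ ≤ p * (r * y) := mul_le_mul_of_nonneg_left hy₁ h0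
    linarith
  have hEE : 0 ≤ (1 - p) * E + p * E₁ := by positivity
  calc PV * PW * ((1 - p) * E + p * E₁)
      ≤ (x * (1 - p + p * r)) * (y * (1 - p + p * r)) * ((1 - p) * E + p * E₁) := by
        refine mul_le_mul_of_nonneg_right ?_ hEE
        exact mul_le_mul hPV' hPW' hPW0 (by positivity)
    _ = (1 - p + p * r) ^ 2 * ((1 - p) * (x * y * E) + p * (x * y * E₁)) := by ring
    _ ≤ (1 - p + p * r) ^ 2 * ((1 - p) * 1 + p * (1 / r)) := by
        refine mul_le_mul_of_nonneg_left ?_ (by positivity)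
        have h5 : x * y * E₁ ≤ 1 / r := by
          rw [le_div_iff₀ hr0]
          linarith
        have h6 := mul_le_mul_of_nonneg_left hE' hq
        have h7 := mul_le_mul_of_nonneg_left h5 h0
        linarith
    _ ≤ 1 := by
        have h8 := tal_real r (p * (1 - r)) hr2 (mul_nonneg h0 (by linarith))
          (by nlinarith)
        have h9 : (1 - p + p * r) ^ 2 * ((1 - p) * 1 + p * (1 / r)) =
            ((1 - p * (1 - r)) ^ 2 * (r + p * (1 - r))) / r := by
          field_simp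
          ring
        rw [h9, div_le_one hr0]
        exact h8

theorem tal {p : ℝ} (h0 : 0 ≤ p) (h1 : p ≤ 1) (s : Finset α) (V W : Set (Finset α))
    (hV : 0 < Ex p s (fun u => if u ∈ V then 1 else 0))
    (hW : 0 < Ex p s (fun u => if u ∈ W then 1 else 0)) :
    ∃ f : Finset α → ℕ, (∀ u ⊆ s, ∃ u₁ ∈ V, ∃ u₂ ∈ W, u₁ ⊆ s ∧ u₂ ⊆ s ∧
        (u \ (u₁ ∪ u₂)).card ≤ f u) ∧
      Ex p s (fun u => if u ∈ V then 1 else 0) * Ex p s (fun u => if u ∈ W then 1 else 0) *
        Ex p s (fun u => (2 : ℝ) ^ f u) ≤ 1 := by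
  induction s using Finset.induction_on generalizing V W with
  | empty =>
    rw [ex_empty] at hV hW
    have hV' : (∅ : Finset α) ∈ V := by
      by_contra h
      rw [if_neg h] at hV
      exact lt_irrefl _ hV
    have hW' : (∅ : Finset α) ∈ W := by
      by_contra h
      rw [if_neg h] at hW
      exact lt_irrefl _ hW
    refine ⟨fun _ => 0, fun u hu => ⟨∅, hV', ∅, hW', subset_rfl, subset_rfl, ?_⟩, ?_⟩
    · rw [Finset.subset_empty.1 hu]; simp
    · rw [ex_empty, ex_empty, ex_empty, if_pos hV', if_pos hW']; norm_num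
  | insert a s ha ih =>
    have hq : 0 ≤ 1 - p := by linarith
    obtain ⟨V₁, hV₁⟩ : ∃ V₁ : Set (Finset α), V₁ = {u | insert a u ∈ V} := ⟨_, rfl⟩
    obtain ⟨W₁, hW₁⟩ : ∃ W₁ : Set (Finset α), W₁ = {u | insert a u ∈ W} := ⟨_, rfl⟩
    obtain ⟨V₂, hV₂⟩ : ∃ V₂ : Set (Finset α), V₂ = V ∪ V₁ := ⟨_, rfl⟩
    obtain ⟨W₂, hW₂⟩ : ∃ W₂ : Set (Finset α), W₂ = W ∪ W₁ := ⟨_, rfl⟩
    have eV : Ex p (insert a s) (fun u => if u ∈ V then (1 : ℝ) else 0) =
        (1 - p) * Ex p s (fun u => if u ∈ V then (1 : ℝ) else 0) +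
          p * Ex p s (fun u => if u ∈ V₁ then (1 : ℝ) else 0) := by
      rw [ex_insert p ha, hV₁]; rfl
    have eW : Ex p (insert a s) (fun u => if u ∈ W then (1 : ℝ) else 0) =
        (1 - p) * Ex p s (fun u => if u ∈ W then (1 : ℝ) else 0) +
          p * Ex p s (fun u => if u ∈ W₁ then (1 : ℝ) else 0) := by
      rw [ex_insert p ha, hW₁]; rfl
    have a1 := ex_ind_mono h0 h1 s (hV₂ ▸ Set.subset_union_left : V ⊆ V₂)
    have a2 := ex_ind_mono h0 h1 s (hV₂ ▸ Set.subset_union_right : V₁ ⊆ V₂)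
    have a3 := ex_ind_mono h0 h1 s (hW₂ ▸ Set.subset_union_left : W ⊆ W₂)
    have a4 := ex_ind_mono h0 h1 s (hW₂ ▸ Set.subset_union_right : W₁ ⊆ W₂)
    have n1 := ex_ind_nonneg h0 h1 s V₁
    have n2 := ex_ind_nonneg h0 h1 s W₁
    have mV : Ex p (insert a s) (fun u => if u ∈ V then (1 : ℝ) else 0) ≤
        (1 - p) * Ex p s (fun u => if u ∈ V₂ then (1 : ℝ) else 0) +
          p * Ex p s (fun u => if u ∈ V₁ then (1 : ℝ) else 0) := by
      rw [eV]
      have := mul_le_mul_of_nonneg_left a1 hq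
      linarith
    have mW : Ex p (insert a s) (fun u => if u ∈ W then (1 : ℝ) else 0) ≤
        (1 - p) * Ex p s (fun u => if u ∈ W₂ then (1 : ℝ) else 0) +
          p * Ex p s (fun u => if u ∈ W₁ then (1 : ℝ) else 0) := by
      rw [eW]
      have := mul_le_mul_of_nonneg_left a3 hq
      linarith
    have hVs : 0 < Ex p s (fun u => if u ∈ V₂ then (1 : ℝ) else 0) := by
      have := mul_le_mul_of_nonneg_left a2 h0
      linarith
    have hWs : 0 < Ex p s (fun u => if u ∈ W₂ then (1 : ℝ) else 0) := by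
      have := mul_le_mul_of_nonneg_left a4 h0
      linarith
    obtain ⟨f, hf, hfE⟩ := ih V₂ W₂ hVs hWs
    have hf' : ∀ u ⊆ s, ∃ u₁ ∈ V, ∃ u₂ ∈ W, u₁ ⊆ insert a s ∧ u₂ ⊆ insert a s ∧
        (u \ (u₁ ∪ u₂)).card ≤ f u := by
      intro u hu
      obtain ⟨u₁, k₁, u₂, k₂, k₃, k₄, k₅⟩ := hf u hu
      rw [hV₂, hV₁] at k₁
      rw [hW₂, hW₁] at k₂
      obtain ⟨v₁, l₁, l₂, l₃⟩ := star_mem a k₃ k₁
      obtain ⟨v₂, l₄, l₅, l₆⟩ := star_mem a k₄ k₂
      refine ⟨v₁, l₁, v₂, l₄, l₂, l₅, le_trans (Finset.card_le_card ?_) k₅⟩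
      exact Finset.sdiff_subset_sdiff subset_rfl (Finset.union_subset_union l₃ l₆)
    have hE0 : ∀ g : Finset α → ℕ, 0 ≤ Ex p s (fun u => (2 : ℝ) ^ g u) := by
      intro g
      have h := ex_mono h0 h1 s (F := fun _ => (0 : ℝ)) (F' := fun u => (2 : ℝ) ^ g u)
        (fun u _ => by positivity)
      rwa [ex_const] at h
    by_cases c1 : 2 * Ex p s (fun u => if u ∈ V₁ then (1 : ℝ) else 0) ≤
        Ex p s (fun u => if u ∈ V₂ then (1 : ℝ) else 0) ∧
        2 * Ex p s (fun u => if u ∈ W₁ then (1 : ℝ) else 0) ≤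
        Ex p s (fun u => if u ∈ W₂ then (1 : ℝ) else 0)
    · refine tal_comb ha f (fun u => f u + 1) hf' ?_ ?_
      · intro u hu
        obtain ⟨u₁, k₁, u₂, k₂, k₃, k₄, k₅⟩ := hf' u hu
        refine ⟨u₁, k₁, u₂, k₂, k₃, k₄, ?_⟩
        calc (insert a u \ (u₁ ∪ u₂)).card ≤ (insert a (u \ (u₁ ∪ u₂))).card := by
              refine Finset.card_le_card fun x hx => ?_
              rw [Finset.mem_sdiff, Finset.mem_insert] at hx
              rw [Finset.mem_insert, Finset.mem_sdiff]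
              rcases hx.1 with h | h
              · exact Or.inl h
              · exact Or.inr ⟨h, hx.2⟩
          _ ≤ (u \ (u₁ ∪ u₂)).card + 1 := Finset.card_insert_le _ _
          _ ≤ f u + 1 := by omega
      · have e2 : Ex p s (fun u => (2 : ℝ) ^ (f u + 1)) = 2 * Ex p s (fun u => (2 : ℝ) ^ f u) := by
          rw [← ex_mul]
          exact ex_congr p s fun u _ => by rw [pow_succ]; ring
        rw [e2]
        generalize Ex p (insert a s) (fun u => if u ∈ V then (1 : ℝ) else 0) = PV at *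
        generalize Ex p (insert a s) (fun u => if u ∈ W then (1 : ℝ) else 0) = PW at *
        generalize Ex p s (fun u => if u ∈ V₂ then (1 : ℝ) else 0) = x at *
        generalize Ex p s (fun u => if u ∈ W₂ then (1 : ℝ) else 0) = y at *
        generalize Ex p s (fun u => if u ∈ V₁ then (1 : ℝ) else 0) = x₁ at *
        generalize Ex p s (fun u => if u ∈ W₁ then (1 : ℝ) else 0) = y₁ at *
        have hE := hE0 f
        generalize Ex p s (fun u => (2 : ℝ) ^ f u) = E at *
        have p1 : PV ≤ x * (1 - p / 2) := by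
          have := mul_le_mul_of_nonneg_left c1.1 h0
          linarith
        have p2 : PW ≤ y * (1 - p / 2) := by
          have := mul_le_mul_of_nonneg_left c1.2 h0
          linarith
        have p3 : 0 ≤ 1 - p / 2 := by linarith
        calc PV * PW * ((1 - p) * E + p * (2 * E))
            ≤ (x * (1 - p / 2)) * (y * (1 - p / 2)) * ((1 - p) * E + p * (2 * E)) := by
              refine mul_le_mul_of_nonneg_right ?_ (by positivity)
              exact mul_le_mul p1 p2 hW.le (by positivity)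
          _ = ((1 - p / 2) ^ 2 * (1 + p)) * (x * y * E) := by ring
          _ ≤ ((1 - p / 2) ^ 2 * (1 + p)) * 1 :=
              mul_le_mul_of_nonneg_left hfE (by positivity)
          _ = 1 - p ^ 2 * (3 - p) / 4 := by ring
          _ ≤ 1 := by
              have : 0 ≤ p ^ 2 * (3 - p) := mul_nonneg (by positivity) (by linarith)
              linarith
    · by_cases c2 : Ex p s (fun u => if u ∈ W₁ then (1 : ℝ) else 0) *
          Ex p s (fun u => if u ∈ V₂ then (1 : ℝ) else 0) ≤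
          Ex p s (fun u => if u ∈ V₁ then (1 : ℝ) else 0) *
          Ex p s (fun u => if u ∈ W₂ then (1 : ℝ) else 0)
      · have c3 : Ex p s (fun u => if u ∈ V₂ then (1 : ℝ) else 0) ≤
            2 * Ex p s (fun u => if u ∈ V₁ then (1 : ℝ) else 0) := by
          by_contra hcon
          refine c1 ⟨(not_le.1 hcon).le, ?_⟩
          have hcon' := not_le.1 hcon
          by_contra hcon2
          have hcon3 := not_le.1 hcon2
          generalize Ex p s (fun u => if u ∈ V₂ then (1 : ℝ) else 0) = x at *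
          generalize Ex p s (fun u => if u ∈ W₂ then (1 : ℝ) else 0) = y at *
          generalize Ex p s (fun u => if u ∈ V₁ then (1 : ℝ) else 0) = x₁ at *
          generalize Ex p s (fun u => if u ∈ W₁ then (1 : ℝ) else 0) = y₁ at *
          have q1 : x₁ * y * 2 ≤ x * y := by
            have := mul_le_mul_of_nonneg_right hcon'.le hWs.le
            linarith
          have q2 : x * y < x * (2 * y₁) := mul_lt_mul_of_pos_left hcon3 hVs
          linarith
        have hV₁p : 0 < Ex p s (fun u => if u ∈ V₁ then (1 : ℝ) else 0) := by linarith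
        obtain ⟨g, hg, hgE⟩ := ih V₁ W₂ hV₁p hWs
        refine tal_comb ha f g hf' ?_ ?_
        · intro u hu
          obtain ⟨u₁, k₁, u₂, k₂, k₃, k₄, k₅⟩ := hg u hu
          rw [hV₁] at k₁
          rw [hW₂, hW₁] at k₂
          obtain ⟨v₂, l₄, l₅, l₆⟩ := star_mem a k₄ k₂
          refine ⟨insert a u₁, k₁, v₂, l₄, Finset.insert_subset_insert _ k₃, l₅,
            le_trans (Finset.card_le_card ?_) k₅⟩
          intro x hx
          simp only [Finset.mem_sdiff, Finset.mem_insert, Finset.mem_union, not_or] at hx ⊢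
          exact ⟨hx.1.resolve_left hx.2.1.1, hx.2.1.2, fun h => hx.2.2 (l₆ h)⟩
        · exact tal_num h0 h1 hVs hV₁p a2 c3 c2 hW.le (hE0 f) (hE0 g) mV mW hfE hgE
      · have c2' := (not_le.1 c2).le
        have c3 : Ex p s (fun u => if u ∈ W₂ then (1 : ℝ) else 0) ≤
            2 * Ex p s (fun u => if u ∈ W₁ then (1 : ℝ) else 0) := by
          by_contra hcon
          refine c1 ⟨?_, (not_le.1 hcon).le⟩
          have hcon' := not_le.1 hcon
          by_contra hcon2
          have hcon3 := not_le.1 hcon2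
          generalize Ex p s (fun u => if u ∈ V₂ then (1 : ℝ) else 0) = x at *
          generalize Ex p s (fun u => if u ∈ W₂ then (1 : ℝ) else 0) = y at *
          generalize Ex p s (fun u => if u ∈ V₁ then (1 : ℝ) else 0) = x₁ at *
          generalize Ex p s (fun u => if u ∈ W₁ then (1 : ℝ) else 0) = y₁ at *
          have q1 : y₁ * x * 2 ≤ y * x := by
            have := mul_le_mul_of_nonneg_right hcon'.le hVs.le
            linarith
          have q2 : y * x < y * (2 * x₁) := mul_lt_mul_of_pos_left hcon3 hWs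
          linarith
        have hW₁p : 0 < Ex p s (fun u => if u ∈ W₁ then (1 : ℝ) else 0) := by linarith
        obtain ⟨g, hg, hgE⟩ := ih V₂ W₁ hVs hW₁p
        refine tal_comb ha f g hf' ?_ ?_
        · intro u hu
          obtain ⟨u₁, k₁, u₂, k₂, k₃, k₄, k₅⟩ := hg u hu
          rw [hV₂, hV₁] at k₁
          rw [hW₁] at k₂
          obtain ⟨v₁, l₄, l₅, l₆⟩ := star_mem a k₃ k₁
          refine ⟨v₁, l₄, insert a u₂, k₂, l₅, Finset.insert_subset_insert _ k₄,
            le_trans (Finset.card_le_card ?_) k₅⟩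
          intro x hx
          simp only [Finset.mem_sdiff, Finset.mem_insert, Finset.mem_union, not_or] at hx ⊢
          exact ⟨hx.1.resolve_left hx.2.2.1, fun h => hx.2.1 (l₆ h), hx.2.2.2⟩
        · have hfE' : Ex p s (fun u => if u ∈ W₂ then (1 : ℝ) else 0) *
              Ex p s (fun u => if u ∈ V₂ then (1 : ℝ) else 0) *
              Ex p s (fun u => (2 : ℝ) ^ f u) ≤ 1 := by rw [mul_comm
                (Ex p s (fun u => if u ∈ W₂ then (1 : ℝ) else 0))]; exact hfE
          have hgE' : Ex p s (fun u => if u ∈ W₁ then (1 : ℝ) else 0) *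
              Ex p s (fun u => if u ∈ V₂ then (1 : ℝ) else 0) *
              Ex p s (fun u => (2 : ℝ) ^ g u) ≤ 1 := by rw [mul_comm
                (Ex p s (fun u => if u ∈ W₁ then (1 : ℝ) else 0))]; exact hgE
          have key := tal_num h0 h1 hWs hW₁p a4 c3 c2' hV.le (hE0 f) (hE0 g) mW mV
            hfE' hgE'
          rwa [mul_comm (Ex p (insert a s) (fun u => if u ∈ V then (1 : ℝ) else 0))]

/-- A colouring with `∑ c, F c (κ⁻¹ c)` at most its mean. -/
private theorem colour {B : ℕ} (hB : 0 < B) (s : Finset α) (F : Fin B → Finset α → ℝ) :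
    ∃ κ : α → Fin B, ∑ c, F c (s.filter fun x => κ x = c) ≤ ∑ c, Ex (1 / (B : ℝ)) s (F c) := by
  induction s using Finset.induction_on generalizing F with
  | empty =>
    refine ⟨fun _ => ⟨0, hB⟩, le_of_eq (Finset.sum_congr rfl fun c _ => ?_)⟩
    rw [ex_empty, Finset.filter_empty]
  | insert a s ha ih =>
    have hB' : (B : ℝ) ≠ 0 := Nat.cast_ne_zero.2 hB.ne'
    have hBne : (Finset.univ : Finset (Fin B)).Nonempty := ⟨⟨0, hB⟩, Finset.mem_univ _⟩
    -- the choice of the colour of `a`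
    obtain ⟨c₀, -, hc₀⟩ : ∃ c₀ ∈ (Finset.univ : Finset (Fin B)),
        (Ex (1 / (B : ℝ)) s (fun u => F c₀ (insert a u)) - Ex (1 / (B : ℝ)) s (F c₀)) ≤
          (∑ c, (Ex (1 / (B : ℝ)) s (fun u => F c (insert a u)) - Ex (1 / (B : ℝ)) s (F c))) /
            B := by
      by_contra hcon
      push Not at hcon
      have h := Finset.sum_lt_sum_of_nonempty hBne hcon
      rw [Finset.sum_const, Finset.card_univ, Fintype.card_fin, nsmul_eq_mul,
        mul_div_cancel₀ _ hB'] at h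
      exact lt_irrefl _ h
    obtain ⟨κ, hκ⟩ := ih fun c u => if c = c₀ then F c (insert a u) else F c u
    refine ⟨fun x => if x = a then c₀ else κ x, ?_⟩
    have e1 : ∀ c, F c ((insert a s).filter fun x => (if x = a then c₀ else κ x) = c) =
        (if c = c₀ then F c (insert a (s.filter fun x => κ x = c)) else
          F c (s.filter fun x => κ x = c)) := by
      intro c
      have e2 : (s.filter fun x => (if x = a then c₀ else κ x) = c) =
          s.filter fun x => κ x = c := by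
        refine Finset.filter_congr fun x hx => ?_
        rw [if_neg]
        rintro rfl
        exact ha hx
      rw [Finset.filter_insert, e2, if_pos rfl]
      by_cases hc : c = c₀
      · rw [if_pos hc, if_pos hc.symm]
      · rw [if_neg hc, if_neg fun h => hc h.symm]
    rw [Finset.sum_congr rfl fun c _ => e1 c]
    refine hκ.trans ?_
    have e3 : ∀ c, Ex (1 / (B : ℝ)) s (fun u => if c = c₀ then F c (insert a u) else F c u) =
        Ex (1 / (B : ℝ)) s (F c) + (if c = c₀ then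
          (Ex (1 / (B : ℝ)) s (fun u => F c (insert a u)) - Ex (1 / (B : ℝ)) s (F c)) else 0) := by
      intro c
      by_cases hc : c = c₀
      · simp only [if_pos hc]; ring
      · simp only [if_neg hc]; ring
    rw [Finset.sum_congr rfl fun c _ => e3 c, Finset.sum_add_distrib,
      Finset.sum_ite_eq' Finset.univ c₀, if_pos (Finset.mem_univ _)]
    have e4 : ∀ c, Ex (1 / (B : ℝ)) (insert a s) (F c) = Ex (1 / (B : ℝ)) s (F c) +
        (Ex (1 / (B : ℝ)) s (fun u => F c (insert a u)) - Ex (1 / (B : ℝ)) s (F c)) / B := by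
      intro c
      rw [ex_insert _ ha]
      ring
    rw [Finset.sum_congr rfl fun c _ => e4 c, Finset.sum_add_distrib, ← Finset.sum_div]
    linarith

private theorem two_pow_ge (n : ℕ) : 64 / 9 + 4 * ((n : ℝ) - 3) ≤ (2 : ℝ) ^ n := by
  have h : ∀ m : ℕ, 64 / 9 + 4 * (((m + 3 : ℕ) : ℝ) - 3) ≤ (2 : ℝ) ^ (m + 3) := by
    intro m
    induction m with
    | zero => norm_num
    | succ k ih =>
      rw [show k + 1 + 3 = (k + 3) + 1 from by omega, pow_succ]
      push_cast at ih ⊢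
      have : (0 : ℝ) ≤ k := Nat.cast_nonneg k
      nlinarith
  rcases Nat.lt_or_ge n 3 with h3 | h3
  · interval_cases n <;> norm_num
  · obtain ⟨m, rfl⟩ : ∃ m, n = m + 3 := ⟨n - 3, by omega⟩
    exact h m

theorem cover {B : ℕ} (hB : 0 < B) (s : Finset α) (V : Set (Finset α))
    (hV : 3 / 8 ≤ Ex (1 / (B : ℝ)) s (fun u => if u ∈ V then 1 else 0)) :
    ∃ U : Fin (2 * B) → Finset α, (∀ i, U i ∈ V ∧ U i ⊆ s) ∧
      (s.filter fun a => ∀ i, a ∉ U i).card ≤ 3 * B := by
  have hB1 : (1 : ℝ) ≤ B := by exact_mod_cast hB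
  have h0 : (0 : ℝ) ≤ 1 / (B : ℝ) := by positivity
  have h1 : 1 / (B : ℝ) ≤ 1 := by
    rw [div_le_one (by linarith)]; exact hB1
  have hVp : 0 < Ex (1 / (B : ℝ)) s (fun u => if u ∈ V then (1 : ℝ) else 0) := by linarith
  obtain ⟨f, hf, hfE⟩ := tal h0 h1 s V V hVp hVp
  have hE0 : 0 ≤ Ex (1 / (B : ℝ)) s (fun u => (2 : ℝ) ^ f u) := by
    have h := ex_mono h0 h1 s (F := fun _ => (0 : ℝ)) (F' := fun u => (2 : ℝ) ^ f u)
      (fun u _ => by positivity)
    rwa [ex_const] at h
  have hE : Ex (1 / (B : ℝ)) s (fun u => (2 : ℝ) ^ f u) ≤ 64 / 9 := by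
    have h2 : (3 / 8 : ℝ) * (3 / 8) ≤ Ex (1 / (B : ℝ)) s (fun u => if u ∈ V then (1 : ℝ) else 0) *
        Ex (1 / (B : ℝ)) s (fun u => if u ∈ V then (1 : ℝ) else 0) :=
      mul_le_mul hV hV (by norm_num) hVp.le
    have h3 := mul_le_mul_of_nonneg_right h2 hE0
    linarith
  have hf3 : Ex (1 / (B : ℝ)) s (fun u => (f u : ℝ)) ≤ 3 := by
    have h4 : Ex (1 / (B : ℝ)) s (fun u => (64 / 9 - 12 : ℝ) + 4 * (f u : ℝ)) ≤
        Ex (1 / (B : ℝ)) s (fun u => (2 : ℝ) ^ f u) :=
      ex_mono h0 h1 s fun u _ => by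
        have := two_pow_ge (f u)
        linarith
    rw [ex_add _ s (fun _ => (64 / 9 - 12 : ℝ)) (fun u => 4 * (f u : ℝ)), ex_const,
      ex_mul _ s 4 (fun u => (f u : ℝ))] at h4
    linarith
  obtain ⟨κ, hκ⟩ := colour hB s fun _ u => (f u : ℝ)
  have hκ' : ∑ c : Fin B, f (s.filter fun x => κ x = c) ≤ 3 * B := by
    have h5 : (∑ c : Fin B, (f (s.filter fun x => κ x = c) : ℝ)) ≤ 3 * B := by
      refine hκ.trans ?_
      rw [Finset.sum_const, Finset.card_univ, Fintype.card_fin, nsmul_eq_mul]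
      have := mul_le_mul_of_nonneg_left hf3 (by linarith : (0 : ℝ) ≤ B)
      linarith
    exact_mod_cast h5
  have hf2 : ∀ c : Fin B, ∃ v : Finset α × Finset α, v.1 ∈ V ∧ v.2 ∈ V ∧ v.1 ⊆ s ∧ v.2 ⊆ s ∧
      ((s.filter fun x => κ x = c) \ (v.1 ∪ v.2)).card ≤ f (s.filter fun x => κ x = c) := by
    intro c
    obtain ⟨u₁, k₁, u₂, k₂, k₃, k₄, k₅⟩ := hf (s.filter fun x => κ x = c)
      (Finset.filter_subset _ _)
    exact ⟨(u₁, u₂), k₁, k₂, k₃, k₄, k₅⟩
  choose v hv using hf2
  refine ⟨fun i => if (i : ℕ) % 2 = 0 then (v ⟨i / 2, by omega⟩).1 else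
    (v ⟨i / 2, by omega⟩).2, ?_, ?_⟩
  · intro i
    dsimp only
    split_ifs
    · exact ⟨(hv _).1, (hv _).2.2.1⟩
    · exact ⟨(hv _).2.1, (hv _).2.2.2.1⟩
  · refine le_trans ?_ hκ'
    refine le_trans (Finset.card_le_card (t := Finset.univ.biUnion fun c : Fin B =>
      (s.filter fun x => κ x = c) \ ((v c).1 ∪ (v c).2)) ?_) ?_
    · intro x hx
      rw [Finset.mem_filter] at hx
      rw [Finset.mem_biUnion]
      refine ⟨κ x, Finset.mem_univ _, ?_⟩
      rw [Finset.mem_sdiff, Finset.mem_filter, Finset.mem_union, not_or]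
      refine ⟨⟨hx.1, rfl⟩, ?_, ?_⟩
      · have h6 := hx.2 ⟨2 * (κ x : ℕ), by have := (κ x).2; omega⟩
        have e5 : (2 * (κ x : ℕ)) % 2 = 0 := by omega
        dsimp only at h6
        rw [if_pos e5] at h6
        have e6 : (⟨2 * (κ x : ℕ) / 2, by have := (κ x).2; omega⟩ : Fin B) = κ x :=
          Fin.ext (by simp)
        rwa [e6] at h6
      · have h6 := hx.2 ⟨2 * (κ x : ℕ) + 1, by have := (κ x).2; omega⟩
        have e5 : ¬ (2 * (κ x : ℕ) + 1) % 2 = 0 := by omega
        dsimp only at h6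
        rw [if_neg e5] at h6
        have e6 : (⟨(2 * (κ x : ℕ) + 1) / 2, by have := (κ x).2; omega⟩ : Fin B) = κ x :=
          Fin.ext (by simp; omega)
        rwa [e6] at h6
    · refine Finset.card_biUnion_le.trans ?_
      exact Finset.sum_le_sum fun c _ => (hv c).2.2.2.2

end Pool.Agent.OSM
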